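import Pool.Agent.Work.RG.Defs

/-!
# MP_004c3d_co : proportions of labelled graphs
-/

namespace Pool.RG

open Finset

variable {n : ℕ}

lemma cardG_pos : (0 : ℝ) < (Nat.card (SimpleGraph (Fin n)) : ℝ) := by
  have : 0 < Nat.card (SimpleGraph (Fin n)) := Nat.card_pos
  exact_mod_cast this

open Classical in
lemma pr_eq (P : SimpleGraph (Fin n) → Prop) :
    pr n P = ((univ.filter P).card : ℝ) / (Nat.card (SimpleGraph (Fin n)) : ℝ) := by
  unfold pr
  rw [Nat.card_eq_fintype_card, Fintype.card_subtype]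

/-- average over all labelled graphs -/
noncomputable def ex (n : ℕ) (f : SimpleGraph (Fin n) → ℝ) : ℝ :=
  (∑ G : SimpleGraph (Fin n), f G) / (Nat.card (SimpleGraph (Fin n)) : ℝ)

open Classical in
lemma pr_eq_ex (P : SimpleGraph (Fin n) → Prop) : pr n P = ex n (fun G => if P G then 1 else 0) := by
  rw [pr_eq, ex]
  congr 1
  rw [Finset.sum_ite, Finset.sum_const_zero, add_zero]
  simp

lemma ex_mono {f g : SimpleGraph (Fin n) → ℝ} (h : ∀ G, f G ≤ g G) : ex n f ≤ ex n g := by
  unfold ex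
  exact div_le_div_of_nonneg_right (Finset.sum_le_sum fun G _ => h G) cardG_pos.le

lemma ex_nonneg {f : SimpleGraph (Fin n) → ℝ} (h : ∀ G, 0 ≤ f G) : 0 ≤ ex n f :=
  div_nonneg (Finset.sum_nonneg fun G _ => h G) cardG_pos.le

lemma ex_sum {ι : Type*} (s : Finset ι) (f : ι → SimpleGraph (Fin n) → ℝ) :
    ex n (fun G => ∑ i ∈ s, f i G) = ∑ i ∈ s, ex n (f i) := by
  unfold ex
  rw [Finset.sum_comm, Finset.sum_div]

lemma ex_const_mul (c : ℝ) (f : SimpleGraph (Fin n) → ℝ) :
    ex n (fun G => c * f G) = c * ex n f := by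
  unfold ex
  rw [← Finset.mul_sum, mul_div_assoc]

lemma ex_add (f g : SimpleGraph (Fin n) → ℝ) :
    ex n (fun G => f G + g G) = ex n f + ex n g := by
  unfold ex
  rw [Finset.sum_add_distrib, add_div]

lemma ex_const (c : ℝ) : ex n (fun _ => c) = c := by
  unfold ex
  rw [Finset.sum_const, nsmul_eq_mul, Finset.card_univ, Nat.card_eq_fintype_card]
  have : (0 : ℝ) < (Fintype.card (SimpleGraph (Fin n)) : ℝ) := by
    have := cardG_pos (n := n)
    rwa [Nat.card_eq_fintype_card] at this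
  field_simp

lemma pr_nonneg (P : SimpleGraph (Fin n) → Prop) : 0 ≤ pr n P :=
  div_nonneg (Nat.cast_nonneg _) cardG_pos.le

lemma pr_mono {P Q : SimpleGraph (Fin n) → Prop} (h : ∀ G, P G → Q G) : pr n P ≤ pr n Q := by
  classical
  rw [pr_eq_ex, pr_eq_ex]
  apply ex_mono
  intro G
  by_cases hP : P G
  · simp [hP, h G hP]
  · simp only [hP, if_false]
    split_ifs <;> norm_num

lemma pr_congr {P Q : SimpleGraph (Fin n) → Prop} (h : ∀ G, P G ↔ Q G) : pr n P = pr n Q :=
  le_antisymm (pr_mono fun G => (h G).1) (pr_mono fun G => (h G).2)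

lemma pr_true : pr n (fun _ => True) = 1 := by
  classical
  rw [pr_eq_ex]
  simp [ex_const]

lemma pr_le_one (P : SimpleGraph (Fin n) → Prop) : pr n P ≤ 1 := by
  rw [← pr_true (n := n)]
  exact pr_mono fun _ _ => trivial

lemma pr_not (P : SimpleGraph (Fin n) → Prop) : pr n (fun G => ¬ P G) = 1 - pr n P := by
  classical
  have h : pr n P + pr n (fun G => ¬ P G) = 1 := by
    rw [pr_eq_ex, pr_eq_ex, ← ex_add]
    trans ex n (fun _ => (1 : ℝ))
    · congr 1
      ext G
      by_cases hP : P G <;> simp [hP]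
    · exact ex_const 1
  linarith

lemma pr_or_le (P Q : SimpleGraph (Fin n) → Prop) :
    pr n (fun G => P G ∨ Q G) ≤ pr n P + pr n Q := by
  classical
  rw [pr_eq_ex, pr_eq_ex, pr_eq_ex, ← ex_add]
  apply ex_mono
  intro G
  by_cases hP : P G <;> by_cases hQ : Q G <;> simp [hP, hQ]

lemma pr_exists_le {ι : Type*} (s : Finset ι) (P : ι → SimpleGraph (Fin n) → Prop) :
    pr n (fun G => ∃ i ∈ s, P i G) ≤ ∑ i ∈ s, pr n (P i) := by
  classical
  simp_rw [pr_eq_ex]
  rw [← ex_sum]
  apply ex_mono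
  intro G
  by_cases h : ∃ i ∈ s, P i G
  · simp only [h, if_true]
    obtain ⟨i, hi, hP⟩ := h
    calc (1 : ℝ) = if P i G then 1 else 0 := by simp [hP]
      _ ≤ ∑ i ∈ s, if P i G then (1 : ℝ) else 0 :=
          Finset.single_le_sum (f := fun i => if P i G then (1 : ℝ) else 0)
            (fun j _ => by split_ifs <;> norm_num) hi
  · simp only [h, if_false]
    exact Finset.sum_nonneg fun j _ => by split_ifs <;> norm_num

/-- Markov's inequality -/
lemma pr_ge_le {f : SimpleGraph (Fin n) → ℝ} (hf : ∀ G, 0 ≤ f G) {a : ℝ} (ha : 0 < a) :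
    pr n (fun G => a ≤ f G) ≤ ex n f / a := by
  classical
  rw [le_div_iff₀ ha, mul_comm, pr_eq_ex, ← ex_const_mul]
  apply ex_mono
  intro G
  by_cases h : a ≤ f G
  · simp [h]
  · simp [h, hf G]

/-! ### toggling an edge -/

/-- toggle the edge `e` -/
noncomputable def tog (e : Sym2 (Fin n)) (G : SimpleGraph (Fin n)) : SimpleGraph (Fin n) :=
  SimpleGraph.fromEdgeSet (symmDiff G.edgeSet {e})

lemma mem_tog {e : Sym2 (Fin n)} (he : ¬ e.IsDiag) (G : SimpleGraph (Fin n)) (e' : Sym2 (Fin n)) :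
    e' ∈ (tog e G).edgeSet ↔ (if e' = e then e' ∉ G.edgeSet else e' ∈ G.edgeSet) := by
  unfold tog
  rw [SimpleGraph.edgeSet_fromEdgeSet]
  by_cases h : e' = e
  · subst h
    simp [Set.mem_symmDiff, he]
  · simp only [h, if_false, Set.mem_sdiff, Set.mem_symmDiff, Set.mem_singleton_iff, not_false_eq_true,
      and_true, false_and, or_false, and_iff_left_iff_imp]
    intro hG
    exact SimpleGraph.not_isDiag_of_mem_edgeSet G hG

lemma tog_tog {e : Sym2 (Fin n)} (he : ¬ e.IsDiag) (G : SimpleGraph (Fin n)) :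
    tog e (tog e G) = G := by
  apply SimpleGraph.edgeSet_injective
  ext e'
  rw [mem_tog he, mem_tog he]
  by_cases h : e' = e <;> simp [h]

lemma pr_comp_tog {e : Sym2 (Fin n)} (he : ¬ e.IsDiag) (P : SimpleGraph (Fin n) → Prop) :
    pr n (fun G => P (tog e G)) = pr n P := by
  unfold pr
  congr 2
  apply Nat.card_congr
  refine ⟨fun G => ⟨tog e G.1, G.2⟩, fun G => ⟨tog e G.1, ?_⟩, ?_, ?_⟩
  · show P (tog e (tog e G.1))
    rw [tog_tog he]; exact G.2
  · intro G
    apply Subtype.ext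
    exact tog_tog he G.1
  · intro G
    apply Subtype.ext
    exact tog_tog he G.1

/-- the proportion of graphs with a prescribed pattern on a set `D` of edges -/
theorem pr_pattern (D : Finset (Sym2 (Fin n))) (hD : ∀ e ∈ D, ¬ e.IsDiag)
    (f : Sym2 (Fin n) → Prop) :
    pr n (fun G => ∀ e ∈ D, (e ∈ G.edgeSet ↔ f e)) = (1 / 2 : ℝ) ^ D.card := by
  classical
  induction D using Finset.induction_on with
  | empty => simp [pr_true]
  | insert e D he ih =>
    have hD' : ∀ e ∈ D, ¬ e.IsDiag := fun e' h => hD e' (Finset.mem_insert_of_mem h)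
    have hed : ¬ e.IsDiag := hD e (Finset.mem_insert_self e D)
    rw [Finset.card_insert_of_notMem he, pow_succ, ← ih hD']
    have h1 : pr n (fun G => ∀ e' ∈ insert e D, (e' ∈ G.edgeSet ↔ f e'))
        = pr n (fun G => (∀ e' ∈ D, (e' ∈ G.edgeSet ↔ f e')) ∧ ¬ (e ∈ G.edgeSet ↔ f e)) := by
      rw [← pr_comp_tog hed]
      apply pr_congr
      intro G
      rw [Finset.forall_mem_insert]
      rw [mem_tog hed]
      simp only [if_true]
      have h2 : (∀ x ∈ D, (x ∈ (tog e G).edgeSet ↔ f x)) ↔ ∀ x ∈ D, (x ∈ G.edgeSet ↔ f x) := by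
        constructor
        · intro h x hx
          have := h x hx
          rw [mem_tog hed] at this
          have hne : x ≠ e := fun h' => he (h' ▸ hx)
          simpa [hne] using this
        · intro h x hx
          rw [mem_tog hed]
          have hne : x ≠ e := fun h' => he (h' ▸ hx)
          simpa [hne] using h x hx
      rw [h2]
      tauto
    have h3 : pr n (fun G => ∀ e' ∈ insert e D, (e' ∈ G.edgeSet ↔ f e'))
        + pr n (fun G => (∀ e' ∈ D, (e' ∈ G.edgeSet ↔ f e')) ∧ ¬ (e ∈ G.edgeSet ↔ f e))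
        = pr n (fun G => ∀ e' ∈ D, (e' ∈ G.edgeSet ↔ f e')) := by
      rw [pr_eq_ex, pr_eq_ex, pr_eq_ex, ← ex_add]
      congr 1
      ext G
      rw [Finset.forall_mem_insert]
      by_cases h4 : (e ∈ G.edgeSet ↔ f e) <;>
        by_cases h5 : ∀ e' ∈ D, (e' ∈ G.edgeSet ↔ f e') <;> simp [h4, h5]
    linarith

/-- the proportion of graphs avoiding a set `D` of edges -/
theorem pr_absent (D : Finset (Sym2 (Fin n))) (hD : ∀ e ∈ D, ¬ e.IsDiag) :
    pr n (fun G => ∀ e ∈ D, e ∉ G.edgeSet) = (1 / 2 : ℝ) ^ D.card := by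
  rw [← pr_pattern D hD (fun _ => False)]
  apply pr_congr
  intro G
  simp

end Pool.RG
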