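import Pool.Agent.Work.RG.Basic

/-!
# MP_004c3d_co : concentration of the codegrees

The number of common neighbours of two vertices is a sum of independent `1/4`-indicators; its
moment generating function is computed by expanding `∏ (1 + (e^λ - 1) 1_v)` over subsets.
-/

namespace Pool.RG

open Finset

variable {n : ℕ}

/-- all the vertices except `u` and `w` -/
def oth (u w : Fin n) : Finset (Fin n) := (univ.erase u).erase w

lemma mem_oth {u w v : Fin n} : v ∈ oth u w ↔ v ≠ w ∧ v ≠ u := by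
  simp [oth]

lemma card_oth {u w : Fin n} (h : u ≠ w) : (oth u w).card + 2 = n := by
  have h1 : (univ.erase u : Finset (Fin n)).card + 1 = n := by
    rw [Finset.card_erase_add_one (Finset.mem_univ u)]; simp
  have h2 : (oth u w).card + 1 = (univ.erase u : Finset (Fin n)).card :=
    Finset.card_erase_add_one (by simp [h.symm])
  omega

open Classical in
lemma codeg_eq (G : SimpleGraph (Fin n)) (u w : Fin n) :
    codeg G u w = ((oth u w).filter (fun v => G.Adj u v ∧ G.Adj w v)).card := by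
  unfold codeg
  rw [Nat.card_eq_fintype_card, Fintype.card_subtype]
  congr 1
  ext v
  simp only [Finset.mem_filter, Finset.mem_univ, true_and, mem_oth]
  constructor
  · rintro ⟨h1, h2⟩
    exact ⟨⟨h2.ne', h1.ne'⟩, h1, h2⟩
  · rintro ⟨_, h⟩
    exact h

/-- all the vertices of `S` are common neighbours with probability `4^{-|S|}` -/
lemma pr_common {u w : Fin n} (h : u ≠ w) (S : Finset (Fin n)) (hS : S ⊆ oth u w) :
    pr n (fun G => ∀ v ∈ S, G.Adj u v ∧ G.Adj w v) = (1 / 4 : ℝ) ^ S.card := by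
  classical
  have hu : ∀ v ∈ S, v ≠ u := fun v hv => (mem_oth.1 (hS hv)).2
  have hw : ∀ v ∈ S, v ≠ w := fun v hv => (mem_oth.1 (hS hv)).1
  set D : Finset (Sym2 (Fin n)) := S.image (fun v => s(u, v)) ∪ S.image (fun v => s(w, v)) with hD
  have hcard : D.card = 2 * S.card := by
    rw [hD, Finset.card_union_of_disjoint, Finset.card_image_of_injOn, Finset.card_image_of_injOn]
    · ring
    · intro a ha b hb hab
      simp only [Sym2.eq_iff] at hab
      rcases hab with ⟨_, h1⟩ | ⟨h1, h2⟩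
      · exact h1
      · exact absurd h2 (hw a ha)
    · intro a ha b hb hab
      simp only [Sym2.eq_iff] at hab
      rcases hab with ⟨_, h1⟩ | ⟨h1, h2⟩
      · exact h1
      · exact absurd h2 (hu a ha)
    · rw [Finset.disjoint_left]
      intro e he he'
      rw [Finset.mem_image] at he he'
      obtain ⟨a, ha, rfl⟩ := he
      obtain ⟨b, hb, hab⟩ := he'
      simp only [Sym2.eq_iff] at hab
      rcases hab with ⟨h1, _⟩ | ⟨h1, h2⟩
      · exact h h1.symm
      · exact hu b hb h2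
  have h1 := pr_pattern (n := n) D (by
    intro e he
    rw [hD, Finset.mem_union, Finset.mem_image, Finset.mem_image] at he
    rcases he with ⟨a, ha, rfl⟩ | ⟨a, ha, rfl⟩
    · simpa using (hu a ha).symm
    · simpa using (hw a ha).symm) (fun _ => True)
  rw [hcard, pow_mul] at h1
  rw [show (1 / 4 : ℝ) = (1 / 2 : ℝ) ^ 2 by norm_num, ← h1]
  apply pr_congr
  intro G
  constructor
  · intro hG e he
    rw [hD, Finset.mem_union, Finset.mem_image, Finset.mem_image] at he
    rcases he with ⟨a, ha, rfl⟩ | ⟨a, ha, rfl⟩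
    · simpa using (hG a ha).1
    · simpa using (hG a ha).2
  · intro hG v hv
    have h2 := hG s(u, v) (by
      rw [hD]; exact Finset.mem_union_left _ (Finset.mem_image_of_mem _ hv))
    have h3 := hG s(w, v) (by
      rw [hD]; exact Finset.mem_union_right _ (Finset.mem_image_of_mem _ hv))
    simpa using And.intro h2 h3

/-- the moment generating function of the codegree -/
lemma ex_exp_codeg {u w : Fin n} (h : u ≠ w) (l : ℝ) :
    ex n (fun G => Real.exp (l * (codeg G u w : ℝ)))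
      = (1 + (Real.exp l - 1) / 4) ^ (oth u w).card := by
  classical
  have h1 : ∀ G : SimpleGraph (Fin n), Real.exp (l * (codeg G u w : ℝ))
      = ∑ S ∈ (oth u w).powerset, (Real.exp l - 1) ^ S.card *
          (if ∀ v ∈ S, G.Adj u v ∧ G.Adj w v then (1 : ℝ) else 0) := by
    intro G
    have h2 : Real.exp (l * (codeg G u w : ℝ))
        = ∏ v ∈ oth u w, (1 + (Real.exp l - 1) * (if G.Adj u v ∧ G.Adj w v then (1 : ℝ) else 0)) := by
      rw [codeg_eq, mul_comm, Real.exp_nat_mul, ← Finset.prod_const, Finset.prod_filter]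
      apply Finset.prod_congr rfl
      intro v _
      split_ifs <;> ring
    rw [h2, Finset.prod_one_add]
    apply Finset.sum_congr rfl
    intro S _
    rw [Finset.prod_mul_distrib, Finset.prod_const]
    congr 1
    by_cases hS : ∀ v ∈ S, G.Adj u v ∧ G.Adj w v
    · rw [if_pos hS]
      apply Finset.prod_eq_one
      intro v hv
      rw [if_pos (hS v hv)]
    · rw [if_neg hS]
      push Not at hS
      obtain ⟨v, hv, hv'⟩ := hS
      apply Finset.prod_eq_zero hv
      rw [if_neg]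
      rintro ⟨h3, h4⟩
      exact hv' h3 h4
  simp_rw [h1]
  rw [ex_sum]
  have h3 : ∀ S ∈ (oth u w).powerset,
      ex n (fun G => (Real.exp l - 1) ^ S.card *
          (if ∀ v ∈ S, G.Adj u v ∧ G.Adj w v then (1 : ℝ) else 0))
        = ∏ v ∈ S, ((Real.exp l - 1) / 4) := by
    intro S hS
    have h4 : ex n (fun G => (if ∀ v ∈ S, G.Adj u v ∧ G.Adj w v then (1 : ℝ) else 0))
        = pr n (fun G => ∀ v ∈ S, G.Adj u v ∧ G.Adj w v) := by
      rw [pr_eq_ex]
      unfold ex
      congr 1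
      apply Finset.sum_congr rfl
      intro G _
      by_cases hG : ∀ v ∈ S, G.Adj u v ∧ G.Adj w v
      · simp only [if_pos hG]
      · simp only [if_neg hG]
    rw [ex_const_mul, h4, pr_common h S (Finset.mem_powerset.1 hS), Finset.prod_const,
      ← mul_pow]
    congr 1
    ring
  rw [Finset.sum_congr rfl h3, ← Finset.prod_one_add, Finset.prod_const]

lemma ex_exp_codeg_le {u w : Fin n} (h : u ≠ w) (l : ℝ) (hl : |l| ≤ 1) :
    ex n (fun G => Real.exp (l * (codeg G u w : ℝ)))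
      ≤ Real.exp ((oth u w).card * (l / 4 + l ^ 2 / 4)) := by
  rw [ex_exp_codeg h, Real.exp_nat_mul]
  have h1 : Real.exp l - 1 ≤ l + l ^ 2 := by
    have := (abs_le.1 (Real.abs_exp_sub_one_sub_id_le hl)).2
    linarith
  have h0 : (0 : ℝ) ≤ 1 + (Real.exp l - 1) / 4 := by
    have := Real.exp_pos l
    linarith
  apply pow_le_pow_left₀ h0
  have h2 := Real.add_one_le_exp ((l + l ^ 2) / 4)
  calc 1 + (Real.exp l - 1) / 4 ≤ (l + l ^ 2) / 4 + 1 := by linarith
    _ ≤ Real.exp ((l + l ^ 2) / 4) := h2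
    _ = Real.exp (l / 4 + l ^ 2 / 4) := by congr 1; ring

/-- Chernoff bound in the form of a one-sided Markov inequality -/
lemma pr_codeg_le {u w : Fin n} (h : u ≠ w) (l a : ℝ) (hl : |l| ≤ 1) :
    pr n (fun G => a ≤ l * (codeg G u w : ℝ))
      ≤ Real.exp (-a + (oth u w).card * (l / 4 + l ^ 2 / 4)) := by
  have h1 : pr n (fun G => a ≤ l * (codeg G u w : ℝ))
      ≤ pr n (fun G => Real.exp a ≤ Real.exp (l * (codeg G u w : ℝ))) :=
    pr_mono fun G hG => Real.exp_le_exp.2 hG
  have h2 := pr_ge_le (n := n) (f := fun G => Real.exp (l * (codeg G u w : ℝ)))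
    (fun G => (Real.exp_pos _).le) (Real.exp_pos a)
  have h3 := ex_exp_codeg_le h l hl
  calc pr n (fun G => a ≤ l * (codeg G u w : ℝ)) ≤ _ := h1
    _ ≤ ex n (fun G => Real.exp (l * (codeg G u w : ℝ))) / Real.exp a := h2
    _ ≤ Real.exp ((oth u w).card * (l / 4 + l ^ 2 / 4)) / Real.exp a := by gcongr
    _ = _ := by rw [← Real.exp_sub]; congr 1; ring

/-- one pair of vertices -/
lemma pr_pair_le {u w : Fin n} (h : u ≠ w) (hn : 1 ≤ n) :
    pr n (fun G => (n : ℝ) ^ (3 / 4 : ℝ) < |(codeg G u w : ℝ) - (n : ℝ) / 4|)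
      ≤ 3 * Real.exp (-(3 / 4) * Real.sqrt n) := by
  have hn0 : (0 : ℝ) < n := by exact_mod_cast hn
  have hn1 : (1 : ℝ) ≤ n := by exact_mod_cast hn
  set l : ℝ := (n : ℝ) ^ (-(1 / 4) : ℝ) with hl
  have hl0 : 0 < l := Real.rpow_pos_of_pos hn0 _
  have hl1 : l ≤ 1 := Real.rpow_le_one_of_one_le_of_nonpos hn1 (by norm_num)
  set T : ℝ := (n : ℝ) ^ (3 / 4 : ℝ) with hT
  have hlT : l * T = Real.sqrt n := by
    rw [hl, hT, ← Real.rpow_add hn0, Real.sqrt_eq_rpow]; norm_num
  have hl2 : (n : ℝ) * l ^ 2 = Real.sqrt n := by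
    rw [hl, ← Real.rpow_natCast, ← Real.rpow_mul hn0.le, Real.sqrt_eq_rpow]
    nth_rewrite 1 [← Real.rpow_one (n : ℝ)]
    rw [← Real.rpow_add hn0]; norm_num
  have hm : ((oth u w).card : ℝ) = n - 2 := by
    have := card_oth h
    have h' : (((oth u w).card + 2 : ℕ) : ℝ) = n := by exact_mod_cast this
    push_cast at h'
    linarith
  have hup := pr_codeg_le h l (l * (n / 4 + T)) (by rw [abs_of_pos hl0]; exact hl1)
  have hlo := pr_codeg_le h (-l) (-l * (n / 4 - T)) (by rw [abs_neg, abs_of_pos hl0]; exact hl1)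
  have h1 : pr n (fun G => T < |(codeg G u w : ℝ) - (n : ℝ) / 4|)
      ≤ pr n (fun G => (l * (n / 4 + T) ≤ l * (codeg G u w : ℝ)) ∨
          (-l * (n / 4 - T) ≤ -l * (codeg G u w : ℝ))) := by
    apply pr_mono
    intro G hG
    rcases lt_abs.1 hG with h2 | h2
    · left
      apply mul_le_mul_of_nonneg_left _ hl0.le
      linarith
    · right
      have h3 : (codeg G u w : ℝ) ≤ n / 4 - T := by linarith
      exact mul_le_mul_of_nonpos_left h3 (by linarith)
  refine h1.trans ((pr_or_le _ _).trans ?_)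
  have hs : 0 ≤ Real.sqrt n := Real.sqrt_nonneg _
  have h2 : -(l * (n / 4 + T)) + ((oth u w).card : ℝ) * (l / 4 + l ^ 2 / 4)
      ≤ -(3 / 4) * Real.sqrt n := by
    rw [hm]
    have : -(l * (n / 4 + T)) + ((n : ℝ) - 2) * (l / 4 + l ^ 2 / 4)
        = - (l * T) + (n * l ^ 2) / 4 - l / 2 - l ^ 2 / 2 := by ring
    rw [this, hlT, hl2]
    linarith [sq_nonneg l]
  have h3 : -(-l * (n / 4 - T)) + ((oth u w).card : ℝ) * (-l / 4 + (-l) ^ 2 / 4)
      ≤ -(3 / 4) * Real.sqrt n + 1 / 2 := by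
    rw [hm]
    have : -(-l * (n / 4 - T)) + ((n : ℝ) - 2) * (-l / 4 + (-l) ^ 2 / 4)
        = - (l * T) + (n * l ^ 2) / 4 + l / 2 - l ^ 2 / 2 := by ring
    rw [this, hlT, hl2]
    linarith [sq_nonneg l]
  have h4 : Real.exp (1 / 2) ≤ 2 := by
    have h5 : Real.exp (1 / 2) ^ 2 = Real.exp 1 := by
      rw [← Real.exp_nat_mul]; norm_num
    have h6 := Real.exp_one_lt_d9
    by_contra h7
    push Not at h7
    have h8 : (2 : ℝ) ^ 2 < Real.exp (1 / 2) ^ 2 :=
      pow_lt_pow_left₀ h7 (by norm_num) (by norm_num)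
    rw [h5] at h8
    linarith
  calc _ ≤ Real.exp (-(3 / 4) * Real.sqrt n) + Real.exp (-(3 / 4) * Real.sqrt n + 1 / 2) := by
        apply add_le_add
        · exact hup.trans (Real.exp_le_exp.2 h2)
        · exact hlo.trans (Real.exp_le_exp.2 h3)
    _ ≤ 3 * Real.exp (-(3 / 4) * Real.sqrt n) := by
        rw [Real.exp_add]
        have h5 := mul_le_mul_of_nonneg_left h4 (Real.exp_pos (-(3 / 4) * Real.sqrt n)).le
        linarith

/-- the polynomial union bound is eventually absorbed -/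
lemma eventually_small : ∀ᶠ x : ℝ in Filter.atTop,
    x ^ 2 * (3 * Real.exp (-(3 / 4) * Real.sqrt x)) ≤ 1 / x := by
  have h := Real.tendsto_pow_mul_exp_neg_atTop_nhds_zero 6
  have h1 : Filter.Tendsto (fun x : ℝ => (3 / 4) * Real.sqrt x) Filter.atTop Filter.atTop :=
    Real.tendsto_sqrt_atTop.const_mul_atTop (by norm_num)
  have h2 := (h.comp h1).eventually (gt_mem_nhds (show (0 : ℝ) < (3 / 4) ^ 6 / 3 by norm_num))
  filter_upwards [h2, Filter.eventually_gt_atTop 0] with x hx hx0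
  simp only [Function.comp] at hx
  have h3 : Real.sqrt x ^ 6 = x ^ 3 := by
    rw [show (6 : ℕ) = 2 * 3 by norm_num, pow_mul, Real.sq_sqrt hx0.le]
  rw [mul_pow, h3] at hx
  rw [le_div_iff₀ hx0]
  have h4 : Real.exp (-(3 / 4 * Real.sqrt x)) = Real.exp (-(3 / 4) * Real.sqrt x) := by
    congr 1; ring
  rw [h4] at hx
  have h5 : x ^ 2 * (3 * Real.exp (-(3 / 4) * Real.sqrt x)) * x
      = 3 * (x ^ 3 * Real.exp (-(3 / 4) * Real.sqrt x)) := by ring
  rw [h5]
  linarith

theorem codeg_conc : ∃ n0 : ℕ, ∀ n ≥ n0,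
    pr n (fun G => ∃ u w : Fin n, u ≠ w ∧
      (n : ℝ) ^ (3 / 4 : ℝ) < |(codeg G u w : ℝ) - (n : ℝ) / 4|) ≤ 1 / (n : ℝ) := by
  have h := (tendsto_natCast_atTop_atTop (R := ℝ)).eventually eventually_small
  obtain ⟨n0, hn0⟩ := Filter.eventually_atTop.1 (h.and (Filter.eventually_ge_atTop 1))
  refine ⟨n0, fun n hn => ?_⟩
  obtain ⟨h1, h2⟩ := hn0 n hn
  refine le_trans ?_ h1
  have h3 : pr n (fun G => ∃ u w : Fin n, u ≠ w ∧
      (n : ℝ) ^ (3 / 4 : ℝ) < |(codeg G u w : ℝ) - (n : ℝ) / 4|)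
      ≤ pr n (fun G => ∃ p ∈ (univ : Finset (Fin n × Fin n)).filter (fun p => p.1 ≠ p.2),
        (n : ℝ) ^ (3 / 4 : ℝ) < |(codeg G p.1 p.2 : ℝ) - (n : ℝ) / 4|) := by
    apply pr_mono
    rintro G ⟨u, w, huw, hG⟩
    exact ⟨(u, w), by simp [huw], hG⟩
  refine h3.trans ((pr_exists_le _ _).trans ?_)
  calc _ ≤ ∑ p ∈ (univ : Finset (Fin n × Fin n)).filter (fun p => p.1 ≠ p.2),
        3 * Real.exp (-(3 / 4) * Real.sqrt n) := by
        apply Finset.sum_le_sum
        intro p hp
        exact pr_pair_le (Finset.mem_filter.1 hp).2 h2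
    _ = (((univ : Finset (Fin n × Fin n)).filter (fun p => p.1 ≠ p.2)).card : ℝ) *
          (3 * Real.exp (-(3 / 4) * Real.sqrt n)) := by
        rw [Finset.sum_const, nsmul_eq_mul]
    _ ≤ (n : ℝ) ^ 2 * (3 * Real.exp (-(3 / 4) * Real.sqrt n)) := by
        apply mul_le_mul_of_nonneg_right _ (by positivity)
        have h4 : ((univ : Finset (Fin n × Fin n)).filter (fun p => p.1 ≠ p.2)).card ≤ n * n := by
          refine (Finset.card_filter_le _ _).trans ?_
          simp
        rw [sq]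
        exact_mod_cast h4

end Pool.RG
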