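import Pool.Agent.Work.RG.Basic

/-!
# MP_004c3d_co : bounded differences (McDiarmid) on finite products

`av f` is the average of `f` over a finite type.  `mgf_le` bounds the moment generating function
of a function of bounded differences on a finite product, `upper_tail`, `lower_tail` are the
resulting tail bounds.  `edge_upper`, `edge_lower` are the versions for labelled graphs (edge
exposure), `vertex_conc` is the vertex exposure version.
-/

namespace Pool.RG

open Finset

/-- average over a finite type -/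
noncomputable def av {α : Type} [Fintype α] (f : α → ℝ) : ℝ := (∑ x, f x) / (Fintype.card α : ℝ)

section av

variable {α β : Type} [Fintype α] [Fintype β]

lemma av_mono {f g : α → ℝ} (h : ∀ x, f x ≤ g x) : av f ≤ av g :=
  div_le_div_of_nonneg_right (Finset.sum_le_sum fun x _ => h x) (Nat.cast_nonneg _)

lemma av_nonneg {f : α → ℝ} (h : ∀ x, 0 ≤ f x) : 0 ≤ av f :=
  div_nonneg (Finset.sum_nonneg fun x _ => h x) (Nat.cast_nonneg _)

lemma av_const_mul (c : ℝ) (f : α → ℝ) : av (fun x => c * f x) = c * av f := by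
  unfold av; rw [← Finset.mul_sum, mul_div_assoc]

lemma av_mul_const (f : α → ℝ) (c : ℝ) : av (fun x => f x * c) = av f * c := by
  unfold av; rw [← Finset.sum_mul]; ring

lemma av_add (f g : α → ℝ) : av (fun x => f x + g x) = av f + av g := by
  unfold av; rw [Finset.sum_add_distrib, add_div]

lemma av_sub (f g : α → ℝ) : av (fun x => f x - g x) = av f - av g := by
  unfold av; rw [Finset.sum_sub_distrib, sub_div]

lemma av_neg (f : α → ℝ) : av (fun x => - f x) = - av f := by
  unfold av; rw [Finset.sum_neg_distrib, neg_div]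

lemma av_const [Nonempty α] (c : ℝ) : av (fun _ : α => c) = c := by
  unfold av
  rw [Finset.sum_const, nsmul_eq_mul, Finset.card_univ]
  have : (0 : ℝ) < (Fintype.card α : ℝ) := by exact_mod_cast Fintype.card_pos
  field_simp

lemma av_equiv (e : α ≃ β) (f : β → ℝ) : av (fun x => f (e x)) = av f := by
  unfold av
  rw [Fintype.card_congr e, e.sum_comp f]

lemma av_prod (f : α × β → ℝ) : av f = av (fun a => av (fun b => f (a, b))) := by
  unfold av
  rw [Fintype.sum_prod_type, Fintype.card_prod, ← Finset.sum_div]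
  push_cast
  rw [div_div, mul_comm]

lemma abs_sub_av_le [Nonempty α] {f : α → ℝ} {c : ℝ} (h : ∀ x y, |f x - f y| ≤ c) (x : α) :
    |f x - av f| ≤ c := by
  have h1 : av (fun y => f x - f y) = f x - av f := by rw [av_sub, av_const]
  rw [← h1, abs_le]
  constructor
  · rw [← av_const (α := α) (-c)]
    exact av_mono fun y => (abs_le.1 (h x y)).1
  · rw [← av_const (α := α) c]
    exact av_mono fun y => (abs_le.1 (h x y)).2

end av

/-- convexity of the exponential -/
lemma exp_le_chord {c z : ℝ} (hc : 0 < c) (hz : |z| ≤ c) (l : ℝ) :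
    Real.exp (l * z) ≤ Real.cosh (l * c) + z * (Real.sinh (l * c) / c) := by
  obtain ⟨h1, h2⟩ := abs_le.1 hz
  have hw1 : 0 ≤ (c + z) / (2 * c) := div_nonneg (by linarith) (by linarith)
  have hw2 : 0 ≤ (c - z) / (2 * c) := div_nonneg (by linarith) (by linarith)
  have hw : (c + z) / (2 * c) + (c - z) / (2 * c) = 1 := by field_simp; ring
  have h := convexOn_exp.2 (Set.mem_univ (l * c)) (Set.mem_univ (-(l * c))) hw1 hw2 hw
  simp only [smul_eq_mul] at h
  have he : (c + z) / (2 * c) * (l * c) + (c - z) / (2 * c) * -(l * c) = l * z := by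
    field_simp; ring
  rw [he] at h
  refine h.trans (le_of_eq ?_)
  rw [Real.cosh_eq, Real.sinh_eq]
  field_simp
  ring

/-- one coordinate -/
lemma mgf_one {α : Type} [Fintype α] [Nonempty α] {f : α → ℝ} {c : ℝ} (hc : 0 ≤ c)
    (h : ∀ x y, |f x - f y| ≤ c) (l : ℝ) :
    av (fun x => Real.exp (l * (f x - av f))) ≤ Real.exp (l ^ 2 * c ^ 2 / 2) := by
  have hb := abs_sub_av_le h
  rcases hc.eq_or_lt with hc0 | hc0
  · have h0 : ∀ x, f x - av f = 0 := fun x => by
      have := hb x; rw [← hc0] at this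
      exact abs_nonpos_iff.1 this
    simp only [h0]
    rw [← hc0]
    simp [av_const]
  · calc av (fun x => Real.exp (l * (f x - av f)))
        ≤ av (fun x => Real.cosh (l * c) + (f x - av f) * (Real.sinh (l * c) / c)) :=
          av_mono fun x => exp_le_chord hc0 (hb x) l
      _ = Real.cosh (l * c) := by
          rw [av_add, av_const, av_mul_const, av_sub, av_const]; ring
      _ ≤ Real.exp ((l * c) ^ 2 / 2) := Real.cosh_le_exp_half_sq _
      _ = Real.exp (l ^ 2 * c ^ 2 / 2) := by rw [mul_pow]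

/-- bounded differences, moment generating function, `Fin n` version -/
lemma mgf_fin (l : ℝ) : ∀ (n : ℕ) (Ω : Fin n → Type) [∀ i, Fintype (Ω i)] [∀ i, Nonempty (Ω i)]
    (f : (∀ i, Ω i) → ℝ) (c : Fin n → ℝ) (_ : ∀ i, 0 ≤ c i)
    (_ : ∀ i x y, (∀ j, j ≠ i → x j = y j) → |f x - f y| ≤ c i),
    av (fun x => Real.exp (l * (f x - av f))) ≤ Real.exp (l ^ 2 * (∑ i, c i ^ 2) / 2) := by
  intro n
  induction n with
  | zero =>
    intro Ω _ _ f c hc h
    have h0 : ∀ x, f x = av f := fun x => by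
      unfold av
      rw [Fintype.sum_subsingleton f x]
      simp
    have h1 : ∀ x, f x - av f = 0 := fun x => by rw [sub_eq_zero]; exact h0 x
    simp only [h1]
    simp [av_const]
  | succ n ih =>
    intro Ω _ _ f c hc h
    let e := Fin.consEquiv Ω
    let g : Ω 0 → ℝ := fun a => av (fun b : ∀ i : Fin n, Ω i.succ => f (e (a, b)))
    have hg : av g = av f := by
      rw [← av_equiv e f, av_prod]
    have hgc : ∀ a a', |g a - g a'| ≤ c 0 := by
      intro a a'
      show |av (fun b : ∀ i : Fin n, Ω i.succ => f (e (a, b))) -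
        av (fun b : ∀ i : Fin n, Ω i.succ => f (e (a', b)))| ≤ c 0
      rw [← av_sub, abs_le]
      have hd : ∀ b : ∀ i : Fin n, Ω i.succ, |f (e (a, b)) - f (e (a', b))| ≤ c 0 := by
        intro b
        apply h 0
        intro j hj
        obtain ⟨j', rfl⟩ := Fin.exists_succ_eq.2 hj
        simp [e, Fin.consEquiv]
      constructor
      · rw [← av_const (α := ∀ i : Fin n, Ω i.succ) (-c 0)]
        exact av_mono fun b => (abs_le.1 (hd b)).1
      · rw [← av_const (α := ∀ i : Fin n, Ω i.succ) (c 0)]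
        exact av_mono fun b => (abs_le.1 (hd b)).2
    have hi : ∀ a, av (fun b : ∀ i : Fin n, Ω i.succ => Real.exp (l * (f (e (a, b)) - g a)))
        ≤ Real.exp (l ^ 2 * (∑ i : Fin n, c i.succ ^ 2) / 2) := by
      intro a
      apply ih (fun i => Ω i.succ) (fun b => f (e (a, b))) (fun i => c i.succ) (fun i => hc _)
      intro i x y hxy
      apply h i.succ
      intro j hj
      refine Fin.cases ?_ (fun j' => ?_) j (motive := fun j => j ≠ i.succ → e (a, x) j = e (a, y) j) hj
      · intro _; simp [e, Fin.consEquiv]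
      · intro hj'
        simp only [e, Fin.consEquiv, Equiv.coe_fn_mk, Fin.cons_succ]
        exact hxy j' (fun h' => hj' (by rw [h']))
    have h1 := mgf_one (hc 0) hgc l
    calc av (fun x => Real.exp (l * (f x - av f)))
        = av (fun a => av (fun b : ∀ i : Fin n, Ω i.succ =>
            Real.exp (l * (f (e (a, b)) - av f)))) := by
          rw [← av_equiv e (fun x => Real.exp (l * (f x - av f))), av_prod]
      _ = av (fun a => Real.exp (l * (g a - av g)) * av (fun b : ∀ i : Fin n, Ω i.succ =>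
            Real.exp (l * (f (e (a, b)) - g a)))) := by
          congr 1
          ext a
          rw [← av_const_mul]
          congr 1
          ext b
          rw [← Real.exp_add, hg]
          congr 1
          ring
      _ ≤ av (fun a => Real.exp (l * (g a - av g)) *
            Real.exp (l ^ 2 * (∑ i : Fin n, c i.succ ^ 2) / 2)) :=
          av_mono fun a => mul_le_mul_of_nonneg_left (hi a) (Real.exp_pos _).le
      _ = av (fun a => Real.exp (l * (g a - av g))) *
            Real.exp (l ^ 2 * (∑ i : Fin n, c i.succ ^ 2) / 2) := av_mul_const _ _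
      _ ≤ Real.exp (l ^ 2 * c 0 ^ 2 / 2) *
            Real.exp (l ^ 2 * (∑ i : Fin n, c i.succ ^ 2) / 2) :=
          mul_le_mul_of_nonneg_right h1 (Real.exp_pos _).le
      _ = Real.exp (l ^ 2 * (∑ i, c i ^ 2) / 2) := by
          rw [← Real.exp_add, Fin.sum_univ_succ]
          congr 1
          ring

/-- **Bounded differences, moment generating function.**  `f` is a function on a finite product
(uniform measure) which changes by at most `c i` when only the coordinate `i` is changed. -/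
theorem mgf_le {ι : Type} [Fintype ι] [DecidableEq ι] {Ω : ι → Type} [∀ i, Fintype (Ω i)]
    [∀ i, Nonempty (Ω i)]
    (f : (∀ i, Ω i) → ℝ) (c : ι → ℝ) (hc : ∀ i, 0 ≤ c i)
    (h : ∀ i x y, (∀ j, j ≠ i → x j = y j) → |f x - f y| ≤ c i) (l : ℝ) :
    av (fun x => Real.exp (l * (f x - av f))) ≤ Real.exp (l ^ 2 * (∑ i, c i ^ 2) / 2) := by
  let e : Fin (Fintype.card ι) ≃ ι := (Fintype.equivFin ι).symm
  let E : (∀ j, Ω (e j)) ≃ (∀ i, Ω i) := Equiv.piCongrLeft Ω e
  have hf := mgf_fin l (Fintype.card ι) (fun j => Ω (e j)) (fun x => f (E x)) (fun j => c (e j))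
    (fun j => hc _) ?_
  · rw [av_equiv E f, av_equiv E (fun x => Real.exp (l * (f x - av f)))] at hf
    rwa [e.sum_comp (fun i => c i ^ 2)] at hf
  · intro j x y hxy
    apply h (e j)
    intro i hi
    obtain ⟨j', rfl⟩ := e.surjective i
    have hj : j' ≠ j := fun h' => hi (by rw [h'])
    simp only [E, Equiv.piCongrLeft_apply_apply]
    exact hxy j' hj

open Classical in
/-- **Bounded differences, upper tail.** -/
theorem upper_tail {ι : Type} [Fintype ι] [DecidableEq ι] {Ω : ι → Type} [∀ i, Fintype (Ω i)]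
    [∀ i, Nonempty (Ω i)]
    (f : (∀ i, Ω i) → ℝ) (c : ι → ℝ) (hc : ∀ i, 0 ≤ c i)
    (h : ∀ i x y, (∀ j, j ≠ i → x j = y j) → |f x - f y| ≤ c i) {V t : ℝ} (hV : 0 < V)
    (hcV : ∑ i, c i ^ 2 ≤ V) (ht : 0 ≤ t) :
    av (fun x => if av f + t ≤ f x then (1 : ℝ) else 0) ≤ Real.exp (-(t ^ 2 / (2 * V))) := by
  have h1 := mgf_le f c hc h (t / V)
  have h2 : av (fun x => if av f + t ≤ f x then (1 : ℝ) else 0)
      ≤ av (fun x => Real.exp (-(t / V * t)) * Real.exp (t / V * (f x - av f))) := by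
    apply av_mono
    intro x
    split_ifs with hx
    · rw [← Real.exp_add]
      apply Real.one_le_exp
      have : 0 ≤ t / V := div_nonneg ht hV.le
      nlinarith
    · positivity
  rw [av_const_mul] at h2
  refine h2.trans ?_
  calc Real.exp (-(t / V * t)) * av (fun x => Real.exp (t / V * (f x - av f)))
      ≤ Real.exp (-(t / V * t)) * Real.exp ((t / V) ^ 2 * (∑ i, c i ^ 2) / 2) :=
        mul_le_mul_of_nonneg_left h1 (Real.exp_pos _).le
    _ ≤ Real.exp (-(t / V * t)) * Real.exp ((t / V) ^ 2 * V / 2) := by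
        apply mul_le_mul_of_nonneg_left _ (Real.exp_pos _).le
        apply Real.exp_le_exp.2
        have : 0 ≤ (t / V) ^ 2 := sq_nonneg _
        nlinarith
    _ = Real.exp (-(t ^ 2 / (2 * V))) := by
        rw [← Real.exp_add]
        congr 1
        field_simp
        ring

open Classical in
/-- **Bounded differences, lower tail.** -/
theorem lower_tail {ι : Type} [Fintype ι] [DecidableEq ι] {Ω : ι → Type} [∀ i, Fintype (Ω i)]
    [∀ i, Nonempty (Ω i)]
    (f : (∀ i, Ω i) → ℝ) (c : ι → ℝ) (hc : ∀ i, 0 ≤ c i)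
    (h : ∀ i x y, (∀ j, j ≠ i → x j = y j) → |f x - f y| ≤ c i) {V t : ℝ} (hV : 0 < V)
    (hcV : ∑ i, c i ^ 2 ≤ V) (ht : 0 ≤ t) :
    av (fun x => if f x ≤ av f - t then (1 : ℝ) else 0) ≤ Real.exp (-(t ^ 2 / (2 * V))) := by
  have h1 := upper_tail (fun x => - f x) c hc
    (fun i x y hxy => by
      have := h i y x (fun j hj => (hxy j hj).symm)
      rwa [show -f x - -f y = f y - f x by ring]) hV hcV ht
  refine le_trans (av_mono fun x => ?_) h1
  rw [av_neg]
  by_cases hx : f x ≤ av f - t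
  · rw [if_pos hx, if_pos (by linarith)]
  · rw [if_neg hx]
    split_ifs <;> norm_num

/-! ### transfer to labelled graphs -/

variable {n : ℕ}

lemma ex_eq_av {α : Type} [Fintype α] (e : α ≃ SimpleGraph (Fin n)) (f : SimpleGraph (Fin n) → ℝ) :
    ex n f = av (fun x => f (e x)) := by
  rw [av_equiv e f]
  unfold ex av
  rw [Nat.card_eq_fintype_card]

/-- graphs as functions on the set of non-diagonal pairs -/
noncomputable def edgeEquiv (n : ℕ) :
    ({e : Sym2 (Fin n) // ¬ e.IsDiag} → Bool) ≃ SimpleGraph (Fin n) where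
  toFun x := SimpleGraph.fromEdgeSet {e | ∃ h : ¬ e.IsDiag, x ⟨e, h⟩ = true}
  invFun G := by
    classical
    exact fun e => decide (e.1 ∈ G.edgeSet)
  left_inv x := by
    ext e
    rw [Bool.eq_iff_iff]
    refine (@decide_eq_true_iff _ (_)).trans ?_
    rw [SimpleGraph.edgeSet_fromEdgeSet]
    have he := e.2
    simp [he]
  right_inv G := by
    apply SimpleGraph.edgeSet_injective
    ext e
    rw [SimpleGraph.edgeSet_fromEdgeSet]
    simp only [decide_eq_true_eq, exists_prop, Set.mem_sdiff, Set.mem_ofPred_eq]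
    constructor
    · rintro ⟨⟨_, h⟩, _⟩; exact h
    · intro h
      have := SimpleGraph.not_isDiag_of_mem_edgeSet G h
      exact ⟨⟨this, h⟩, by simpa using this⟩

lemma mem_edgeEquiv (x : {e : Sym2 (Fin n) // ¬ e.IsDiag} → Bool) (e : Sym2 (Fin n))
    (he : ¬ e.IsDiag) : e ∈ (edgeEquiv n x).edgeSet ↔ x ⟨e, he⟩ = true := by
  show e ∈ (SimpleGraph.fromEdgeSet {e | ∃ h : ¬ e.IsDiag, x ⟨e, h⟩ = true}).edgeSet ↔ _
  rw [SimpleGraph.edgeSet_fromEdgeSet]
  simp [he]

open Classical in
/-- **Edge exposure, upper tail.**  `f` changes by at most `c e` when only the pair `e` is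
changed. -/
theorem edge_upper (f : SimpleGraph (Fin n) → ℝ) (c : Sym2 (Fin n) → ℝ) (hc : ∀ e, 0 ≤ c e)
    (h : ∀ (e : Sym2 (Fin n)) (G G' : SimpleGraph (Fin n)), ¬ e.IsDiag →
      (∀ e', e' ≠ e → (e' ∈ G.edgeSet ↔ e' ∈ G'.edgeSet)) → |f G - f G'| ≤ c e)
    {V t : ℝ} (hV : 0 < V)
    (hcV : ∑ e ∈ univ.filter (fun e : Sym2 (Fin n) => ¬ e.IsDiag), c e ^ 2 ≤ V) (ht : 0 ≤ t) :
    pr n (fun G => ex n f + t ≤ f G) ≤ Real.exp (-(t ^ 2 / (2 * V))) := by
  have h1 := upper_tail (fun x => f (edgeEquiv n x)) (fun e => c e.1) (fun e => hc _)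
    (fun e x y hxy => by
      apply h e.1 _ _ e.2
      intro e' he'
      by_cases hd : e'.IsDiag
      · constructor
        · intro h'; exact absurd hd (SimpleGraph.not_isDiag_of_mem_edgeSet _ h')
        · intro h'; exact absurd hd (SimpleGraph.not_isDiag_of_mem_edgeSet _ h')
      · rw [mem_edgeEquiv x e' hd, mem_edgeEquiv y e' hd,
          hxy ⟨e', hd⟩ (fun h' => he' (congrArg Subtype.val h'))]) hV
    (by
      refine le_of_eq_of_le ?_ hcV
      rw [← Finset.sum_subtype_eq_sum_filter]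
      exact (Finset.sum_bij (fun e _ => e) (by simp) (by simp) (by simp) (by simp)))
    ht
  rw [pr_eq_ex, ex_eq_av (edgeEquiv n), ex_eq_av (edgeEquiv n) f]
  exact h1

open Classical in
/-- **Edge exposure, lower tail.** -/
theorem edge_lower (f : SimpleGraph (Fin n) → ℝ) (c : Sym2 (Fin n) → ℝ) (hc : ∀ e, 0 ≤ c e)
    (h : ∀ (e : Sym2 (Fin n)) (G G' : SimpleGraph (Fin n)), ¬ e.IsDiag →
      (∀ e', e' ≠ e → (e' ∈ G.edgeSet ↔ e' ∈ G'.edgeSet)) → |f G - f G'| ≤ c e)
    {V t : ℝ} (hV : 0 < V)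
    (hcV : ∑ e ∈ univ.filter (fun e : Sym2 (Fin n) => ¬ e.IsDiag), c e ^ 2 ≤ V) (ht : 0 ≤ t) :
    pr n (fun G => f G ≤ ex n f - t) ≤ Real.exp (-(t ^ 2 / (2 * V))) := by
  have hneg : ex n (fun G => - f G) = - ex n f := by
    have := ex_const_mul (n := n) (-1) f
    simpa using this
  have h1 := edge_upper (fun G => - f G) c hc
    (fun e G G' he hG => by
      have := h e G' G he (fun e' he' => (hG e' he').symm)
      rwa [show -f G - -f G' = f G' - f G by ring]) hV hcV ht
  refine le_trans (pr_mono fun G hG => ?_) h1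
  rw [hneg]; linarith

/-! ### vertex exposure -/

/-- graphs as functions `v ↦ (adjacency of v to the smaller vertices)` -/
noncomputable def vertexEquiv (n : ℕ) :
    (∀ v : Fin n, (Fin (v : ℕ) → Bool)) ≃ SimpleGraph (Fin n) where
  toFun x :=
    { Adj := fun a b => (∃ h : (a : ℕ) < b, x b ⟨a, h⟩ = true) ∨
        (∃ h : (b : ℕ) < a, x a ⟨b, h⟩ = true)
      symm := ⟨fun _ _ h => h.symm⟩
      loopless := ⟨fun a h => by
        rcases h with ⟨h, _⟩ | ⟨h, _⟩ <;> exact lt_irrefl _ h⟩ }
  invFun G := by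
    classical
    exact fun v u => decide (G.Adj ⟨u, u.2.trans v.2⟩ v)
  left_inv x := by
    ext v u
    rw [Bool.eq_iff_iff]
    refine (@decide_eq_true_iff _ (_)).trans ?_
    constructor
    · rintro (⟨h, h'⟩ | ⟨h, h'⟩)
      · exact h'
      · exact absurd h (not_lt.2 u.2.le)
    · intro h; left; exact ⟨u.2, h⟩
  right_inv G := by
    ext a b
    constructor
    · rintro (⟨h, h'⟩ | ⟨h, h'⟩)
      · simpa using h'
      · exact (by simpa using h' : G.Adj b a).symm
    · intro h
      rcases lt_trichotomy (a : ℕ) b with h1 | h1 | h1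
      · left; exact ⟨h1, by simpa using h⟩
      · exact absurd (Fin.ext h1) h.ne
      · right; exact ⟨h1, by simpa using h.symm⟩

lemma vertexEquiv_adj (x : ∀ v : Fin n, (Fin (v : ℕ) → Bool)) (a b : Fin n) :
    (vertexEquiv n x).Adj a b ↔ (∃ h : (a : ℕ) < b, x b ⟨a, h⟩ = true) ∨
      (∃ h : (b : ℕ) < a, x a ⟨b, h⟩ = true) := Iff.rfl

open Classical in
/-- **Vertex exposure, upper tail.** -/
theorem vertex_upper (f : SimpleGraph (Fin n) → ℝ) (c : Fin n → ℝ) (hc : ∀ v, 0 ≤ c v)
    (h : ∀ (v : Fin n) (G G' : SimpleGraph (Fin n)),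
      (∀ a b, a ≠ v → b ≠ v → (G.Adj a b ↔ G'.Adj a b)) → |f G - f G'| ≤ c v)
    {V t : ℝ} (hV : 0 < V) (hcV : ∑ v, c v ^ 2 ≤ V) (ht : 0 ≤ t) :
    pr n (fun G => ex n f + t ≤ f G) ≤ Real.exp (-(t ^ 2 / (2 * V))) := by
  have h1 := upper_tail (fun x => f (vertexEquiv n x)) c hc
    (fun v x y hxy => by
      apply h v
      intro a b ha hb
      rw [vertexEquiv_adj, vertexEquiv_adj, hxy a ha, hxy b hb]) hV hcV ht
  rw [pr_eq_ex, ex_eq_av (vertexEquiv n), ex_eq_av (vertexEquiv n) f]
  exact h1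

/-- **Vertex exposure, lower tail.** -/
theorem vertex_lower (f : SimpleGraph (Fin n) → ℝ) (c : Fin n → ℝ) (hc : ∀ v, 0 ≤ c v)
    (h : ∀ (v : Fin n) (G G' : SimpleGraph (Fin n)),
      (∀ a b, a ≠ v → b ≠ v → (G.Adj a b ↔ G'.Adj a b)) → |f G - f G'| ≤ c v)
    {V t : ℝ} (hV : 0 < V) (hcV : ∑ v, c v ^ 2 ≤ V) (ht : 0 ≤ t) :
    pr n (fun G => f G ≤ ex n f - t) ≤ Real.exp (-(t ^ 2 / (2 * V))) := by
  have hneg : ex n (fun G => - f G) = - ex n f := by
    have := ex_const_mul (n := n) (-1) f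
    simpa using this
  have h1 := vertex_upper (fun G => - f G) c hc
    (fun v G G' hG => by
      have := h v G' G (fun a b ha hb => (hG a b ha hb).symm)
      rwa [show -f G - -f G' = f G' - f G by ring]) hV hcV ht
  refine le_trans (pr_mono fun G hG => ?_) h1
  rw [hneg]; linarith

/-- **Vertex exposure.**  If `f` changes by at most `c` when the edges at one vertex are changed,
and `f ≥ a` with probability at least `e^{-s}`, then `f ≤ a - 2c√(2n(s+1))` with probability at
most `e^{-(s+1)}`. -/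
theorem vertex_conc (hn : 0 < n) (f : SimpleGraph (Fin n) → ℝ) (c : ℝ) (hc : 0 < c)
    (hL : ∀ (v : Fin n) (G G' : SimpleGraph (Fin n)),
      (∀ a b, a ≠ v → b ≠ v → (G.Adj a b ↔ G'.Adj a b)) → |f G - f G'| ≤ c)
    (a s : ℝ) (hs : 0 ≤ s) (h : Real.exp (-s) ≤ pr n (fun G => a ≤ f G)) :
    pr n (fun G => f G ≤ a - 2 * c * Real.sqrt (2 * n * (s + 1))) ≤ Real.exp (-(s + 1)) := by
  have hn' : (0 : ℝ) < n := by exact_mod_cast hn
  set t : ℝ := c * Real.sqrt (2 * n * (s + 1)) with ht
  have ht0 : 0 ≤ t := by positivity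
  have hV : 0 < n * c ^ 2 := by positivity
  have hcV : ∑ _v : Fin n, c ^ 2 ≤ n * c ^ 2 := by simp
  have hexp : t ^ 2 / (2 * (n * c ^ 2)) = s + 1 := by
    rw [ht, mul_pow, Real.sq_sqrt (by positivity)]
    field_simp
  have hU := vertex_upper f (fun _ => c) (fun _ => hc.le) hL hV hcV ht0
  have hD := vertex_lower f (fun _ => c) (fun _ => hc.le) hL hV hcV ht0
  rw [hexp] at hU hD
  have ha : a < ex n f + t := by
    by_contra hcon
    push Not at hcon
    have h1 : pr n (fun G => a ≤ f G) ≤ pr n (fun G => ex n f + t ≤ f G) :=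
      pr_mono fun G hG => hcon.trans hG
    have h2 := h.trans (h1.trans hU)
    rw [Real.exp_le_exp] at h2
    linarith
  refine le_trans (pr_mono fun G hG => ?_) hD
  have : 2 * c * Real.sqrt (2 * n * (s + 1)) = 2 * t := by rw [ht]; ring
  rw [this] at hG
  linarith

end Pool.RG
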