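import Pool.Agent.Work.RG.Defs

/-!
# MP_004c3d_co : the two optima are incompatible (item 3 of the proof)
-/

namespace Pool.RG

open Finset

namespace Contra

/-! ### factorials -/

/-- the affine lower bound for `log i!`, exact at `i = M` -/
theorem log_fact_lower {M : ℕ} (hM : 1 ≤ M) (i : ℕ) :
    (Real.log (M.factorial : ℝ) - M * Real.log M) + i * Real.log M ≤
      Real.log (i.factorial : ℝ) := by
  have hM' : (0 : ℝ) < M := by exact_mod_cast hM
  have hf : (0 : ℝ) < (M.factorial : ℝ) := by exact_mod_cast Nat.factorial_pos M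
  have hg : (0 : ℝ) < (i.factorial : ℝ) := by exact_mod_cast Nat.factorial_pos i
  rcases le_total M i with h | h
  · have h1 := Nat.factorial_mul_pow_sub_le_factorial h
    have h2 : ((M.factorial : ℝ)) * (M : ℝ) ^ (i - M) ≤ (i.factorial : ℝ) := by
      exact_mod_cast h1
    have h3 := Real.log_le_log (by positivity) h2
    rw [Real.log_mul (by positivity) (by positivity), Real.log_pow, Nat.cast_sub h] at h3
    linarith
  · have h1 : (i.factorial) * M.descFactorial (M - i) = M.factorial := by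
      have := Nat.factorial_mul_descFactorial (n := M) (k := M - i) (Nat.sub_le _ _)
      rw [Nat.sub_sub_self h] at this
      exact this
    have h2 : (M.factorial : ℝ) ≤ (i.factorial : ℝ) * (M : ℝ) ^ (M - i) := by
      have h3 : M.factorial ≤ i.factorial * M ^ (M - i) := by
        rw [← h1]
        exact Nat.mul_le_mul_left _ (Nat.descFactorial_le_pow _ _)
      exact_mod_cast h3
    have h3 := Real.log_le_log hf h2
    rw [Real.log_mul (by positivity) (by positivity), Real.log_pow, Nat.cast_sub h] at h3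
    linarith

theorem log_fact_upper {M : ℕ} (hM : 1 ≤ M) {j : ℕ} (hj : j ≤ 5) :
    Real.log ((M + j).factorial : ℝ) ≤
      (Real.log (M.factorial : ℝ) - M * Real.log M) + ((M + j : ℕ) : ℝ) * Real.log M + 25 / M := by
  have hM' : (0 : ℝ) < M := by exact_mod_cast hM
  have hj' : (j : ℝ) ≤ 5 := by exact_mod_cast hj
  have hj0 : (0 : ℝ) ≤ j := Nat.cast_nonneg j
  have hg : (0 : ℝ) < ((M + j).factorial : ℝ) := by exact_mod_cast Nat.factorial_pos _
  have h1 : M.factorial * (M + j).descFactorial j = (M + j).factorial := by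
    have := Nat.factorial_mul_descFactorial (n := M + j) (k := j) (Nat.le_add_left _ _)
    rw [Nat.add_sub_cancel] at this
    exact this
  have h2 : ((M + j).factorial : ℝ) ≤ (M.factorial : ℝ) * ((M + j : ℕ) : ℝ) ^ j := by
    have h3 : (M + j).factorial ≤ M.factorial * (M + j) ^ j := by
      rw [← h1]
      exact Nat.mul_le_mul_left _ (Nat.descFactorial_le_pow _ _)
    exact_mod_cast h3
  have hMj : (0 : ℝ) < ((M + j : ℕ) : ℝ) := by push_cast; linarith
  have hf : (0 : ℝ) < (M.factorial : ℝ) := by exact_mod_cast Nat.factorial_pos M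
  have h3 := Real.log_le_log hg h2
  rw [Real.log_mul (by positivity) (by positivity), Real.log_pow] at h3
  have h4 : Real.log ((M + j : ℕ) : ℝ) ≤ Real.log M + j / M := by
    have e : ((M + j : ℕ) : ℝ) = M * (1 + j / M) := by
      push_cast
      field_simp
    rw [e, Real.log_mul hM'.ne' (by positivity)]
    have := Real.log_le_sub_one_of_pos (x := 1 + (j : ℝ) / M) (by positivity)
    linarith
  have h5 : (j : ℝ) * Real.log ((M + j : ℕ) : ℝ) ≤ j * (Real.log M + j / M) :=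
    mul_le_mul_of_nonneg_left h4 hj0
  have h6 : (j : ℝ) * (j / M) ≤ 25 / M := by
    rw [← mul_div_assoc]
    apply div_le_div_of_nonneg_right _ hM'.le
    nlinarith
  push_cast
  push_cast at h3 h5
  linarith

theorem log_fact_ge (k : ℕ) : (k : ℝ) * Real.log k - k ≤ Real.log (k.factorial : ℝ) := by
  rcases Nat.eq_zero_or_pos k with h | h
  · subst h; simp
  have hk : (0 : ℝ) < k := by exact_mod_cast h
  have hg : (0 : ℝ) < (k.factorial : ℝ) := by exact_mod_cast Nat.factorial_pos k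
  have h1 := Real.pow_div_factorial_le_exp (x := k) hk.le k
  have h2 := Real.log_le_log (by positivity) h1
  rw [Real.log_exp, Real.log_div (by positivity) hg.ne', Real.log_pow] at h2
  linarith

theorem log_fact_le {k : ℕ} (hk : 1 ≤ k) :
    Real.log (k.factorial : ℝ) ≤ (k : ℝ) * Real.log k - k + (1 + Real.log k) := by
  induction k, hk using Nat.le_induction with
  | base => simp
  | succ k hk ih =>
    have hk0 : (0 : ℝ) < k := by exact_mod_cast hk
    have hg : (0 : ℝ) < (k.factorial : ℝ) := by exact_mod_cast Nat.factorial_pos k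
    rw [Nat.factorial_succ]
    push_cast
    rw [Real.log_mul (by positivity) hg.ne']
    have h1 := Real.one_sub_inv_le_log_of_pos (x := ((k : ℝ) + 1) / k) (by positivity)
    rw [Real.log_div (by positivity) hk0.ne', inv_div] at h1
    have h2 : 1 ≤ ((k : ℝ) + 1) * (Real.log (k + 1) - Real.log k) := by
      have h3 := mul_le_mul_of_nonneg_left h1 (by positivity : (0 : ℝ) ≤ (k : ℝ) + 1)
      have e : ((k : ℝ) + 1) * (1 - k / (k + 1)) = 1 := by field_simp; ring
      linarith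
    nlinarith

/-! ### the two comparisons -/

/-- upper bound for `LG` -/
theorem LG_le {M n b : ℕ} (hM : 1 ≤ M) (k : ℕ → ℕ) (hn : ∑ i ∈ Icc 1 b, k i * i = n) :
    LG n b k ≤ Real.log (n.factorial : ℝ) -
      (Real.log (M.factorial : ℝ) - M * Real.log M) * ∑ i ∈ Icc 1 b, (k i : ℝ) -
      n * Real.log M - Real.log 2 * ∑ i ∈ Icc 1 b, (k i : ℝ) * (i.choose 2 : ℝ) -
      ∑ i ∈ Icc 1 b, (k i : ℝ) * Real.log (k i) + ∑ i ∈ Icc 1 b, (k i : ℝ) := by
  have hn' : (n : ℝ) = ∑ i ∈ Icc 1 b, (k i : ℝ) * i := by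
    rw [← hn]
    push_cast
    rfl
  unfold LG
  rw [hn', sum_mul, mul_sum, mul_sum]
  have key : ∑ i ∈ Icc 1 b, ((Real.log (M.factorial : ℝ) - M * Real.log M) * (k i : ℝ) +
      (k i : ℝ) * i * Real.log M + Real.log 2 * ((k i : ℝ) * (i.choose 2 : ℝ)) +
      (k i : ℝ) * Real.log (k i) - (k i : ℝ)) ≤
      ∑ i ∈ Icc 1 b, ((k i : ℝ) * lw i + Real.log ((k i).factorial : ℝ)) := by
    apply sum_le_sum
    intro i _
    have h1 := log_fact_lower hM i
    have h2 := log_fact_ge (k i)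
    have h3 := mul_le_mul_of_nonneg_left h1 (Nat.cast_nonneg (k i) : (0 : ℝ) ≤ (k i : ℝ))
    unfold lw
    linarith
  rw [sum_sub_distrib, sum_add_distrib, sum_add_distrib, sum_add_distrib] at key
  linarith

/-- lower bound for `LE` -/
theorem LE_ge {M n : ℕ} (hM : 1 ≤ M) (κ : Fin 6 → ℕ) (hn : ∑ j, κ j * (M + j) = n)
    (h1 : ∀ j, 1 ≤ κ j) :
    Real.log (n.factorial : ℝ) -
      (Real.log (M.factorial : ℝ) - M * Real.log M) * ∑ j, (κ j : ℝ) -
      n * Real.log M - Real.log 2 * ∑ j, (κ j : ℝ) * ((M + j).choose 2 : ℝ) -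
      ∑ j, (κ j : ℝ) * Real.log (κ j) + ∑ j, (κ j : ℝ) - 25 / M * ∑ j, (κ j : ℝ) -
      ∑ j, (1 + Real.log (κ j)) ≤ LE M n κ := by
  have hn' : (n : ℝ) = ∑ j : Fin 6, (κ j : ℝ) * ((M + j : ℕ) : ℝ) := by
    rw [← hn]
    push_cast
    rfl
  unfold LE
  rw [hn', sum_mul, mul_sum, mul_sum, mul_sum]
  have key : ∑ j : Fin 6, ((κ j : ℝ) * lw (M + j) + Real.log ((κ j).factorial : ℝ)) ≤
      ∑ j : Fin 6, ((Real.log (M.factorial : ℝ) - M * Real.log M) * (κ j : ℝ) +
      (κ j : ℝ) * ((M + j : ℕ) : ℝ) * Real.log M +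
      Real.log 2 * ((κ j : ℝ) * ((M + j).choose 2 : ℝ)) +
      (κ j : ℝ) * Real.log (κ j) + 25 / M * (κ j : ℝ) + (1 + Real.log (κ j)) - (κ j : ℝ)) := by
    apply sum_le_sum
    intro j _
    have h2 := log_fact_upper hM (j := j) (by have := j.isLt; omega)
    have h3 := log_fact_le (h1 j)
    have h4 := mul_le_mul_of_nonneg_left h2 (Nat.cast_nonneg (κ j) : (0 : ℝ) ≤ (κ j : ℝ))
    unfold lw
    linarith
  simp only [sum_sub_distrib, sum_add_distrib] at key ⊢
  linarith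

/-- Gibbs' inequality -/
theorem gibbs {ι : Type} {I : Finset ι} {k : ι → ℕ} {q : ι → ℝ} {Θ : ℝ} (hq : ∀ i ∈ I, 0 < q i)
    (hΘ : ∑ i ∈ I, q i ≤ Θ) (hΘ0 : 0 < Θ) :
    (∑ i ∈ I, (k i : ℝ)) * Real.log (∑ i ∈ I, (k i : ℝ)) -
      ∑ i ∈ I, (k i : ℝ) * Real.log (k i) ≤
    (∑ i ∈ I, (k i : ℝ)) * Real.log Θ - ∑ i ∈ I, (k i : ℝ) * Real.log (q i) := by
  set K := ∑ i ∈ I, (k i : ℝ) with hK
  have hK0 : 0 ≤ K := sum_nonneg fun i _ => Nat.cast_nonneg _
  rcases eq_or_lt_of_le hK0 with h0 | h0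
  · have hk : ∀ i ∈ I, (k i : ℝ) = 0 := by
      have := (sum_eq_zero_iff_of_nonneg (fun i _ => (Nat.cast_nonneg (k i) : (0 : ℝ) ≤ k i))).1
        (hK.symm.trans h0.symm)
      exact this
    rw [← h0, sum_eq_zero (fun i hi => by rw [hk i hi, zero_mul]),
      sum_eq_zero (fun i hi => by rw [hk i hi, zero_mul])]
    simp
  have key : ∑ i ∈ I, (k i : ℝ) * (Real.log K + Real.log (q i) - Real.log (k i) - Real.log Θ) ≤
      ∑ i ∈ I, (K * q i / Θ - k i) := by
    apply sum_le_sum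
    intro i hi
    have hqi := hq i hi
    rcases Nat.eq_zero_or_pos (k i) with h | h
    · rw [h, Nat.cast_zero, zero_mul, sub_zero]
      positivity
    · have hk : (0 : ℝ) < k i := by exact_mod_cast h
      have h1 := Real.log_le_sub_one_of_pos (x := K * q i / (k i * Θ)) (by positivity)
      rw [Real.log_div (by positivity) (by positivity), Real.log_mul h0.ne' hqi.ne',
        Real.log_mul hk.ne' hΘ0.ne'] at h1
      have h2 := mul_le_mul_of_nonneg_left h1 hk.le
      have e : (k i : ℝ) * (K * q i / (k i * Θ) - 1) = K * q i / Θ - k i := by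
        field_simp
      rw [e] at h2
      refine le_trans (le_of_eq ?_) h2
      ring
  have h1 : ∑ i ∈ I, (K * q i / Θ - k i) ≤ 0 := by
    rw [sum_sub_distrib, ← sum_div, ← mul_sum, ← hK]
    have : K * ∑ i ∈ I, q i / 1 ≤ K * Θ := by
      simp only [div_one]
      exact mul_le_mul_of_nonneg_left hΘ hK0
    simp only [div_one] at this
    rw [sub_nonpos, div_le_iff₀ hΘ0]
    exact this
  have h2 : ∑ i ∈ I, (k i : ℝ) * (Real.log K + Real.log (q i) - Real.log (k i) - Real.log Θ) =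
      K * Real.log K + ∑ i ∈ I, (k i : ℝ) * Real.log (q i) -
      ∑ i ∈ I, (k i : ℝ) * Real.log (k i) - K * Real.log Θ := by
    rw [hK, sum_mul, sum_mul, ← sum_add_distrib, ← sum_sub_distrib, ← sum_sub_distrib]
    apply sum_congr rfl
    intro i _
    ring
  linarith

/-- the terms of the theta series -/
noncomputable def aa (l : ℕ) : ℝ := Real.exp (-(Real.log 2 * (2 * (l : ℝ) + 1) ^ 2 / 10))

theorem aa_pow (l : ℕ) : aa l ^ 10 = (1 / 2) ^ ((2 * l + 1) ^ 2) := by
  unfold aa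
  rw [← Real.exp_nat_mul]
  have : ((10 : ℕ) : ℝ) * -(Real.log 2 * (2 * (l : ℝ) + 1) ^ 2 / 10) =
      (((2 * l + 1) ^ 2 : ℕ) : ℝ) * Real.log (1 / 2) := by
    rw [one_div, Real.log_inv]
    push_cast
    ring
  rw [this, Real.exp_nat_mul, Real.exp_log (by norm_num)]

theorem aa_le {l : ℕ} {c : ℝ} (hc : 0 ≤ c) (h : (1 / 2 : ℝ) ^ ((2 * l + 1) ^ 2) ≤ c ^ 10) :
    aa l ≤ c := by
  rw [← aa_pow] at h
  exact le_of_pow_le_pow_left₀ (by norm_num) hc h

theorem aa_tail (m : ℕ) : aa (4 + m) ≤ (1 / 2) ^ (m + 8) := by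
  apply aa_le (by positivity)
  rw [← pow_mul]
  apply pow_le_pow_of_le_one (by norm_num) (by norm_num)
  nlinarith

theorem sum_aa (N : ℕ) : ∑ l ∈ range N, aa l ≤ 169 / 100 := by
  have h0 : aa 0 ≤ 9331 / 10000 := aa_le (by norm_num) (by norm_num)
  have h1 : aa 1 ≤ 536 / 1000 := aa_le (by norm_num) (by norm_num)
  have h2 : aa 2 ≤ 1768 / 10000 := aa_le (by norm_num) (by norm_num)
  have h3 : aa 3 ≤ 336 / 10000 := aa_le (by norm_num) (by norm_num)
  have key : ∀ m : ℕ, ∑ l ∈ range (4 + m), aa l + (1 / 2) ^ (m + 7) ≤ 169 / 100 := by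
    intro m
    induction m with
    | zero =>
      simp only [add_zero, zero_add, sum_range_succ, sum_range_zero]
      norm_num
      linarith
    | succ m ih =>
      rw [← add_assoc, sum_range_succ]
      have h4 := aa_tail m
      have h5 : (1 / 2 : ℝ) ^ (m + 1 + 7) + (1 / 2) ^ (m + 8) = (1 / 2) ^ (m + 7) := by ring
      linarith
  have h4 : ∑ l ∈ range N, aa l ≤ ∑ l ∈ range (4 + N), aa l := by
    apply sum_le_sum_of_subset_of_nonneg
    · intro x hx
      rw [mem_range] at hx ⊢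
      omega
    · intro i _ _
      exact (Real.exp_pos _).le
  have h5 := key N
  have h6 : (0 : ℝ) < (1 / 2) ^ (N + 7) := by positivity
  linarith

/-- the Gibbs weights -/
noncomputable def qq (M i : ℕ) : ℝ :=
  Real.exp (-(2 / 5 * Real.log 2 * ((i : ℝ) - (M + 5 / 2)) ^ 2))

theorem qq_pos (M i : ℕ) : 0 < qq M i := Real.exp_pos _

theorem sum_qq (M : ℕ) (hM : 3 ≤ M) : ∑ i ∈ Icc 1 (2 * M), qq M i ≤ 338 / 100 := by
  have e1 : Icc 1 (2 * M) = Icc 1 (M + 2) ∪ Icc (M + 3) (2 * M) := by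
    ext x
    simp only [mem_union, mem_Icc]
    omega
  have e2 : Disjoint (Icc 1 (M + 2)) (Icc (M + 3) (2 * M)) := by
    rw [disjoint_left]
    intro x hx hx'
    rw [mem_Icc] at hx hx'
    omega
  rw [e1, sum_union e2]
  have h1 : ∑ i ∈ Icc 1 (M + 2), qq M i = ∑ l ∈ range (M + 2), aa l := by
    apply sum_nbij' (fun i => M + 2 - i) (fun l => M + 2 - l)
    · intro i hi
      rw [mem_Icc] at hi
      rw [mem_range]
      omega
    · intro l hl
      rw [mem_range] at hl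
      rw [mem_Icc]
      omega
    · intro i hi
      rw [mem_Icc] at hi
      omega
    · intro l hl
      rw [mem_range] at hl
      omega
    · intro i hi
      rw [mem_Icc] at hi
      unfold qq aa
      rw [Nat.cast_sub hi.2]
      congr 1
      push_cast
      ring
  have h2 : ∑ i ∈ Icc (M + 3) (2 * M), qq M i = ∑ l ∈ range (M - 2), aa l := by
    apply sum_nbij' (fun i => i - (M + 3)) (fun l => l + (M + 3))
    · intro i hi
      rw [mem_Icc] at hi
      rw [mem_range]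
      omega
    · intro l hl
      rw [mem_range] at hl
      rw [mem_Icc]
      omega
    · intro i hi
      rw [mem_Icc] at hi
      omega
    · intro l hl
      rw [mem_range] at hl
      omega
    · intro i hi
      rw [mem_Icc] at hi
      unfold qq aa
      rw [Nat.cast_sub hi.1]
      congr 1
      push_cast
      ring
  rw [h1, h2]
  have h3 := sum_aa (M + 2)
  have h4 := sum_aa (M - 2)
  linarith

/-- the numerical margin -/
theorem margin : 12 / 100 ≤ 2 * Real.log 6 + 8 * Real.log 26 - 10 * Real.log (338 / 100) -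
    25 * Real.log 2 := by
  have h := Real.one_sub_inv_le_log_of_pos
    (x := (6 : ℝ) ^ 2 * 26 ^ 8 / ((338 / 100) ^ 10 * 2 ^ 25)) (by positivity)
  rw [Real.log_div (by positivity) (by positivity), Real.log_mul (by positivity) (by positivity),
    Real.log_mul (by positivity) (by positivity), Real.log_pow, Real.log_pow, Real.log_pow,
    Real.log_pow] at h
  norm_num at h
  norm_num
  linarith

/-- `F` in terms of `n`, `K` and the centred second moment -/
theorem choose_eq (M i : ℕ) : (i.choose 2 : ℝ) =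
    ((2 * M + 4) * (i : ℝ) - (M + 5 / 2) ^ 2 + ((i : ℝ) - (M + 5 / 2)) ^ 2) / 2 := by
  rw [Nat.cast_choose_two]
  ring

theorem F_eq {M n b : ℕ} (k : ℕ → ℕ) (hn : ∑ i ∈ Icc 1 b, k i * i = n) :
    ∑ i ∈ Icc 1 b, (k i : ℝ) * (i.choose 2 : ℝ) = ((2 * M + 4) * (n : ℝ) -
      (M + 5 / 2) ^ 2 * ∑ i ∈ Icc 1 b, (k i : ℝ) +
      ∑ i ∈ Icc 1 b, (k i : ℝ) * ((i : ℝ) - (M + 5 / 2)) ^ 2) / 2 := by
  have hn' : (n : ℝ) = ∑ i ∈ Icc 1 b, (k i : ℝ) * i := by
    rw [← hn]
    push_cast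
    rfl
  rw [hn', mul_sum, mul_sum, ← sum_sub_distrib, ← sum_add_distrib, sum_div]
  apply sum_congr rfl
  intro i _
  rw [choose_eq M i]
  ring

/-- convexity of `K log K` -/
theorem klogk {K K₁ : ℝ} (h : 0 < K) (h1 : 0 < K₁) :
    K₁ * Real.log K₁ + (K - K₁) * (Real.log K₁ + 1) ≤ K * Real.log K := by
  have h2 := Real.one_sub_inv_le_log_of_pos (x := K / K₁) (by positivity)
  rw [Real.log_div h.ne' h1.ne', inv_div] at h2
  have h3 := mul_le_mul_of_nonneg_left h2 h.le
  have e : K * (1 - K₁ / K) = K - K₁ := by field_simp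
  rw [e] at h3
  linarith

/-- a growing lower bound for `t` -/
theorem t_big {M t : ℕ} (hM : 1000000 ≤ M)
    (h : |Real.log (6 * t) - Real.log 2 / 2 * (M + 5 / 2)| ≤ 1 / 1000) (ht : 1 ≤ t) :
    0 ≤ Real.log (6 * (t : ℝ)) ∧ Real.log (6 * (t : ℝ)) ≤ M / 2 ∧
      6 * (1 + (M : ℝ) / 2) ≤ 1 / 1000 * t := by
  have hM' : (1000000 : ℝ) ≤ M := by exact_mod_cast hM
  have ht' : (1 : ℝ) ≤ t := by exact_mod_cast ht
  have l1 := Real.log_two_gt_d9
  have l2 := Real.log_two_lt_d9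
  obtain ⟨h1, h2⟩ := abs_le.1 h
  refine ⟨Real.log_nonneg (by linarith), by nlinarith, ?_⟩
  have h3 : (M : ℝ) / 3 ≤ Real.log (6 * t) := by nlinarith
  have h4 := Real.exp_le_exp.2 h3
  rw [Real.exp_log (by positivity)] at h4
  have h5 := Real.pow_div_factorial_le_exp (x := (M : ℝ) / 3) (by positivity) 3
  have e : (Nat.factorial 3 : ℝ) = 6 := by norm_num [Nat.factorial]
  rw [e] at h5
  have h6 : ((M : ℝ) / 3) ^ 3 / 6 = (M : ℝ) ^ 3 / 162 := by ring
  rw [h6] at h5
  have h7 : (M : ℝ) * 1000000 ^ 2 ≤ (M : ℝ) ^ 3 := by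
    have : (1000000 : ℝ) ^ 2 ≤ (M : ℝ) ^ 2 := by
      apply pow_le_pow_left₀ (by norm_num) hM'
    nlinarith
  nlinarith

/-- the constant `log M! - M log M` -/
theorem a_bounds {M : ℕ} (hM : 1000000 ≤ M) :
    -(M : ℝ) ≤ Real.log (M.factorial : ℝ) - M * Real.log M ∧
      Real.log (M.factorial : ℝ) - M * Real.log M ≤ -(3 / 4 * M) + 2 := by
  have hM' : (1000000 : ℝ) ≤ M := by exact_mod_cast hM
  have h1 := log_fact_ge M
  have h2 := log_fact_le (k := M) (by omega)
  have h3 := Real.log_le_sub_one_of_pos (x := (M : ℝ) / 4) (by positivity)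
  rw [Real.log_div (by positivity) (by norm_num)] at h3
  have h4 : Real.log 4 ≤ 2 := by
    have := Real.log_two_lt_d9
    have e : Real.log 4 = 2 * Real.log 2 := by
      rw [show (4 : ℝ) = 2 ^ 2 by norm_num, Real.log_pow]
      norm_num
    linarith
  constructor <;> linarith

/-- sums over the profile `kap1` -/
theorem kap1_sums {M s w v : ℕ} (hs : 0 < s) (hv : 8 * s = w + v) (hv0 : 0 < v) :
    (∀ j, 1 ≤ kap1 s w j) ∧ (∑ j, (kap1 s w j : ℝ)) = 26 * s ∧
    (∑ j, (kap1 s w j : ℝ) * ((M + (j : ℕ)).choose 2 : ℝ) =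
      ((2 * M + 4) * (26 * s * (M + 5 / 2) + w) - (M + 5 / 2) ^ 2 * (26 * s) + 69 / 2 * s) / 2) ∧
    (∑ j, (kap1 s w j : ℝ) * Real.log (kap1 s w j) ≤
      26 * s * Real.log s + 64 * s * Real.log 2 + 2 * w) ∧
    (∑ j, kap1 s w j * (M + (j : ℕ)) = 13 * s * (2 * M + 5) + w) := by
  have e8 : 8 * s - w = v := by omega
  have hvr : 8 * (s : ℝ) = w + v := by exact_mod_cast hv
  have hs' : (0 : ℝ) < s := by exact_mod_cast hs
  have hv' : (0 : ℝ) < v := by exact_mod_cast hv0
  have hw' : (0 : ℝ) ≤ w := Nat.cast_nonneg w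
  have hk : kap1 s w = ![s, 4 * s, v, 8 * s + w, 4 * s, s] := by
    unfold kap1
    rw [e8]
  rw [hk]
  refine ⟨?_, ?_, ?_, ?_, ?_⟩
  · intro j
    fin_cases j <;> simp <;> omega
  · simp only [Fin.sum_univ_six]
    simp
    linarith
  · simp only [Fin.sum_univ_six]
    simp only [Nat.cast_choose_two]
    simp
    have hvr' : (v : ℝ) = 8 * s - w := by linarith
    rw [hvr']
    ring
  · simp only [Fin.sum_univ_six]
    simp
    have l4 : Real.log (4 * (s : ℝ)) = 2 * Real.log 2 + Real.log s := by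
      rw [Real.log_mul (by norm_num) hs'.ne', show (4 : ℝ) = 2 ^ 2 by norm_num, Real.log_pow]
      norm_num
    have l8 : Real.log (8 * (s : ℝ)) = 3 * Real.log 2 + Real.log s := by
      rw [Real.log_mul (by norm_num) hs'.ne', show (8 : ℝ) = 2 ^ 3 by norm_num, Real.log_pow]
      norm_num
    have h1 : Real.log v ≤ Real.log (8 * (s : ℝ)) := Real.log_le_log hv' (by linarith)
    have h2 : Real.log (8 * (s : ℝ) + w) ≤ Real.log (8 * (s : ℝ)) + w / (8 * s) := by
      have e : 8 * (s : ℝ) + w = 8 * s * (1 + w / (8 * s)) := by field_simp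
      rw [e, Real.log_mul (by positivity) (by positivity)]
      have := Real.log_le_sub_one_of_pos (x := 1 + (w : ℝ) / (8 * s)) (by positivity)
      linarith
    have h3 : (v : ℝ) * Real.log v ≤ v * Real.log (8 * (s : ℝ)) :=
      mul_le_mul_of_nonneg_left h1 hv'.le
    have h4 : (8 * (s : ℝ) + w) * Real.log (8 * (s : ℝ) + w) ≤
        (8 * (s : ℝ) + w) * (Real.log (8 * (s : ℝ)) + w / (8 * s)) :=
      mul_le_mul_of_nonneg_left h2 (by positivity)
    have h5 : (8 * (s : ℝ) + w) * (w / (8 * s)) ≤ 2 * w := by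
      have : (8 * (s : ℝ) + w) * (w / (8 * s)) = (8 * (s : ℝ) + w) / (8 * s) * w := by ring
      rw [this]
      apply mul_le_mul_of_nonneg_right _ hw'
      rw [div_le_iff₀ (by positivity)]
      linarith
    rw [l4]
    rw [l8] at h3 h4
    have hvr' : (v : ℝ) = 8 * s - w := by linarith
    have h6 : (v : ℝ) * (3 * Real.log 2 + Real.log s) + (8 * (s : ℝ) + w) *
        (3 * Real.log 2 + Real.log s) = 16 * s * (3 * Real.log 2 + Real.log s) := by
      rw [hvr']; ring
    nlinarith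
  · simp only [Fin.sum_univ_six]
    simp
    have hz : (8 * (s : ℤ)) = w + v := by exact_mod_cast hv
    have : ((s * M + 4 * s * (M + 1) + v * (M + 2) + (8 * s + w) * (M + 3) + 4 * s * (M + 4) +
      s * (M + 5) : ℕ) : ℤ) = ((13 * s * (2 * M + 5) + w : ℕ) : ℤ) := by
      push_cast
      have hv2 : (v : ℤ) = 8 * s - w := by linarith
      rw [hv2]
      ring
    exact_mod_cast this

/-- sums over the profile `kap2` -/
theorem kap2_sums {M t : ℕ} (ht : 0 < t) :
    (∀ j, 1 ≤ kap2 t j) ∧ (∑ j, (kap2 t j : ℝ)) = 6 * t ∧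
    (∑ j, (kap2 t j : ℝ) * Real.log (kap2 t j) = 6 * t * Real.log t) ∧
    (∑ j : Fin 6, kap2 t j * (M + (j : ℕ)) = 3 * t * (2 * M + 5)) := by
  refine ⟨fun j => ht, ?_, ?_, ?_⟩
  · simp [kap2]
  · simp [kap2]
    ring
  · simp only [Fin.sum_univ_six, kap2]
    simp
    ring

theorem q_ineq {M : ℝ} (hM : 1000000 ≤ M) : M + 35 / 100 * (M + 5 / 2) ^ 2 ≤ M ^ 2 := by
  nlinarith

theorem st_ineq {s t M : ℝ} (h : 13 * s ≤ 3 * t) (h2 : (1000000 : ℝ) ^ 2 ≤ M ^ 2)
    (hu : (3 * t - 13 * s) * M ^ 2 ≤ 6 * t) : t / 5 ≤ s := by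
  have : (3 * t - 13 * s) * 1000000 ^ 2 ≤ 6 * t :=
    le_trans (mul_le_mul_of_nonneg_left h2 (by linarith)) hu
  nlinarith

/-- the error terms `∑ (1 + log κ_j)` -/
theorem err_le {κ : Fin 6 → ℕ} {L : ℝ} {t : ℕ} (h1 : ∀ j, 1 ≤ κ j)
    (h2 : ∑ j, (κ j : ℝ) ≤ 6 * t) (hL : Real.log (6 * (t : ℝ)) ≤ L) :
    ∑ j, (1 + Real.log (κ j)) ≤ 6 * (1 + L) := by
  have h3 : ∀ j ∈ (univ : Finset (Fin 6)), 1 + Real.log (κ j) ≤ 1 + L := by
    intro j _
    have h4 : (κ j : ℝ) ≤ ∑ j, (κ j : ℝ) :=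
      single_le_sum (f := fun j => (κ j : ℝ)) (fun i _ => Nat.cast_nonneg _) (mem_univ j)
    have h5 : (0 : ℝ) < κ j := by exact_mod_cast h1 j
    have h6 := Real.log_le_log h5 (h4.trans h2)
    linarith
  refine (sum_le_sum h3).trans (le_of_eq ?_)
  rw [sum_const, card_univ, Fintype.card_fin, nsmul_eq_mul]
  norm_num

end Contra

open Contra in
/-- a profile cannot be close to both optima -/
theorem contra : ∃ e : ℝ, 0 < e ∧ ∃ M0 : ℕ, ∀ M : ℕ, M0 ≤ M → ∀ t s w : ℕ,
    0 < s → 13 * s ≤ 3 * t → w = (2 * M + 5) * (3 * t - 13 * s) → (w : ℝ) ≤ e * s →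
    ((3 * t - 13 * s : ℕ) : ℝ) * (M : ℝ) ^ 2 ≤ 6 * t →
    |Real.log (6 * t) - Real.log 2 / 2 * (M + 5 / 2)| ≤ e →
    0 ≤ LE M (3 * t * (2 * M + 5)) (kap2 t) →
    LE M (3 * t * (2 * M + 5)) (kap2 t) ≤ e * t →
    0 ≤ LE M (3 * t * (2 * M + 5)) (kap1 s w) →
    LE M (3 * t * (2 * M + 5)) (kap1 s w) ≤ e * t →
    ∀ k : ℕ → ℕ, (∑ i ∈ Icc 1 (2 * M), k i * i = 3 * t * (2 * M + 5)) →
    -(e * t) ≤ LG (3 * t * (2 * M + 5)) (2 * M) k →
    ((∑ i ∈ Icc 1 (2 * M), k i : ℕ) : ℝ) ≤ 26 * s + e * t / (M : ℝ) ^ 2 →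
    (∑ j : Fin 6, (kap2 t j : ℝ) * ((M + (j : ℕ)).choose 2 : ℝ)) - e * t ≤
      ∑ i ∈ Icc 1 (2 * M), (k i : ℝ) * (i.choose 2 : ℝ) → False := by
  refine ⟨1 / 1000, by norm_num, 1000000, ?_⟩
  intro M hM t s w hs hst hw hws hu hlog _ hE2 _ hE1 k hk hLG hK hF
  have hM' : (1000000 : ℝ) ≤ M := by exact_mod_cast hM
  have hM0 : (0 : ℝ) < M := by linarith
  have ht : 1 ≤ t := by omega
  have ht' : (1 : ℝ) ≤ t := by exact_mod_cast ht
  have hs' : (1 : ℝ) ≤ s := by exact_mod_cast hs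
  have l1 := Real.log_two_gt_d9
  have l2 := Real.log_two_lt_d9
  obtain ⟨q1, q2, q3⟩ := t_big hM hlog ht
  obtain ⟨a1, a2⟩ := a_bounds hM
  set a := Real.log (M.factorial : ℝ) - M * Real.log M with ha
  -- the relation between `s` and `t`
  have hst' : 13 * (s : ℝ) ≤ 3 * t := by exact_mod_cast hst
  have hur : ((3 * t - 13 * s : ℕ) : ℝ) = 3 * t - 13 * s := by
    rw [Nat.cast_sub hst]
    push_cast
    ring
  rw [hur] at hu
  have hM2 : (1000000 : ℝ) ^ 2 ≤ (M : ℝ) ^ 2 := pow_le_pow_left₀ (by norm_num) hM' 2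
  have hst2 : (t : ℝ) / 5 ≤ s := st_ineq hst' hM2 hu
  have hws8 : w < 8 * s := by
    have : (w : ℝ) < 8 * s := by linarith
    exact_mod_cast this
  obtain ⟨v, hv, hv0⟩ : ∃ v : ℕ, 8 * s = w + v ∧ 0 < v := ⟨8 * s - w, by omega, by omega⟩
  obtain ⟨b1, b2, b3, b4, b5⟩ := kap1_sums (M := M) hs hv hv0
  obtain ⟨c1, c2, c3, c4⟩ := kap2_sums (M := M) (t := t) ht
  have hw2 : 13 * s * (2 * M + 5) + w = 3 * t * (2 * M + 5) := by
    obtain ⟨u, hu'⟩ := Nat.exists_eq_add_of_le hst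
    have : 3 * t - 13 * s = u := by omega
    rw [this] at hw
    rw [hw, hu']
    ring
  rw [hw2] at b5
  -- the profile `k`
  set K := ∑ i ∈ Icc 1 (2 * M), (k i : ℝ) with hKdef
  set F := ∑ i ∈ Icc 1 (2 * M), (k i : ℝ) * (i.choose 2 : ℝ) with hFdef
  set S := ∑ i ∈ Icc 1 (2 * M), (k i : ℝ) * Real.log (k i) with hSdef
  set Q := ∑ i ∈ Icc 1 (2 * M), (k i : ℝ) * ((i : ℝ) - (M + 5 / 2)) ^ 2 with hQdef
  have hKK : ((∑ i ∈ Icc 1 (2 * M), k i : ℕ) : ℝ) = K := by
    rw [hKdef]; push_cast; rfl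
  rw [hKK] at hK
  have p1 := LG_le (by omega : 1 ≤ M) k hk
  rw [← ha, ← hKdef, ← hFdef, ← hSdef] at p1
  have p2 := LE_ge (by omega : 1 ≤ M) (kap1 s w) b5 b1
  have p3 := LE_ge (by omega : 1 ≤ M) (kap2 t) c4 c1
  rw [← ha, b2, b3] at p2
  rw [← ha, c2, c3] at p3
  have p4 := F_eq (M := M) k hk
  rw [← hFdef, ← hKdef, ← hQdef] at p4
  have hnr : ((3 * t * (2 * M + 5) : ℕ) : ℝ) = 26 * s * (M + 5 / 2) + w := by
    rw [← hw2]
    push_cast
    ring
  rw [hnr] at p4
  have r1 := err_le b1 (by rw [b2]; linarith) q2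
  have r2 := err_le c1 (by rw [c2]) q2
  set F2 := ∑ j : Fin 6, (kap2 t j : ℝ) * ((M + (j : ℕ)).choose 2 : ℝ) with hF2
  set cn := Real.log ((3 * t * (2 * M + 5) : ℕ).factorial : ℝ) -
    ((3 * t * (2 * M + 5) : ℕ) : ℝ) * Real.log M with hcn
  -- `K` is positive
  have hn0 : 0 < ∑ i ∈ Icc 1 (2 * M), k i * i := by rw [hk]; positivity
  have hKpos : 0 < K := by
    by_contra hneg
    have hK0 : 0 ≤ K := sum_nonneg fun i _ => Nat.cast_nonneg _
    have hK0' : K = 0 := le_antisymm (not_lt.1 hneg) hK0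
    have hk0 := (sum_eq_zero_iff_of_nonneg
      (fun i _ => (Nat.cast_nonneg (k i) : (0 : ℝ) ≤ k i))).1 hK0'
    have : ∑ i ∈ Icc 1 (2 * M), k i * i = 0 := by
      apply sum_eq_zero
      intro i hi
      have : k i = 0 := by exact_mod_cast hk0 i hi
      rw [this, zero_mul]
    omega
  -- Gibbs
  have g1 := gibbs (k := k) (fun i (_ : i ∈ Icc 1 (2 * M)) => qq_pos M i)
    (sum_qq M (by omega)) (by norm_num)
  rw [← hKdef, ← hSdef] at g1
  have g2 : ∑ i ∈ Icc 1 (2 * M), (k i : ℝ) * Real.log (qq M i) = -(2 / 5 * Real.log 2 * Q) := by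
    rw [hQdef, mul_sum, ← sum_neg_distrib]
    apply sum_congr rfl
    intro i _
    unfold qq
    rw [Real.log_exp]
    ring
  rw [g2] at g1
  -- convexity
  have v1 := klogk hKpos (by positivity : (0 : ℝ) < 26 * s)
  have v2 := klogk hKpos (by positivity : (0 : ℝ) < 6 * t)
  have lt6 : Real.log (6 * (t : ℝ)) = Real.log 6 + Real.log t :=
    Real.log_mul (by norm_num) (by positivity)
  have ls26 : Real.log (26 * (s : ℝ)) = Real.log 26 + Real.log s :=
    Real.log_mul (by norm_num) (by positivity)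
  have ls0 : 0 ≤ Real.log (26 * (s : ℝ)) := Real.log_nonneg (by linarith)
  have lst : Real.log (26 * (s : ℝ)) ≤ Real.log (6 * (t : ℝ)) :=
    Real.log_le_log (by positivity) (by linarith)
  -- the small quantity `e t / M^2`
  set η := 1 / 1000 * (t : ℝ) / (M : ℝ) ^ 2 with hη
  have hη0 : 0 ≤ η := by positivity
  have hηM2 : η * (M : ℝ) ^ 2 = 1 / 1000 * t := by
    rw [hη]
    field_simp
  have hηM : η * (M : ℝ) ≤ 1 / 1000 * t := by
    rw [← hηM2]
    apply mul_le_mul_of_nonneg_left _ hη0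
    exact le_self_pow₀ (by linarith) (by norm_num)
  have hη1 : η ≤ 1 / 1000 * t := by
    rw [← hηM2]
    exact le_mul_of_one_le_right hη0 (one_le_pow₀ (by linarith))
  -- products with the slopes
  have s1 : -(1 / 1000 * (t : ℝ)) ≤ (K - 6 * t) * (Real.log (6 * (t : ℝ)) + a) := by
    have h1 : Real.log (6 * (t : ℝ)) + a ≤ 0 := by linarith only [q2, a2, hM']
    have h2 : -(Real.log (6 * (t : ℝ)) + a) ≤ M := by linarith only [q1, a1]
    have h3 : K - 6 * t ≤ η := by linarith only [hK, hst']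
    have h4 : (K - 6 * t) * -(Real.log (6 * (t : ℝ)) + a) ≤ η * M := by
      apply le_trans (mul_le_mul_of_nonneg_right h3 (by linarith only [h1]))
      exact mul_le_mul_of_nonneg_left h2 hη0
    linarith only [h4, hηM]
  have s2 : -(1 / 1000 * (t : ℝ)) ≤ (K - 26 * s) *
      (Real.log (26 * (s : ℝ)) + a - Real.log 2 / 2 * (M + 5 / 2) ^ 2) := by
    have h1 : Real.log (26 * (s : ℝ)) + a - Real.log 2 / 2 * (M + 5 / 2) ^ 2 ≤ 0 := by
      have h0 : 0 ≤ Real.log 2 / 2 * ((M : ℝ) + 5 / 2) ^ 2 := by positivity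
      linarith only [h0, lst, q2, a2, hM']
    have h2 : -(Real.log (26 * (s : ℝ)) + a - Real.log 2 / 2 * (M + 5 / 2) ^ 2) ≤
        (M : ℝ) ^ 2 := by
      have h5 : Real.log 2 / 2 * ((M : ℝ) + 5 / 2) ^ 2 ≤ 35 / 100 * ((M : ℝ) + 5 / 2) ^ 2 := by
        apply mul_le_mul_of_nonneg_right _ (by positivity)
        linarith only [l2]
      have h6 := q_ineq hM'
      linarith only [h5, h6, ls0, a1]
    have h3 : K - 26 * s ≤ η := by linarith only [hK]
    have h4 : (K - 26 * s) * -(Real.log (26 * (s : ℝ)) + a - Real.log 2 / 2 * (M + 5 / 2) ^ 2) ≤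
        η * (M : ℝ) ^ 2 := by
      apply le_trans (mul_le_mul_of_nonneg_right h3 (by linarith only [h1]))
      exact mul_le_mul_of_nonneg_left h2 hη0
    linarith only [h4, hηM2]
  -- the error terms
  have e1 : 25 / (M : ℝ) * (26 * s) ≤ 1 / 1000 * t := by
    have h1 : 25 / (M : ℝ) ≤ 25 / 1000000 := by
      apply div_le_div_of_nonneg_left (by norm_num) (by norm_num) hM'
    have h2 : 25 / (M : ℝ) * (26 * s) ≤ 25 / 1000000 * (6 * t) :=
      mul_le_mul h1 (by linarith only [hst']) (by positivity) (by norm_num)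
    linarith only [h2, ht']
  have e2 : 25 / (M : ℝ) * (6 * t) ≤ 1 / 1000 * t := by
    have h1 : 25 / (M : ℝ) ≤ 25 / 1000000 := by
      apply div_le_div_of_nonneg_left (by norm_num) (by norm_num) hM'
    have h2 : 25 / (M : ℝ) * (6 * t) ≤ 25 / 1000000 * (6 * t) :=
      mul_le_mul_of_nonneg_right h1 (by positivity)
    linarith only [h2, ht']
  -- comparison with `kap2`
  have x1 : 6 * t * Real.log 6 - 7 / 1000 * t ≤ K * Real.log K - S := by
    have h0 : F2 - F ≤ 1 / 1000 * t := by linarith only [hF]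
    have h1 : Real.log 2 * (F2 - F) ≤ 1 / 1000 * t := by
      have h2 : Real.log 2 * (F2 - F) ≤ Real.log 2 * (1 / 1000 * t) :=
        mul_le_mul_of_nonneg_left h0 (by linarith only [l1])
      have h3 : Real.log 2 * (1 / 1000 * t) ≤ 1 * (1 / 1000 * t) :=
        mul_le_mul_of_nonneg_right (by linarith only [l2]) (by positivity)
      linarith only [h2, h3]
    have h4 : (t : ℝ) * Real.log (6 * t) = t * Real.log 6 + t * Real.log t := by rw [lt6]; ring
    linarith only [p1, p3, hLG, hE2, v2, s1, h1, h4, r2, q3, e2]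
  -- comparison with `kap1`
  have x2 : s * (26 * Real.log 26 - 325 / 4 * Real.log 2) - 2 * w - 6 / 1000 * t ≤
      K * Real.log K - S - Real.log 2 / 2 * Q := by
    have h4 : (s : ℝ) * Real.log (26 * s) = s * Real.log 26 + s * Real.log s := by
      rw [ls26]; ring
    have h5 := congrArg (fun x => Real.log 2 * x) p4
    linarith only [p1, p2, hLG, hE1, v1, s2, h4, h5, r1, q3, e1, b4]
  have hΘ : Real.log (338 / 100) ≤ 2 := by
    have := Real.log_le_sub_one_of_pos (x := 338 / 100 / 2) (by norm_num)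
    rw [Real.log_div (by norm_num) (by norm_num)] at this
    linarith only [this, l2]
  have hΘ0 : 0 ≤ Real.log (338 / 100) := Real.log_nonneg (by norm_num)
  have hmar := margin
  -- combine
  have y1 : K * Real.log (338 / 100) ≤ 26 * s * Real.log (338 / 100) + 2 * η := by
    have h1 : K * Real.log (338 / 100) ≤ (26 * s + η) * Real.log (338 / 100) :=
      mul_le_mul_of_nonneg_right (by linarith only [hK]) hΘ0
    have h2 : η * Real.log (338 / 100) ≤ η * 2 := mul_le_mul_of_nonneg_left hΘ hη0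
    linarith only [h1, h2]
  have y2 : K * Real.log K - S ≤ 5 * (26 * s * Real.log (338 / 100) + 2 * η) -
      4 * (s * (26 * Real.log 26 - 325 / 4 * Real.log 2) - 2 * w - 6 / 1000 * t) := by
    linarith only [g1, x2, y1]
  have y3 : 26 * s * Real.log 6 ≤ 6 * t * Real.log 6 := by
    apply mul_le_mul_of_nonneg_right (by linarith only [hst']) (Real.log_nonneg (by norm_num))
  have y4 : s * (12 / 100) ≤ s * (2 * Real.log 6 + 8 * Real.log 26 -
      10 * Real.log (338 / 100) - 25 * Real.log 2) :=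
    mul_le_mul_of_nonneg_left hmar (by linarith only [hs'])
  linarith only [x1, y2, y3, y4, hst2, hst', hws, hη1, ht']

end Pool.RG
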