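import Mathlib

/-!
# MP_004c3d_co : common definitions

`pr n P` is the proportion of labelled graphs on `Fin n` with property `P`.
-/

namespace Pool.RG

open Finset

/-- proper colouring -/
def IsProper {V : Type} (G : SimpleGraph V) (r : V → ℕ) : Prop := ∀ u v, G.Adj u v → r u ≠ r v

/-- number of proper colourings `c : V → {0, …, x-1}` with `c v ≠ r v` for all `v`
(colours are indexed from `0` instead of `1`) -/
noncomputable def rcount {V : Type} (G : SimpleGraph V) (r : V → ℕ) (x : ℕ) : ℕ :=
  Nat.card {c : V → Fin x // (∀ u v, G.Adj u v → c u ≠ c v) ∧ ∀ v, (c v : ℕ) ≠ r v}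

/-- maximizing standard simple restraint -/
def IsMaximizing {V : Type} (G : SimpleGraph V) (r : V → ℕ) : Prop :=
  ∀ r' : V → ℕ, ∀ᶠ x in Filter.atTop, rcount G r' x ≤ rcount G r x

/-- proper colouring with exactly `χ(G)` colours -/
def IsMinimalColouring {V : Type} (G : SimpleGraph V) (r : V → ℕ) : Prop :=
  IsProper G r ∧ (Set.range r).encard = G.chromaticNumber

/-- number of common neighbours -/
noncomputable def codeg {V : Type} (G : SimpleGraph V) (u w : V) : ℕ :=
  Nat.card {v : V // G.Adj u v ∧ G.Adj w v}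

/-- sum of the codegrees over the ordered pairs of distinct vertices with the same colour -/
noncomputable def wt {V : Type} [Fintype V] [DecidableEq V] (G : SimpleGraph V) (r : V → ℕ) : ℕ :=
  ∑ u : V, ∑ w : V, if u ≠ w ∧ r u = r w then codeg G u w else 0

/-- number of ordered pairs of distinct vertices with the same colour -/
noncomputable def mono {V : Type} [Fintype V] [DecidableEq V] (r : V → ℕ) : ℕ :=
  ∑ u : V, ∑ w : V, if u ≠ w ∧ r u = r w then 1 else 0

/-- size of the colour class `c` -/
def csize {V : Type} [Fintype V] (r : V → ℕ) (c : ℕ) : ℕ := (univ.filter (fun v => r v = c)).card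

/-- number of colour classes of size `i` (used for `i ≥ 1`) -/
def prof {V : Type} [Fintype V] (r : V → ℕ) (i : ℕ) : ℕ :=
  ((univ.image r).filter (fun c => csize r c = i)).card

/-- proportion of labelled graphs on `Fin n` with property `P` -/
noncomputable def pr (n : ℕ) (P : SimpleGraph (Fin n) → Prop) : ℝ :=
  (Nat.card {G : SimpleGraph (Fin n) // P G} : ℝ) / (Nat.card (SimpleGraph (Fin n)) : ℝ)

/-- `log (i! 2^{C(i,2)})` -/
noncomputable def lw (i : ℕ) : ℝ := Real.log (i.factorial : ℝ) + Real.log 2 * (i.choose 2 : ℝ)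

/-- log of the expected number of unordered partitions of an `n`-set into independent classes,
`k i` of them of size `i` (`1 ≤ i ≤ b`) -/
noncomputable def LG (n b : ℕ) (k : ℕ → ℕ) : ℝ :=
  Real.log (n.factorial : ℝ) - ∑ i ∈ Icc 1 b, ((k i : ℝ) * lw i + Real.log ((k i).factorial : ℝ))

/-- the same for a profile on the six sizes `M, …, M+5` -/
noncomputable def LE (M n : ℕ) (κ : Fin 6 → ℕ) : ℝ :=
  Real.log (n.factorial : ℝ) -
    ∑ j : Fin 6, ((κ j : ℝ) * lw (M + j) + Real.log ((κ j).factorial : ℝ))

/-- number of vertices of a profile on the six sizes `M, …, M+5` -/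
def nv (M : ℕ) (κ : Fin 6 → ℕ) : ℕ := ∑ j : Fin 6, κ j * (M + j)

/-- the partial first moment condition -/
def PP (M : ℕ) (κ : Fin 6 → ℕ) (Δ : ℝ) : Prop :=
  ∀ T : Fin 6 → ℕ, (∀ j, T j ≤ κ j) →
    (∏ j, ((((κ j).choose (T j) : ℕ) : ℝ) * (((κ j).descFactorial (T j) : ℕ) : ℝ) *
        Real.exp ((T j : ℝ) * lw (M + j)))) * (((nv M κ - nv M T).factorial : ℕ) : ℝ)
      ≤ Real.exp Δ * (((nv M κ).factorial : ℕ) : ℝ)

/-- profile of the pair-rich colouring: `t` classes of each size -/
def kap2 (t : ℕ) : Fin 6 → ℕ := fun _ => t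

/-- profile of the colouring with few colours: `s(1,4,8,8,4,1)`, with `w` classes moved from size
`M+2` to size `M+3` -/
def kap1 (s w : ℕ) : Fin 6 → ℕ := ![s, 4 * s, 8 * s - w, 8 * s + w, 4 * s, s]

end Pool.RG
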