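import Pool.Agent.Work.RG.Restraint

/-!
# MP_004c3d_co : profiles, and the deterministic part of the final argument
-/

namespace Pool.RG

open Finset

section Prof

variable {V : Type} [Fintype V] [DecidableEq V]

/-- sums over the profile -/
lemma sum_prof (r : V → ℕ) (b : ℕ) (hb : ∀ c, csize r c ≤ b) (f : ℕ → ℕ) :
    ∑ i ∈ Icc 1 b, prof r i * f i = ∑ c ∈ univ.image r, f (csize r c) := by
  have h1 : ∀ c ∈ univ.image r, csize r c ∈ Icc 1 b := by
    intro c hc
    rw [mem_Icc]
    refine ⟨?_, hb c⟩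
    obtain ⟨v, -, hv⟩ := mem_image.1 hc
    unfold csize
    apply card_pos.2
    exact ⟨v, mem_filter.2 ⟨mem_univ v, hv⟩⟩
  rw [← sum_fiberwise_of_maps_to h1]
  apply sum_congr rfl
  intro i _
  rw [sum_congr rfl (g := fun _ => f i)]
  · rw [sum_const, smul_eq_mul]
    rfl
  · intro c hc
    rw [mem_filter] at hc
    rw [hc.2]

lemma sum_csize (r : V → ℕ) : ∑ c ∈ univ.image r, csize r c = Fintype.card V := by
  have := card_eq_sum_card_image r (univ : Finset V)
  rw [card_univ] at this
  rw [this]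
  rfl

lemma mono_eq_img (r : V → ℕ) : mono r = ∑ c ∈ univ.image r, (csize r c) * (csize r c - 1) := by
  unfold mono
  have h1 : ∀ u : V, ∑ w : V, (if u ≠ w ∧ r u = r w then 1 else 0) = csize r (r u) - 1 := by
    intro u
    rw [← card_filter]
    unfold csize
    have hmem : u ∈ univ.filter (fun v => r v = r u) := mem_filter.2 ⟨mem_univ u, rfl⟩
    rw [← card_erase_of_mem hmem]
    congr 1
    ext w
    simp only [mem_filter, mem_univ, true_and, mem_erase]
    constructor
    · rintro ⟨h, h'⟩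
      exact ⟨fun h'' => h h''.symm, h'.symm⟩
    · rintro ⟨h, h'⟩
      exact ⟨fun h'' => h h''.symm, h'.symm⟩
  rw [sum_congr rfl (fun u _ => h1 u)]
  rw [← sum_fiberwise_of_maps_to (g := r) (t := univ.image r)
    (fun u _ => mem_image_of_mem r (mem_univ u))]
  apply sum_congr rfl
  intro c _
  rw [sum_congr rfl (g := fun _ => csize r c - 1)]
  · rw [sum_const, smul_eq_mul]
    rfl
  · intro u hu
    rw [mem_filter] at hu
    rw [hu.2]

lemma mono_eq_choose (r : V → ℕ) :
    mono r = 2 * ∑ c ∈ univ.image r, (csize r c).choose 2 := by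
  rw [mono_eq_img, mul_sum]
  apply sum_congr rfl
  intro c _
  rw [Nat.choose_two_right, Nat.mul_div_cancel']
  exact (Nat.even_mul_pred_self _).two_dvd

lemma mono_le (r : V → ℕ) (B : ℕ) (hB : ∀ c, csize r c ≤ B) : mono r ≤ Fintype.card V * B := by
  rw [mono_eq_img, ← sum_csize r, sum_mul]
  apply sum_le_sum
  intro c _
  apply Nat.mul_le_mul_left
  exact (Nat.sub_le _ _).trans (hB c)

/-- a class of a proper colouring is independent, so class sizes are bounded -/
lemma csize_le_of_indep {n m : ℕ} (G : SimpleGraph (Fin n))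
    (hind : ∀ A : Finset (Fin n), A.card = m + 1 → ∃ u ∈ A, ∃ v ∈ A, G.Adj u v)
    (r : Fin n → ℕ) (hr : IsProper G r) (c : ℕ) : csize r c ≤ m := by
  by_contra h
  push Not at h
  obtain ⟨A, hA, hAc⟩ := exists_subset_card_eq (s := univ.filter (fun v => r v = c)) (n := m + 1) h
  obtain ⟨u, hu, v, hv, huv⟩ := hind A hAc
  have h1 := (mem_filter.1 (hA hu)).2
  have h2 := (mem_filter.1 (hA hv)).2
  exact hr u v huv (h1.trans h2.symm)

lemma wt_le (G : SimpleGraph V) (r : V → ℕ) (C : ℝ)
    (hC : ∀ u w, u ≠ w → (codeg G u w : ℝ) ≤ C) : (wt G r : ℝ) ≤ C * mono r := by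
  unfold wt mono
  push_cast
  rw [mul_sum]
  apply sum_le_sum
  intro u _
  rw [mul_sum]
  apply sum_le_sum
  intro w _
  split_ifs with h
  · rw [mul_one]; exact hC u w h.1
  · simp

lemma le_wt (G : SimpleGraph V) (r : V → ℕ) (C : ℝ)
    (hC : ∀ u w, u ≠ w → C ≤ (codeg G u w : ℝ)) : C * mono r ≤ (wt G r : ℝ) := by
  unfold wt mono
  push_cast
  rw [mul_sum]
  apply sum_le_sum
  intro u _
  rw [mul_sum]
  apply sum_le_sum
  intro w _
  split_ifs with h
  · rw [mul_one]; exact hC u w h.1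
  · simp

end Prof

/-- a maximizing restraint has almost as many same-colour pairs as any proper colouring -/
theorem mono_ge_of_max {n : ℕ} (hn : 0 < n) (G : SimpleGraph (Fin n)) (D : ℝ) (hD : 0 ≤ D)
    (hcod : ∀ u w, u ≠ w → |(codeg G u w : ℝ) - n / 4| ≤ D)
    (r : Fin n → ℕ) (hr : IsMaximizing G r) (r' : Fin n → ℕ) (hr' : IsProper G r') (B : ℕ)
    (hB : ∀ c, csize r' c ≤ B) : (mono r' : ℝ) - 8 * D * B ≤ mono r := by
  have hn' : (0 : ℝ) < n := by exact_mod_cast hn
  have h1 := maximizing_wt hr hr'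
  have h2 : (wt G r' : ℝ) ≤ wt G r := by exact_mod_cast h1
  have h3 := wt_le G r (n / 4 + D) (fun u w h => by
    have := (abs_le.1 (hcod u w h)).2; linarith)
  have h4 := le_wt G r' (n / 4 - D) (fun u w h => by
    have := (abs_le.1 (hcod u w h)).1; linarith)
  have h5 : ((n : ℝ) / 4 - D) * mono r' ≤ (n / 4 + D) * mono r := by linarith
  have h6 : (mono r' : ℝ) ≤ n * B := by
    have := mono_le r' B hB
    rw [Fintype.card_fin] at this
    exact_mod_cast this
  have hm : (0 : ℝ) ≤ mono r' := Nat.cast_nonneg _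
  -- (1 - 8 D / n) (n/4 + D) ≤ n/4 - D
  have h7 : (n / 4 + D) * ((mono r' : ℝ) - 8 * D / n * mono r') ≤ (n / 4 + D) * mono r := by
    refine le_trans ?_ h5
    have : (n / 4 + D) * ((mono r' : ℝ) - 8 * D / n * mono r') =
        ((n : ℝ) / 4 - D - 8 * D ^ 2 / n) * mono r' := by
      field_simp
      ring
    rw [this]
    apply mul_le_mul_of_nonneg_right _ hm
    have : 0 ≤ 8 * D ^ 2 / (n : ℝ) := by positivity
    linarith
  have h8 : (mono r' : ℝ) - 8 * D / n * mono r' ≤ mono r :=
    le_of_mul_le_mul_left h7 (by positivity)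
  have h9 : 8 * D / n * mono r' ≤ 8 * D * B := by
    calc 8 * D / n * mono r' ≤ 8 * D / n * (n * B) := by gcongr
      _ = 8 * D * B := by field_simp
  linarith

end Pool.RG
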