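import Pool.Agent.Work.RG.OPart

/-!
# MP_004c3d_co : first moment bounds
-/

namespace Pool.RG

open Finset

variable {n : ℕ}

/-- unordered pairs inside a set of vertices -/
def pairsIn (B : Finset (Fin n)) : Finset (Sym2 (Fin n)) := B.offDiag.image (fun p => s(p.1, p.2))

lemma mem_pairsIn {B : Finset (Fin n)} {e : Sym2 (Fin n)} :
    e ∈ pairsIn B ↔ ∃ u ∈ B, ∃ v ∈ B, u ≠ v ∧ e = s(u, v) := by
  unfold pairsIn
  simp only [mem_image, mem_offDiag, Prod.exists]
  constructor
  · rintro ⟨u, v, ⟨hu, hv, huv⟩, rfl⟩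
    exact ⟨u, hu, v, hv, huv, rfl⟩
  · rintro ⟨u, hu, v, hv, huv, rfl⟩
    exact ⟨u, v, ⟨hu, hv, huv⟩, rfl⟩

lemma card_pairsIn (B : Finset (Fin n)) : (pairsIn B).card = B.card.choose 2 :=
  Sym2.card_image_offDiag B

lemma pairsIn_not_isDiag {B : Finset (Fin n)} {e : Sym2 (Fin n)} (h : e ∈ pairsIn B) :
    ¬ e.IsDiag := by
  rw [mem_pairsIn] at h
  obtain ⟨u, -, v, -, huv, rfl⟩ := h
  simpa using huv

lemma indep_iff_pairsIn (G : SimpleGraph (Fin n)) (B : Finset (Fin n)) :
    Indep G B ↔ ∀ e ∈ pairsIn B, e ∉ G.edgeSet := by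
  constructor
  · intro h e he
    rw [mem_pairsIn] at he
    obtain ⟨u, hu, v, hv, -, rfl⟩ := he
    rw [SimpleGraph.mem_edgeSet]
    exact h u hu v hv
  · intro h u hu v hv huv
    exact h s(u, v) (mem_pairsIn.2 ⟨u, hu, v, hv, huv.ne, rfl⟩)
      (by rw [SimpleGraph.mem_edgeSet]; exact huv)

lemma pr_indep_set (B : Finset (Fin n)) :
    pr n (fun G => Indep G B) = (1 / 2 : ℝ) ^ (B.card.choose 2) := by
  rw [← card_pairsIn, ← pr_absent (pairsIn B) (fun e he => pairsIn_not_isDiag he)]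
  exact pr_congr fun G => indep_iff_pairsIn G B

/-- first moment bound for independent sets of size `m` -/
theorem pr_indep (n m : ℕ) :
    pr n (fun G => ∃ A : Finset (Fin n), A.card = m ∧ ∀ u ∈ A, ∀ v ∈ A, ¬ G.Adj u v)
      ≤ (n.choose m : ℝ) * (1 / 2) ^ (m.choose 2) := by
  have h1 : pr n (fun G => ∃ A : Finset (Fin n), A.card = m ∧ ∀ u ∈ A, ∀ v ∈ A, ¬ G.Adj u v)
      = pr n (fun G => ∃ A ∈ (univ : Finset (Fin n)).powersetCard m, Indep G A) := by
    apply pr_congr
    intro G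
    constructor
    · rintro ⟨A, hA, h⟩
      exact ⟨A, mem_powersetCard.2 ⟨subset_univ _, hA⟩, h⟩
    · rintro ⟨A, hA, h⟩
      exact ⟨A, (mem_powersetCard.1 hA).2, h⟩
  rw [h1]
  refine (pr_exists_le _ _).trans (le_of_eq ?_)
  rw [sum_congr rfl (g := fun _ => (1 / 2 : ℝ) ^ (m.choose 2))
    (fun A hA => by rw [pr_indep_set, (mem_powersetCard.1 hA).2])]
  rw [sum_const, card_powersetCard, card_univ, Fintype.card_fin, nsmul_eq_mul]

section fixed

variable {ι : Type} [Fintype ι] [DecidableEq ι]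

/-- the probability that all classes of an ordered partition are independent -/
theorem pr_OP_indep (b : ι → ℕ) {g : ι → Finset (Fin n)}
    (hg : g ∈ OP b (univ : Finset ι) (univ : Finset (Fin n))) :
    pr n (fun G => ∀ i, Indep G (g i)) = (1 / 2 : ℝ) ^ (∑ i, (b i).choose 2) := by
  rw [mem_OP] at hg
  obtain ⟨-, h2, h3, -⟩ := hg
  set D : Finset (Sym2 (Fin n)) := univ.biUnion (fun i => pairsIn (g i)) with hDdef
  have hD : ∀ e ∈ D, ¬ e.IsDiag := by
    intro e he
    rw [hDdef, mem_biUnion] at he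
    obtain ⟨i, -, hi⟩ := he
    exact pairsIn_not_isDiag hi
  have hcard : D.card = ∑ i, (b i).choose 2 := by
    rw [hDdef, card_biUnion]
    · exact sum_congr rfl fun i _ => by rw [card_pairsIn, h2 i (mem_univ i)]
    · intro i _ j _ hij
      show Disjoint (pairsIn (g i)) (pairsIn (g j))
      rw [Finset.disjoint_left]
      intro e he he'
      rw [mem_pairsIn] at he he'
      obtain ⟨u, hu, v, hv, -, rfl⟩ := he
      obtain ⟨u', hu', v', hv', -, h⟩ := he'
      rw [Sym2.eq_iff] at h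
      have hdis := h3 i (mem_univ i) j (mem_univ j) hij
      rw [Finset.disjoint_left] at hdis
      rcases h with ⟨h, -⟩ | ⟨h, -⟩
      · exact hdis hu (h ▸ hu')
      · exact hdis hu (h ▸ hv')
  rw [← hcard, ← pr_absent D hD]
  apply pr_congr
  intro G
  simp_rw [indep_iff_pairsIn]
  constructor
  · intro h e he
    rw [hDdef, mem_biUnion] at he
    obtain ⟨i, -, hi⟩ := he
    exact h i e hi
  · intro h i e he
    exact h e (by rw [hDdef, mem_biUnion]; exact ⟨i, mem_univ i, he⟩)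

open Classical in
/-- if every graph with property `P` has at least `N` ordered partitions into independent classes
then the proportion of graphs with property `P` is at most `|OP| 2^{-F} / N` -/
theorem pr_le_of_count (b : ι → ℕ) (P : SimpleGraph (Fin n) → Prop) (N : ℝ) (hN : 0 < N)
    (h : ∀ G, P G → N ≤ (((OP b (univ : Finset ι) (univ : Finset (Fin n))).filter
      (fun g => ∀ i, Indep G (g i))).card : ℝ)) :
    pr n P ≤ ((OP b (univ : Finset ι) (univ : Finset (Fin n))).card : ℝ) *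
      (1 / 2) ^ (∑ i, (b i).choose 2) / N := by
  set S := OP b (univ : Finset ι) (univ : Finset (Fin n)) with hS
  have h1 : pr n P ≤ pr n (fun G => N ≤ ((S.filter (fun g => ∀ i, Indep G (g i))).card : ℝ)) :=
    pr_mono h
  refine h1.trans ((pr_ge_le (fun G => Nat.cast_nonneg _) hN).trans (le_of_eq ?_))
  congr 1
  have h2 : (fun G : SimpleGraph (Fin n) =>
      ((S.filter (fun g => ∀ i, Indep G (g i))).card : ℝ))
      = fun G => ∑ g ∈ S, if ∀ i, Indep G (g i) then (1 : ℝ) else 0 := by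
    funext G
    rw [Finset.card_filter]
    push_cast
    rfl
  rw [h2, ex_sum]
  rw [sum_congr rfl (g := fun _ => (1 / 2 : ℝ) ^ (∑ i, (b i).choose 2)) ?_]
  · rw [sum_const, nsmul_eq_mul]
  · intro g hg
    rw [← pr_OP_indep b hg, pr_eq_ex]
    unfold ex
    congr 1
    refine sum_congr rfl fun G _ => ?_
    by_cases hh : ∀ i, Indep G (g i)
    · simp only [if_pos hh]
    · simp only [if_neg hh]

end fixed

/-- index type of the classes of a profile -/
abbrev Idx (b : ℕ) (k : ℕ → ℕ) : Type := Σ i : Fin b, Fin (k (i + 1))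

lemma sum_Idx (b : ℕ) (k : ℕ → ℕ) (f : ℕ → ℕ) :
    ∑ x : Idx b k, f (x.1 + 1) = ∑ i ∈ Icc 1 b, k i * f i := by
  rw [Fintype.sum_sigma]
  simp only [sum_const, card_univ, Fintype.card_fin, smul_eq_mul]
  rw [Fin.sum_univ_eq_sum_range (fun i => k (i + 1) * f (i + 1)) b]
  rw [Finset.range_eq_Ico, Finset.sum_Ico_add' (fun i => k i * f i) 0 b 1]
  rfl

lemma prod_Idx (b : ℕ) (k : ℕ → ℕ) (f : ℕ → ℝ) :
    ∏ x : Idx b k, f (x.1 + 1) = ∏ i ∈ Icc 1 b, f i ^ k i := by
  rw [Fintype.prod_sigma]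
  simp only [prod_const, card_univ, Fintype.card_fin]
  rw [Fin.prod_univ_eq_prod_range (fun i => f (i + 1) ^ k (i + 1)) b]
  rw [Finset.range_eq_Ico, Finset.prod_Ico_add' (fun i => f i ^ k i) 0 b 1]
  rfl

lemma prod_fact_Fin (b : ℕ) (k : ℕ → ℕ) :
    ∏ i : Fin b, ((k (i + 1)).factorial : ℝ) = ∏ i ∈ Icc 1 b, ((k i).factorial : ℝ) := by
  rw [Fin.prod_univ_eq_prod_range (fun i => ((k (i + 1)).factorial : ℝ)) b]
  rw [Finset.range_eq_Ico, Finset.prod_Ico_add' (fun i => ((k i).factorial : ℝ)) 0 b 1]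
  rfl

lemma exp_LG (n b : ℕ) (k : ℕ → ℕ) :
    Real.exp (LG n b k) = (n.factorial : ℝ) / ((∏ i ∈ Icc 1 b, ((i.factorial : ℝ) ^ k i)) *
      (2 : ℝ) ^ (∑ i ∈ Icc 1 b, k i * i.choose 2) * ∏ i ∈ Icc 1 b, ((k i).factorial : ℝ)) := by
  unfold LG lw
  rw [Real.exp_sub, Real.exp_log (by positivity), Real.exp_sum]
  congr 1
  rw [Finset.prod_pow_eq_pow_sum (Icc 1 b) (fun i => k i * i.choose 2) (2 : ℝ) |>.symm,
    ← prod_mul_distrib, ← prod_mul_distrib]
  apply prod_congr rfl
  intro i _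
  rw [Real.exp_add, Real.exp_log (by positivity), mul_add, Real.exp_add]
  congr 2
  · rw [mul_comm, Real.exp_mul, Real.exp_log (by positivity), Real.rpow_natCast]
  · rw [show (k i : ℝ) * (Real.log 2 * (i.choose 2 : ℝ)) = Real.log 2 * ((k i * i.choose 2 : ℕ) : ℝ)
      by push_cast; ring, Real.exp_mul, Real.exp_log (by norm_num), Real.rpow_natCast]


/-- the classes of size `i` of a colouring -/
abbrev ClsOf (r : Fin n → ℕ) (i : ℕ) : Type :=
  {c : ℕ // c ∈ (univ.image r).filter (fun c => csize r c = i)}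

lemma card_ClsOf (r : Fin n → ℕ) (i : ℕ) : Fintype.card (ClsOf r i) = prof r i := by
  rw [Fintype.card_coe]
  rfl

/-- ordered partition from bijections onto the colour classes -/
def mkOP {b : ℕ} {k : ℕ → ℕ} (r : Fin n → ℕ)
    (σ : ∀ i : Fin b, Fin (k (i + 1)) ≃ ClsOf r (i + 1)) : Idx b k → Finset (Fin n) :=
  fun x => univ.filter (fun v => r v = (σ x.1 x.2).1)

lemma mkOP_inj {b : ℕ} {k : ℕ → ℕ} (r : Fin n → ℕ) :
    Function.Injective (mkOP (b := b) (k := k) r) := by
  intro σ σ' h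
  funext i
  ext j
  have h1 := congrFun h ⟨i, j⟩
  simp only [mkOP] at h1
  have h2 := (σ i j).2
  rw [mem_filter, mem_image] at h2
  obtain ⟨⟨v, -, hv⟩, -⟩ := h2
  have h3 : v ∈ univ.filter (fun v => r v = (σ i j).1) := by
    rw [mem_filter]; exact ⟨mem_univ v, hv⟩
  rw [h1, mem_filter] at h3
  rw [← hv, h3.2]

lemma mkOP_mem {b : ℕ} {k : ℕ → ℕ} {r : Fin n → ℕ} (hb : ∀ c, csize r c ≤ b)
    (σ : ∀ i : Fin b, Fin (k (i + 1)) ≃ ClsOf r (i + 1)) :
    mkOP r σ ∈ OP (fun x : Idx b k => (x.1 : ℕ) + 1) univ univ := by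
  rw [mem_OP]
  refine ⟨fun i hi => absurd (mem_univ i) hi, ?_, ?_, ?_⟩
  · rintro ⟨i, j⟩ -
    have h2 := (σ i j).2
    rw [mem_filter] at h2
    exact h2.2
  · rintro ⟨i, j⟩ - ⟨i', j'⟩ - hne
    rw [Finset.disjoint_left]
    intro v hv hv'
    simp only [mkOP, mem_filter, mem_univ, true_and] at hv hv'
    apply hne
    have h2 := (σ i j).2
    have h2' := (σ i' j').2
    rw [mem_filter] at h2 h2'
    rw [← hv] at h2
    rw [← hv'] at h2'
    have hii : i = i' := by
      apply Fin.ext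
      have := h2.2.symm.trans h2'.2
      omega
    subst hii
    have hjj : j = j' := by
      apply (σ i).injective
      apply Subtype.ext
      rw [← hv, ← hv']
    rw [hjj]
  · rw [eq_univ_iff_forall]
    intro v
    rw [mem_biUnion]
    have h1 : 1 ≤ csize r (r v) := by
      unfold csize
      rw [Nat.one_le_iff_ne_zero, Ne, card_eq_zero, ← Ne, ← nonempty_iff_ne_empty]
      exact ⟨v, by rw [mem_filter]; exact ⟨mem_univ v, rfl⟩⟩
    have h2 := hb (r v)
    have h3 : csize r (r v) - 1 < b := by omega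
    have h4 : r v ∈ (univ.image r).filter
        (fun c => csize r c = ((⟨csize r (r v) - 1, h3⟩ : Fin b) : ℕ) + 1) := by
      rw [mem_filter, mem_image]
      refine ⟨⟨v, mem_univ v, rfl⟩, ?_⟩
      show csize r (r v) = csize r (r v) - 1 + 1
      omega
    refine ⟨⟨⟨csize r (r v) - 1, h3⟩, (σ ⟨csize r (r v) - 1, h3⟩).symm ⟨r v, h4⟩⟩, mem_univ _, ?_⟩
    simp [mkOP]

open Classical in
/-- number of ordered partitions given by a proper colouring with a fixed profile -/
lemma count_OP {b : ℕ} {k : ℕ → ℕ} {r : Fin n → ℕ} {G : SimpleGraph (Fin n)}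
    (hr : IsProper G r) (hb : ∀ c, csize r c ≤ b) (hk : ∀ i ∈ Icc 1 b, prof r i = k i) :
    ∏ i ∈ Icc 1 b, ((k i).factorial : ℝ) ≤
      (((OP (fun x : Idx b k => (x.1 : ℕ) + 1) univ univ).filter
        (fun g => ∀ i, Indep G (g i))).card : ℝ) := by
  have h1 : ∀ i : Fin b, Fintype.card (ClsOf r (i + 1)) = k (i + 1) := by
    intro i
    rw [card_ClsOf]
    exact hk _ (by rw [mem_Icc]; exact ⟨by omega, by have := i.2; omega⟩)
  have h2 : Fintype.card (∀ i : Fin b, Fin (k (i + 1)) ≃ ClsOf r (i + 1))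
      = ∏ i : Fin b, (k (i + 1)).factorial := by
    rw [Fintype.card_pi]
    apply prod_congr rfl
    intro i _
    have e : Fin (k (i + 1)) ≃ ClsOf r (i + 1) :=
      Fintype.equivOfCardEq (by rw [Fintype.card_fin, h1])
    rw [Fintype.card_equiv e, Fintype.card_fin]
  have h3 : Fintype.card (∀ i : Fin b, Fin (k (i + 1)) ≃ ClsOf r (i + 1)) ≤
      ((OP (fun x : Idx b k => (x.1 : ℕ) + 1) univ univ).filter
        (fun g => ∀ i, Indep G (g i))).card := by
    rw [← card_univ]
    apply card_le_card_of_injOn (mkOP r)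
    · intro σ _
      rw [mem_coe, mem_filter]
      refine ⟨mkOP_mem hb σ, ?_⟩
      intro x u hu v hv huv
      simp only [mkOP, mem_filter, mem_univ, true_and] at hu hv
      exact hr u v huv (hu.trans hv.symm)
    · exact (mkOP_inj r).injOn
  rw [← prod_fact_Fin]
  calc ∏ i : Fin b, ((k (i + 1)).factorial : ℝ)
      = ((∏ i : Fin b, (k (i + 1)).factorial : ℕ) : ℝ) := by push_cast; rfl
    _ ≤ _ := by rw [← h2]; exact_mod_cast h3

/-- first moment bound for a fixed profile -/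
theorem first_moment_fixed (n b : ℕ) (k : ℕ → ℕ) :
    pr n (fun G => ∃ r : Fin n → ℕ, IsProper G r ∧ (∀ c, csize r c ≤ b) ∧
      ∀ i ∈ Icc 1 b, prof r i = k i) ≤ Real.exp (LG n b k) := by
  classical
  by_cases hex : ∃ r : Fin n → ℕ, (∀ c, csize r c ≤ b) ∧ ∀ i ∈ Icc 1 b, prof r i = k i
  · obtain ⟨r₀, hb₀, hk₀⟩ := hex
    have hN : (0 : ℝ) < ∏ i ∈ Icc 1 b, ((k i).factorial : ℝ) := by positivity
    have h1 := pr_le_of_count (n := n) (fun x : Idx b k => (x.1 : ℕ) + 1)
      (fun G => ∃ r : Fin n → ℕ, IsProper G r ∧ (∀ c, csize r c ≤ b) ∧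
        ∀ i ∈ Icc 1 b, prof r i = k i) (∏ i ∈ Icc 1 b, ((k i).factorial : ℝ)) hN (by
        rintro G ⟨r, hr, hb, hk⟩
        exact count_OP hr hb hk)
    refine h1.trans (le_of_eq ?_)
    rw [exp_LG]
    -- the size of OP
    have h2 : ∑ x : Idx b k, ((x.1 : ℕ) + 1) = (univ : Finset (Fin n)).card := by
      have e : ∀ i : Fin b, Fin (k (i + 1)) ≃ ClsOf r₀ (i + 1) := fun i =>
        Fintype.equivOfCardEq (by
          rw [Fintype.card_fin, card_ClsOf]
          exact (hk₀ _ (by rw [mem_Icc]; exact ⟨by omega, by have := i.2; omega⟩)).symm)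
      exact OP_card_eq (mkOP_mem hb₀ e)
    have h3 := card_OP (fun x : Idx b k => (x.1 : ℕ) + 1) univ (univ : Finset (Fin n)) h2
    rw [card_univ (α := Fin n), Fintype.card_fin, prod_Idx b k (fun i => (i.factorial : ℝ))] at h3
    rw [sum_Idx b k (fun i => i.choose 2)]
    have hA : (0 : ℝ) < ∏ i ∈ Icc 1 b, ((i.factorial : ℝ) ^ k i) := by positivity
    rw [← h3, one_div, inv_pow]
    field_simp
  · have h0 : pr n (fun G => ∃ r : Fin n → ℕ, IsProper G r ∧ (∀ c, csize r c ≤ b) ∧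
        ∀ i ∈ Icc 1 b, prof r i = k i) = 0 := by
      rw [pr_eq_ex]
      have : (fun G : SimpleGraph (Fin n) => if (∃ r : Fin n → ℕ, IsProper G r ∧
          (∀ c, csize r c ≤ b) ∧ ∀ i ∈ Icc 1 b, prof r i = k i) then (1 : ℝ) else 0)
          = fun _ => 0 := by
        funext G
        rw [if_neg]
        rintro ⟨r, -, h⟩
        exact hex ⟨r, h⟩
      rw [this, ex_const]
    rw [h0]
    exact (Real.exp_pos _).le

/-- first moment bound: the proportion of graphs with a proper colouring whose profile has a small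
expected number is small -/
theorem first_moment (n b : ℕ) (T : ℝ) :
    pr n (fun G => ∃ r : Fin n → ℕ, IsProper G r ∧ (∀ c, csize r c ≤ b) ∧ LG n b (prof r) < -T)
      ≤ ((n + 1 : ℝ)) ^ b * Real.exp (-T) := by
  classical
  -- extension of a profile
  let E : (Fin b → Fin (n + 1)) → ℕ → ℕ := fun κ i =>
    if h : 1 ≤ i ∧ i ≤ b then (κ ⟨i - 1, by omega⟩ : ℕ) else 0
  have h1 : pr n (fun G => ∃ r : Fin n → ℕ, IsProper G r ∧ (∀ c, csize r c ≤ b) ∧
      LG n b (prof r) < -T) ≤ pr n (fun G => ∃ κ ∈ (univ : Finset (Fin b → Fin (n + 1))).filter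
        (fun κ => LG n b (E κ) < -T), ∃ r : Fin n → ℕ, IsProper G r ∧ (∀ c, csize r c ≤ b) ∧
          ∀ i ∈ Icc 1 b, prof r i = E κ i) := by
    apply pr_mono
    rintro G ⟨r, hr, hb, hT⟩
    have hle : ∀ i, prof r i < n + 1 := by
      intro i
      unfold prof
      have h1 := card_filter_le (univ.image r) (fun c => csize r c = i)
      have h2 : (univ.image r).card ≤ n := by
        calc (univ.image r).card ≤ (univ : Finset (Fin n)).card := card_image_le
          _ = n := by rw [card_univ, Fintype.card_fin]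
      omega
    have hE : ∀ i ∈ Icc 1 b, prof r i = E (fun j => ⟨prof r (j + 1), hle _⟩) i := by
      intro i hi
      rw [mem_Icc] at hi
      show prof r i = if h : 1 ≤ i ∧ i ≤ b then _ else 0
      rw [dif_pos hi]
      show prof r i = prof r (i - 1 + 1)
      rw [Nat.sub_add_cancel hi.1]
    refine ⟨fun j => ⟨prof r (j + 1), hle _⟩, ?_, r, hr, hb, hE⟩
    rw [mem_filter]
    refine ⟨mem_univ _, ?_⟩
    have hLG : LG n b (E (fun j => ⟨prof r (j + 1), hle _⟩)) = LG n b (prof r) := by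
      unfold LG
      congr 1
      apply sum_congr rfl
      intro i hi
      rw [← hE i hi]
    rw [hLG]
    exact hT
  refine h1.trans ((pr_exists_le _ _).trans ?_)
  calc ∑ κ ∈ (univ : Finset (Fin b → Fin (n + 1))).filter (fun κ => LG n b (E κ) < -T),
        pr n (fun G => ∃ r : Fin n → ℕ, IsProper G r ∧ (∀ c, csize r c ≤ b) ∧
          ∀ i ∈ Icc 1 b, prof r i = E κ i)
      ≤ ∑ κ ∈ (univ : Finset (Fin b → Fin (n + 1))).filter (fun κ => LG n b (E κ) < -T),
        Real.exp (-T) := by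
        apply sum_le_sum
        intro κ hκ
        rw [mem_filter] at hκ
        exact (first_moment_fixed n b (E κ)).trans (Real.exp_le_exp.2 hκ.2.le)
    _ ≤ ∑ _κ : Fin b → Fin (n + 1), Real.exp (-T) :=
        sum_le_sum_of_subset_of_nonneg (filter_subset _ _) fun _ _ _ => (Real.exp_pos _).le
    _ = ((n + 1 : ℝ)) ^ b * Real.exp (-T) := by
        rw [sum_const, card_univ, Fintype.card_fun, Fintype.card_fin, Fintype.card_fin,
          nsmul_eq_mul]
        push_cast
        rfl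

end Pool.RG
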