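import Pool.Agent.Work.RG.Conc

/-!
# MP_004c3d_co : lifting to high probability, number of colours of a minimal colouring
-/

namespace Pool.RG

open Finset

variable {n : ℕ}

/-! ### recolouring one vertex -/

/-- a colour not used by `r` -/
noncomputable def fresh (r : Fin n → ℕ) : ℕ := (univ.sup r) + 1

theorem fresh_ne (r : Fin n → ℕ) (v : Fin n) : r v ≠ fresh r := by
  have h : r v ≤ univ.sup r := le_sup (f := r) (mem_univ v)
  unfold fresh
  omega

/-- recolour `v` with a new colour -/
noncomputable def rec1 (r : Fin n → ℕ) (v : Fin n) : Fin n → ℕ := Function.update r v (fresh r)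

theorem rec1_self (r : Fin n → ℕ) (v : Fin n) : rec1 r v v = fresh r := by
  unfold rec1
  rw [Function.update_self]

theorem rec1_of_ne (r : Fin n → ℕ) {v w : Fin n} (h : w ≠ v) : rec1 r v w = r w := by
  unfold rec1
  rw [Function.update_of_ne h]

theorem rec1_proper {G G' : SimpleGraph (Fin n)} {v : Fin n}
    (hG : ∀ a b, a ≠ v → b ≠ v → (G.Adj a b ↔ G'.Adj a b)) {r : Fin n → ℕ} (h : IsProper G r) :
    IsProper G' (rec1 r v) := by
  intro a b hab
  have hne : a ≠ b := hab.ne
  by_cases ha : a = v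
  · subst ha
    rw [rec1_self, rec1_of_ne r hne.symm]
    exact (fresh_ne r b).symm
  · by_cases hb : b = v
    · subst hb
      rw [rec1_self, rec1_of_ne r hne]
      exact fresh_ne r a
    · rw [rec1_of_ne r ha, rec1_of_ne r hb]
      exact h a b ((hG a b ha hb).2 hab)

theorem rec1_card (r : Fin n → ℕ) (v : Fin n) :
    (univ.image (rec1 r v)).card ≤ (univ.image r).card + 1 := by
  have h : univ.image (rec1 r v) ⊆ insert (fresh r) (univ.image r) := by
    intro c hc
    rw [mem_image] at hc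
    obtain ⟨w, _, hw⟩ := hc
    rw [mem_insert]
    by_cases h : w = v
    · subst h
      rw [rec1_self] at hw
      exact Or.inl hw.symm
    · rw [rec1_of_ne r h] at hw
      exact Or.inr (mem_image.2 ⟨w, mem_univ _, hw⟩)
  exact (card_le_card h).trans (card_insert_le _ _)

theorem inj_proper (G : SimpleGraph (Fin n)) : IsProper G (fun v : Fin n => (v : ℕ)) := by
  intro u v h e
  exact h.ne (Fin.ext e)

/-- smallest number of colours of a proper colouring -/
noncomputable def chi (G : SimpleGraph (Fin n)) : ℕ :=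
  sInf {k | ∃ r : Fin n → ℕ, IsProper G r ∧ (univ.image r).card = k}

theorem chi_spec (G : SimpleGraph (Fin n)) :
    ∃ r : Fin n → ℕ, IsProper G r ∧ (univ.image r).card = chi G := by
  have h : {k | ∃ r : Fin n → ℕ, IsProper G r ∧ (univ.image r).card = k}.Nonempty :=
    ⟨_, _, inj_proper G, rfl⟩
  exact Nat.sInf_mem h

theorem chi_le {G : SimpleGraph (Fin n)} {r : Fin n → ℕ} (h : IsProper G r) :
    chi G ≤ (univ.image r).card := Nat.sInf_le ⟨r, h, rfl⟩

theorem chi_lip {G G' : SimpleGraph (Fin n)} {v : Fin n}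
    (hG : ∀ a b, a ≠ v → b ≠ v → (G.Adj a b ↔ G'.Adj a b)) : chi G' ≤ chi G + 1 := by
  obtain ⟨r, h1, h2⟩ := chi_spec G
  have h3 := chi_le (rec1_proper hG h1)
  have h4 := rec1_card r v
  omega

theorem lift_chi {n K : ℕ} (hn : 0 < n) (s : ℝ) (hs : 0 ≤ s)
    (h : Real.exp (-s) ≤ pr n (fun G => ∃ r : Fin n → ℕ, IsProper G r ∧
      (Finset.univ.image r).card ≤ K)) :
    pr n (fun G => ¬ ∃ r : Fin n → ℕ, IsProper G r ∧
      ((Finset.univ.image r).card : ℝ) < K + 2 * Real.sqrt (2 * n * (s + 1))) ≤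
      Real.exp (-(s + 1)) := by
  have h1 : Real.exp (-s) ≤ pr n (fun G => -(K : ℝ) ≤ -(chi G : ℝ)) := by
    refine h.trans (pr_mono ?_)
    rintro G ⟨r, hr, hK⟩
    have := chi_le hr
    have h2 : (chi G : ℝ) ≤ K := by exact_mod_cast this.trans hK
    linarith
  have h2 := vertex_conc hn (fun G => -(chi G : ℝ)) 1 one_pos (fun v G G' hG => by
    have i1 := chi_lip hG
    have i2 := chi_lip (fun a b ha hb => (hG a b ha hb).symm)
    have i3 : (chi G' : ℝ) ≤ chi G + 1 := by exact_mod_cast i1
    have i4 : (chi G : ℝ) ≤ chi G' + 1 := by exact_mod_cast i2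
    rw [abs_le]
    constructor <;> linarith) (-(K : ℝ)) s hs h1
  refine le_trans (pr_mono ?_) h2
  intro G hG
  obtain ⟨r, hr, hc⟩ := chi_spec G
  by_contra hlt
  apply hG
  refine ⟨r, hr, ?_⟩
  rw [hc]
  push Not at hlt
  linarith

/-! ### number of monochromatic pairs -/

theorem csize_rec1 (r : Fin n → ℕ) (v : Fin n) {B : ℕ} (hB : 1 ≤ B) (h : ∀ c, csize r c ≤ B)
    (c : ℕ) : csize (rec1 r v) c ≤ B := by
  by_cases hc : c = fresh r
  · subst hc
    refine le_trans ?_ hB
    unfold csize
    rw [card_le_one]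
    intro a ha b hb
    rw [mem_filter] at ha hb
    have ha' : a = v := by
      by_contra hne
      rw [rec1_of_ne r hne] at ha
      exact fresh_ne r a ha.2
    have hb' : b = v := by
      by_contra hne
      rw [rec1_of_ne r hne] at hb
      exact fresh_ne r b hb.2
    rw [ha', hb']
  · refine le_trans ?_ (h c)
    unfold csize
    apply card_le_card
    intro a ha
    rw [mem_filter] at ha ⊢
    refine ⟨ha.1, ?_⟩
    by_cases hne : a = v
    · subst hne
      rw [rec1_self] at ha
      exact absurd ha.2.symm hc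
    · rw [rec1_of_ne r hne] at ha
      exact ha.2

theorem mono_eq (r : Fin n → ℕ) : mono r = ∑ u : Fin n, (csize r (r u) - 1) := by
  unfold mono csize
  apply sum_congr rfl
  intro u _
  rw [← sum_filter, sum_const, smul_eq_mul, mul_one]
  have e : (univ.filter fun w => u ≠ w ∧ r u = r w) =
      (univ.filter fun w => r w = r u).erase u := by
    ext w
    simp only [mem_filter, mem_univ, true_and, mem_erase]
    constructor
    · rintro ⟨h1, h2⟩
      exact ⟨fun h => h1 h.symm, h2.symm⟩
    · rintro ⟨h1, h2⟩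
      exact ⟨fun h => h1 h.symm, h2.symm⟩
  rw [e, card_erase_of_mem (by simp)]

/-- ordered monochromatic pairs containing `v` -/
theorem mono_rec1 (r : Fin n → ℕ) (v : Fin n) :
    mono r ≤ mono (rec1 r v) + 2 * csize r (r v) := by
  have key : ∀ u w : Fin n, (if u ≠ w ∧ r u = r w then 1 else 0) ≤
      (if u ≠ w ∧ rec1 r v u = rec1 r v w then 1 else 0) +
      ((if u = v ∧ r w = r v then 1 else 0) + (if w = v ∧ r u = r v then 1 else 0)) := by
    intro u w
    by_cases hu : u = v
    · subst hu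
      by_cases h : u ≠ w ∧ r u = r w
      · rw [if_pos h, if_pos (show u = u ∧ r w = r u from ⟨rfl, h.2.symm⟩)]
        omega
      · rw [if_neg h]
        exact Nat.zero_le _
    · by_cases hw : w = v
      · subst hw
        by_cases h : u ≠ w ∧ r u = r w
        · rw [if_pos h, if_pos (show w = w ∧ r u = r w from ⟨rfl, h.2⟩)]
          omega
        · rw [if_neg h]
          exact Nat.zero_le _
      · rw [rec1_of_ne r hu, rec1_of_ne r hw]
        omega
  unfold mono
  refine (sum_le_sum fun u _ => sum_le_sum fun w _ => key u w).trans ?_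
  simp only [sum_add_distrib]
  have e1 : ∑ u : Fin n, ∑ w : Fin n, (if u = v ∧ r w = r v then 1 else 0) = csize r (r v) := by
    rw [sum_eq_single v]
    · unfold csize
      rw [card_filter]
      apply sum_congr rfl
      intro w _
      simp
    · intro u _ hu
      apply sum_eq_zero
      intro w _
      simp [hu]
    · simp
  have e2 : ∑ u : Fin n, ∑ w : Fin n, (if w = v ∧ r u = r v then 1 else 0) = csize r (r v) := by
    rw [sum_comm]
    exact e1
  rw [e1, e2]
  omega

theorem mono_bound (r : Fin n → ℕ) : mono r ≤ n * n := by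
  unfold mono
  calc ∑ u : Fin n, ∑ w : Fin n, (if u ≠ w ∧ r u = r w then 1 else 0)
      ≤ ∑ _u : Fin n, ∑ _w : Fin n, 1 := by
        apply sum_le_sum
        intro u _
        apply sum_le_sum
        intro w _
        split_ifs <;> omega
    _ = n * n := by simp

/-- maximum of `mono` over the proper colourings with classes of size at most `B` -/
noncomputable def mx (B : ℕ) (G : SimpleGraph (Fin n)) : ℕ :=
  sSup {m | ∃ r : Fin n → ℕ, IsProper G r ∧ (∀ c, csize r c ≤ B) ∧ mono r = m}

theorem mx_bdd (B : ℕ) (G : SimpleGraph (Fin n)) :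
    BddAbove {m | ∃ r : Fin n → ℕ, IsProper G r ∧ (∀ c, csize r c ≤ B) ∧ mono r = m} := by
  refine ⟨n * n, ?_⟩
  rintro m ⟨r, _, _, rfl⟩
  exact mono_bound r

theorem mx_spec {B : ℕ} (hB : 1 ≤ B) (G : SimpleGraph (Fin n)) :
    ∃ r : Fin n → ℕ, IsProper G r ∧ (∀ c, csize r c ≤ B) ∧ mono r = mx B G := by
  have h : {m | ∃ r : Fin n → ℕ, IsProper G r ∧ (∀ c, csize r c ≤ B) ∧
      mono r = m}.Nonempty := by
    refine ⟨_, _, inj_proper G, ?_, rfl⟩
    intro c
    refine le_trans ?_ hB
    unfold csize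
    rw [card_le_one]
    intro a ha b hb
    rw [mem_filter] at ha hb
    exact Fin.ext (ha.2.trans hb.2.symm)
  exact Nat.sSup_mem h (mx_bdd B G)

theorem le_mx {B : ℕ} {G : SimpleGraph (Fin n)} {r : Fin n → ℕ} (h : IsProper G r)
    (h2 : ∀ c, csize r c ≤ B) : mono r ≤ mx B G := le_csSup (mx_bdd B G) ⟨r, h, h2, rfl⟩

theorem mx_lip {B : ℕ} (hB : 1 ≤ B) {G G' : SimpleGraph (Fin n)} {v : Fin n}
    (hG : ∀ a b, a ≠ v → b ≠ v → (G.Adj a b ↔ G'.Adj a b)) : mx B G ≤ mx B G' + 2 * B := by
  obtain ⟨r, h1, h2, h3⟩ := mx_spec hB G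
  have h4 := le_mx (rec1_proper hG h1) (csize_rec1 r v hB h2)
  have h5 := mono_rec1 r v
  have h6 := h2 (r v)
  omega

theorem lift_mono {n B : ℕ} (hn : 0 < n) (hB : 1 ≤ B) (F s : ℝ) (hs : 0 ≤ s)
    (h : Real.exp (-s) ≤ pr n (fun G => ∃ r : Fin n → ℕ, IsProper G r ∧
      (∀ c, csize r c ≤ B) ∧ F ≤ (mono r : ℝ))) :
    pr n (fun G => ¬ ∃ r : Fin n → ℕ, IsProper G r ∧ (∀ c, csize r c ≤ B) ∧
      F - 4 * B * Real.sqrt (2 * n * (s + 1)) < (mono r : ℝ)) ≤ Real.exp (-(s + 1)) := by
  have h1 : Real.exp (-s) ≤ pr n (fun G => F ≤ (mx B G : ℝ)) := by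
    refine h.trans (pr_mono ?_)
    rintro G ⟨r, hr, hc, hF⟩
    have h2 : (mono r : ℝ) ≤ mx B G := by exact_mod_cast le_mx hr hc
    linarith
  have hB' : (1 : ℝ) ≤ B := by exact_mod_cast hB
  have h2 := vertex_conc hn (fun G => (mx B G : ℝ)) (2 * B) (by linarith) (fun v G G' hG => by
    have i1 := mx_lip hB hG
    have i2 := mx_lip hB (fun a b ha hb => (hG a b ha hb).symm)
    have i3 : (mx B G : ℝ) ≤ mx B G' + 2 * B := by exact_mod_cast i1
    have i4 : (mx B G' : ℝ) ≤ mx B G + 2 * B := by exact_mod_cast i2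
    rw [abs_le]
    constructor <;> linarith) F s hs h1
  refine le_trans (pr_mono ?_) h2
  intro G hG
  obtain ⟨r, hr, hc, hm⟩ := mx_spec hB G
  by_contra hlt
  apply hG
  refine ⟨r, hr, hc, ?_⟩
  rw [hm]
  push Not at hlt
  linarith

/-- a minimal colouring has the smallest number of colours -/
theorem chrom_eq {n : ℕ} (G : SimpleGraph (Fin n)) (r : Fin n → ℕ) (h : IsMinimalColouring G r)
    (r' : Fin n → ℕ) (h' : IsProper G r') :
    (Finset.univ.image r).card ≤ (Finset.univ.image r').card := by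
  have hcol : G.Colorable (univ.image r').card := by
    have C : G.Coloring (univ.image r') := SimpleGraph.Coloring.mk
      (fun v => ⟨r' v, mem_image.2 ⟨v, mem_univ _, rfl⟩⟩) (by
        intro u v huv e
        exact h' u v huv (congrArg Subtype.val e))
    have := C.colorable
    rwa [Fintype.card_coe] at this
  have h1 := hcol.chromaticNumber_le
  rw [← h.2] at h1
  have h2 : Set.range r = ((univ.image r : Finset ℕ) : Set ℕ) := by
    rw [coe_image, coe_univ, Set.image_univ]
  rw [h2, Set.encard_coe_eq_coe_finsetCard] at h1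
  exact_mod_cast h1

end Pool.RG
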