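import Pool.Agent.Work.RG.Types

/-!
# MP_004c3d_co : numerical facts for the final assembly
-/

namespace Pool.RG

open Finset Real

section

variable {M K n : ℕ}

lemma Sz.n_pos (h : Sz M K) (hn : 2 * n = K * (2 * M + 5)) : 0 < n := by
  have h1 : 0 < K * (2 * M + 5) := Nat.mul_pos h.hK (by omega)
  omega

lemma Sz.n_real (hn : 2 * n = K * (2 * M + 5)) : (n : ℝ) = K * (2 * M + 5) / 2 := by
  have : (2 : ℝ) * n = K * (2 * M + 5) := by exact_mod_cast hn
  linarith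

lemma Sz.n_le (h : Sz M K) (hn : 2 * n = K * (2 * M + 5)) : (n : ℝ) ≤ K * (M + 5) := by
  rw [Sz.n_real hn]
  have hK : (0 : ℝ) < K := by exact_mod_cast h.hK
  nlinarith

lemma Sz.M_le_n (h : Sz M K) (hn : 2 * n = K * (2 * M + 5)) : M ≤ n := by
  have h1 : 1 ≤ K := h.hK
  have h2 : 1 * (2 * M + 5) ≤ K * (2 * M + 5) := Nat.mul_le_mul_right _ h1
  omega

/-- the deviation in the number of colours and pairs -/
lemma Sz.sqrt_le (h : Sz M K) (hn : 2 * n = K * (2 * M + 5)) (K' : ℕ) (hK' : K' ≤ K) :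
    Real.sqrt (2 * n * ((K' : ℝ) / M ^ 7 + 1)) ≤ 3 * K / M ^ 3 := by
  have hM := h.Mpos
  have hK : (0 : ℝ) < K := by exact_mod_cast h.hK
  have hMbig : (40000 : ℝ) ≤ M := by have := h.cM; linarith
  have hK'' : (K' : ℝ) ≤ K := by exact_mod_cast hK'
  have h7 : (M : ℝ) ^ 7 ≤ K := by
    have := h.K_ge_pow 7 (by norm_num)
    have h0 : 0 < (M : ℝ) ^ 7 := by positivity
    nlinarith
  have h1 : (K' : ℝ) / M ^ 7 + 1 ≤ 2 * K / M ^ 7 := by
    have e1 : (K' : ℝ) / M ^ 7 ≤ K / M ^ 7 := by gcongr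
    have e2 : 1 ≤ (K : ℝ) / M ^ 7 := by
      rw [le_div_iff₀ (by positivity)]; linarith
    have e3 : 2 * (K : ℝ) / M ^ 7 = K / M ^ 7 + K / M ^ 7 := by ring
    rw [e3]; linarith
  have h2 := h.n_le hn
  apply Real.sqrt_le_iff.2
  constructor
  · positivity
  · calc 2 * (n : ℝ) * ((K' : ℝ) / M ^ 7 + 1)
        ≤ 2 * ((K : ℝ) * (M + 5)) * (2 * (K : ℝ) / M ^ 7) := by
          gcongr
      _ ≤ 2 * ((K : ℝ) * (2 * M)) * (2 * (K : ℝ) / M ^ 7) := by gcongr; linarith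
      _ = 8 * ((K : ℝ) / M ^ 3) ^ 2 := by field_simp; ring
      _ ≤ 9 * ((K : ℝ) / M ^ 3) ^ 2 := by
          have : 0 ≤ ((K : ℝ) / M ^ 3) ^ 2 := by positivity
          linarith
      _ = (3 * (K : ℝ) / M ^ 3) ^ 2 := by ring

/-- `n^{3/4}` is small -/
lemma rpow_le (h : Sz M K) (hn : 2 * n = K * (2 * M + 5)) (c : ℝ) (hc : 0 < c)
    (hcM : (1 / c) ^ 4 ≤ M) : 8 * (n : ℝ) ^ (3 / 4 : ℝ) * (M + 5) ≤ c * K := by
  have hM := h.Mpos
  have hK : (0 : ℝ) < K := by exact_mod_cast h.hK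
  have hMbig : (40000 : ℝ) ≤ M := by have := h.cM; linarith
  have hn0 : (0 : ℝ) ≤ n := Nat.cast_nonneg _
  have h2 := h.n_le hn
  set X : ℝ := c * K / (8 * (M + 5)) with hX
  have hX0 : 0 < X := by rw [hX]; positivity
  have h3 : (n : ℝ) ^ 3 ≤ X ^ 4 := by
    have e1 : (n : ℝ) ^ 3 ≤ (K * (M + 5)) ^ 3 := by gcongr
    refine e1.trans ?_
    rw [hX, div_pow, le_div_iff₀ (by positivity)]
    have e2 : ((M : ℝ) + 5) ^ 9 * 1000000 ≤ K := h.pow_le 9 (by norm_num)
    have e3 : 1 ≤ c ^ 4 * M := by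
      rw [div_pow, one_pow, div_le_iff₀ (by positivity)] at hcM
      linarith
    calc ((K : ℝ) * (M + 5)) ^ 3 * (8 * (M + 5)) ^ 4
        = K ^ 3 * (4096 * (M + 5) ^ 7) := by ring
      _ ≤ K ^ 3 * ((4096 * (M + 5) ^ 7) * (c ^ 4 * M)) := by
          apply mul_le_mul_of_nonneg_left _ (by positivity)
          have : 0 < 4096 * ((M : ℝ) + 5) ^ 7 := by positivity
          nlinarith
      _ ≤ K ^ 3 * (c ^ 4 * (((M : ℝ) + 5) ^ 9 * 1000000)) := by
          apply mul_le_mul_of_nonneg_left _ (by positivity)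
          have : (M : ℝ) ≤ (M + 5) ^ 2 := by nlinarith
          have h0 : 0 < c ^ 4 := by positivity
          calc (4096 * ((M : ℝ) + 5) ^ 7) * (c ^ 4 * M) = c ^ 4 * (4096 * (((M : ℝ) + 5) ^ 7 * M)) := by
                ring
            _ ≤ c ^ 4 * (1000000 * (((M : ℝ) + 5) ^ 7 * (M + 5) ^ 2)) := by gcongr; norm_num
            _ = _ := by ring
      _ ≤ K ^ 3 * (c ^ 4 * K) := by gcongr
      _ = (c * K) ^ 4 := by ring
  have h4 : ((n : ℝ) ^ (3 / 4 : ℝ)) ^ 4 = (n : ℝ) ^ 3 := by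
    rw [← Real.rpow_natCast, ← Real.rpow_mul hn0]
    norm_num
  have h5 : (n : ℝ) ^ (3 / 4 : ℝ) ≤ X := by
    apply le_of_pow_le_pow_left₀ (n := 4) (by norm_num) hX0.le
    rw [h4]; exact h3
  calc 8 * (n : ℝ) ^ (3 / 4 : ℝ) * (M + 5) ≤ 8 * X * (M + 5) := by gcongr
    _ = c * K := by rw [hX]; field_simp

/-- no large independent sets -/
lemma indep_small (h : Sz M K) (hn : 2 * n = K * (2 * M + 5)) :
    (n.choose (2 * M + 1) : ℝ) * (1 / 2) ^ ((2 * M + 1).choose 2) ≤ (1 / 2) ^ M := by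
  have hM := h.Mpos
  have hK : (0 : ℝ) < K := by exact_mod_cast h.hK
  have hn0 : (0 : ℝ) < n := by exact_mod_cast h.n_pos hn
  have h1 : (2 * M + 1).choose 2 = (2 * M + 1) * M := by
    rw [Nat.choose_two_right]
    have : 2 * M + 1 - 1 = 2 * M := by omega
    rw [this, ← mul_assoc, mul_comm (2 * M + 1) 2, mul_assoc, Nat.mul_div_cancel_left _ (by norm_num)]
  have h2 : (n.choose (2 * M + 1) : ℝ) ≤ (n : ℝ) ^ (2 * M + 1) := by
    exact_mod_cast Nat.choose_le_pow _ _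
  have h3 : (n : ℝ) * (1 / 2) ^ M ≤ 1 / 2 := by
    rw [← Real.log_le_log_iff (by positivity) (by norm_num), Real.log_mul (by positivity)
      (by positivity), Real.log_pow, one_div, Real.log_inv]
    have e1 : Real.log n ≤ Real.log (K * (M + 5)) := Real.log_le_log hn0 (h.n_le hn)
    rw [Real.log_mul (by positivity) (by positivity)] at e1
    have e2 := h.hi
    have e3 := h.lM
    have e4 := h.cM
    have hl2 : (0.69 : ℝ) < Real.log 2 := by linarith [Real.log_two_gt_d9]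
    nlinarith
  calc (n.choose (2 * M + 1) : ℝ) * (1 / 2) ^ ((2 * M + 1).choose 2)
      ≤ (n : ℝ) ^ (2 * M + 1) * (1 / 2) ^ ((2 * M + 1).choose 2) := by gcongr
    _ = ((n : ℝ) * (1 / 2) ^ M) ^ (2 * M + 1) := by
        rw [h1, mul_pow, ← pow_mul]; congr 2; ring
    _ ≤ (1 / 2) ^ (2 * M + 1) := by gcongr
    _ ≤ (1 / 2) ^ M := pow_le_pow_of_le_one (by norm_num) (by norm_num) (by omega)

/-- the union bound in the first moment -/
lemma fm_small (h : Sz M K) (hn : 2 * n = K * (2 * M + 5)) (c : ℝ) (hc : 0 < c)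
    (hcM : 1 / c ≤ M) : ((n : ℝ) + 1) ^ (2 * M) * Real.exp (-(c * K)) ≤ Real.exp (-(M : ℝ)) := by
  have hM := h.Mpos
  have hK : (0 : ℝ) < K := by exact_mod_cast h.hK
  have hMbig : (40000 : ℝ) ≤ M := by have := h.cM; linarith
  have hn0 : (0 : ℝ) < n := by exact_mod_cast h.n_pos hn
  rw [← Real.log_le_log_iff (by positivity) (by positivity), Real.log_mul (by positivity)
      (by positivity), Real.log_pow, Real.log_exp, Real.log_exp]
  have e0 : Real.log ((n : ℝ) + 1) ≤ M := by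
    have h1 : (1 : ℝ) ≤ n := by exact_mod_cast h.n_pos hn
    have e1 : Real.log ((n : ℝ) + 1) ≤ Real.log (2 * (K * (M + 5))) := by
      apply Real.log_le_log (by positivity)
      have := h.n_le hn
      linarith
    rw [Real.log_mul (by positivity) (by positivity), Real.log_mul (by positivity)
      (by positivity)] at e1
    have e2 := h.hi
    have e3 := h.lM
    have e4 := h.cM
    have hl2 : Real.log 2 < 0.7 := by linarith [Real.log_two_lt_d9]
    nlinarith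
  have e5 : (M : ℝ) ^ 3 * 1000000 ≤ K := h.K_ge_pow 3 (by norm_num)
  have e6 : 1 ≤ c * M := by
    rw [div_le_iff₀ hc] at hcM
    linarith
  have e7 : (M : ℝ) ^ 2 * 1000000 ≤ c * K := by
    calc (M : ℝ) ^ 2 * 1000000 ≤ (M : ℝ) ^ 2 * 1000000 * (c * M) := by
          have : 0 < (M : ℝ) ^ 2 * 1000000 := by positivity
          nlinarith
      _ = c * ((M : ℝ) ^ 3 * 1000000) := by ring
      _ ≤ c * K := by gcongr
  push_cast
  nlinarith

end

end Pool.RG
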