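import Pool.Agent.Work.RG.PPofA

/-!
# MP_004c3d_co : the partial first moment condition
-/

namespace Pool.RG

open Finset Real

namespace PPof

lemma corner_le (M : ℕ) (κ : Fin 6 → ℕ) (hκ : ∀ j, 0 < κ j) (c : ℝ) (hc : 0 ≤ c)
    (hLE : 0 ≤ LE M (nv M κ) κ)
    (hcor : ∀ B : Finset (Fin 6), B.Nonempty → B ≠ univ →
      c ≤ ∑ j ∈ B, ((κ j : ℝ) * lw (M + j) + Real.log ((κ j).factorial : ℝ)) -
        Real.log ((∑ j ∈ B, κ j * (M + (j : ℕ))).factorial : ℝ))
    (T : Fin 6 → ℕ) (hT : ∀ j, T j = 0 ∨ T j = κ j) : GG κ c T ≤ FF M κ T := by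
  classical
  have hB : ∀ j, j ∈ univ.filter (fun j => T j = 0) ↔ T j = 0 := fun j => by simp
  have hF := FF_corner M κ T hT _ hB
  have hκr : ∀ j, (κ j : ℝ) ≠ 0 := fun j => by have := hκ j; positivity
  rcases eq_or_ne (univ.filter (fun j => T j = 0)) ∅ with h0 | h0
  · rw [h0] at hF hB
    have hT' : ∀ j, T j = κ j := fun j => (hT j).resolve_left fun h => by
      have := (hB j).2 h
      simp at this
    rw [hF]
    have h1 : GG κ c T = 0 := by
      unfold GG
      have e1 : ∏ j, ((T j : ℝ) / κ j) = 1 := prod_eq_one fun j _ => by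
        rw [hT' j]; exact div_self (hκr j)
      have e2 : ∏ j, (1 - (T j : ℝ) / κ j) = 0 := prod_eq_zero (mem_univ 0) (by
        rw [hT' 0, div_self (hκr 0), sub_self])
      rw [e1, e2]; ring
    rw [h1]
    simp only [sum_empty, Nat.factorial_zero, Nat.cast_one, Real.log_one, sub_zero, add_zero]
    exact hLE
  · rcases eq_or_ne (univ.filter (fun j => T j = 0)) univ with h2 | h2
    · rw [h2] at hF hB
      have hT' : ∀ j, T j = 0 := fun j => (hB j).1 (mem_univ j)
      have h1 : GG κ c T = 0 := by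
        unfold GG
        have e1 : ∏ j, (1 - (T j : ℝ) / κ j) = 1 := prod_eq_one fun j _ => by
          rw [hT' j]; simp
        have e2 : ∏ j, ((T j : ℝ) / κ j) = 0 := prod_eq_zero (mem_univ 0) (by
          rw [hT' 0]; simp)
        rw [e1, e2]; ring
      rw [h1, hF]
      unfold LE nv
      linarith
    · have h3 := hcor _ (nonempty_iff_ne_empty.2 h0) h2
      have h1 : GG κ c T ≤ c := by
        unfold GG
        have e1 : 0 ≤ ∏ j, ((T j : ℝ) / κ j) := prod_nonneg fun j _ => by positivity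
        have e2 : 0 ≤ ∏ j, (1 - (T j : ℝ) / κ j) := prod_nonneg fun j _ => by
          rcases hT j with h | h
          · rw [h]; simp
          · rw [h, div_self (hκr j), sub_self]
        nlinarith
      rw [hF]
      linarith

lemma log_term {κ t : ℕ} (ht : t ≤ κ) (a : ℝ) :
    Real.log (((κ.choose t : ℕ) : ℝ) * ((κ.descFactorial t : ℕ) : ℝ) * Real.exp a) =
      2 * Real.log (κ.choose t : ℝ) + Real.log (t.factorial : ℝ) + a := by
  have h1 : (0 : ℝ) < (κ.choose t : ℝ) := by exact_mod_cast Nat.choose_pos ht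
  have h2 : (0 : ℝ) < (t.factorial : ℝ) := by exact_mod_cast Nat.factorial_pos t
  rw [Nat.descFactorial_eq_factorial_mul_choose]
  push_cast
  rw [Real.log_mul (by positivity) (by positivity), Real.log_mul (by positivity) (by positivity),
    Real.log_mul (by positivity) (by positivity), Real.log_exp]
  ring

end PPof

open PPof in
/-- **module A1** -/
theorem PP_of (g : Fin 6 → ℕ) (hg : g = ![1, 4, 8, 8, 4, 1] ∨ g = ![1, 1, 1, 1, 1, 1]) :
    ∃ e : ℝ, 0 < e ∧ ∃ M₀ : ℕ, ∀ M : ℕ, M₀ ≤ M → ∀ (κ : Fin 6 → ℕ) (K : ℕ), K = ∑ j, κ j →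
      (∀ j, |(κ j : ℝ) - (g j : ℝ) / (∑ i, (g i : ℝ)) * K| ≤ e * K) →
      |Real.log K - Real.log 2 / 2 * (M + 5 / 2)| ≤ e →
      0 ≤ LE M (nv M κ) κ → PP M κ (K / M ^ 8) := by
  obtain ⟨δ, hδ0, hδ⟩ := margin g hg
  obtain ⟨M₁, h1⟩ := Sz_of
  obtain ⟨M₂, h2⟩ := ev_log (δ / 240) (by positivity)
  obtain ⟨M₃, h3⟩ := ev_const 152 δ hδ0
  refine ⟨min (1 / 1000) (δ / 1376), by positivity, max M₁ (max M₂ M₃), ?_⟩
  intro M hM κ K hKκ hκ hK hLE
  have hM1 : M₁ ≤ M := (le_max_left _ _).trans hM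
  have hM2 : M₂ ≤ M := (le_max_left _ _).trans ((le_max_right _ _).trans hM)
  have hM3 : M₃ ≤ M := (le_max_right _ _).trans ((le_max_right _ _).trans hM)
  obtain ⟨e, he⟩ : ∃ e, e = min (1 / 1000) (δ / 1376) := ⟨_, rfl⟩
  rw [← he] at hκ hK
  have he0 : 0 < e := by rw [he]; positivity
  have he1 : e ≤ 1 / 1000 := by rw [he]; exact min_le_left _ _
  have heδ : 1376 * e ≤ δ := by
    have : e ≤ δ / 1376 := by rw [he]; exact min_le_right _ _
    linarith
  have hS : Sz M K := h1 M hM1 K (hK.trans (by linarith))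
  have hMδ := h3 M hM3
  have hlogM := h2 M hM2
  have hM0 := hS.Mpos
  have hK0 : (0 : ℝ) < K := by exact_mod_cast hS.hK
  have hMbig : (40000 : ℝ) ≤ M := by have := hS.cM; linarith
  -- the weights
  have hga : (0 : ℝ) < ∑ i, (g i : ℝ) :=
    sum_pos (fun i _ => by have := g_pos g hg i; positivity) ⟨0, mem_univ _⟩
  have hga26 : (∑ i, (g i : ℝ)) ≤ 26 := by
    have := g_sum g hg
    have h : ((∑ i, g i : ℕ) : ℝ) ≤ 26 := by exact_mod_cast this
    push_cast at h
    exact h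
  have hp : ∀ j, 1 / 26 ≤ (g j : ℝ) / ∑ i, (g i : ℝ) := by
    intro j
    have h5 : (1 : ℝ) ≤ g j := by exact_mod_cast g_pos g hg j
    rw [div_le_div_iff₀ (by norm_num) hga]
    nlinarith
  have hp1 : ∑ j, (g j : ℝ) / ∑ i, (g i : ℝ) = 1 := by
    rw [← sum_div]
    exact div_self hga.ne'
  have hcor := corner_ge (fun j => (g j : ℝ) / ∑ i, (g i : ℝ)) hp hp1 δ hδ e he0 he1 heδ hS hMδ κ
    hκ hK
  have hκpos : ∀ j, 0 < κ j := by
    intro j
    have h4 := hκ j
    rw [abs_le] at h4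
    have h5 := mul_le_mul_of_nonneg_right (hp j) hK0.le
    have h6 : (0 : ℝ) < κ j := by nlinarith [h4.1]
    exact_mod_cast h6
  obtain ⟨c, hc⟩ : ∃ c, c = δ / 2 * K * M := ⟨_, rfl⟩
  have hc0 : 0 ≤ c := by rw [hc]; positivity
  rw [← hc] at hcor
  intro T hT
  have hmain : GG κ c T ≤ FF M κ T :=
    multi κ hκpos (FF M κ) (GG κ c) (fun T hT j => FF_concave M κ T hT j)
      (fun T _ j => (GG_affine κ hκpos c T j).le)
      (fun T hT => corner_le M κ hκpos c hc0 hLE hcor T hT) T hT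
  -- the lower bound of the weight
  have hx0 : ∀ j, 0 ≤ (T j : ℝ) / κ j := fun j => by positivity
  have hx1 : ∀ j, (T j : ℝ) / κ j ≤ 1 := fun j => by
    have h4 : (0 : ℝ) < κ j := by exact_mod_cast hκpos j
    rw [div_le_one h4]
    exact_mod_cast hT j
  have hw := weight_ge_sum (fun j => (T j : ℝ) / κ j) hx0 hx1
  obtain ⟨Y, hY⟩ : ∃ Y, Y = ∑ j, min ((T j : ℝ) / κ j) (1 - (T j : ℝ) / κ j) := ⟨_, rfl⟩
  have hY0 : 0 ≤ Y := by
    rw [hY]
    exact sum_nonneg fun j _ => le_min (hx0 j) (by linarith [hx1 j])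
  have hGG : c * (Y / 6) ≤ GG κ c T := by
    unfold GG
    apply mul_le_mul_of_nonneg_left _ hc0
    rw [hY]
    exact hw
  -- binomials
  have hz : (0 : ℝ) < 1 / M ^ 10 := by positivity
  have hbin : ∑ j, Real.log ((κ j).choose (T j) : ℝ) ≤ K * (1 / M ^ 10) + K * Y * (10 * Real.log M) := by
    have h4 : ∀ j ∈ (univ : Finset (Fin 6)), Real.log ((κ j).choose (T j) : ℝ) ≤
        κ j * (1 / M ^ 10) + K * min ((T j : ℝ) / κ j) (1 - (T j : ℝ) / κ j) * (10 * Real.log M) := by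
      intro j _
      have h5 := log_choose_le (hκpos j) (hT j) hz
      have e1 : Real.log (1 / (1 / (M : ℝ) ^ 10)) = 10 * Real.log M := by
        rw [one_div_one_div, Real.log_pow]; norm_num
      rw [e1] at h5
      refine h5.trans ?_
      have h6 : (κ j : ℝ) ≤ K := by
        have : κ j ≤ K := by rw [hKκ]; exact single_le_sum (fun i _ => Nat.zero_le _) (mem_univ j)
        exact_mod_cast this
      have h7 : 0 ≤ min ((T j : ℝ) / κ j) (1 - (T j : ℝ) / κ j) :=
        le_min (hx0 j) (by linarith [hx1 j])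
      have h8 : 0 ≤ Real.log (M : ℝ) := Real.log_nonneg (by linarith)
      gcongr
    refine (sum_le_sum h4).trans (le_of_eq ?_)
    rw [sum_add_distrib, ← sum_mul, ← sum_mul, ← mul_sum, ← hY]
    have : ((K : ℕ) : ℝ) = ∑ j, (κ j : ℝ) := by rw [hKκ]; push_cast; rfl
    rw [this]
  have hlogM' : Real.log (M : ℝ) ≤ δ / 240 * M := by
    refine le_trans (Real.log_le_log hM0 (by linarith)) hlogM
  have hfin : 2 * ∑ j, Real.log ((κ j).choose (T j) : ℝ) ≤ K / M ^ 8 + FF M κ T := by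
    have h4 : 2 * (K * (1 / (M : ℝ) ^ 10)) ≤ K / M ^ 8 := by
      rw [mul_one_div, mul_div_assoc', div_le_div_iff₀ (by positivity) (by positivity)]
      have h6 : (2 : ℝ) ≤ M ^ 2 := by nlinarith
      calc 2 * (K : ℝ) * (M : ℝ) ^ 8 = (K * (M : ℝ) ^ 8) * 2 := by ring
        _ ≤ (K * (M : ℝ) ^ 8) * (M : ℝ) ^ 2 := mul_le_mul_of_nonneg_left h6 (by positivity)
        _ = _ := by ring
    have h5 : 2 * (K * Y * (10 * Real.log M)) ≤ c * (Y / 6) := by
      rw [hc]
      have h6 : (K * Y) * Real.log M ≤ (K * Y) * (δ / 240 * M) :=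
        mul_le_mul_of_nonneg_left hlogM' (by positivity)
      nlinarith
    linarith
  -- conclusion
  have hp : ∀ j ∈ (univ : Finset (Fin 6)), ((((κ j).choose (T j) : ℕ) : ℝ) *
      (((κ j).descFactorial (T j) : ℕ) : ℝ) * Real.exp ((T j : ℝ) * lw (M + j))) ≠ 0 := by
    intro j _
    have h4 : (0 : ℝ) < ((κ j).choose (T j) : ℝ) := by exact_mod_cast Nat.choose_pos (hT j)
    have h5 : (0 : ℝ) < ((κ j).descFactorial (T j) : ℝ) := by
      exact_mod_cast Nat.descFactorial_pos.2 (hT j)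
    positivity
  have hf1 : (0 : ℝ) < ((nv M κ - nv M T).factorial : ℝ) := by exact_mod_cast Nat.factorial_pos _
  have hf2 : (0 : ℝ) < ((nv M κ).factorial : ℝ) := by exact_mod_cast Nat.factorial_pos _
  have hppos : 0 < ∏ j, ((((κ j).choose (T j) : ℕ) : ℝ) *
      (((κ j).descFactorial (T j) : ℕ) : ℝ) * Real.exp ((T j : ℝ) * lw (M + j))) := by
    apply lt_of_le_of_ne (prod_nonneg fun j _ =>
      mul_nonneg (mul_nonneg (Nat.cast_nonneg _) (Nat.cast_nonneg _)) (Real.exp_pos _).le)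
    exact (prod_ne_zero_iff.2 hp).symm
  rw [← Real.log_le_log_iff (mul_pos hppos hf1) (mul_pos (Real.exp_pos _) hf2),
    Real.log_mul hppos.ne' hf1.ne', Real.log_mul (Real.exp_pos _).ne' hf2.ne', Real.log_exp,
    Real.log_prod hp, sum_congr rfl (fun j _ => log_term (hT j) _), sum_add_distrib,
    sum_add_distrib, ← mul_sum]
  unfold FF at hfin
  rw [sum_add_distrib] at hfin
  linarith

end Pool.RG
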