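import Pool.Agent.Work.RG.Contra

/-!
# MP_004c3d_co : choice of the parameters `t`, `s`, `w`
-/

namespace Pool.RG

open Finset

namespace Params

open Contra

/-! ### two-sided bounds for `LE` -/

/-- upper bound for `LE` -/
theorem LE_le {M n : ℕ} (hM : 1 ≤ M) (κ : Fin 6 → ℕ) (hn : ∑ j, κ j * (M + j) = n) :
    LE M n κ ≤ Real.log (n.factorial : ℝ) -
      (Real.log (M.factorial : ℝ) - M * Real.log M) * ∑ j, (κ j : ℝ) -
      n * Real.log M - Real.log 2 * ∑ j, (κ j : ℝ) * ((M + j).choose 2 : ℝ) -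
      ∑ j, (κ j : ℝ) * Real.log (κ j) + ∑ j, (κ j : ℝ) := by
  have hn' : (n : ℝ) = ∑ j : Fin 6, (κ j : ℝ) * ((M + j : ℕ) : ℝ) := by
    rw [← hn]
    push_cast
    rfl
  unfold LE
  rw [hn', sum_mul, mul_sum, mul_sum]
  have key : ∑ j : Fin 6, ((Real.log (M.factorial : ℝ) - M * Real.log M) * (κ j : ℝ) +
      (κ j : ℝ) * ((M + j : ℕ) : ℝ) * Real.log M +
      Real.log 2 * ((κ j : ℝ) * ((M + j).choose 2 : ℝ)) +
      (κ j : ℝ) * Real.log (κ j) - (κ j : ℝ)) ≤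
      ∑ j : Fin 6, ((κ j : ℝ) * lw (M + j) + Real.log ((κ j).factorial : ℝ)) := by
    apply sum_le_sum
    intro j _
    have h1 := log_fact_lower hM (M + j)
    have h2 := log_fact_ge (κ j)
    have h3 := mul_le_mul_of_nonneg_left h1 (Nat.cast_nonneg (κ j) : (0 : ℝ) ≤ (κ j : ℝ))
    unfold lw
    linarith
  simp only [sum_sub_distrib, sum_add_distrib] at key ⊢
  linarith

theorem kap1_log_ge {s w v : ℕ} (hs : 0 < s) (hv : 8 * s = w + v) (hv0 : 0 < v) :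
    26 * (s : ℝ) * Real.log s + 64 * s * Real.log 2 ≤
      ∑ j, (kap1 s w j : ℝ) * Real.log (kap1 s w j) := by
  have e8 : 8 * s - w = v := by omega
  have hvr : 8 * (s : ℝ) = w + v := by exact_mod_cast hv
  have hs' : (0 : ℝ) < s := by exact_mod_cast hs
  have hv' : (0 : ℝ) < v := by exact_mod_cast hv0
  have hw' : (0 : ℝ) ≤ w := Nat.cast_nonneg w
  have hk : kap1 s w = ![s, 4 * s, v, 8 * s + w, 4 * s, s] := by
    unfold kap1
    rw [e8]
  rw [hk]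
  simp only [Fin.sum_univ_six]
  simp
  have l4 : Real.log (4 * (s : ℝ)) = 2 * Real.log 2 + Real.log s := by
    rw [Real.log_mul (by norm_num) hs'.ne', show (4 : ℝ) = 2 ^ 2 by norm_num, Real.log_pow]
    norm_num
  have l8 : Real.log (8 * (s : ℝ)) = 3 * Real.log 2 + Real.log s := by
    rw [Real.log_mul (by norm_num) hs'.ne', show (8 : ℝ) = 2 ^ 3 by norm_num, Real.log_pow]
    norm_num
  have h1 := klogk (K := (v : ℝ)) (K₁ := 8 * (s : ℝ)) hv' (by positivity)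
  have h2 := klogk (K := 8 * (s : ℝ) + w) (K₁ := 8 * (s : ℝ)) (by positivity) (by positivity)
  rw [l8] at h1 h2
  rw [l4]
  have hvr' : (v : ℝ) = 8 * s - w := by linarith
  have e : (v - 8 * (s : ℝ)) * (3 * Real.log 2 + Real.log s + 1) +
      (8 * (s : ℝ) + w - 8 * s) * (3 * Real.log 2 + Real.log s + 1) = 0 := by
    rw [hvr']; ring
  linarith

/-- the main term of `LE` for `kap1` -/
noncomputable def U1 (M n : ℕ) (s : ℝ) : ℝ :=
  Real.log (n.factorial : ℝ) - (Real.log (M.factorial : ℝ) - M * Real.log M) * (26 * s) -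
    n * Real.log M - Real.log 2 * (((2 * M + 4) * n - (M + 5 / 2) ^ 2 * (26 * s) +
      69 / 2 * s) / 2) - (26 * s * Real.log s + 64 * s * Real.log 2) + 26 * s

/-- the main term of `LE` for `kap2` -/
noncomputable def U2 (M n : ℕ) (t : ℝ) : ℝ :=
  Real.log (n.factorial : ℝ) - (Real.log (M.factorial : ℝ) - M * Real.log M) * (6 * t) -
    n * Real.log M - Real.log 2 * (((2 * M + 4) * n - (M + 5 / 2) ^ 2 * (6 * t) +
      35 / 2 * t) / 2) - 6 * t * Real.log t + 6 * t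

theorem kap2_choose (M t : ℕ) : ∑ j : Fin 6, (kap2 t j : ℝ) * ((M + (j : ℕ)).choose 2 : ℝ) =
    ((2 * M + 4) * ((3 * t * (2 * M + 5) : ℕ) : ℝ) - (M + 5 / 2) ^ 2 * (6 * t) +
      35 / 2 * t) / 2 := by
  simp only [Fin.sum_univ_six, Nat.cast_choose_two, kap2]
  simp
  ring

theorem LE2_le {M t : ℕ} (hM : 1 ≤ M) (ht : 0 < t) :
    LE M (3 * t * (2 * M + 5)) (kap2 t) ≤ U2 M (3 * t * (2 * M + 5)) t := by
  obtain ⟨h1, h2, h3, h4⟩ := kap2_sums (M := M) ht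
  have h := LE_le hM (kap2 t) h4
  rw [h2, h3, kap2_choose M t] at h
  exact h

theorem LE2_ge {M t : ℕ} (hM : 1 ≤ M) (ht : 0 < t) :
    U2 M (3 * t * (2 * M + 5)) t - 150 * t / M - 6 * (1 + Real.log (6 * t)) ≤
      LE M (3 * t * (2 * M + 5)) (kap2 t) := by
  obtain ⟨h1, h2, h3, h4⟩ := kap2_sums (M := M) ht
  have h := LE_ge hM (kap2 t) h4 h1
  have h5 := err_le (κ := kap2 t) (t := t) h1 h2.le le_rfl
  rw [h2, h3, kap2_choose M t] at h
  have e : 25 / (M : ℝ) * (6 * t) = 150 * t / M := by ring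
  rw [e] at h
  unfold U2
  linarith

theorem LE1_le {M n s w v : ℕ} (hM : 1 ≤ M) (hs : 0 < s) (hv : 8 * s = w + v) (hv0 : 0 < v)
    (hn : 13 * s * (2 * M + 5) + w = n) : LE M n (kap1 s w) ≤ U1 M n s := by
  obtain ⟨h1, h2, h3, h4, h5⟩ := kap1_sums (M := M) hs hv hv0
  have h := LE_le hM (kap1 s w) (h5.trans hn)
  have h6 := kap1_log_ge hs hv hv0
  have hn' : (n : ℝ) = 26 * s * (M + 5 / 2) + w := by
    rw [← hn]; push_cast; ring
  rw [h2, h3, ← hn'] at h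
  unfold U1
  linarith

theorem LE1_ge {M n s w v t : ℕ} (hM : 1 ≤ M) (hs : 0 < s) (hv : 8 * s = w + v) (hv0 : 0 < v)
    (hn : 13 * s * (2 * M + 5) + w = n) (hst : 13 * s ≤ 3 * t) :
    U1 M n s - 2 * w - 150 * t / M - 6 * (1 + Real.log (6 * t)) ≤ LE M n (kap1 s w) := by
  obtain ⟨h1, h2, h3, h4, h5⟩ := kap1_sums (M := M) hs hv hv0
  have h := LE_ge hM (kap1 s w) (h5.trans hn) h1
  have hn' : (n : ℝ) = 26 * s * (M + 5 / 2) + w := by
    rw [← hn]; push_cast; ring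
  have hst' : 13 * (s : ℝ) ≤ 3 * t := by exact_mod_cast hst
  have h7 := err_le (κ := kap1 s w) (t := t) h1 (by rw [h2]; linarith) le_rfl
  rw [h2, h3, ← hn'] at h
  have hM' : (0 : ℝ) < M := by exact_mod_cast hM
  have e : 25 / (M : ℝ) * (26 * s) ≤ 150 * t / M := by
    have : 150 * (t : ℝ) / M = 25 / (M : ℝ) * (6 * t) := by ring
    rw [this]
    apply mul_le_mul_of_nonneg_left (by linarith) (by positivity)
  unfold U1
  linarith

/-- comparison of the two main terms -/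
theorem U_sub {M n : ℕ} {s t u : ℝ} (hu : 13 * s = 3 * t - u) :
    U1 M n s - U2 M n t = 6 * t * (Real.log t - Real.log s) - 10 * Real.log 2 * t +
      u * (2 * (Real.log (M.factorial : ℝ) - M * Real.log M) - 2 -
        Real.log 2 * (M + 5 / 2) ^ 2 + 25 / 4 * Real.log 2 + 2 * Real.log s) := by
  have hs : s = (3 * t - u) / 13 := by linarith
  unfold U1 U2
  have e1 : 26 * s * Real.log s = (6 * t - 2 * u) * Real.log s := by
    have : 26 * s = 6 * t - 2 * u := by linarith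
    rw [this]
  rw [e1]
  generalize Real.log s = l
  rw [hs]
  ring

theorem A_bounds : 1 ≤ 6 * Real.log (13 / 3) - 10 * Real.log 2 ∧
    6 * Real.log (13 / 3) - 10 * Real.log 2 ≤ 2 := by
  have e : 6 * Real.log (13 / 3) - 10 * Real.log 2 = Real.log ((13 / 3) ^ 6 / 2 ^ 10) := by
    rw [Real.log_div (x := (13 / 3 : ℝ) ^ 6) (by norm_num) (by norm_num), Real.log_pow,
      Real.log_pow]
    norm_num
  rw [e]
  constructor
  · rw [Real.le_log_iff_exp_le (by norm_num)]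
    have := Real.exp_one_lt_d9
    refine this.le.trans (by norm_num)
  · rw [Real.log_le_iff_le_exp (by norm_num)]
    have h := Real.exp_one_gt_d9
    have h2 : Real.exp 2 = Real.exp 1 ^ 2 := by rw [← Real.exp_nat_mul]; norm_num
    rw [h2]
    have h3 : (2.718 : ℝ) ^ 2 ≤ Real.exp 1 ^ 2 := by
      apply pow_le_pow_left₀ (by norm_num)
      linarith
    refine le_trans (by norm_num) h3

/-! ### choice of `t` -/

theorem U2_lower {M t : ℕ} (hM : 1 ≤ M) (ht : 0 < t) :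
    6 * t * (M + 3 / 2) * (Real.log (6 * t) - Real.log 2 / 2 * (M + 5 / 2)) -
      t * (6 * Real.log M + 22) ≤ U2 M (3 * t * (2 * M + 5)) t := by
  have hM' : (0 : ℝ) < M := by exact_mod_cast hM
  have ht' : (0 : ℝ) < t := by exact_mod_cast ht
  have hn : ((3 * t * (2 * M + 5) : ℕ) : ℝ) = 6 * t * (M + 5 / 2) := by push_cast; ring
  have h1 := log_fact_ge (3 * t * (2 * M + 5))
  have h2 := log_fact_le hM
  have l2 := Real.log_two_lt_d9
  have l2' := Real.log_two_gt_d9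
  unfold U2
  rw [hn] at h1 ⊢
  rw [Real.log_mul (by positivity) (by positivity)] at h1
  have hlt : Real.log (6 * (t : ℝ)) = Real.log 6 + Real.log t :=
    Real.log_mul (by norm_num) ht'.ne'
  have h3 : Real.log (M : ℝ) ≤ Real.log ((M : ℝ) + 5 / 2) :=
    Real.log_le_log hM' (by linarith)
  have h6 : 0 ≤ Real.log 6 := Real.log_nonneg (by norm_num)
  rw [hlt] at h1 ⊢
  generalize Real.log (M.factorial : ℝ) = F at *
  generalize Real.log (t : ℝ) = T at *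
  generalize Real.log (M : ℝ) = L at *
  generalize Real.log ((M : ℝ) + 5 / 2) = C at *
  generalize Real.log (6 : ℝ) = S at *
  generalize Real.log (2 : ℝ) = D at *
  have p1 : 0 ≤ 6 * (t : ℝ) * ((M * L - M + (1 + L)) - F) := by
    apply mul_nonneg (by positivity); linarith
  have p2 : 0 ≤ 6 * (t : ℝ) * (M + 5 / 2) * (C - L) := by
    apply mul_nonneg (by positivity); linarith
  have p3 : 0 ≤ (t : ℝ) * S := by positivity
  have p4 : 0 ≤ (t : ℝ) * (1 - D) := by apply mul_nonneg ht'.le; linarith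
  have p5 : 0 ≤ (t : ℝ) * (7 - 35 / 4 * D) := by apply mul_nonneg ht'.le; linarith
  linarith

theorem U2_upper {M t : ℕ} (hM : 100 ≤ M) (ht : 0 < t) :
    U2 M (3 * t * (2 * M + 5)) t ≤
      6 * t * (M + 3 / 2) * (Real.log (6 * t) - Real.log 2 / 2 * (M + 5 / 2)) +
      t * (60 + Real.log (M + 5 / 2)) := by
  have hM0 : (100 : ℝ) ≤ M := by exact_mod_cast hM
  have hM' : (0 : ℝ) < M := by linarith
  have ht' : (0 : ℝ) < t := by exact_mod_cast ht
  have ht1 : (1 : ℝ) ≤ t := by exact_mod_cast ht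
  have hn : ((3 * t * (2 * M + 5) : ℕ) : ℝ) = 6 * t * (M + 5 / 2) := by push_cast; ring
  have h1 := log_fact_le (k := 3 * t * (2 * M + 5)) (Nat.succ_le_of_lt (by positivity))
  have h2 := log_fact_ge M
  have l2 := Real.log_two_lt_d9
  have l2' := Real.log_two_gt_d9
  unfold U2
  rw [hn] at h1 ⊢
  rw [Real.log_mul (by positivity) (by positivity)] at h1
  have hlt : Real.log (6 * (t : ℝ)) = Real.log 6 + Real.log t :=
    Real.log_mul (by norm_num) ht'.ne'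
  have h3 : Real.log ((M : ℝ) + 5 / 2) ≤ Real.log (M : ℝ) + 5 / 2 / M := by
    have e : (M : ℝ) + 5 / 2 = M * (1 + 5 / 2 / M) := by field_simp
    rw [e, Real.log_mul hM'.ne' (by positivity)]
    have := Real.log_le_sub_one_of_pos (x := 1 + 5 / 2 / (M : ℝ)) (by positivity)
    linarith
  have h3' : 6 * ((M : ℝ) + 5 / 2) * (5 / 2 / M) ≤ 16 := by
    have : 6 * ((M : ℝ) + 5 / 2) * (5 / 2 / M) = 15 + 75 / 2 / M := by field_simp; ring
    rw [this]
    have : 75 / 2 / (M : ℝ) ≤ 1 := by rw [div_le_one hM']; linarith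
    linarith
  have h6 : Real.log 6 ≤ 2 := by
    have e : Real.log 6 = Real.log 2 + Real.log 3 := by
      rw [← Real.log_mul (by norm_num) (by norm_num)]; norm_num
    have : Real.log 3 ≤ 5 / 4 := by
      rw [Real.log_le_iff_le_exp (by norm_num)]
      have := Real.quadratic_le_exp_of_nonneg (x := 5 / 4) (by norm_num)
      linarith
    linarith
  have h7 : Real.log (t : ℝ) ≤ t - 1 := Real.log_le_sub_one_of_pos ht'
  have h8 : 0 ≤ Real.log ((M : ℝ) + 5 / 2) := Real.log_nonneg (by linarith)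
  rw [hlt] at h1 ⊢
  generalize Real.log (M.factorial : ℝ) = F at *
  generalize Real.log (t : ℝ) = T at *
  generalize Real.log (M : ℝ) = L at *
  generalize Real.log ((M : ℝ) + 5 / 2) = C at *
  generalize Real.log (6 : ℝ) = S at *
  generalize Real.log (2 : ℝ) = D at *
  have p1 : 0 ≤ 6 * (t : ℝ) * (F - (M * L - M)) := by
    apply mul_nonneg (by positivity); linarith
  have p2 : 0 ≤ 6 * (t : ℝ) * (M + 5 / 2) * (L + 5 / 2 / M - C) := by
    apply mul_nonneg (by positivity); linarith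
  have p2' : 0 ≤ (t : ℝ) * (16 - 6 * ((M : ℝ) + 5 / 2) * (5 / 2 / M)) := by
    apply mul_nonneg ht'.le; linarith
  have p3 : 0 ≤ (t : ℝ) * (2 - S) := by apply mul_nonneg ht'.le; linarith
  have p4 : 0 ≤ (t : ℝ) * D := by apply mul_nonneg ht'.le; linarith
  have p5 : 0 ≤ ((t : ℝ) - 1) * C := by apply mul_nonneg (by linarith) h8
  have p6 : 6 * (t : ℝ) * (M + 5 / 2) * (L + 5 / 2 / M - C) =
    6 * (t : ℝ) * (M + 5 / 2) * (L - C) + t * (6 * ((M : ℝ) + 5 / 2) * (5 / 2 / M)) := by ring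
  rw [p6] at p2
  linarith

theorem lw_nonneg (i : ℕ) : 0 ≤ lw i := by
  unfold lw
  have h1 : 0 ≤ Real.log (i.factorial : ℝ) :=
    Real.log_nonneg (by exact_mod_cast Nat.factorial_pos i)
  have h2 := Real.log_two_gt_d9
  have h3 : (0 : ℝ) ≤ (i.choose 2 : ℝ) := Nat.cast_nonneg _
  have h4 : 0 ≤ Real.log 2 * (i.choose 2 : ℝ) := mul_nonneg (by linarith) h3
  linarith

theorem log_fact_add (n d : ℕ) (h : 0 < n + d) : Real.log ((n + d).factorial : ℝ) ≤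
    Real.log (n.factorial : ℝ) + d * Real.log ((n + d : ℕ) : ℝ) := by
  have h1 : (n + d).factorial ≤ n.factorial * (n + d) ^ d := by
    have := Nat.factorial_mul_descFactorial (n := n + d) (k := d) (by omega)
    rw [Nat.add_sub_cancel] at this
    rw [← this]
    exact Nat.mul_le_mul_left _ (Nat.descFactorial_le_pow _ _)
  have hn0 : (0 : ℝ) < ((n + d : ℕ) : ℝ) := by exact_mod_cast h
  have hf : (0 : ℝ) < (n.factorial : ℝ) := by exact_mod_cast Nat.factorial_pos n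
  have hf' : (0 : ℝ) < ((n + d).factorial : ℝ) := by exact_mod_cast Nat.factorial_pos _
  have h3 : ((n + d).factorial : ℝ) ≤ (n.factorial : ℝ) * ((n + d : ℕ) : ℝ) ^ d := by
    exact_mod_cast h1
  have h4 := Real.log_le_log hf' h3
  rwa [Real.log_mul hf.ne' (by positivity), Real.log_pow] at h4

theorem LE2_step (M t : ℕ) : LE M (3 * (t + 1) * (2 * M + 5)) (kap2 (t + 1)) ≤
    LE M (3 * t * (2 * M + 5)) (kap2 t) +
      (6 * M + 15) * Real.log (6 * ((t : ℝ) + 1) * (M + 5 / 2)) := by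
  have h2 : Real.log ((3 * (t + 1) * (2 * M + 5)).factorial : ℝ) ≤
      Real.log ((3 * t * (2 * M + 5)).factorial : ℝ) +
      (6 * M + 15) * Real.log (6 * ((t : ℝ) + 1) * (M + 5 / 2)) := by
    have h3 := log_fact_add (3 * t * (2 * M + 5)) (6 * M + 15) (by omega)
    have e : 3 * t * (2 * M + 5) + (6 * M + 15) = 3 * (t + 1) * (2 * M + 5) := by ring
    rw [e] at h3
    have e2 : ((3 * (t + 1) * (2 * M + 5) : ℕ) : ℝ) = 6 * ((t : ℝ) + 1) * (M + 5 / 2) := by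
      push_cast; ring
    rw [e2] at h3
    push_cast at h3
    exact h3
  unfold LE
  have h5 : ∑ j : Fin 6, ((kap2 t j : ℝ) * lw (M + j) + Real.log ((kap2 t j).factorial : ℝ)) ≤
      ∑ j : Fin 6, ((kap2 (t + 1) j : ℝ) * lw (M + j) +
        Real.log ((kap2 (t + 1) j).factorial : ℝ)) := by
    apply sum_le_sum
    intro j _
    have h6 : ((kap2 t j : ℕ) : ℝ) * lw (M + j) ≤ ((kap2 (t + 1) j : ℕ) : ℝ) * lw (M + j) := by
      apply mul_le_mul_of_nonneg_right _ (lw_nonneg _)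
      simp [kap2]
    have h7 : Real.log ((kap2 t j).factorial : ℝ) ≤ Real.log ((kap2 (t + 1) j).factorial : ℝ) := by
      apply Real.log_le_log (by exact_mod_cast Nat.factorial_pos _)
      exact_mod_cast Nat.factorial_le (by simp [kap2])
    linarith
  linarith

theorem t_huge {M t : ℕ} (hM : 1000000 ≤ M) (ht : 0 < t)
    (h : (M : ℝ) / 3 ≤ Real.log (6 * t)) : 5 * (M : ℝ) ^ 4 ≤ t := by
  have hM' : (1000000 : ℝ) ≤ M := by exact_mod_cast hM
  have ht' : (0 : ℝ) < t := by exact_mod_cast ht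
  have h4 := Real.exp_le_exp.2 h
  rw [Real.exp_log (by positivity)] at h4
  have h5 := Real.pow_div_factorial_le_exp (x := (M : ℝ) / 3) (by positivity) 5
  have e : (Nat.factorial 5 : ℝ) = 120 := by norm_num [Nat.factorial]
  rw [e] at h5
  have h6 : ((M : ℝ) / 3) ^ 5 / 120 = (M : ℝ) ^ 4 * M / 29160 := by ring
  rw [h6] at h5
  have h7 : (M : ℝ) ^ 4 * 1000000 ≤ (M : ℝ) ^ 4 * M :=
    mul_le_mul_of_nonneg_left hM' (by positivity)
  have h8 : (0 : ℝ) ≤ (M : ℝ) ^ 4 := by positivity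
  linarith

/-- sizes of `M` relative to `ε` -/
structure Big (ε : ℝ) (M : ℕ) : Prop where
  e0 : 0 < ε
  e1 : ε ≤ 1 / 1000
  M6 : 1000000 ≤ M
  lg : Real.log (M + 5 / 2) ≤ ε / 1000 * M
  eM : 1000000 ≤ ε * M

theorem Big_of {ε : ℝ} (hε : 0 < ε) (hε1 : ε ≤ 1 / 1000) :
    ∃ M₀ : ℕ, ∀ M : ℕ, M₀ ≤ M → Big ε M := by
  have h1 : Filter.Tendsto (fun x : ℝ => Real.log x / x) Filter.atTop (nhds 0) := by
    have := Real.isLittleO_log_id_atTop.tendsto_div_nhds_zero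
    simpa using this
  have hδ : 0 < ε / 2000 := by positivity
  have h2 : ∀ᶠ x : ℝ in Filter.atTop, Real.log x / x < ε / 2000 :=
    h1.eventually (gt_mem_nhds hδ)
  obtain ⟨X, hX⟩ := Filter.eventually_atTop.1 h2
  refine ⟨max 1000000 (max ⌈X⌉₊ ⌈1000000 / ε⌉₊), fun M hM => ?_⟩
  have hM6 : 1000000 ≤ M := (le_max_left _ _).trans hM
  have hMX : X ≤ M := (Nat.le_ceil X).trans
    (by exact_mod_cast ((le_max_left _ _).trans (le_max_right _ _)).trans hM)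
  have hMe : 1000000 / ε ≤ M := (Nat.le_ceil _).trans
    (by exact_mod_cast ((le_max_right _ _).trans (le_max_right _ _)).trans hM)
  have hM6' : (1000000 : ℝ) ≤ M := by exact_mod_cast hM6
  refine ⟨hε, hε1, hM6, ?_, ?_⟩
  · have h3 := hX ((M : ℝ) + 5 / 2) (by linarith)
    rw [div_lt_iff₀ (by linarith)] at h3
    nlinarith
  · rw [div_le_iff₀ hε] at hMe
    linarith

theorem Big.one {ε : ℝ} {M : ℕ} (h : Big ε M) : 1 ≤ M := by
  have := h.M6; omega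

theorem Big.Mr {ε : ℝ} {M : ℕ} (h : Big ε M) : (1000000 : ℝ) ≤ M := by
  exact_mod_cast h.M6

theorem Big.lg' {ε : ℝ} {M : ℕ} (h : Big ε M) : Real.log M ≤ ε / 1000 * M :=
  (Real.log_le_log (by linarith [h.Mr]) (by linarith)).trans h.lg

/-- `LE ≥ 0` for large `t` -/
theorem LE2_pos {ε : ℝ} {M t : ℕ} (h : Big ε M) (ht : 0 < t)
    (hg : ε / 2 ≤ Real.log (6 * t) - Real.log 2 / 2 * (M + 5 / 2)) :
    0 ≤ LE M (3 * t * (2 * M + 5)) (kap2 t) := by
  have ht' : (0 : ℝ) < t := by exact_mod_cast ht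
  have ht1 : (1 : ℝ) ≤ t := by exact_mod_cast ht
  have hM := h.Mr
  have h1 := LE2_ge h.one ht
  have h2 := U2_lower h.one ht
  have h3 := h.lg'
  have h4 := h.eM
  have h5 : Real.log (6 * (t : ℝ)) ≤ 6 * t - 1 := Real.log_le_sub_one_of_pos (by positivity)
  have h6 : 150 * (t : ℝ) / M ≤ t := by
    rw [div_le_iff₀ (by linarith)]; nlinarith
  have h7 : 6 * t * ((M : ℝ) + 3 / 2) * (ε / 2) ≤
      6 * t * (M + 3 / 2) * (Real.log (6 * t) - Real.log 2 / 2 * (M + 5 / 2)) :=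
    mul_le_mul_of_nonneg_left hg (by positivity)
  have h8 : (t : ℝ) * (6 * Real.log M + 22) ≤ t * (6 * (ε / 1000 * M) + 22) :=
    mul_le_mul_of_nonneg_left (by linarith) ht'.le
  have h9 : 0 ≤ (t : ℝ) * (ε * M - 1000000) := mul_nonneg ht'.le (by linarith)
  have h10 : 0 ≤ (t : ℝ) * ε := mul_nonneg ht'.le h.e0.le
  linarith

theorem g_ge {ε : ℝ} {M t : ℕ} (h : Big ε M) (ht : 0 < t)
    (h0 : 0 ≤ LE M (3 * t * (2 * M + 5)) (kap2 t)) :
    -(ε / 2) ≤ Real.log (6 * t) - Real.log 2 / 2 * (M + 5 / 2) := by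
  by_contra hcon
  push Not at hcon
  have ht' : (0 : ℝ) < t := by exact_mod_cast ht
  have hM := h.Mr
  have h1 := LE2_le h.one ht
  have h2 := U2_upper (M := M) (by have := h.M6; omega) ht
  have h3 := h.lg
  have h4 := h.eM
  have h7 : 6 * t * ((M : ℝ) + 3 / 2) * (Real.log (6 * t) - Real.log 2 / 2 * (M + 5 / 2)) ≤
      6 * t * (M + 3 / 2) * (-(ε / 2)) :=
    mul_le_mul_of_nonneg_left hcon.le (by positivity)
  have h8 : (t : ℝ) * (60 + Real.log (M + 5 / 2)) ≤ t * (60 + ε / 1000 * M) :=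
    mul_le_mul_of_nonneg_left (by linarith) ht'.le
  have h9 : 0 ≤ (t : ℝ) * (ε * M - 1000000) := mul_nonneg ht'.le (by linarith)
  have h10 : 0 ≤ (t : ℝ) * ε := mul_nonneg ht'.le h.e0.le
  linarith

theorem exists_t {ε : ℝ} {M : ℕ} (h : Big ε M) : ∃ t : ℕ, 0 < t ∧ 5 * (M : ℝ) ^ 4 ≤ t ∧
    |Real.log (6 * t) - Real.log 2 / 2 * (M + 5 / 2)| ≤ ε ∧
    0 ≤ LE M (3 * t * (2 * M + 5)) (kap2 t) ∧
    LE M (3 * t * (2 * M + 5)) (kap2 t) ≤ ε * t := by
  classical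
  have hM := h.Mr
  have l1 := Real.log_two_gt_d9
  have l2 := Real.log_two_lt_d9
  have hex : ∃ t : ℕ, 0 < t ∧ 0 ≤ LE M (3 * t * (2 * M + 5)) (kap2 t) := by
    refine ⟨⌈Real.exp (Real.log 2 / 2 * (M + 5 / 2) + ε / 2)⌉₊, Nat.ceil_pos.2 (Real.exp_pos _),
      LE2_pos h (Nat.ceil_pos.2 (Real.exp_pos _)) ?_⟩
    have h1 := Nat.le_ceil (Real.exp (Real.log 2 / 2 * ((M : ℝ) + 5 / 2) + ε / 2))
    have h2 : Real.log 2 / 2 * ((M : ℝ) + 5 / 2) + ε / 2 ≤
        Real.log (⌈Real.exp (Real.log 2 / 2 * ((M : ℝ) + 5 / 2) + ε / 2)⌉₊ : ℝ) := by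
      rw [Real.le_log_iff_exp_le ((Real.exp_pos _).trans_le h1)]
      exact h1
    rw [Real.log_mul (by norm_num) ((Real.exp_pos _).trans_le h1).ne']
    have h3 : 0 ≤ Real.log 6 := Real.log_nonneg (by norm_num)
    linarith
  obtain ⟨h1, h2⟩ := Nat.find_spec hex
  have hmin : ∀ m, m < Nat.find hex → ¬ (0 < m ∧ 0 ≤ LE M (3 * m * (2 * M + 5)) (kap2 m)) :=
    fun m hm => Nat.find_min hex hm
  generalize Nat.find hex = t at h1 h2 hmin
  have hg := g_ge h h1 h2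
  have ht' : (0 : ℝ) < t := by exact_mod_cast h1
  have hbig : 5 * (M : ℝ) ^ 4 ≤ t := by
    apply t_huge h.M6 h1
    have := h.e1
    nlinarith
  have hM4 : (1000000 : ℝ) ^ 3 * M ≤ (M : ℝ) ^ 4 := by
    have h3 : (1000000 : ℝ) ^ 3 ≤ (M : ℝ) ^ 3 := pow_le_pow_left₀ (by norm_num) hM 3
    have h4 : (1000000 : ℝ) ^ 3 * M ≤ (M : ℝ) ^ 3 * M :=
      mul_le_mul_of_nonneg_right h3 (by linarith)
    have h5 : (M : ℝ) ^ 4 = (M : ℝ) ^ 3 * M := by ring
    rw [h5]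
    exact h4
  have htM : (1000000 : ℝ) ^ 3 * M ≤ t := by
    have : (0 : ℝ) ≤ (M : ℝ) ^ 4 := by positivity
    linarith
  obtain ⟨p, rfl⟩ : ∃ p, t = p + 1 := ⟨t - 1, by omega⟩
  have hp : 0 < p := by
    by_contra hcon
    have : p = 0 := by omega
    subst this
    norm_num at htM
    linarith
  have hp' : (0 : ℝ) < p := by exact_mod_cast hp
  have h3 := hmin p (by omega)
  have h4 : LE M (3 * p * (2 * M + 5)) (kap2 p) < 0 := by
    by_contra hcon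
    exact h3 ⟨hp, not_lt.1 hcon⟩
  have h5 : Real.log (6 * p) - Real.log 2 / 2 * (M + 5 / 2) < ε / 2 := by
    by_contra hcon
    exact absurd (LE2_pos h hp (not_lt.1 hcon)) (not_le.2 h4)
  have h6 : Real.log (6 * ((p + 1 : ℕ) : ℝ)) ≤ Real.log (6 * p) + ε / 2 := by
    have e : (6 : ℝ) * ((p + 1 : ℕ) : ℝ) = 6 * p * (1 + 1 / p) := by
      push_cast; field_simp
    rw [e, Real.log_mul (by positivity) (by positivity)]
    have h7 := Real.log_le_sub_one_of_pos (x := 1 + 1 / (p : ℝ)) (by positivity)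
    have h8 : 1 / (p : ℝ) ≤ ε / 2 := by
      rw [div_le_iff₀ hp']
      have h9 := h.eM
      have h10 : (M : ℝ) ≤ p := by
        push_cast at htM
        linarith
      have := h.e0
      nlinarith
    linarith
  have hgu : Real.log (6 * ((p + 1 : ℕ) : ℝ)) - Real.log 2 / 2 * (M + 5 / 2) ≤ ε := by linarith
  refine ⟨p + 1, h1, hbig, abs_le.2 ⟨by linarith [h.e0], hgu⟩, h2, ?_⟩
  have h7 := LE2_step M p
  have h8 : Real.log (6 * ((p : ℝ) + 1) * (M + 5 / 2)) ≤ M := by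
    rw [Real.log_mul (by positivity) (by positivity)]
    have h9 := h.lg
    have h10 := h.e1
    push_cast at hgu
    nlinarith
  have h9 : (6 * (M : ℝ) + 15) * Real.log (6 * ((p : ℝ) + 1) * (M + 5 / 2)) ≤ 7 * M * M := by
    have h10 : (0 : ℝ) ≤ 6 * (M : ℝ) + 15 := by positivity
    have h11 := mul_le_mul_of_nonneg_left h8 h10
    nlinarith
  have h10 : 7 * (M : ℝ) * M ≤ ε * ((p + 1 : ℕ) : ℝ) := by
    have h11 := h.eM
    have h12 : (7 : ℝ) * M * M ≤ (M : ℝ) ^ 4 / M := by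
      rw [le_div_iff₀ (by linarith)]
      have : (7 : ℝ) ≤ M := by linarith
      have h13 : (0 : ℝ) ≤ (M : ℝ) ^ 3 := by positivity
      have := mul_le_mul_of_nonneg_right this h13
      linarith
    have h13 : (M : ℝ) ^ 4 / M ≤ ε * (M : ℝ) ^ 4 := by
      rw [div_le_iff₀ (by linarith)]
      have h14 : (0 : ℝ) ≤ (M : ℝ) ^ 4 := by positivity
      have h15 : (1 : ℝ) ≤ ε * M := by linarith
      have := mul_le_mul_of_nonneg_left h15 h14
      linarith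
    have h14 : ε * (M : ℝ) ^ 4 ≤ ε * ((p + 1 : ℕ) : ℝ) := by
      apply mul_le_mul_of_nonneg_left _ h.e0.le
      have : (0 : ℝ) ≤ (M : ℝ) ^ 4 := by positivity
      linarith
    linarith
  linarith

/-! ### choice of `s` -/

theorem basic {ε : ℝ} {M t s : ℕ} (h : Big ε M) (ht : 0 < t) (hs : 13 * s ≤ 3 * t)
    (hu : ((3 * t - 13 * s : ℕ) : ℝ) * (M : ℝ) ^ 2 ≤ 6 * t) :
    ∃ v : ℕ, 0 < s ∧ 8 * s = (2 * M + 5) * (3 * t - 13 * s) + v ∧ 0 < v ∧
      13 * s * (2 * M + 5) + (2 * M + 5) * (3 * t - 13 * s) = 3 * t * (2 * M + 5) ∧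
      (t : ℝ) / 5 ≤ s ∧ (((2 * M + 5) * (3 * t - 13 * s) : ℕ) : ℝ) ≤ 18 * t / M ∧
      13 * (s : ℝ) = 3 * t - ((3 * t - 13 * s : ℕ) : ℝ) := by
  have hM := h.Mr
  have ht' : (0 : ℝ) < t := by exact_mod_cast ht
  have hur : 13 * (s : ℝ) = 3 * t - ((3 * t - 13 * s : ℕ) : ℝ) := by
    rw [Nat.cast_sub hs]; push_cast; ring
  have hs' : 13 * (s : ℝ) ≤ 3 * t := by exact_mod_cast hs
  have hMsq : (1000000 : ℝ) ^ 2 ≤ (M : ℝ) ^ 2 := pow_le_pow_left₀ (by norm_num) hM 2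
  have hsl : (t : ℝ) / 5 ≤ s := by
    apply st_ineq hs' hMsq
    have : 3 * (t : ℝ) - 13 * s = ((3 * t - 13 * s : ℕ) : ℝ) := by linarith
    rw [this]
    exact hu
  have hs0 : 0 < s := by
    have : (0 : ℝ) < s := lt_of_lt_of_le (by positivity) hsl
    exact_mod_cast this
  have hw : (((2 * M + 5) * (3 * t - 13 * s) : ℕ) : ℝ) ≤ 18 * t / M := by
    rw [Nat.cast_mul]
    push_cast
    generalize ((3 * t - 13 * s : ℕ) : ℝ) = u at *
    have hu0 : 0 ≤ u := by linarith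
    rw [le_div_iff₀ (by linarith)]
    have h1 : (2 * (M : ℝ) + 5) * u * M ≤ 3 * (u * (M : ℝ) ^ 2) := by
      have : (0 : ℝ) ≤ u * M * (M - 5) := by
        apply mul_nonneg (mul_nonneg hu0 (by linarith)) (by linarith)
      nlinarith
    linarith
  have hw8 : (((2 * M + 5) * (3 * t - 13 * s) : ℕ) : ℝ) < 8 * s := by
    refine lt_of_le_of_lt hw ?_
    rw [div_lt_iff₀ (by linarith)]
    nlinarith
  have hw8' : (2 * M + 5) * (3 * t - 13 * s) < 8 * s := by exact_mod_cast hw8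
  refine ⟨8 * s - (2 * M + 5) * (3 * t - 13 * s), hs0, by omega, by omega, ?_, hsl, hw, hur⟩
  have : 13 * s * (2 * M + 5) + (2 * M + 5) * (3 * t - 13 * s) =
      (13 * s + (3 * t - 13 * s)) * (2 * M + 5) := by ring
  rw [this, Nat.add_sub_cancel' hs]

/-- facts on `t` used below -/
structure Tb (ε : ℝ) (M t : ℕ) : Prop where
  t0 : 0 < t
  big : 5 * (M : ℝ) ^ 4 ≤ t
  L : Real.log (6 * t) ≤ M / 2
  pos : 0 ≤ LE M (3 * t * (2 * M + 5)) (kap2 t)
  le : LE M (3 * t * (2 * M + 5)) (kap2 t) ≤ ε * t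

theorem Tb.bounds {ε : ℝ} {M t : ℕ} (h : Big ε M) (T : Tb ε M t) :
    (0 : ℝ) < t ∧ 1000000 * (M : ℝ) ^ 3 ≤ t ∧ 150 * (t : ℝ) / M ≤ ε / 1000 * t ∧
      (M : ℝ) ^ 2 * 1000 ≤ ε / 1000 * t ∧ (1 : ℝ) ≤ M ^ 2 ∧ (M : ℝ) ≤ M ^ 2 := by
  have hM := h.Mr
  have ht' : (0 : ℝ) < t := by exact_mod_cast T.t0
  have e := h.eM
  have h3 : 1000000 * (M : ℝ) ^ 3 ≤ t := by
    have h1 : (0 : ℝ) ≤ (M : ℝ) ^ 3 := by positivity
    have h2 := mul_le_mul_of_nonneg_right hM h1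
    have h4 := T.big
    nlinarith
  have h2 : (M : ℝ) ≤ M ^ 2 := by nlinarith
  refine ⟨ht', h3, ?_, ?_, by linarith, h2⟩
  · rw [div_le_iff₀ (by linarith)]
    have := mul_le_mul_of_nonneg_right e ht'.le
    nlinarith
  · have h5 : (0 : ℝ) ≤ (M : ℝ) ^ 2 := by positivity
    have h6 := mul_le_mul_of_nonneg_right e h5
    have h7 := mul_le_mul_of_nonneg_left h3 h.e0.le
    nlinarith

theorem LE1_pos {ε : ℝ} {M t s : ℕ} (h : Big ε M) (T : Tb ε M t) (hs : 13 * s ≤ 3 * t)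
    (hu : 3 * t - 13 * s ≤ 12) :
    0 ≤ LE M (3 * t * (2 * M + 5)) (kap1 s ((2 * M + 5) * (3 * t - 13 * s))) := by
  have hM := h.Mr
  obtain ⟨ht', hM3, b1, b2, b3, b4⟩ := T.bounds h
  have hu' : ((3 * t - 13 * s : ℕ) : ℝ) ≤ 12 := by exact_mod_cast hu
  have hu0 : (0 : ℝ) ≤ ((3 * t - 13 * s : ℕ) : ℝ) := Nat.cast_nonneg _
  have hM2 : (0 : ℝ) ≤ (M : ℝ) ^ 2 := by positivity
  obtain ⟨v, hs0, hv, hv0, hn, hsl, hw, hur⟩ := basic h T.t0 hs (by
    have := mul_le_mul_of_nonneg_right hu' hM2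
    nlinarith)
  have h1 := LE1_ge h.one hs0 hv hv0 hn hs
  have h2 := U_sub (M := M) (n := 3 * t * (2 * M + 5)) (s := s) (t := t)
    (u := ((3 * t - 13 * s : ℕ) : ℝ)) hur
  have h3 := LE2_le h.one T.t0
  have h4 := T.pos
  have h5 := T.L
  obtain ⟨a1, a2⟩ := a_bounds h.M6
  have hs0' : (0 : ℝ) < s := by exact_mod_cast hs0
  have hs1 : (1 : ℝ) ≤ s := by exact_mod_cast hs0
  have hls : 0 ≤ Real.log (s : ℝ) := Real.log_nonneg hs1
  have hlog : Real.log (13 / 3) ≤ Real.log t - Real.log s := by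
    rw [← Real.log_div ht'.ne' hs0'.ne']
    apply Real.log_le_log (by norm_num)
    rw [div_le_div_iff₀ (by norm_num) hs0']
    linarith
  have l1 := Real.log_two_gt_d9
  have l2 := Real.log_two_lt_d9
  have hA := A_bounds.1
  have hw' : (((2 * M + 5) * (3 * t - 13 * s) : ℕ) : ℝ) =
      (2 * M + 5) * ((3 * t - 13 * s : ℕ) : ℝ) := by push_cast; ring
  rw [hw'] at h1
  generalize ((3 * t - 13 * s : ℕ) : ℝ) = u at *
  generalize LE M (3 * t * (2 * M + 5)) (kap1 s ((2 * M + 5) * (3 * t - 13 * s))) = X at *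
  generalize LE M (3 * t * (2 * M + 5)) (kap2 t) = Y at *
  generalize U1 M (3 * t * (2 * M + 5)) (s : ℝ) = V1 at *
  generalize U2 M (3 * t * (2 * M + 5)) (t : ℝ) = V2 at *
  generalize Real.log (M.factorial : ℝ) - M * Real.log M = a at *
  have p1 : (t : ℝ) * (6 * Real.log (13 / 3)) ≤ 6 * t * (Real.log t - Real.log s) := by
    have := mul_le_mul_of_nonneg_left hlog (by positivity : (0 : ℝ) ≤ 6 * t)
    linarith
  have p2 : (t : ℝ) * 1 ≤ t * (6 * Real.log (13 / 3) - 10 * Real.log 2) :=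
    mul_le_mul_of_nonneg_left hA ht'.le
  have p3 : u * (-(2 * M) - 2 - ((M : ℝ) + 5 / 2) ^ 2) ≤ u * (2 * a - 2 -
      Real.log 2 * (M + 5 / 2) ^ 2 + 25 / 4 * Real.log 2 + 2 * Real.log s) := by
    apply mul_le_mul_of_nonneg_left _ hu0
    have : Real.log 2 * ((M : ℝ) + 5 / 2) ^ 2 ≤ 1 * ((M : ℝ) + 5 / 2) ^ 2 :=
      mul_le_mul_of_nonneg_right (by linarith) (by positivity)
    linarith
  have p4 : u * (2 * M + 2 + ((M : ℝ) + 5 / 2) ^ 2) ≤
      12 * (2 * M + 2 + ((M : ℝ) + 5 / 2) ^ 2) :=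
    mul_le_mul_of_nonneg_right hu' (by positivity)
  have p5 : (2 * (M : ℝ) + 5) * u ≤ (2 * (M : ℝ) + 5) * 12 :=
    mul_le_mul_of_nonneg_left hu' (by positivity)
  have e1 := h.e1
  have p6 : ε / 1000 * t ≤ 1 / 1000 * t := mul_le_mul_of_nonneg_right (by linarith) ht'.le
  linarith

theorem LE1_neg {ε : ℝ} {M t s : ℕ} (h : Big ε M) (T : Tb ε M t) (hs : 13 * s ≤ 3 * t)
    (hu : ((3 * t - 13 * s : ℕ) : ℝ) * (M : ℝ) ^ 2 ≤ 6 * t)
    (hu2 : 6 * (t : ℝ) < (((3 * t - 13 * s : ℕ) : ℝ) + 13) * (M : ℝ) ^ 2) :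
    LE M (3 * t * (2 * M + 5)) (kap1 s ((2 * M + 5) * (3 * t - 13 * s))) < 0 := by
  have hM := h.Mr
  obtain ⟨ht', hM3, b1, b2, b3, b4⟩ := T.bounds h
  have hu0 : (0 : ℝ) ≤ ((3 * t - 13 * s : ℕ) : ℝ) := Nat.cast_nonneg _
  have hM2 : (0 : ℝ) ≤ (M : ℝ) ^ 2 := by positivity
  obtain ⟨v, hs0, hv, hv0, hn, hsl, hw, hur⟩ := basic h T.t0 hs hu
  have h1 := LE1_le h.one hs0 hv hv0 hn
  have h2 := U_sub (M := M) (n := 3 * t * (2 * M + 5)) (s := s) (t := t)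
    (u := ((3 * t - 13 * s : ℕ) : ℝ)) hur
  have h3 := LE2_ge h.one T.t0
  have h4 := T.le
  have h5 := T.L
  obtain ⟨a1, a2⟩ := a_bounds h.M6
  have hs0' : (0 : ℝ) < s := by exact_mod_cast hs0
  have hlog : Real.log t - Real.log s ≤
      Real.log (13 / 3) + ((3 * t - 13 * s : ℕ) : ℝ) / (13 * s) := by
    have h6 := Real.log_le_sub_one_of_pos (x := (t : ℝ) / (13 / 3 * s)) (by positivity)
    rw [Real.log_div ht'.ne' (by positivity), Real.log_mul (by norm_num) hs0'.ne'] at h6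
    have e : (t : ℝ) / (13 / 3 * s) - 1 = ((3 * t - 13 * s : ℕ) : ℝ) / (13 * s) := by
      have : ((3 * t - 13 * s : ℕ) : ℝ) = 3 * t - 13 * s := by linarith
      rw [this]
      field_simp
    linarith
  have hls : 2 * Real.log (s : ℝ) ≤ M := by
    have : Real.log (s : ℝ) ≤ Real.log (6 * t) := Real.log_le_log hs0' (by linarith)
    linarith
  have l1 := Real.log_two_gt_d9
  have l2 := Real.log_two_lt_d9
  have hA := A_bounds.2
  generalize ((3 * t - 13 * s : ℕ) : ℝ) = u at *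
  generalize LE M (3 * t * (2 * M + 5)) (kap1 s ((2 * M + 5) * (3 * t - 13 * s))) = X at *
  generalize LE M (3 * t * (2 * M + 5)) (kap2 t) = Y at *
  generalize U1 M (3 * t * (2 * M + 5)) (s : ℝ) = V1 at *
  generalize U2 M (3 * t * (2 * M + 5)) (t : ℝ) = V2 at *
  generalize Real.log (M.factorial : ℝ) - M * Real.log M = a at *
  have p1 : 6 * t * (Real.log t - Real.log s) ≤ t * (6 * Real.log (13 / 3)) + 3 * u := by
    have h7 := mul_le_mul_of_nonneg_left hlog (by positivity : (0 : ℝ) ≤ 6 * t)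
    have h8 : 6 * (t : ℝ) * (u / (13 * s)) ≤ 3 * u := by
      rw [mul_div_assoc', div_le_iff₀ (by positivity)]
      have : u * (6 * t) ≤ u * (39 * s) := mul_le_mul_of_nonneg_left (by linarith) hu0
      linarith
    linarith
  have p2 : (t : ℝ) * (6 * Real.log (13 / 3) - 10 * Real.log 2) ≤ t * 2 :=
    mul_le_mul_of_nonneg_left hA ht'.le
  have p3 : u * (2 * a - 2 -
      Real.log 2 * (M + 5 / 2) ^ 2 + 25 / 4 * Real.log 2 + 2 * Real.log s) ≤
      u * (-3 - 69 / 100 * (M : ℝ) ^ 2) := by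
    apply mul_le_mul_of_nonneg_left _ hu0
    have : 6931 / 10000 * ((M : ℝ) + 5 / 2) ^ 2 ≤ Real.log 2 * ((M : ℝ) + 5 / 2) ^ 2 :=
      mul_le_mul_of_nonneg_right (by linarith) (by positivity)
    linarith
  have e1 := h.e1
  have p6 : ε / 1000 * t ≤ 1 / 1000 * t := mul_le_mul_of_nonneg_right (by linarith) ht'.le
  have p7 : ε * t ≤ 1 / 1000 * t := mul_le_mul_of_nonneg_right e1 ht'.le
  linarith

theorem LE1_step {ε : ℝ} {M t s : ℕ} (h : Big ε M) (T : Tb ε M t) (hs : 13 * (s + 1) ≤ 3 * t)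
    (hu : ((3 * t - 13 * s : ℕ) : ℝ) * (M : ℝ) ^ 2 ≤ 6 * t)
    (hneg : LE M (3 * t * (2 * M + 5)) (kap1 s ((2 * M + 5) * (3 * t - 13 * s))) < 0) :
    LE M (3 * t * (2 * M + 5)) (kap1 (s + 1) ((2 * M + 5) * (3 * t - 13 * (s + 1)))) ≤
      ε * t := by
  have hM := h.Mr
  obtain ⟨ht', hM3, b1, b2, b3, b4⟩ := T.bounds h
  have hM2 : (0 : ℝ) ≤ (M : ℝ) ^ 2 := by positivity
  have hsub : ((3 * t - 13 * s : ℕ) : ℝ) = ((3 * t - 13 * (s + 1) : ℕ) : ℝ) + 13 := by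
    have : 3 * t - 13 * s = (3 * t - 13 * (s + 1)) + 13 := by omega
    rw [this]; push_cast; ring
  obtain ⟨v, hs0, hv, hv0, hn, hsl, hw, hur⟩ := basic h T.t0 (by omega : 13 * s ≤ 3 * t) hu
  have hu' : ((3 * t - 13 * (s + 1) : ℕ) : ℝ) * (M : ℝ) ^ 2 ≤ 6 * t := by
    rw [hsub] at hu
    linarith
  obtain ⟨v', hs0', hv', hv0', hn', hsl', hw', hur'⟩ := basic h T.t0 hs hu'
  have h1 := LE1_ge h.one hs0 hv hv0 hn (by omega : 13 * s ≤ 3 * t)
  have h1' := LE1_le h.one hs0' hv' hv0' hn'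
  have h2 := U_sub (M := M) (n := 3 * t * (2 * M + 5)) (s := s) (t := t)
    (u := ((3 * t - 13 * s : ℕ) : ℝ)) hur
  have h2' := U_sub (M := M) (n := 3 * t * (2 * M + 5)) (s := ((s + 1 : ℕ) : ℝ)) (t := t)
    (u := ((3 * t - 13 * (s + 1) : ℕ) : ℝ)) hur'
  have h5 := T.L
  obtain ⟨a1, a2⟩ := a_bounds h.M6
  have hs0r : (0 : ℝ) < s := by exact_mod_cast hs0
  have hs1 : (1 : ℝ) ≤ s := by exact_mod_cast hs0
  have hls : 0 ≤ Real.log (s : ℝ) := Real.log_nonneg hs1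
  have hl1 : Real.log (s : ℝ) ≤ Real.log ((s + 1 : ℕ) : ℝ) :=
    Real.log_le_log hs0r (by push_cast; linarith)
  have hl2 : Real.log ((s + 1 : ℕ) : ℝ) ≤ Real.log (s : ℝ) + 1 / s := by
    have e : ((s + 1 : ℕ) : ℝ) = s * (1 + 1 / s) := by push_cast; field_simp
    rw [e, Real.log_mul hs0r.ne' (by positivity)]
    have := Real.log_le_sub_one_of_pos (x := 1 + 1 / (s : ℝ)) (by positivity)
    linarith
  have l1 := Real.log_two_gt_d9
  have l2 := Real.log_two_lt_d9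
  rw [hsub] at h2
  have hu0 : (0 : ℝ) ≤ ((3 * t - 13 * (s + 1) : ℕ) : ℝ) := Nat.cast_nonneg _
  generalize ((3 * t - 13 * (s + 1) : ℕ) : ℝ) = u at *
  generalize LE M (3 * t * (2 * M + 5)) (kap1 s ((2 * M + 5) * (3 * t - 13 * s))) = X at *
  generalize LE M (3 * t * (2 * M + 5))
    (kap1 (s + 1) ((2 * M + 5) * (3 * t - 13 * (s + 1)))) = X' at *
  generalize (((2 * M + 5) * (3 * t - 13 * s) : ℕ) : ℝ) = w at *
  generalize U1 M (3 * t * (2 * M + 5)) ((s + 1 : ℕ) : ℝ) = V1' at *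
  generalize U1 M (3 * t * (2 * M + 5)) (s : ℝ) = V1 at *
  generalize U2 M (3 * t * (2 * M + 5)) (t : ℝ) = V2 at *
  generalize Real.log (M.factorial : ℝ) - M * Real.log M = a at *
  have p1 : 6 * (t : ℝ) * (Real.log s - Real.log ((s + 1 : ℕ) : ℝ)) ≤ 0 := by
    apply mul_nonpos_of_nonneg_of_nonpos (by positivity); linarith
  have p2 : 2 * u * (Real.log ((s + 1 : ℕ) : ℝ) - Real.log s) ≤ 60 := by
    have h6 : 2 * u * (Real.log ((s + 1 : ℕ) : ℝ) - Real.log s) ≤ 2 * u * (1 / s) :=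
      mul_le_mul_of_nonneg_left (by linarith) (by positivity)
    have h7 : 2 * u * (1 / s) ≤ 60 := by
      rw [mul_one_div, div_le_iff₀ hs0r]
      have h8 : u * 1 ≤ u * (M : ℝ) ^ 2 := mul_le_mul_of_nonneg_left b3 hu0
      linarith
    linarith
  have p3 : Real.log 2 * ((M : ℝ) + 5 / 2) ^ 2 ≤ 1 * ((M : ℝ) + 5 / 2) ^ 2 :=
    mul_le_mul_of_nonneg_right (by linarith) (by positivity)
  have p4 : 18 * (t : ℝ) / M = 18 / 150 * (150 * t / M) := by ring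
  rw [p4] at hw
  have p5 : 0 < ε * t := mul_pos h.e0 ht'
  have key : V1' - V1 ≤ 60 + 13 * (2 * M + 2 + ((M : ℝ) + 5 / 2) ^ 2) := by
    have e : V1' - V1 = 6 * (t : ℝ) * (Real.log s - Real.log ((s + 1 : ℕ) : ℝ)) +
      2 * u * (Real.log ((s + 1 : ℕ) : ℝ) - Real.log s) - 26 * Real.log s -
      13 * (2 * a - 2 - Real.log 2 * (M + 5 / 2) ^ 2 + 25 / 4 * Real.log 2) := by
      linarith
    rw [e]
    linarith
  linarith

theorem exists_s {ε : ℝ} {M t : ℕ} (h : Big ε M) (T : Tb ε M t) : ∃ s w : ℕ, 0 < s ∧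
    13 * s ≤ 3 * t ∧ w = (2 * M + 5) * (3 * t - 13 * s) ∧ (w : ℝ) ≤ ε * s ∧
    ((3 * t - 13 * s : ℕ) : ℝ) * (M : ℝ) ^ 2 ≤ 6 * t ∧
    0 ≤ LE M (3 * t * (2 * M + 5)) (kap1 s w) ∧
    LE M (3 * t * (2 * M + 5)) (kap1 s w) ≤ ε * t := by
  classical
  have hM := h.Mr
  obtain ⟨ht', hM3, b1, b2, b3, b4⟩ := T.bounds h
  have hM2 : (0 : ℝ) ≤ (M : ℝ) ^ 2 := by positivity
  have hex : ∃ s : ℕ, 13 * s ≤ 3 * t ∧ ((3 * t - 13 * s : ℕ) : ℝ) * (M : ℝ) ^ 2 ≤ 6 * t ∧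
      0 ≤ LE M (3 * t * (2 * M + 5)) (kap1 s ((2 * M + 5) * (3 * t - 13 * s))) := by
    have h12 : 3 * t - 13 * (3 * t / 13) ≤ 12 := by omega
    have h13 : 13 * (3 * t / 13) ≤ 3 * t := by omega
    refine ⟨3 * t / 13, h13, ?_, LE1_pos h T h13 h12⟩
    have h12' : ((3 * t - 13 * (3 * t / 13) : ℕ) : ℝ) ≤ 12 := by exact_mod_cast h12
    have := mul_le_mul_of_nonneg_right h12' hM2
    nlinarith
  obtain ⟨h1, h2, h3⟩ := Nat.find_spec hex
  have hmin : ∀ m, m < Nat.find hex → ¬ (13 * m ≤ 3 * t ∧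
      ((3 * t - 13 * m : ℕ) : ℝ) * (M : ℝ) ^ 2 ≤ 6 * t ∧
      0 ≤ LE M (3 * t * (2 * M + 5)) (kap1 m ((2 * M + 5) * (3 * t - 13 * m)))) :=
    fun m hm => Nat.find_min hex hm
  generalize Nat.find hex = s at h1 h2 h3 hmin
  obtain ⟨v, hs0, hv, hv0, hn, hsl, hw, hur⟩ := basic h T.t0 h1 h2
  have hws : (((2 * M + 5) * (3 * t - 13 * s) : ℕ) : ℝ) ≤ ε * s := by
    refine hw.trans ?_
    have p4 : 18 * (t : ℝ) / M = 18 / 150 * (150 * t / M) := by ring
    rw [p4]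
    have p5 : ε * ((t : ℝ) / 5) ≤ ε * s := mul_le_mul_of_nonneg_left hsl h.e0.le
    have p6 : 0 ≤ ε * t := mul_nonneg h.e0.le ht'.le
    linarith
  refine ⟨s, (2 * M + 5) * (3 * t - 13 * s), hs0, h1, rfl, hws, h2, h3, ?_⟩
  obtain ⟨p, rfl⟩ : ∃ p, s = p + 1 := ⟨s - 1, by omega⟩
  have hsub : ((3 * t - 13 * p : ℕ) : ℝ) = ((3 * t - 13 * (p + 1) : ℕ) : ℝ) + 13 := by
    have : 3 * t - 13 * p = (3 * t - 13 * (p + 1)) + 13 := by omega
    rw [this]; push_cast; ring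
  by_cases hc : ((3 * t - 13 * p : ℕ) : ℝ) * (M : ℝ) ^ 2 ≤ 6 * t
  · apply LE1_step h T h1 hc
    by_contra hcon
    exact hmin p (by omega) ⟨by omega, hc, not_lt.1 hcon⟩
  · push Not at hc
    rw [hsub] at hc
    exact absurd h3 (not_le.2 (LE1_neg h T h1 h2 hc))

end Params

open Params in
/-- the parameters of the two colourings -/
theorem params (e : ℝ) (he : 0 < e) : ∃ M0 : ℕ, ∀ M : ℕ, M0 ≤ M → ∃ t s w : ℕ, 0 < s ∧
    13 * s ≤ 3 * t ∧ w = (2 * M + 5) * (3 * t - 13 * s) ∧ (w : ℝ) ≤ e * s ∧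
    ((3 * t - 13 * s : ℕ) : ℝ) * (M : ℝ) ^ 2 ≤ 6 * t ∧
    |Real.log (6 * t) - Real.log 2 / 2 * (M + 5 / 2)| ≤ e ∧
    0 ≤ LE M (3 * t * (2 * M + 5)) (kap2 t) ∧
    LE M (3 * t * (2 * M + 5)) (kap2 t) ≤ e * t ∧
    0 ≤ LE M (3 * t * (2 * M + 5)) (kap1 s w) ∧
    LE M (3 * t * (2 * M + 5)) (kap1 s w) ≤ e * t := by
  obtain ⟨M₀, hM₀⟩ := Big_of (ε := min e (1 / 1000)) (by positivity) (min_le_right _ _)
  refine ⟨M₀, fun M hM => ?_⟩
  have h := hM₀ M hM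
  have hle : min e (1 / 1000) ≤ e := min_le_left _ _
  obtain ⟨t, t0, tb, tg, tp, tl⟩ := exists_t h
  have hL : Real.log (6 * (t : ℝ)) ≤ M / 2 := by
    have h1 := (abs_le.1 tg).2
    have h2 := h.e1
    have h3 := h.Mr
    have h4 := Real.log_two_lt_d9
    nlinarith
  obtain ⟨s, w, hs, hs1, hs2, hs3, hs4, hs5, hs6⟩ := exists_s h ⟨t0, tb, hL, tp, tl⟩
  have ht' : (0 : ℝ) ≤ t := Nat.cast_nonneg t
  have hs' : (0 : ℝ) ≤ s := Nat.cast_nonneg s
  have hmt : min e (1 / 1000) * t ≤ e * t := mul_le_mul_of_nonneg_right hle ht'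
  exact ⟨t, s, w, hs, hs1, hs2, hs3.trans (mul_le_mul_of_nonneg_right hle hs'), hs4,
    tg.trans hle, tp, tl.trans hmt, hs5, hs6.trans hmt⟩

end Pool.RG
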