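import Pool.Agent.Work.RG.SM
import Pool.Agent.Work.RG.NumF
import Pool.Agent.Work.RG.Det
import Pool.Agent.Work.RG.Lift
import Pool.Agent.Work.RG.First
import Pool.Agent.Work.RG.Codeg
import Pool.Agent.Work.RG.Contra
import Pool.Agent.Work.RG.Params
import Pool.Agent.Work.RG.PPof

/-!
# MP_004c3d_co : final assembly
-/

namespace Pool.RG

open Finset Real

lemma second_moment' : ∃ M₀ : ℕ, ∀ M : ℕ, M₀ ≤ M → ∀ (κ : Fin 6 → ℕ) (K n : ℕ), K = ∑ j, κ j →
    n = nv M κ →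
    |Real.log K - Real.log 2 / 2 * (M + 5 / 2)| ≤ 1 → PP M κ (K / M ^ 8) →
    Real.exp (-((K : ℝ) / M ^ 7)) ≤ pr n (fun G => ∃ r : Fin n → ℕ,
      IsProper G r ∧ (univ.image r).card = K ∧ (∀ c, csize r c ≤ M + 5) ∧
      mono r = 2 * ∑ j : Fin 6, κ j * (M + (j : ℕ)).choose 2) := by
  obtain ⟨M₀, h⟩ := second_moment
  refine ⟨M₀, fun M hM κ K n hK hn hlog hPP => ?_⟩
  subst hn
  exact h M hM κ K hK hlog hPP

lemma close2 (t : ℕ) (ε : ℝ) (hε : 0 ≤ ε) (j : Fin 6) :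
    |(kap2 t j : ℝ) - ((![1,1,1,1,1,1] : Fin 6 → ℕ) j : ℝ) /
      (∑ i, ((![1,1,1,1,1,1] : Fin 6 → ℕ) i : ℝ)) * ((6 * t : ℕ) : ℝ)| ≤ ε * ((6 * t : ℕ) : ℝ) := by
  have h0 : (kap2 t j : ℝ) - ((![1,1,1,1,1,1] : Fin 6 → ℕ) j : ℝ) /
      (∑ i, ((![1,1,1,1,1,1] : Fin 6 → ℕ) i : ℝ)) * ((6 * t : ℕ) : ℝ) = 0 := by
    simp only [Fin.sum_univ_six, kap2]
    fin_cases j <;> simp <;> ring
  rw [h0, abs_zero]
  positivity

lemma close1 (s w : ℕ) (hw8 : w ≤ 8 * s) (ε : ℝ) (hε : 0 ≤ ε) (hw : (w : ℝ) ≤ ε * s) (j : Fin 6) :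
    |(kap1 s w j : ℝ) - ((![1,4,8,8,4,1] : Fin 6 → ℕ) j : ℝ) /
      (∑ i, ((![1,4,8,8,4,1] : Fin 6 → ℕ) i : ℝ)) * ((26 * s : ℕ) : ℝ)| ≤
      ε * ((26 * s : ℕ) : ℝ) := by
  have hs0 : (0 : ℝ) ≤ s := Nat.cast_nonneg s
  have hw0 : (0 : ℝ) ≤ w := Nat.cast_nonneg w
  have hes : 0 ≤ ε * s := mul_nonneg hε hs0
  have hbig : (w : ℝ) ≤ ε * ((26 * s : ℕ) : ℝ) := by
    push_cast; linarith
  have h0 : |(kap1 s w j : ℝ) - ((![1,4,8,8,4,1] : Fin 6 → ℕ) j : ℝ) /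
      (∑ i, ((![1,4,8,8,4,1] : Fin 6 → ℕ) i : ℝ)) * ((26 * s : ℕ) : ℝ)| ≤ w := by
    simp only [Fin.sum_univ_six, kap1]
    fin_cases j
    · simp; norm_num; ring_nf; simp [hw0]
    · simp; norm_num; ring_nf; simp [hw0]
    · simp [Nat.cast_sub hw8]; norm_num; ring_nf; simp [abs_of_nonneg hw0]
    · simp; norm_num; ring_nf; simp [abs_of_nonneg hw0]
    · simp; norm_num; ring_nf; simp [hw0]
    · simp; norm_num; ring_nf; simp [hw0]
  exact h0.trans hbig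

/-- numerical facts used once the parameters are fixed -/
lemma one_div_facts {M K n : ℕ} (h : Sz M K) (hn : 2 * n = K * (2 * M + 5)) (K' : ℕ)
    (hK' : K ≤ 2 * K') :
    Real.exp (-((K' : ℝ) / M ^ 7 + 1)) ≤ 1 / M ∧ (1 / 2 : ℝ) ^ M ≤ 1 / M ∧
      Real.exp (-(M : ℝ)) ≤ 1 / M ∧ 1 / (n : ℝ) ≤ 1 / M := by
  have hM := h.Mpos
  have hM0 : 0 < M := by exact_mod_cast hM
  have hexp : Real.exp (-(M : ℝ)) ≤ 1 / M := by
    rw [Real.exp_neg, ← one_div]
    apply one_div_le_one_div_of_le hM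
    linarith [Real.add_one_le_exp (M : ℝ)]
  refine ⟨?_, ?_, hexp, ?_⟩
  · refine le_trans ?_ hexp
    apply Real.exp_le_exp.2
    have h1 : (M : ℝ) ^ 8 * 1000000 ≤ K := h.K_ge_pow 8 (by norm_num)
    have h2 : (K : ℝ) ≤ 2 * K' := by exact_mod_cast hK'
    have h3 : (M : ℝ) ≤ (K' : ℝ) / M ^ 7 := by
      rw [le_div_iff₀ (by positivity)]
      have : (M : ℝ) * M ^ 7 = M ^ 8 := by ring
      rw [this]
      have : 0 < (M : ℝ) ^ 8 := by positivity
      linarith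
    linarith
  · rw [one_div_pow]
    apply one_div_le_one_div_of_le hM
    have : M < 2 ^ M := Nat.lt_two_pow_self
    exact_mod_cast this.le
  · apply one_div_le_one_div_of_le hM
    exact_mod_cast h.M_le_n hn

/-- log of the number of classes of the first profile -/
lemma log_close {M K K' : ℕ} (h : Sz M K) (hle : K' ≤ K) (hd : ((K - K' : ℕ) : ℝ) * M ^ 2 ≤ 2 * K) :
    |Real.log K' - Real.log K| ≤ 4 / M := by
  have hM := h.Mpos
  have hMbig : (40000 : ℝ) ≤ M := by have := h.cM; linarith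
  have hK : (0 : ℝ) < K := by exact_mod_cast h.hK
  rw [Nat.cast_sub hle] at hd
  have h1 : (K : ℝ) * (1 - 2 / M) ≤ K' := by
    have e1 : ((K : ℝ) - K') ≤ 2 * K / M ^ 2 := by
      rw [le_div_iff₀ (by positivity)]; exact hd
    have e2 : 2 * (K : ℝ) / M ^ 2 ≤ 2 * K / M := by
      apply div_le_div_of_nonneg_left (by positivity) hM
      nlinarith
    have e3 : (K : ℝ) * (1 - 2 / M) = K - 2 * K / M := by ring
    rw [e3]; linarith
  have h2 : (0 : ℝ) < 1 - 2 / M := by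
    have : 2 / (M : ℝ) < 1 := by rw [div_lt_one hM]; linarith
    linarith
  have hK' : (0 : ℝ) < K' := lt_of_lt_of_le (by positivity) h1
  have h3 : Real.log K' ≤ Real.log K := Real.log_le_log hK' (by exact_mod_cast hle)
  have h4 : Real.log K + Real.log (1 - 2 / M) ≤ Real.log K' := by
    rw [← Real.log_mul (by positivity) h2.ne']
    exact Real.log_le_log (by positivity) h1
  have h5 : -(4 / (M : ℝ)) ≤ Real.log (1 - 2 / M) := by
    have e1 := Real.one_sub_inv_le_log_of_pos h2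
    refine le_trans ?_ e1
    have e2 : (1 - 2 / (M : ℝ))⁻¹ ≤ 1 + 4 / M := by
      rw [inv_le_iff_one_le_mul₀ h2]
      have : (1 + 4 / (M : ℝ)) * (1 - 2 / M) = 1 + 2 / M - 8 / M ^ 2 := by field_simp; ring
      rw [this]
      have : 8 / (M : ℝ) ^ 2 ≤ 2 / M := by
        rw [div_le_div_iff₀ (by positivity) hM]
        nlinarith
      linarith
    linarith
  rw [abs_le]
  constructor <;> linarith [div_nonneg (show (0 : ℝ) ≤ 4 by norm_num) hM.le]

/-- the main probabilistic statement -/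
theorem main_prob (δ : ℝ) (hδ : 0 < δ) (N : ℕ) : ∃ n, N ≤ n ∧
    1 - δ ≤ pr n (fun G => ∀ r, IsMaximizing G r → ¬ IsMinimalColouring G r) := by
  obtain ⟨e, he, M1, hcontra⟩ := contra
  obtain ⟨e1, he1, M2, hPP1⟩ := PP_of ![1,4,8,8,4,1] (Or.inl rfl)
  obtain ⟨e2, he2, M3, hPP2⟩ := PP_of ![1,1,1,1,1,1] (Or.inr rfl)
  obtain ⟨M4, hSM⟩ := second_moment'
  obtain ⟨M5, hSz⟩ := Sz_of
  obtain ⟨n0, hcod⟩ := codeg_conc
  set ε : ℝ := min (min e (e1 / 2)) (min e2 (1 / 2)) with hε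
  have hε0 : 0 < ε := by rw [hε]; positivity
  have hεe : ε ≤ e := (min_le_left _ _).trans (min_le_left _ _)
  have hεe1 : ε ≤ e1 / 2 := (min_le_left _ _).trans (min_le_right _ _)
  have hεe2 : ε ≤ e2 := (min_le_right _ _).trans (min_le_left _ _)
  have hε1 : ε ≤ 1 / 2 := (min_le_right _ _).trans (min_le_right _ _)
  obtain ⟨M6, hpar⟩ := params ε hε0
  -- a large M
  obtain ⟨M, hM⟩ : ∃ M : ℕ, M1 + M2 + M3 + M4 + M5 + M6 + n0 + N + 1 ≤ M ∧
      1000 / e + (6 / e) ^ 4 + 8 / e1 + 5 / δ + 10 ≤ M := by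
    obtain ⟨M7, hM7⟩ := exists_nat_ge (1000 / e + (6 / e) ^ 4 + 8 / e1 + 5 / δ + 10)
    refine ⟨max (M1 + M2 + M3 + M4 + M5 + M6 + n0 + N + 1) M7, le_max_left _ _, ?_⟩
    exact hM7.trans (by exact_mod_cast le_max_right _ _)
  obtain ⟨hMa, hMb⟩ := hM
  have q1 : 0 < 1000 / e := by positivity
  have q2 : 0 < (6 / e) ^ 4 := by positivity
  have q3 : 0 < 8 / e1 := by positivity
  have q4 : 0 < 5 / δ := by positivity
  have hM0' : (0 : ℝ) < M := by linarith only [hMb, q1, q2, q3, q4]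
  obtain ⟨t, s, w, hs, hst, hw, hws, hu, hlog, hE20, hE2, hE10, hE1⟩ := hpar M (by omega)
  -- sizes
  have hs0 : (0 : ℝ) < s := by exact_mod_cast hs
  have ht : 0 < t := by omega
  have ht0 : (0 : ℝ) < t := by exact_mod_cast ht
  have hK6 : ((6 * t : ℕ) : ℝ) = 6 * t := by push_cast; ring
  have hlogK : |Real.log ((6 * t : ℕ) : ℝ) - Real.log 2 / 2 * (M + 5 / 2)| ≤ ε := by
    rw [hK6]; exact hlog
  have hz : Sz M (6 * t) := hSz M (by omega) (6 * t) (hlogK.trans (by linarith only [hε1]))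
  set n := 3 * t * (2 * M + 5) with hn
  have h2n : 2 * n = (6 * t) * (2 * M + 5) := by rw [hn]; ring
  have hn0 : 0 < n := hz.n_pos h2n
  have hMn : M ≤ n := hz.M_le_n h2n
  have hw8 : w < 8 * s := by
    have : (w : ℝ) < 8 * s := by
      calc (w : ℝ) ≤ ε * s := hws
        _ ≤ 1 / 2 * s := by gcongr
        _ < 8 * s := by linarith only [hs0]
    exact_mod_cast this
  have hle26 : 26 * s ≤ 6 * t := by omega
  have hdiff : ((6 * t - 26 * s : ℕ) : ℝ) * M ^ 2 ≤ 2 * ((6 * t : ℕ) : ℝ) := by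
    have h1 : 6 * t - 26 * s = 2 * (3 * t - 13 * s) := by omega
    rw [h1, hK6, Nat.cast_mul, Nat.cast_two, mul_assoc]
    linarith only [hu]
  have hlc := log_close hz hle26 hdiff
  have h4M : 4 / (M : ℝ) ≤ e1 / 2 := by
    rw [div_le_iff₀ hM0']
    have : 8 / e1 ≤ M := by linarith only [hMb, q1, q2, q3, q4]
    rw [div_le_iff₀ he1] at this
    linarith only [this]
  have h4M' : 4 / (M : ℝ) ≤ 1 / 2 := by
    rw [div_le_iff₀ hM0']; linarith only [hMb, q1, q2, q3, q4]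
  have hlogK1 : |Real.log ((26 * s : ℕ) : ℝ) - Real.log 2 / 2 * (M + 5 / 2)| ≤ min e1 1 := by
    have h1 : |Real.log ((26 * s : ℕ) : ℝ) - Real.log 2 / 2 * (M + 5 / 2)| ≤ 4 / M + ε := by
      calc |Real.log ((26 * s : ℕ) : ℝ) - Real.log 2 / 2 * (M + 5 / 2)|
          = |(Real.log ((26 * s : ℕ) : ℝ) - Real.log ((6 * t : ℕ) : ℝ)) +
            (Real.log ((6 * t : ℕ) : ℝ) - Real.log 2 / 2 * (M + 5 / 2))| := by ring_nf
        _ ≤ _ := (abs_add_le _ _).trans (add_le_add hlc hlogK)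
    refine h1.trans (le_min ?_ ?_) <;> linarith only [h4M, h4M', hεe1, hε1]
  -- numbers of vertices
  obtain ⟨v, hv⟩ : ∃ v, 8 * s = w + v := ⟨8 * s - w, by omega⟩
  have hv0 : 0 < v := by omega
  obtain ⟨b1, b2, -, -, b5⟩ := Contra.kap1_sums (M := M) hs hv hv0
  obtain ⟨c1, c2, -, c4⟩ := Contra.kap2_sums (M := M) (t := t) ht
  have hnv2 : n = nv M (kap2 t) := by rw [nv, c4]
  have hnv1 : n = nv M (kap1 s w) := by
    rw [nv, b5, hn]
    obtain ⟨u, hu'⟩ := Nat.exists_eq_add_of_le hst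
    have : 3 * t - 13 * s = u := by omega
    rw [this] at hw
    rw [hw, hu']
    ring
  have hsum1 : 26 * s = ∑ j, kap1 s w j := by
    have : ((26 * s : ℕ) : ℝ) = ((∑ j, kap1 s w j : ℕ) : ℝ) := by
      push_cast; rw [b2]
    exact_mod_cast this
  have hsum2 : 6 * t = ∑ j, kap2 t j := by
    have : ((6 * t : ℕ) : ℝ) = ((∑ j, kap2 t j : ℕ) : ℝ) := by
      push_cast; rw [c2]
    exact_mod_cast this
  -- PP
  have hP1 := hPP1 M (by omega) (kap1 s w) (26 * s) hsum1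
    (close1 s w hw8.le e1 he1.le (by
      calc (w : ℝ) ≤ ε * s := hws
        _ ≤ e1 * s := by gcongr; linarith only [hεe1, he1]))
    (hlogK1.trans (min_le_left _ _)) (by rw [← hnv1]; exact hE10)
  have hP2 := hPP2 M (by omega) (kap2 t) (6 * t) hsum2
    (close2 t e2 he2.le) (hlogK.trans hεe2) (by rw [← hnv2]; exact hE20)
  have hS1 := hSM M (by omega) (kap1 s w) (26 * s) n hsum1 hnv1
    (hlogK1.trans (min_le_right _ _)) hP1
  have hS2 := hSM M (by omega) (kap2 t) (6 * t) n hsum2 hnv2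
    (hlogK.trans (by linarith only [hε1])) hP2
  -- lifting
  have hL1 := lift_chi (n := n) (K := 26 * s) hn0 (((26 * s : ℕ) : ℝ) / M ^ 7) (by positivity)
    (hS1.trans (pr_mono (by
      rintro G ⟨r, h1, h2, -, -⟩
      exact ⟨r, h1, h2.le⟩)))
  set F : ℝ := ((2 * ∑ j : Fin 6, kap2 t j * (M + (j : ℕ)).choose 2 : ℕ) : ℝ) with hF
  have hL2 := lift_mono (n := n) (B := M + 5) hn0 (by omega) F (((6 * t : ℕ) : ℝ) / M ^ 7)
    (by positivity)
    (hS2.trans (pr_mono (by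
      rintro G ⟨r, h1, -, h3, h4⟩
      refine ⟨r, h1, h3, ?_⟩
      rw [hF, h4])))
  have hI := pr_indep n (2 * M + 1)
  have hIs := indep_small hz h2n
  have hFM := first_moment n (2 * M) (e * t)
  have hFMs := fm_small hz h2n (e / 6) (by positivity) (by
    rw [one_div, inv_div]
    have : 6 / e ≤ 1000 / e := by gcongr; norm_num
    linarith only [this, hMb, q2, q3, q4])
  have hC := hcod n (by omega)
  have h52 : 6 * t ≤ 2 * (26 * s) := by
    have h1 : ((6 * t - 26 * s : ℕ) : ℝ) * 100 ≤ 2 * ((6 * t : ℕ) : ℝ) := by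
      refine le_trans ?_ hdiff
      apply mul_le_mul_of_nonneg_left _ (Nat.cast_nonneg _)
      have h3 := hz.cM
      have h4 : (100 : ℝ) ≤ M := by linarith only [h3]
      exact h4.trans (le_self_pow₀ (by linarith only [h4]) (by norm_num))
    have h2 : (6 * t - 26 * s) * 100 ≤ 2 * (6 * t) := by exact_mod_cast h1
    omega
  obtain ⟨f1, f2, f3, f4⟩ := one_div_facts hz h2n (26 * s) h52
  obtain ⟨f5, -, -, -⟩ := one_div_facts hz h2n (6 * t) (by omega)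
  have h5δ : 5 * (1 / (M : ℝ)) ≤ δ := by
    have : 5 / δ ≤ M := by linarith only [hMb, q1, q2, q3, q4]
    rw [div_le_iff₀ hδ] at this
    rw [mul_one_div, div_le_iff₀ hM0']
    linarith only [this]
  refine ⟨n, by omega, ?_⟩
  rw [sub_le_comm, ← pr_not]
  refine le_trans ?_ h5δ
  -- inclusion of events
  have hincl : ∀ G : SimpleGraph (Fin n),
      (¬ ∀ r, IsMaximizing G r → ¬ IsMinimalColouring G r) →
      ((∃ u w : Fin n, u ≠ w ∧ (n : ℝ) ^ (3 / 4 : ℝ) < |(codeg G u w : ℝ) - (n : ℝ) / 4|) ∨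
      ((∃ A : Finset (Fin n), A.card = 2 * M + 1 ∧ ∀ u ∈ A, ∀ v ∈ A, ¬ G.Adj u v) ∨
      ((∃ r : Fin n → ℕ, IsProper G r ∧ (∀ c, csize r c ≤ 2 * M) ∧
        LG n (2 * M) (prof r) < -(e * t)) ∨
      ((¬ ∃ r : Fin n → ℕ, IsProper G r ∧ ((Finset.univ.image r).card : ℝ) <
        ((26 * s : ℕ) : ℝ) + 2 * Real.sqrt (2 * n * (((26 * s : ℕ) : ℝ) / M ^ 7 + 1))) ∨
      (¬ ∃ r : Fin n → ℕ, IsProper G r ∧ (∀ c, csize r c ≤ M + 5) ∧
        F - 4 * ((M + 5 : ℕ) : ℝ) * Real.sqrt (2 * n * (((6 * t : ℕ) : ℝ) / M ^ 7 + 1)) <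
          (mono r : ℝ)))))) := by
    intro G hG
    by_contra hcon
    push Not at hcon
    obtain ⟨g1, g2, g3, g4, g5⟩ := hcon
    push Not at hG
    obtain ⟨r, hmax, hmin⟩ := hG
    have hprop := maximizing_proper hmax
    have hcs : ∀ c, csize r c ≤ 2 * M := fun c => csize_le_of_indep G g2 r hprop c
    obtain ⟨r1, hr1, hr1c⟩ := g4
    obtain ⟨r2, hr2, hr2c, hr2m⟩ := g5
    -- number of classes
    have hcard := chrom_eq G r hmin r1 hr1
    have hsq1 := hz.sqrt_le h2n (26 * s) hle26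
    have hsq2 := hz.sqrt_le h2n (6 * t) le_rfl
    have hMbig : (40000 : ℝ) ≤ M := by have := hz.cM; linarith only [this]
    have he36 : 1000 ≤ e * M := by
      have : 1000 / e ≤ M := by linarith only [hMb, q1, q2, q3, q4]
      rw [div_le_iff₀ he] at this
      linarith only [this]
    have hKs : ((∑ i ∈ Icc 1 (2 * M), prof r i : ℕ) : ℝ) ≤ 26 * s + e * t / (M : ℝ) ^ 2 := by
      have h1 := sum_prof r (2 * M) hcs (fun _ => 1)
      simp only [mul_one, sum_const, smul_eq_mul] at h1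
      rw [h1]
      have h2 : ((univ.image r).card : ℝ) ≤ ((univ.image r1).card : ℝ) := by exact_mod_cast hcard
      have h3 : 2 * (3 * ((6 * t : ℕ) : ℝ) / M ^ 3) ≤ e * t / (M : ℝ) ^ 2 := by
        rw [hK6]
        have : 2 * (3 * (6 * (t : ℝ)) / M ^ 3) = (36 / M) * (t / M ^ 2) := by field_simp; ring
        rw [this]
        have h4 : e * t / (M : ℝ) ^ 2 = e * (t / M ^ 2) := by ring
        rw [h4]
        apply mul_le_mul_of_nonneg_right _ (by positivity)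
        rw [div_le_iff₀ hM0']; linarith only [he36]
      push_cast at hr1c ⊢
      push_cast at hsq1 h3
      linarith only [hr1c, h2, hsq1, h3]
    have hsumk : ∑ i ∈ Icc 1 (2 * M), prof r i * i = 3 * t * (2 * M + 5) := by
      have h1 := sum_prof r (2 * M) hcs (fun i => i)
      rw [h1, sum_csize, Fintype.card_fin]
    have hLGr : -(e * t) ≤ LG (3 * t * (2 * M + 5)) (2 * M) (prof r) := g3 r hprop hcs
    have hmono : (∑ j : Fin 6, (kap2 t j : ℝ) * ((M + (j : ℕ)).choose 2 : ℝ)) - e * t ≤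
        ∑ i ∈ Icc 1 (2 * M), (prof r i : ℝ) * (i.choose 2 : ℝ) := by
      have h1 := sum_prof r (2 * M) hcs (fun i => i.choose 2)
      have h2 := mono_eq_choose r
      rw [← h1] at h2
      have h3 : (mono r : ℝ) = 2 * ∑ i ∈ Icc 1 (2 * M), (prof r i : ℝ) * (i.choose 2 : ℝ) := by
        rw [h2]; push_cast; rfl
      have h4 : F = 2 * ∑ j : Fin 6, (kap2 t j : ℝ) * ((M + (j : ℕ)).choose 2 : ℝ) := by
        rw [hF]; push_cast; rfl
      have h5 := mono_ge_of_max hn0 G ((n : ℝ) ^ (3 / 4 : ℝ)) (by positivity)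
        (fun u w huw => g1 u w huw) r hmax r2 hr2 (M + 5) hr2c
      have h6 := rpow_le hz h2n (e / 6) (by positivity) (by
        rw [one_div, inv_div]; linarith only [hMb, q1, q3, q4])
      have h7 : 4 * ((M + 5 : ℕ) : ℝ) * (3 * ((6 * t : ℕ) : ℝ) / M ^ 3) ≤ e * t := by
        rw [hK6]
        push_cast
        calc 4 * ((M : ℝ) + 5) * (3 * (6 * (t : ℝ)) / M ^ 3)
            ≤ 4 * (2 * (M : ℝ)) * (3 * (6 * (t : ℝ)) / M ^ 3) := by
              gcongr; linarith only [hMbig]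
          _ = (144 / (M : ℝ)) * ((t : ℝ) / M) := by field_simp; ring
          _ ≤ e * ((t : ℝ) / M) := by
              apply mul_le_mul_of_nonneg_right _ (by positivity)
              rw [div_le_iff₀ hM0']; linarith only [he36]
          _ ≤ e * t := by
              gcongr
              apply div_le_self ht0.le
              linarith only [hMbig]
      have h8 : 4 * ((M + 5 : ℕ) : ℝ) * Real.sqrt (2 * n * (((6 * t : ℕ) : ℝ) / M ^ 7 + 1)) ≤
          4 * ((M + 5 : ℕ) : ℝ) * (3 * ((6 * t : ℕ) : ℝ) / M ^ 3) := by gcongr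
      have h9 : 8 * (n : ℝ) ^ (3 / 4 : ℝ) * ((M + 5 : ℕ) : ℝ) ≤ e * t := by
        push_cast
        refine h6.trans (le_of_eq ?_)
        rw [hK6]; ring
      linarith only [h3, h4, h5, h7, h8, h9, hr2m]
    exact hcontra M (by omega) t s w hs hst hw (hws.trans (by gcongr)) hu (hlog.trans hεe)
      hE20 (hE2.trans (by gcongr)) hE10 (hE1.trans (by gcongr)) (prof r) hsumk hLGr hKs hmono
  refine (pr_mono hincl).trans ?_
  refine (pr_or_le _ _).trans ?_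
  have b2' := pr_or_le (n := n)
    (fun G => ∃ A : Finset (Fin n), A.card = 2 * M + 1 ∧ ∀ u ∈ A, ∀ v ∈ A, ¬ G.Adj u v)
    (fun G => (∃ r : Fin n → ℕ, IsProper G r ∧ (∀ c, csize r c ≤ 2 * M) ∧
        LG n (2 * M) (prof r) < -(e * t)) ∨
      ((¬ ∃ r : Fin n → ℕ, IsProper G r ∧ ((Finset.univ.image r).card : ℝ) <
        ((26 * s : ℕ) : ℝ) + 2 * Real.sqrt (2 * n * (((26 * s : ℕ) : ℝ) / M ^ 7 + 1))) ∨
      (¬ ∃ r : Fin n → ℕ, IsProper G r ∧ (∀ c, csize r c ≤ M + 5) ∧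
        F - 4 * ((M + 5 : ℕ) : ℝ) * Real.sqrt (2 * n * (((6 * t : ℕ) : ℝ) / M ^ 7 + 1)) <
          (mono r : ℝ))))
  have b3' := pr_or_le (n := n)
    (fun G => ∃ r : Fin n → ℕ, IsProper G r ∧ (∀ c, csize r c ≤ 2 * M) ∧
        LG n (2 * M) (prof r) < -(e * t))
    (fun G => (¬ ∃ r : Fin n → ℕ, IsProper G r ∧ ((Finset.univ.image r).card : ℝ) <
        ((26 * s : ℕ) : ℝ) + 2 * Real.sqrt (2 * n * (((26 * s : ℕ) : ℝ) / M ^ 7 + 1))) ∨
      (¬ ∃ r : Fin n → ℕ, IsProper G r ∧ (∀ c, csize r c ≤ M + 5) ∧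
        F - 4 * ((M + 5 : ℕ) : ℝ) * Real.sqrt (2 * n * (((6 * t : ℕ) : ℝ) / M ^ 7 + 1)) <
          (mono r : ℝ)))
  have b4' := pr_or_le (n := n)
    (fun G => ¬ ∃ r : Fin n → ℕ, IsProper G r ∧ ((Finset.univ.image r).card : ℝ) <
        ((26 * s : ℕ) : ℝ) + 2 * Real.sqrt (2 * n * (((26 * s : ℕ) : ℝ) / M ^ 7 + 1)))
    (fun G => ¬ ∃ r : Fin n → ℕ, IsProper G r ∧ (∀ c, csize r c ≤ M + 5) ∧
        F - 4 * ((M + 5 : ℕ) : ℝ) * Real.sqrt (2 * n * (((6 * t : ℕ) : ℝ) / M ^ 7 + 1)) <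
          (mono r : ℝ))
  have hFM' : ((n : ℝ) + 1) ^ (2 * M) * Real.exp (-(e * t)) ≤ 1 / M := by
    refine le_trans (le_of_eq ?_) (hFMs.trans f3)
    congr 3
    rw [hK6]; ring
  have i1 := hC.trans f4
  have i2 := (hI.trans hIs).trans f2
  have i3 := hFM.trans hFM'
  have i4 := hL1.trans f1
  have i5 := hL2.trans f5
  linarith only [b2', b3', b4', i1, i2, i3, i4, i5]

end Pool.RG
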