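import Pool.Agent.Work.RG.OPart

/-!
# MP_004c3d_co : good partitions and the relaxed second moment
-/

set_option linter.unusedSectionVars false

namespace Pool.RG

open Finset

section edges

variable {n : ℕ}

/-- the edges inside `B` -/
def EB (B : Finset (Fin n)) : Finset (Sym2 (Fin n)) := B.offDiag.image Sym2.mk.uncurry

lemma mem_EB {B : Finset (Fin n)} {u v : Fin n} :
    s(u, v) ∈ EB B ↔ u ∈ B ∧ v ∈ B ∧ u ≠ v := by
  unfold EB
  rw [mem_image]
  constructor
  · rintro ⟨⟨x, y⟩, h, he⟩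
    rw [mem_offDiag] at h
    simp only [Function.uncurry_apply_pair] at he
    rcases Sym2.eq_iff.1 he with ⟨h1, h2⟩ | ⟨h1, h2⟩
    · subst h1; subst h2; exact h
    · subst h1; subst h2; exact ⟨h.2.1, h.1, fun h' => h.2.2 h'.symm⟩
  · rintro ⟨h1, h2, h3⟩
    exact ⟨(u, v), mem_offDiag.2 ⟨h1, h2, h3⟩, rfl⟩

lemma card_EB (B : Finset (Fin n)) : (EB B).card = B.card.choose 2 :=
  Sym2.card_image_offDiag B

lemma EB_not_diag {B : Finset (Fin n)} {e : Sym2 (Fin n)} (he : e ∈ EB B) : ¬ e.IsDiag := by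
  induction e using Sym2.ind with
  | _ u v =>
    rw [mem_EB] at he
    simpa using he.2.2

lemma EB_inter (B C : Finset (Fin n)) : EB B ∩ EB C = EB (B ∩ C) := by
  ext e
  induction e using Sym2.ind with
  | _ u v =>
    simp only [mem_inter, mem_EB]
    tauto

lemma indep_iff {G : SimpleGraph (Fin n)} {B : Finset (Fin n)} :
    Indep G B ↔ ∀ e ∈ EB B, e ∉ G.edgeSet := by
  constructor
  · intro h e he
    induction e using Sym2.ind with
    | _ u v =>
      rw [mem_EB] at he
      rw [SimpleGraph.mem_edgeSet]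
      exact h u he.1 v he.2.1
  · intro h u hu v hv hadj
    exact h s(u, v) (mem_EB.2 ⟨hu, hv, hadj.ne⟩) (G.mem_edgeSet.2 hadj)

end edges

section part

variable {n : ℕ} {ι : Type} [Fintype ι] [DecidableEq ι]

/-- the edges inside the classes of `g` -/
def EP (g : ι → Finset (Fin n)) : Finset (Sym2 (Fin n)) := univ.biUnion fun i => EB (g i)

lemma EP_not_diag {g : ι → Finset (Fin n)} {e : Sym2 (Fin n)} (he : e ∈ EP g) : ¬ e.IsDiag := by
  unfold EP at he
  rw [mem_biUnion] at he
  obtain ⟨i, -, h⟩ := he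
  exact EB_not_diag h

lemma indep_all_iff {G : SimpleGraph (Fin n)} {g : ι → Finset (Fin n)} :
    (∀ i, Indep G (g i)) ↔ ∀ e ∈ EP g, e ∉ G.edgeSet := by
  unfold EP
  simp only [indep_iff, mem_biUnion, mem_univ, true_and, forall_exists_index]
  exact forall_comm

lemma OP_disj {b : ι → ℕ} {g : ι → Finset (Fin n)} (hg : g ∈ OP b univ univ) {i j : ι}
    (hij : i ≠ j) : Disjoint (g i) (g j) :=
  (mem_OP.1 hg).2.2.1 i (mem_univ i) j (mem_univ j) hij

lemma OP_card {b : ι → ℕ} {g : ι → Finset (Fin n)} (hg : g ∈ OP b univ univ) (i : ι) :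
    (g i).card = b i := (mem_OP.1 hg).2.1 i (mem_univ i)

lemma OP_cover {b : ι → ℕ} {g : ι → Finset (Fin n)} (hg : g ∈ OP b univ univ) (v : Fin n) :
    ∃ i, v ∈ g i := by
  have h := (mem_OP.1 hg).2.2.2
  have hv : v ∈ univ.biUnion g := by rw [h]; exact mem_univ v
  rw [mem_biUnion] at hv
  obtain ⟨i, -, hi⟩ := hv
  exact ⟨i, hi⟩

lemma OP_unique {b : ι → ℕ} {g : ι → Finset (Fin n)} (hg : g ∈ OP b univ univ) {v : Fin n}
    {i j : ι} (hi : v ∈ g i) (hj : v ∈ g j) : i = j := by
  by_contra h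
  exact Finset.disjoint_left.1 (OP_disj hg h) hi hj

lemma card_EP {b : ι → ℕ} {g : ι → Finset (Fin n)} (hg : g ∈ OP b univ univ) :
    (EP g).card = ∑ i, (b i).choose 2 := by
  unfold EP
  rw [card_biUnion]
  · refine sum_congr rfl fun i _ => ?_
    rw [card_EB, OP_card hg]
  · intro i _ j _ hij
    show Disjoint (EB (g i)) (EB (g j))
    rw [Finset.disjoint_iff_inter_eq_empty, EB_inter,
      Finset.disjoint_iff_inter_eq_empty.1 (OP_disj hg hij)]
    rfl

lemma card_EP_inter_le (g g' : ι → Finset (Fin n)) : (EP g ∩ EP g').card ≤ shared g g' := by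
  have h : EP g ∩ EP g' ⊆ univ.biUnion fun i => univ.biUnion fun j => EB (g i ∩ g' j) := by
    intro e he
    rw [mem_inter] at he
    unfold EP at he
    simp only [mem_biUnion, mem_univ, true_and] at he
    obtain ⟨⟨i, hi⟩, j, hj⟩ := he
    simp only [mem_biUnion, mem_univ, true_and]
    exact ⟨i, j, by rw [← EB_inter]; exact mem_inter.2 ⟨hi, hj⟩⟩
  refine (card_le_card h).trans ?_
  unfold shared
  refine card_biUnion_le.trans (sum_le_sum fun i _ => ?_)
  refine card_biUnion_le.trans (sum_le_sum fun j _ => ?_)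
  rw [card_EB]

lemma pr_proper {b : ι → ℕ} {g : ι → Finset (Fin n)} (hg : g ∈ OP b univ univ) :
    pr n (fun G => ∀ i, Indep G (g i)) = (1 / 2 : ℝ) ^ (∑ i, (b i).choose 2) := by
  rw [← card_EP hg, ← pr_absent (EP g) fun e he => EP_not_diag he]
  exact pr_congr fun G => indep_all_iff

/-- proper, and `v` is not adjacent to the elements of `L ⊆ g i` -/
lemma pr_proper_and {b : ι → ℕ} {g : ι → Finset (Fin n)} (hg : g ∈ OP b univ univ) {v : Fin n}
    {i : ι} (hv : v ∉ g i) {L : Finset (Fin n)} (hL : L ⊆ g i) :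
    pr n (fun G => (∀ i, Indep G (g i)) ∧ ∀ u ∈ L, ¬ G.Adj v u)
      = (1 / 2 : ℝ) ^ (∑ i, (b i).choose 2) * (1 / 2 : ℝ) ^ L.card := by
  set D : Finset (Sym2 (Fin n)) := L.image (fun u => s(v, u)) with hD
  have hDc : D.card = L.card := by
    rw [hD, card_image_of_injective]
    intro u u' h
    exact Sym2.congr_right.1 h
  have hdisj : Disjoint (EP g) D := by
    rw [Finset.disjoint_left]
    intro e he heD
    rw [hD, mem_image] at heD
    obtain ⟨u, hu, rfl⟩ := heD
    unfold EP at he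
    simp only [mem_biUnion, mem_univ, true_and] at he
    obtain ⟨j, hj⟩ := he
    rw [mem_EB] at hj
    have := OP_unique hg hj.2.1 (hL hu)
    subst this
    exact hv hj.1
  have hdiag : ∀ e ∈ EP g ∪ D, ¬ e.IsDiag := by
    intro e he
    rw [mem_union] at he
    rcases he with he | he
    · exact EP_not_diag he
    · rw [hD, mem_image] at he
      obtain ⟨u, hu, rfl⟩ := he
      rw [Sym2.mk_isDiag_iff]
      rintro rfl
      exact hv (hL hu)
  rw [← pow_add, ← card_EP hg, ← hDc, ← card_union_of_disjoint hdisj, ← pr_absent _ hdiag]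
  apply pr_congr
  intro G
  rw [indep_all_iff]
  constructor
  · rintro ⟨h1, h2⟩ e he
    rw [mem_union] at he
    rcases he with he | he
    · exact h1 e he
    · rw [hD, mem_image] at he
      obtain ⟨u, hu, rfl⟩ := he
      rw [SimpleGraph.mem_edgeSet]
      exact h2 u hu
  · intro h
    refine ⟨fun e he => h e (mem_union_left _ he), fun u hu hadj => ?_⟩
    refine h s(v, u) (mem_union_right _ ?_) (G.mem_edgeSet.2 hadj)
    rw [hD]
    exact mem_image_of_mem _ hu

lemma ex_ite (P : SimpleGraph (Fin n) → Prop) [DecidablePred P] :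
    ex n (fun G => if P G then (1 : ℝ) else 0) = pr n P := by
  rw [pr_eq_ex]
  congr 1
  ext G
  by_cases h : P G
  · rw [if_pos h, if_pos h]
  · rw [if_neg h, if_neg h]

/-! ### first moment of the number of violations -/

open Classical in
lemma ex_vio {b : ι → ℕ} {g : ι → Finset (Fin n)} (hg : g ∈ OP b univ univ) {r M : ℕ}
    (hb : ∀ i, M ≤ b i ∧ b i ≤ M + 5) (hr : r ≤ M) :
    ex n (fun G => (if ∀ i, Indep G (g i) then (1 : ℝ) else 0) * ((vio r G g).card : ℝ)) ≤
      (1 / 2 : ℝ) ^ (∑ i, (b i).choose 2) *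
        ((n : ℝ) * (Fintype.card ι : ℝ) * (((M + 5).choose r : ℕ) : ℝ) * (1 / 2 : ℝ) ^ (M - r)) := by
  set F : ℕ := ∑ i, (b i).choose 2 with hF
  set W : Finset (Fin n × ι) := univ.filter (fun p => p.1 ∉ g p.2) with hW
  have hpt : ∀ G : SimpleGraph (Fin n),
      (if ∀ i, Indep G (g i) then (1 : ℝ) else 0) * ((vio r G g).card : ℝ) ≤
      ∑ p ∈ W, ∑ L ∈ (g p.2).powersetCard (b p.2 - r),
        (if (∀ i, Indep G (g i)) ∧ ∀ u ∈ L, ¬ G.Adj p.1 u then (1 : ℝ) else 0) := by
    intro G
    by_cases hp : ∀ i, Indep G (g i)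
    swap
    · rw [if_neg hp, zero_mul]
      exact sum_nonneg fun p _ => sum_nonneg fun L _ => by split_ifs <;> norm_num
    rw [if_pos hp, one_mul]
    have h1 : ((vio r G g).card : ℝ) = ∑ p ∈ W, if p ∈ vio r G g then (1 : ℝ) else 0 := by
      rw [← Finset.sum_filter, Finset.sum_const, nsmul_eq_mul, mul_one]
      congr 2
      ext p
      rw [mem_filter, hW, mem_filter]
      constructor
      · intro h
        refine ⟨⟨mem_univ _, ?_⟩, h⟩
        unfold vio at h
        rw [mem_filter] at h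
        exact h.2.1
      · exact fun h => h.2
    rw [h1]
    refine sum_le_sum fun p hpW => ?_
    split_ifs with hv
    · unfold vio at hv
      rw [mem_filter] at hv
      obtain ⟨-, -, L, hL1, hL2, hL3⟩ := hv
      rw [OP_card hg] at hL2
      calc (1 : ℝ) = if (∀ i, Indep G (g i)) ∧ ∀ u ∈ L, ¬ G.Adj p.1 u then (1 : ℝ) else 0 := by
            rw [if_pos ⟨hp, hL3⟩]
        _ ≤ _ := Finset.single_le_sum
            (f := fun L => if (∀ i, Indep G (g i)) ∧ ∀ u ∈ L, ¬ G.Adj p.1 u then (1 : ℝ) else 0)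
            (fun L _ => by split_ifs <;> norm_num) (mem_powersetCard.2 ⟨hL1, hL2⟩)
    · exact sum_nonneg fun L _ => by split_ifs <;> norm_num
  refine (ex_mono hpt).trans ?_
  rw [ex_sum]
  have hterm : ∀ p ∈ W, ex n (fun G => ∑ L ∈ (g p.2).powersetCard (b p.2 - r),
        (if (∀ i, Indep G (g i)) ∧ ∀ u ∈ L, ¬ G.Adj p.1 u then (1 : ℝ) else 0)) ≤
      (1 / 2 : ℝ) ^ F * ((((M + 5).choose r : ℕ) : ℝ) * (1 / 2 : ℝ) ^ (M - r)) := by
    intro p hp
    rw [hW, mem_filter] at hp
    rw [ex_sum]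
    have h2 : ∀ L ∈ (g p.2).powersetCard (b p.2 - r),
        ex n (fun G => if (∀ i, Indep G (g i)) ∧ ∀ u ∈ L, ¬ G.Adj p.1 u then (1 : ℝ) else 0)
          = (1 / 2 : ℝ) ^ F * (1 / 2 : ℝ) ^ (b p.2 - r) := by
      intro L hL
      rw [mem_powersetCard] at hL
      rw [ex_ite, pr_proper_and hg hp.2 hL.1, hL.2]
    rw [sum_congr rfl h2, sum_const, card_powersetCard, OP_card hg, nsmul_eq_mul]
    have h3 : (b p.2).choose (b p.2 - r) = (b p.2).choose r :=
      Nat.choose_symm (hr.trans (hb p.2).1)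
    rw [h3, mul_left_comm]
    apply mul_le_mul_of_nonneg_left _ (by positivity)
    apply mul_le_mul _ _ (by positivity) (by positivity)
    · exact_mod_cast Nat.choose_le_choose r (hb p.2).2
    · apply pow_le_pow_of_le_one (by norm_num) (by norm_num)
      have := (hb p.2).1
      omega
  refine (sum_le_sum hterm).trans ?_
  rw [sum_const, nsmul_eq_mul]
  have hWc : (W.card : ℝ) ≤ (n : ℝ) * (Fintype.card ι : ℝ) := by
    have h4 : W.card ≤ (univ : Finset (Fin n × ι)).card := card_le_card (filter_subset _ _)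
    rw [card_univ, Fintype.card_prod, Fintype.card_fin] at h4
    exact_mod_cast h4
  calc (W.card : ℝ) * ((1 / 2 : ℝ) ^ F * ((((M + 5).choose r : ℕ) : ℝ) * (1 / 2 : ℝ) ^ (M - r)))
      ≤ ((n : ℝ) * (Fintype.card ι : ℝ)) *
        ((1 / 2 : ℝ) ^ F * ((((M + 5).choose r : ℕ) : ℝ) * (1 / 2 : ℝ) ^ (M - r))) := by
        apply mul_le_mul_of_nonneg_right hWc (by positivity)
    _ = _ := by ring

/-- **T1**: the proportion of graphs for which `g` is good -/
theorem good_lower {b : ι → ℕ} {g : ι → Finset (Fin n)} (hg : g ∈ OP b univ univ) {r μ M : ℕ}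
    (hb : ∀ i, M ≤ b i ∧ b i ≤ M + 5) (hr : r ≤ M)
    (hμ : (n : ℝ) * (Fintype.card ι : ℝ) * (((M + 5).choose r : ℕ) : ℝ) * (1 / 2 : ℝ) ^ (M - r)
      ≤ ((μ : ℝ) + 1) / 2) :
    (1 / 2 : ℝ) * (1 / 2 : ℝ) ^ (∑ i, (b i).choose 2) ≤ pr n (fun G => Good r μ G g) := by
  classical
  set F : ℕ := ∑ i, (b i).choose 2 with hF
  set f : SimpleGraph (Fin n) → ℝ :=
    fun G => (if ∀ i, Indep G (g i) then (1 : ℝ) else 0) * ((vio r G g).card : ℝ) with hf
  have hμ0 : (0 : ℝ) < (μ : ℝ) + 1 := by positivity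
  have h1 : pr n (fun G => ∀ i, Indep G (g i)) ≤
      pr n (fun G => Good r μ G g) + pr n (fun G => (μ : ℝ) + 1 ≤ f G) := by
    refine (pr_mono fun G hG => ?_).trans (pr_or_le _ _)
    by_cases h : (vio r G g).card ≤ μ
    · exact Or.inl ⟨hG, h⟩
    · right
      rw [not_le] at h
      simp only [hf, if_pos hG, one_mul]
      exact_mod_cast h
  have h2 : pr n (fun G => (μ : ℝ) + 1 ≤ f G) ≤ ex n f / ((μ : ℝ) + 1) := by
    refine pr_ge_le (fun G => ?_) hμ0
    simp only [hf]
    split_ifs <;> positivity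
  have h3 : ex n f ≤ (1 / 2 : ℝ) ^ F * (((μ : ℝ) + 1) / 2) := by
    have := ex_vio (n := n) hg hb hr
    refine this.trans ?_
    apply mul_le_mul_of_nonneg_left hμ (by positivity)
  have h4 : ex n f / ((μ : ℝ) + 1) ≤ (1 / 2 : ℝ) * (1 / 2 : ℝ) ^ F := by
    rw [div_le_iff₀ hμ0]
    linarith
  rw [pr_proper hg] at h1
  linarith

/-- **T2**: two partitions with many exceptional classes are never both good -/
theorem pair_zero {b : ι → ℕ} {g g' : ι → Finset (Fin n)} (hg : g ∈ OP b univ univ)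
    (hg' : g' ∈ OP b univ univ) {r μ M τ : ℕ} (hb : ∀ i, M ≤ b i ∧ b i ≤ M + 5)
    (hτ : M + 5 ≤ τ + r) (hexc : 2 * μ < (exc τ g g').card) :
    pr n (fun G => Good r μ G g ∧ Good r μ G g') = 0 := by
  classical
  have hF : pr n (fun G => Good r μ G g ∧ Good r μ G g') ≤ pr n (fun _ => False) := by
    apply pr_mono
    rintro G ⟨⟨hG, hv⟩, hG', hv'⟩
    have h1 : ∀ j ∈ exc τ g g', (∀ i, g i ≠ g' j) ∧ ∃ i, τ ≤ (g i ∩ g' j).card := by
      intro j hj
      unfold exc at hj
      rw [mem_filter] at hj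
      exact hj.2
    -- the two kinds of exceptional classes
    set A : Finset ι := (exc τ g g').filter
      (fun j => ∃ p ∈ vio r G g, p.1 ∈ g' j) with hA
    set B : Finset ι := (exc τ g g').filter
      (fun j => ∃ p ∈ vio r G g', p.2 = j) with hB
    have hAB : exc τ g g' ⊆ A ∪ B := by
      intro j hj
      obtain ⟨hne, i, hi⟩ := h1 j hj
      rw [mem_union]
      by_cases hsub : g' j ⊆ g i
      · right
        rw [hB, mem_filter]
        refine ⟨hj, ?_⟩
        have hss : ∃ v ∈ g i, v ∉ g' j := by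
          by_contra hcon
          push Not at hcon
          exact hne i (Finset.Subset.antisymm hcon hsub)
        obtain ⟨v, hvi, hvj⟩ := hss
        refine ⟨(v, j), ?_, rfl⟩
        unfold vio
        rw [mem_filter]
        refine ⟨mem_univ _, hvj, ?_⟩
        obtain ⟨L, hL, hLc⟩ := Finset.exists_subset_card_eq
          (show (g' j).card - r ≤ (g' j).card from Nat.sub_le _ _)
        exact ⟨L, hL, hLc, fun u hu => hG i v hvi u (hsub (hL hu))⟩
      · left
        rw [hA, mem_filter]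
        refine ⟨hj, ?_⟩
        rw [Finset.not_subset] at hsub
        obtain ⟨v, hvj, hvi⟩ := hsub
        refine ⟨(v, i), ?_, hvj⟩
        unfold vio
        rw [mem_filter]
        refine ⟨mem_univ _, hvi, ?_⟩
        have hc : (g i).card - r ≤ (g i ∩ g' j).card := by
          have h2 := (hb i).2
          rw [OP_card hg]
          omega
        obtain ⟨L, hL, hLc⟩ := Finset.exists_subset_card_eq hc
        exact ⟨L, hL.trans inter_subset_left, hLc,
          fun u hu => hG' j v hvj u (mem_inter.1 (hL hu)).2⟩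
    have hAc : A.card ≤ (vio r G g).card := by
      have h2 : ∀ j ∈ A, ∃ p ∈ vio r G g, p.1 ∈ g' j := by
        intro j hj
        rw [hA, mem_filter] at hj
        exact hj.2
      rcases A.eq_empty_or_nonempty with h | ⟨j0, hj0⟩
      · rw [h]; simp
      have _ : Nonempty (Fin n × ι) := ⟨(h2 j0 hj0).choose⟩
      choose! φ hφ using h2
      refine Finset.card_le_card_of_injOn φ (fun j hj => (hφ j hj).1) ?_
      intro j hj j' hj' he
      have h3 := (hφ j hj).2
      have h4 := (hφ j' hj').2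
      rw [he] at h3
      exact OP_unique hg' h3 h4
    have hBc : B.card ≤ (vio r G g').card := by
      have h2 : ∀ j ∈ B, ∃ p ∈ vio r G g', p.2 = j := by
        intro j hj
        rw [hB, mem_filter] at hj
        exact hj.2
      rcases B.eq_empty_or_nonempty with h | ⟨j0, hj0⟩
      · rw [h]; simp
      have _ : Nonempty (Fin n × ι) := ⟨(h2 j0 hj0).choose⟩
      choose! φ hφ using h2
      refine Finset.card_le_card_of_injOn φ (fun j hj => (hφ j hj).1) ?_
      intro j hj j' hj' he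
      have h3 := (hφ j hj).2
      have h4 := (hφ j' hj').2
      rw [← h3, ← h4, he]
    have h5 := card_le_card hAB
    have h6 := card_union_le A B
    omega
  have h0 : pr n (fun _ => False) = 0 := by
    have := pr_not (n := n) (fun _ => True)
    rw [pr_true] at this
    simpa using this
  rw [h0] at hF
  exact le_antisymm hF (pr_nonneg _)

/-- **T3**: the proportion of graphs for which both partitions are good -/
theorem pair_le {b : ι → ℕ} {g g' : ι → Finset (Fin n)} (hg : g ∈ OP b univ univ)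
    (hg' : g' ∈ OP b univ univ) {r μ : ℕ} :
    pr n (fun G => Good r μ G g ∧ Good r μ G g') ≤
      (1 / 2 : ℝ) ^ (2 * ∑ i, (b i).choose 2) * (2 : ℝ) ^ (shared g g') := by
  set F : ℕ := ∑ i, (b i).choose 2 with hF
  have h1 : pr n (fun G => Good r μ G g ∧ Good r μ G g') ≤ (1 / 2 : ℝ) ^ (EP g ∪ EP g').card := by
    rw [← pr_absent (EP g ∪ EP g')]
    · apply pr_mono
      rintro G ⟨⟨hG, -⟩, hG', -⟩ e he
      rw [mem_union] at he
      rcases he with he | he
      · exact indep_all_iff.1 hG e he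
      · exact indep_all_iff.1 hG' e he
    · intro e he
      rw [mem_union] at he
      rcases he with he | he
      · exact EP_not_diag he
      · exact EP_not_diag he
  have h2 : (EP g ∪ EP g').card + (EP g ∩ EP g').card = 2 * F := by
    rw [card_union_add_card_inter, card_EP hg, card_EP hg']
    ring
  have h3 := card_EP_inter_le g g'
  have h4 : 2 * F ≤ (EP g ∪ EP g').card + shared g g' := by omega
  calc pr n (fun G => Good r μ G g ∧ Good r μ G g') ≤ (1 / 2 : ℝ) ^ (EP g ∪ EP g').card := h1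
    _ = (1 / 2 : ℝ) ^ ((EP g ∪ EP g').card + shared g g') * (2 : ℝ) ^ (shared g g') := by
        rw [pow_add, mul_assoc, ← mul_pow]
        norm_num
    _ ≤ (1 / 2 : ℝ) ^ (2 * F) * (2 : ℝ) ^ (shared g g') := by
        apply mul_le_mul_of_nonneg_right _ (by positivity)
        exact pow_le_pow_of_le_one (by norm_num) (by norm_num) h4

end part

lemma ex_cs {n : ℕ} (X : SimpleGraph (Fin n) → ℝ) (hX : ∀ G, 0 ≤ X G) :
    (ex n X) ^ 2 ≤ ex n (fun G => X G ^ 2) * pr n (fun G => 0 < X G) := by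
  classical
  rw [pr_eq_ex]
  unfold ex
  set N : ℝ := (Nat.card (SimpleGraph (Fin n)) : ℝ) with hN
  have hN0 : 0 < N := cardG_pos
  rw [div_pow, div_mul_div_comm, ← pow_two]
  apply div_le_div_of_nonneg_right _ (by positivity)
  have h := sum_mul_sq_le_sq_mul_sq (univ : Finset (SimpleGraph (Fin n))) X
    (fun G => if 0 < X G then (1 : ℝ) else 0)
  have h1 : ∑ G, X G * (if 0 < X G then (1 : ℝ) else 0) = ∑ G, X G := by
    refine sum_congr rfl fun G _ => ?_
    split_ifs with h
    · rw [mul_one]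
    · rw [mul_zero]
      exact le_antisymm (hX G) (not_lt.1 h)
  have h2 : ∑ G, (if 0 < X G then (1 : ℝ) else 0) ^ 2 = ∑ G, (if 0 < X G then (1 : ℝ) else 0) := by
    refine sum_congr rfl fun G _ => ?_
    split_ifs <;> norm_num
  rw [h1, h2] at h
  exact h

section main

variable {n : ℕ} {ι : Type} [Fintype ι] [DecidableEq ι]

/-- **T4**: existence of a proper partition from an overlap bound -/
theorem exists_of_overlap {b : ι → ℕ} {r μ M τ : ℕ} (hb : ∀ i, M ≤ b i ∧ b i ≤ M + 5)
    (hr : r ≤ M)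
    (hμ : (n : ℝ) * (Fintype.card ι : ℝ) * (((M + 5).choose r : ℕ) : ℝ) * (1 / 2 : ℝ) ^ (M - r)
      ≤ ((μ : ℝ) + 1) / 2)
    (hτ : M + 5 ≤ τ + r) {Q : ℝ} (hQ0 : 0 < Q)
    (hne : (OP b (univ : Finset ι) (univ : Finset (Fin n))).Nonempty)
    (hQ : ∀ g ∈ OP b (univ : Finset ι) (univ : Finset (Fin n)),
      ∑ g' ∈ (OP b (univ : Finset ι) (univ : Finset (Fin n))).filter
        (fun g' => (exc τ g g').card ≤ 2 * μ), (2 : ℝ) ^ (shared g g') ≤
        ((OP b (univ : Finset ι) (univ : Finset (Fin n))).card : ℝ) * Q) :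
    1 / (4 * Q) ≤ pr n (fun G => ∃ g ∈ OP b (univ : Finset ι) (univ : Finset (Fin n)),
      ∀ i, Indep G (g i)) := by
  classical
  set O := OP b (univ : Finset ι) (univ : Finset (Fin n)) with hO
  set F : ℕ := ∑ i, (b i).choose 2 with hF
  set X : SimpleGraph (Fin n) → ℝ := fun G => ∑ g ∈ O, if Good r μ G g then (1 : ℝ) else 0 with hX
  have hX0 : ∀ G, 0 ≤ X G := fun G => sum_nonneg fun g _ => by split_ifs <;> norm_num
  have hOc : (0 : ℝ) < (O.card : ℝ) := by exact_mod_cast hne.card_pos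
  set q : ℝ := (1 / 2 : ℝ) ^ F with hq
  have hq0 : 0 < q := by rw [hq]; positivity
  -- first moment
  have h1 : (O.card : ℝ) * ((1 / 2) * q) ≤ ex n X := by
    rw [hX, ex_sum, ← nsmul_eq_mul, ← sum_const]
    refine sum_le_sum fun g hg => ?_
    rw [ex_ite]
    exact good_lower hg hb hr hμ
  -- second moment
  have h2 : ex n (fun G => X G ^ 2) ≤ (O.card : ℝ) * ((O.card : ℝ) * Q * q ^ 2) := by
    have h3 : ∀ G, X G ^ 2 = ∑ g ∈ O, ∑ g' ∈ O,
        if Good r μ G g ∧ Good r μ G g' then (1 : ℝ) else 0 := by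
      intro G
      rw [pow_two, hX, sum_mul_sum]
      refine sum_congr rfl fun g _ => sum_congr rfl fun g' _ => ?_
      by_cases h4 : Good r μ G g <;> by_cases h5 : Good r μ G g' <;> simp [h4, h5]
    simp_rw [h3]
    rw [ex_sum, ← nsmul_eq_mul, ← sum_const]
    refine sum_le_sum fun g hg => ?_
    rw [ex_sum]
    have h6 : ∀ g' ∈ O, ex n (fun G => if Good r μ G g ∧ Good r μ G g' then (1 : ℝ) else 0) ≤
        if (exc τ g g').card ≤ 2 * μ then q ^ 2 * (2 : ℝ) ^ (shared g g') else 0 := by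
      intro g' hg'
      rw [ex_ite]
      split_ifs with h
      · have := pair_le (r := r) (μ := μ) hg hg'
        rw [mul_comm 2, pow_mul] at this
        exact this
      · exact (pair_zero hg hg' hb hτ (not_le.1 h)).le
    refine (sum_le_sum h6).trans ?_
    rw [← Finset.sum_filter, ← mul_sum]
    calc q ^ 2 * ∑ g' ∈ O.filter (fun g' => (exc τ g g').card ≤ 2 * μ), (2 : ℝ) ^ (shared g g')
        ≤ q ^ 2 * ((O.card : ℝ) * Q) := mul_le_mul_of_nonneg_left (hQ g hg) (by positivity)
      _ = _ := by ring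
  have h4 := ex_cs X hX0
  have h5 : pr n (fun G => 0 < X G) ≤ pr n (fun G => ∃ g ∈ O, ∀ i, Indep G (g i)) := by
    apply pr_mono
    intro G hG
    by_contra hcon
    push Not at hcon
    have : X G = 0 := by
      rw [hX]
      refine sum_eq_zero fun g hg => ?_
      obtain ⟨i, hi⟩ := hcon g hg
      rw [if_neg]
      rintro ⟨h6, -⟩
      exact hi (h6 i)
    linarith
  refine le_trans ?_ h5
  have h6 : ((O.card : ℝ) * ((1 / 2) * q)) ^ 2 ≤
      (O.card : ℝ) * ((O.card : ℝ) * Q * q ^ 2) * pr n (fun G => 0 < X G) := by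
    calc ((O.card : ℝ) * ((1 / 2) * q)) ^ 2 ≤ (ex n X) ^ 2 := by
          apply pow_le_pow_left₀ (by positivity) h1
      _ ≤ _ := h4
      _ ≤ _ := mul_le_mul_of_nonneg_right h2 (pr_nonneg _)
  have h7 : (0 : ℝ) < (O.card : ℝ) ^ 2 * q ^ 2 := by positivity
  rw [div_le_iff₀ (by positivity)]
  have h8 : (O.card : ℝ) ^ 2 * q ^ 2 * 1 ≤
      (O.card : ℝ) ^ 2 * q ^ 2 * (pr n (fun G => 0 < X G) * (4 * Q)) := by
    nlinarith [h6]
  exact le_of_mul_le_mul_left h8 h7

/-- **T5**: an independent ordered partition gives a proper colouring -/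
theorem coloring_of_OP {b : ι → ℕ} {B : ℕ} {g : ι → Finset (Fin n)} (hg : g ∈ OP b univ univ)
    (hb : ∀ i, 1 ≤ b i ∧ b i ≤ B) {G : SimpleGraph (Fin n)} (hG : ∀ i, Indep G (g i)) :
    ∃ r : Fin n → ℕ, IsProper G r ∧ (univ.image r).card = Fintype.card ι ∧
      (∀ c, csize r c ≤ B) ∧ mono r = 2 * ∑ i, (b i).choose 2 := by
  classical
  choose cl hcl using OP_cover hg
  set e := Fintype.equivFin ι with he
  have hinj : ∀ i j : ι, ((e i : Fin _) : ℕ) = e j → i = j := fun i j h => e.injective (Fin.ext h)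
  have hcls : ∀ v i, v ∈ g i ↔ cl v = i := by
    intro v i
    constructor
    · intro h; exact OP_unique hg (hcl v) h
    · rintro rfl; exact hcl v
  refine ⟨fun v => (e (cl v) : ℕ), ?_, ?_, ?_, ?_⟩
  · intro u v hadj h
    have h1 := hinj _ _ h
    have h2 := hcl v
    rw [← h1] at h2
    exact hG (cl u) u (hcl u) v h2 hadj
  · have h1 : univ.image (fun v => (e (cl v) : ℕ)) = univ.image (fun i : ι => (e i : ℕ)) := by
      ext c
      simp only [mem_image, mem_univ, true_and]
      constructor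
      · rintro ⟨v, rfl⟩
        exact ⟨cl v, rfl⟩
      · rintro ⟨i, rfl⟩
        have h2 : (g i).Nonempty := by
          rw [← card_pos, OP_card hg]
          exact (hb i).1
        obtain ⟨v, hv⟩ := h2
        exact ⟨v, by rw [(hcls v i).1 hv]⟩
    rw [h1, card_image_of_injective _ (fun i j h => hinj i j h), card_univ]
  · intro c
    unfold csize
    by_cases hc : ∃ i, (e i : ℕ) = c
    · obtain ⟨i, rfl⟩ := hc
      have h1 : univ.filter (fun v => (e (cl v) : ℕ) = (e i : ℕ)) = g i := by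
        ext v
        rw [mem_filter, hcls]
        constructor
        · exact fun h => hinj _ _ h.2
        · exact fun h => ⟨mem_univ _, by rw [h]⟩
      rw [h1, OP_card hg]
      exact (hb i).2
    · push Not at hc
      have h1 : univ.filter (fun v => (e (cl v) : ℕ) = c) = ∅ := by
        rw [filter_eq_empty_iff]
        exact fun v _ => hc (cl v)
      rw [h1]
      simp
  · unfold mono
    have h1 : ∀ u : Fin n, (∑ w : Fin n, if u ≠ w ∧ (e (cl u) : ℕ) = (e (cl w) : ℕ) then 1 else 0)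
        = ∑ i, if u ∈ g i then (b i) - 1 else 0 := by
      intro u
      rw [← Finset.card_filter]
      have h2 : univ.filter (fun w => u ≠ w ∧ (e (cl u) : ℕ) = (e (cl w) : ℕ))
          = (g (cl u)).erase u := by
        ext w
        rw [mem_filter, mem_erase, hcls]
        constructor
        · rintro ⟨-, h3, h4⟩
          exact ⟨h3.symm, (hinj _ _ h4).symm⟩
        · rintro ⟨h3, h4⟩
          exact ⟨mem_univ _, h3.symm, by rw [h4]⟩
      rw [h2, card_erase_of_mem (hcl u), OP_card hg]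
      have h3 : ∀ i : ι, (if u ∈ g i then (b i) - 1 else 0) = if cl u = i then b i - 1 else 0 := by
        intro i
        by_cases h : u ∈ g i
        · rw [if_pos h, if_pos ((hcls u i).1 h)]
        · rw [if_neg h, if_neg (fun h' => h ((hcls u i).2 h'))]
      simp_rw [h3]
      rw [Finset.sum_ite_eq]
      simp
    simp_rw [h1]
    rw [sum_comm, mul_sum]
    refine sum_congr rfl fun i _ => ?_
    rw [← Finset.sum_filter, sum_const, smul_eq_mul]
    have h4 : univ.filter (fun u => u ∈ g i) = g i := by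
      ext u; simp
    rw [h4, OP_card hg, Nat.choose_two_right]
    exact (Nat.mul_div_cancel' (Nat.even_mul_pred_self (b i)).two_dvd).symm

end main

end Pool.RG
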