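import Pool.Agent.Work.RG.Basic

/-!
# MP_004c3d_co : ordered partitions and weighted sums over them
-/

namespace Pool.RG

open Finset

section OPsec

variable {V ι : Type} [Fintype V] [DecidableEq V] [Fintype ι] [DecidableEq ι]

/-- ordered partitions of `R` with parts `g i` (`i ∈ I`) of size `b i` -/
def OP (b : ι → ℕ) (I : Finset ι) (R : Finset V) : Finset (ι → Finset V) :=
  univ.filter (fun g => (∀ i, i ∉ I → g i = ∅) ∧ (∀ i ∈ I, (g i).card = b i) ∧
    (∀ i ∈ I, ∀ j ∈ I, i ≠ j → Disjoint (g i) (g j)) ∧ I.biUnion g = R)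

lemma mem_OP {b : ι → ℕ} {I : Finset ι} {R : Finset V} {g : ι → Finset V} :
    g ∈ OP b I R ↔ (∀ i, i ∉ I → g i = ∅) ∧ (∀ i ∈ I, (g i).card = b i) ∧
    (∀ i ∈ I, ∀ j ∈ I, i ≠ j → Disjoint (g i) (g j)) ∧ I.biUnion g = R := by
  unfold OP
  simp only [mem_filter, mem_univ, true_and]

/-- weighted sum over ordered partitions -/
noncomputable def Z (b : ι → ℕ) (w : ι → Finset V → ℝ) (I : Finset ι) (R : Finset V) : ℝ :=
  ∑ g ∈ OP b I R, ∏ i ∈ I, w i (g i)

lemma OP_split {b : ι → ℕ} {I : Finset ι} {i : ι} (hi : i ∉ I) {R : Finset V}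
    {g : ι → Finset V} (hg : g ∈ OP b (insert i I) R) :
    g i ⊆ R ∧ (g i).card = b i ∧ Function.update g i ∅ ∈ OP b I (R \ g i) := by
  rw [mem_OP] at hg
  obtain ⟨h1, h2, h3, h4⟩ := hg
  refine ⟨?_, h2 i (mem_insert_self i I), ?_⟩
  · rw [← h4]
    exact subset_biUnion_of_mem g (mem_insert_self i I)
  · rw [mem_OP]
    have hne : ∀ j ∈ I, j ≠ i := fun j hj h => hi (h ▸ hj)
    refine ⟨?_, ?_, ?_, ?_⟩
    · intro j hj
      by_cases h : j = i
      · subst h; simp
      · rw [Function.update_of_ne h]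
        apply h1
        simp [h, hj]
    · intro j hj
      rw [Function.update_of_ne (hne j hj)]
      exact h2 j (mem_insert_of_mem hj)
    · intro j hj k hk hjk
      rw [Function.update_of_ne (hne j hj), Function.update_of_ne (hne k hk)]
      exact h3 j (mem_insert_of_mem hj) k (mem_insert_of_mem hk) hjk
    · ext v
      rw [← h4]
      simp only [mem_biUnion, mem_sdiff, mem_insert, exists_eq_or_imp]
      constructor
      · rintro ⟨j, hj, hv⟩
        rw [Function.update_of_ne (hne j hj)] at hv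
        refine ⟨Or.inr ⟨j, hj, hv⟩, ?_⟩
        have := h3 j (mem_insert_of_mem hj) i (mem_insert_self i I) (hne j hj)
        exact Finset.disjoint_left.1 this hv
      · rintro ⟨h | ⟨j, hj, hv⟩, hvi⟩
        · exact absurd h hvi
        · exact ⟨j, hj, by rw [Function.update_of_ne (hne j hj)]; exact hv⟩

lemma OP_join {b : ι → ℕ} {I : Finset ι} {i : ι} (hi : i ∉ I) {R B : Finset V}
    (hB : B ⊆ R) (hBc : B.card = b i)
    {g : ι → Finset V} (hg : g ∈ OP b I (R \ B)) :
    Function.update g i B ∈ OP b (insert i I) R := by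
  rw [mem_OP] at hg ⊢
  obtain ⟨h1, h2, h3, h4⟩ := hg
  have hne : ∀ j ∈ I, j ≠ i := fun j hj h => hi (h ▸ hj)
  have hdis : ∀ j ∈ I, Disjoint (g j) B := by
    intro j hj
    have : g j ⊆ R \ B := by
      rw [← h4]; exact subset_biUnion_of_mem g hj
    exact Finset.disjoint_of_subset_left this sdiff_disjoint
  refine ⟨?_, ?_, ?_, ?_⟩
  · intro j hj
    rw [mem_insert, not_or] at hj
    rw [Function.update_of_ne hj.1]
    exact h1 j hj.2
  · intro j hj
    rw [mem_insert] at hj
    rcases hj with h | h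
    · subst h; simp [hBc]
    · rw [Function.update_of_ne (hne j h)]; exact h2 j h
  · intro j hj k hk hjk
    rw [mem_insert] at hj hk
    rcases hj with hj | hj <;> rcases hk with hk | hk
    · exact absurd (hj.trans hk.symm) hjk
    · subst hj
      rw [Function.update_self, Function.update_of_ne (hne k hk)]
      exact (hdis k hk).symm
    · subst hk
      rw [Function.update_self, Function.update_of_ne (hne j hj)]
      exact hdis j hj
    · rw [Function.update_of_ne (hne j hj), Function.update_of_ne (hne k hk)]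
      exact h3 j hj k hk hjk
  · ext v
    simp only [mem_biUnion, mem_insert, exists_eq_or_imp, Function.update_self]
    constructor
    · rintro (h | ⟨j, hj, hv⟩)
      · exact hB h
      · rw [Function.update_of_ne (hne j hj)] at hv
        have : v ∈ R \ B := by
          rw [← h4]; exact mem_biUnion.2 ⟨j, hj, hv⟩
        exact (mem_sdiff.1 this).1
    · intro hv
      by_cases hvB : v ∈ B
      · exact Or.inl hvB
      · right
        have : v ∈ I.biUnion g := by
          rw [h4]; exact mem_sdiff.2 ⟨hv, hvB⟩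
        obtain ⟨j, hj, hvj⟩ := mem_biUnion.1 this
        exact ⟨j, hj, by rw [Function.update_of_ne (hne j hj)]; exact hvj⟩

theorem Z_insert (b : ι → ℕ) (w : ι → Finset V → ℝ) {I : Finset ι} {i : ι} (hi : i ∉ I)
    (R : Finset V) :
    Z b w (insert i I) R = ∑ B ∈ R.powersetCard (b i), w i B * Z b w I (R \ B) := by
  unfold Z
  simp_rw [Finset.mul_sum]
  rw [Finset.sum_sigma' (R.powersetCard (b i)) (fun B => OP b I (R \ B))
    (fun B g => w i B * ∏ j ∈ I, w j (g j))]
  have hne : ∀ j ∈ I, j ≠ i := fun j hj h => hi (h ▸ hj)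
  refine Finset.sum_bij' (fun g _ => ⟨g i, Function.update g i ∅⟩)
    (fun p _ => Function.update p.2 i p.1) ?_ ?_ ?_ ?_ ?_
  · intro g hg
    obtain ⟨h1, h2, h3⟩ := OP_split hi hg
    rw [mem_sigma, mem_powersetCard]
    exact ⟨⟨h1, h2⟩, h3⟩
  · rintro ⟨B, g⟩ hp
    rw [mem_sigma, mem_powersetCard] at hp
    exact OP_join hi hp.1.1 hp.1.2 hp.2
  · intro g hg
    simp
  · rintro ⟨B, g⟩ hp
    rw [mem_sigma, mem_powersetCard] at hp
    have h0 : g i = ∅ := (mem_OP.1 hp.2).1 i hi
    simp only [Function.update_self, Function.update_idem, Sigma.mk.injEq, heq_eq_eq, true_and]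
    rw [← h0, Function.update_eq_self]
  · intro g hg
    rw [prod_insert hi]
    congr 1
    apply prod_congr rfl
    intro j hj
    show w j (g j) = w j (Function.update g i ∅ j)
    rw [Function.update_of_ne (hne j hj)]

lemma OP_empty (b : ι → ℕ) (R : Finset V) :
    OP b ∅ R = if R = ∅ then {fun _ => ∅} else ∅ := by
  ext g
  rw [mem_OP]
  by_cases h : R = ∅
  · subst h
    simp only [notMem_empty, not_false_eq_true, forall_const, false_imp_iff, implies_true,
      biUnion_empty, and_true, if_true, mem_singleton]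
    constructor
    · intro h
      ext1 i
      exact h i
    · rintro rfl
      simp
  · simp only [h, if_false, notMem_empty, iff_false]
    rintro ⟨-, -, -, h4⟩
    rw [biUnion_empty] at h4
    exact h h4.symm

lemma Z_empty (b : ι → ℕ) (w : ι → Finset V → ℝ) (R : Finset V) :
    Z b w ∅ R = if R = ∅ then 1 else 0 := by
  unfold Z
  rw [OP_empty]
  split_ifs <;> simp

lemma OP_card_eq {b : ι → ℕ} {I : Finset ι} {R : Finset V} {g : ι → Finset V}
    (hg : g ∈ OP b I R) : ∑ i ∈ I, b i = R.card := by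
  rw [mem_OP] at hg
  obtain ⟨h1, h2, h3, h4⟩ := hg
  rw [← h4, card_biUnion h3]
  exact (sum_congr rfl h2).symm

lemma Z_eq_zero {b : ι → ℕ} (w : ι → Finset V → ℝ) {I : Finset ι} {R : Finset V}
    (h : ∑ i ∈ I, b i ≠ R.card) : Z b w I R = 0 := by
  unfold Z
  apply sum_eq_zero
  intro g hg
  exact absurd (OP_card_eq hg) h

lemma Z_one (b : ι → ℕ) (I : Finset ι) (R : Finset V) :
    Z b (fun _ _ => (1 : ℝ)) I R = (OP b I R).card := by
  unfold Z
  simp

/-- number of ordered partitions -/
theorem card_OP (b : ι → ℕ) (I : Finset ι) (R : Finset V) (h : ∑ i ∈ I, b i = R.card) :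
    ((OP b I R).card : ℝ) * ∏ i ∈ I, ((b i).factorial : ℝ) = (R.card.factorial : ℝ) := by
  rw [← Z_one]
  induction I using Finset.induction_on generalizing R with
  | empty =>
    rw [Z_empty]
    rw [sum_empty] at h
    have : R = ∅ := card_eq_zero.1 h.symm
    subst this
    simp
  | insert i I hi ih =>
    rw [Z_insert _ _ hi]
    rw [sum_insert hi] at h
    have hle : b i ≤ R.card := by omega
    have h1 : ∀ B ∈ R.powersetCard (b i), (1 : ℝ) * Z b (fun _ _ => (1 : ℝ)) I (R \ B) *
        ∏ j ∈ insert i I, ((b j).factorial : ℝ)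
        = ((R.card - b i).factorial : ℝ) * ((b i).factorial : ℝ) := by
      intro B hB
      rw [mem_powersetCard] at hB
      have hc : (R \ B).card = R.card - b i := by
        rw [card_sdiff_of_subset hB.1, hB.2]
      have := ih (R \ B) (by rw [hc]; omega)
      rw [prod_insert hi, one_mul, mul_left_comm, this, hc, mul_comm]
    rw [sum_mul, sum_congr rfl h1, sum_const, card_powersetCard, nsmul_eq_mul]
    have := Nat.choose_mul_factorial_mul_factorial hle
    have h2 : ((R.card.choose (b i) * (b i).factorial * (R.card - b i).factorial : ℕ) : ℝ)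
      = (R.card.factorial : ℝ) := by rw [this]
    push_cast at h2
    rw [← h2]; ring

lemma Z_nonneg {b : ι → ℕ} {w : ι → Finset V → ℝ} (hw : ∀ i B, 0 ≤ w i B) (I : Finset ι)
    (R : Finset V) : 0 ≤ Z b w I R :=
  sum_nonneg fun _ _ => prod_nonneg fun _ _ => hw _ _

/-- upper bound for a weighted sum, exceptional indices `J`, threshold `ρ` -/
theorem Z_le_rest (b : ι → ℕ) (w : ι → Finset V → ℝ) (hw : ∀ i B, 0 ≤ w i B)
    (J : Finset ι) (ρ : ℕ) (Γ D : ℝ) (hΓ : 1 ≤ Γ) (hD : 1 ≤ D) (I : Finset ι)
    (hb : ∀ i ∈ I, 1 ≤ b i)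
    (h1 : ∀ i ∈ I, ∀ R : Finset V, ∑ B ∈ R.powersetCard (b i), w i B ≤ (R.card.choose (b i)) * Γ)
    (h2 : ∀ i ∈ I, i ∉ J → ∀ R : Finset V, ρ ≤ R.card →
      ∑ B ∈ R.powersetCard (b i), w i B ≤ (R.card.choose (b i)) * D)
    (R : Finset V) :
    Z b w I R * ∏ i ∈ I, ((b i).factorial : ℝ) ≤
      (R.card.factorial : ℝ) * (Γ ^ (I ∩ J).card * D ^ I.card * Γ ^ (min R.card ρ)) := by
  have hΓ0 : 0 < Γ := by linarith
  have hD0 : 0 < D := by linarith
  induction I using Finset.induction_on generalizing R with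
  | empty =>
    rw [Z_empty]
    by_cases h : R = ∅
    · subst h
      simp
    · simp only [h, if_false, zero_mul]
      positivity
  | insert i I hi ih =>
    by_cases hsum : ∑ j ∈ insert i I, b j = R.card
    swap
    · rw [Z_eq_zero w hsum, zero_mul]
      positivity
    rw [Z_insert _ _ hi]
    rw [sum_insert hi] at hsum
    have hle : b i ≤ R.card := by omega
    have hbi : 1 ≤ b i := hb i (mem_insert_self i I)
    have ih' := ih (fun j hj => hb j (mem_insert_of_mem hj))
      (fun j hj => h1 j (mem_insert_of_mem hj)) (fun j hj => h2 j (mem_insert_of_mem hj))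
    set X : ℝ := Γ ^ (I ∩ J).card * D ^ I.card * Γ ^ (min (R.card - b i) ρ) with hX
    have hX0 : 0 < X := by rw [hX]; positivity
    have h3 : ∀ B ∈ R.powersetCard (b i), w i B * Z b w I (R \ B) *
        ∏ j ∈ insert i I, ((b j).factorial : ℝ)
        ≤ w i B * (((b i).factorial : ℝ) * ((R.card - b i).factorial : ℝ) * X) := by
      intro B hB
      rw [mem_powersetCard] at hB
      have hc : (R \ B).card = R.card - b i := by
        rw [card_sdiff_of_subset hB.1, hB.2]
      have h4 := ih' (R \ B)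
      rw [hc] at h4
      rw [prod_insert hi]
      have h5 : w i B * Z b w I (R \ B) * (((b i).factorial : ℝ) * ∏ j ∈ I, ((b j).factorial : ℝ))
        = w i B * (((b i).factorial : ℝ) * (Z b w I (R \ B) * ∏ j ∈ I, ((b j).factorial : ℝ))) := by
        ring
      rw [h5]
      apply mul_le_mul_of_nonneg_left _ (hw i B)
      rw [mul_assoc]
      apply mul_le_mul_of_nonneg_left h4 (Nat.cast_nonneg _)
    rw [sum_mul]
    refine (sum_le_sum h3).trans ?_
    rw [← sum_mul]
    have h6 : ((R.card.choose (b i) * (b i).factorial * (R.card - b i).factorial : ℕ) : ℝ)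
      = (R.card.factorial : ℝ) := by rw [Nat.choose_mul_factorial_mul_factorial hle]
    push_cast at h6
    -- constant for this step
    have key : ∀ c : ℝ, ∑ B ∈ R.powersetCard (b i), w i B ≤ (R.card.choose (b i)) * c →
        c * X ≤ Γ ^ ((insert i I) ∩ J).card * D ^ (insert i I).card * Γ ^ (min R.card ρ) →
        (∑ B ∈ R.powersetCard (b i), w i B) *
          (((b i).factorial : ℝ) * ((R.card - b i).factorial : ℝ) * X) ≤
        (R.card.factorial : ℝ) *
          (Γ ^ ((insert i I) ∩ J).card * D ^ (insert i I).card * Γ ^ (min R.card ρ)) := by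
      intro c hc1 hc2
      calc (∑ B ∈ R.powersetCard (b i), w i B) *
          (((b i).factorial : ℝ) * ((R.card - b i).factorial : ℝ) * X)
          ≤ ((R.card.choose (b i)) * c) *
          (((b i).factorial : ℝ) * ((R.card - b i).factorial : ℝ) * X) := by
            apply mul_le_mul_of_nonneg_right hc1; positivity
        _ = (R.card.factorial : ℝ) * (c * X) := by rw [← h6]; ring
        _ ≤ _ := mul_le_mul_of_nonneg_left hc2 (Nat.cast_nonneg _)
    have hcard : (insert i I).card = I.card + 1 := card_insert_of_notMem hi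
    have hmin : min (R.card - b i) ρ ≤ min R.card ρ := min_le_min_right _ (Nat.sub_le _ _)
    have hpow : Γ ^ (min (R.card - b i) ρ) ≤ Γ ^ (min R.card ρ) := pow_le_pow_right₀ hΓ hmin
    by_cases hiJ : i ∈ J
    · refine key Γ (h1 i (mem_insert_self i I) R) ?_
      rw [insert_inter_of_mem hiJ, card_insert_of_notMem (fun h => hi (mem_inter.1 h).1), hcard,
        pow_succ, pow_succ, hX]
      calc Γ * (Γ ^ (I ∩ J).card * D ^ I.card * Γ ^ (min (R.card - b i) ρ))
          ≤ Γ * (Γ ^ (I ∩ J).card * D ^ I.card * Γ ^ (min R.card ρ)) := by gcongr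
        _ = Γ ^ (I ∩ J).card * Γ * (D ^ I.card * 1) * Γ ^ (min R.card ρ) := by ring
        _ ≤ Γ ^ (I ∩ J).card * Γ * (D ^ I.card * D) * Γ ^ (min R.card ρ) := by gcongr
    · by_cases hρ : ρ ≤ R.card
      · refine key D (h2 i (mem_insert_self i I) hiJ R hρ) ?_
        rw [insert_inter_of_notMem hiJ, hcard, pow_succ D, hX]
        calc D * (Γ ^ (I ∩ J).card * D ^ I.card * Γ ^ (min (R.card - b i) ρ))
            ≤ D * (Γ ^ (I ∩ J).card * D ^ I.card * Γ ^ (min R.card ρ)) := by gcongr
          _ = _ := by ring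
      · refine key Γ (h1 i (mem_insert_self i I) R) ?_
        have h7 : min R.card ρ = R.card := min_eq_left (by omega)
        have h8 : min (R.card - b i) ρ + 1 ≤ R.card := by
          have := min_le_left (R.card - b i) ρ
          omega
        rw [insert_inter_of_notMem hiJ, hcard, h7, pow_succ D, hX]
        calc Γ * (Γ ^ (I ∩ J).card * D ^ I.card * Γ ^ (min (R.card - b i) ρ))
            = Γ ^ (I ∩ J).card * (D ^ I.card * 1) * Γ ^ (min (R.card - b i) ρ + 1) := by ring
          _ ≤ Γ ^ (I ∩ J).card * (D ^ I.card * D) * Γ ^ R.card := by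
              gcongr

/-- number of pairs in a common class of `g` and of `g'` -/
def shared (g g' : ι → Finset V) : ℕ := ∑ i, ∑ j, (g i ∩ g' j).card.choose 2

/-- indices of the classes of `g'` which are not classes of `g` but meet one in `≥ τ` vertices -/
def exc (τ : ℕ) (g g' : ι → Finset V) : Finset ι :=
  univ.filter (fun j => (∀ i, g i ≠ g' j) ∧ ∃ i, τ ≤ (g i ∩ g' j).card)

end OPsec

/-- independent set -/
def Indep {n : ℕ} (G : SimpleGraph (Fin n)) (B : Finset (Fin n)) : Prop :=
  ∀ u ∈ B, ∀ v ∈ B, ¬ G.Adj u v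

open Classical in
/-- violations: pairs `(v, i)`, `v ∉ g i`, with a set of all but `r` elements of `g i` which are not
adjacent to `v` -/
noncomputable def vio {n : ℕ} {ι : Type} [Fintype ι] (r : ℕ) (G : SimpleGraph (Fin n))
    (g : ι → Finset (Fin n)) : Finset (Fin n × ι) :=
  univ.filter (fun p => p.1 ∉ g p.2 ∧
    ∃ L ⊆ g p.2, L.card = (g p.2).card - r ∧ ∀ u ∈ L, ¬ G.Adj p.1 u)

/-- proper and few violations -/
def Good {n : ℕ} {ι : Type} [Fintype ι] (r μ : ℕ) (G : SimpleGraph (Fin n))
    (g : ι → Finset (Fin n)) : Prop :=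
  (∀ i, Indep G (g i)) ∧ (vio r G g).card ≤ μ

end Pool.RG
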