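import Pool.Agent.Work.RG.Row

/-!
# MP_004c3d_co : the overlap sum
-/

namespace Pool.RG

open Finset

lemma choose_two_add_le (a b : ℕ) : a.choose 2 + b.choose 2 ≤ (a + b).choose 2 := by
  have h : ((a.choose 2 + b.choose 2 : ℕ) : ℝ) ≤ (((a + b).choose 2 : ℕ) : ℝ) := by
    push_cast
    rw [Nat.cast_choose_two, Nat.cast_choose_two, Nat.cast_choose_two]
    push_cast
    have : (0 : ℝ) ≤ (a : ℝ) * b := by positivity
    nlinarith
  exact_mod_cast h

lemma sum_choose_two_le {α : Type*} (s : Finset α) (x : α → ℕ) :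
    ∑ i ∈ s, (x i).choose 2 ≤ (∑ i ∈ s, x i).choose 2 := by
  classical
  induction s using Finset.induction_on with
  | empty => simp
  | insert i s hi ih =>
    rw [sum_insert hi, sum_insert hi]
    exact (Nat.add_le_add_left ih _).trans (choose_two_add_le _ _)

section Ov

variable {V ι : Type} [Fintype V] [DecidableEq V] [Fintype ι] [DecidableEq ι]

lemma sum_inter_choose_le (A : ι → Finset V) (hA : ∀ i j, i ≠ j → Disjoint (A i) (A j))
    (B : Finset V) : ∑ i, (A i ∩ B).card.choose 2 ≤ B.card.choose 2 := by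
  refine (sum_choose_two_le _ _).trans (Nat.choose_le_choose 2 ?_)
  rw [← card_biUnion]
  · apply card_le_card
    intro v hv
    rw [mem_biUnion] at hv
    obtain ⟨i, -, hv⟩ := hv
    exact (mem_inter.1 hv).2
  · intro i _ j _ hij
    exact disjoint_of_subset_left inter_subset_left
      (disjoint_of_subset_right inter_subset_left (hA i j hij))

/-- the weights for given exceptional indices `E` and equal indices `S` -/
noncomputable def wES (Γ : ℝ) (τ : ℕ) (g : ι → Finset V) (b : ι → ℕ) (E S : Finset ι) (j : ι)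
    (B : Finset V) : ℝ :=
  if j ∈ S then (if ∃ k, g k = B then (2 : ℝ) ^ ((b j).choose 2) else 0)
  else if j ∈ E then Γ else ∏ i, uu τ (B ∩ g i).card

lemma wES_nonneg {Γ : ℝ} (hΓ : 0 ≤ Γ) (τ : ℕ) (g : ι → Finset V) (b : ι → ℕ) (E S : Finset ι)
    (j : ι) (B : Finset V) : 0 ≤ wES Γ τ g b E S j B := by
  unfold wES
  split_ifs
  · positivity
  · exact le_rfl
  · exact hΓ
  · exact prod_nonneg fun _ _ => uu_nonneg _ _

lemma OP_univ_dis {b : ι → ℕ} {R : Finset V} {g : ι → Finset V} (hg : g ∈ OP b univ R) :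
    ∀ i j, i ≠ j → Disjoint (g i) (g j) :=
  fun i j hij => (mem_OP.1 hg).2.2.1 i (mem_univ i) j (mem_univ j) hij

lemma OP_univ_card {b : ι → ℕ} {R : Finset V} {g : ι → Finset V} (hg : g ∈ OP b univ R) (i : ι) :
    (g i).card = b i := (mem_OP.1 hg).2.1 i (mem_univ i)

/-- indices of the classes of `g'` which are classes of `g` -/
def equ (g g' : ι → Finset V) : Finset ι := univ.filter (fun j => ∃ k, g k = g' j)

lemma two_pow_shared_le {b : ι → ℕ} {a τ : ℕ} (hb : ∀ i, b i ≤ a) {g g' : ι → Finset V}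
    (hg : g ∈ OP b univ univ) (hg' : g' ∈ OP b univ univ) :
    (2 : ℝ) ^ (shared g g') ≤
      ∏ j, wES ((2 : ℝ) ^ (a.choose 2)) τ g b (exc τ g g') (equ g g') j (g' j) := by
  unfold shared
  rw [sum_comm, ← prod_pow_eq_pow_sum]
  apply prod_le_prod
  · intros; positivity
  · intro j _
    have h1 := sum_inter_choose_le g (OP_univ_dis hg) (g' j)
    rw [OP_univ_card hg'] at h1
    unfold wES
    by_cases hS : j ∈ equ g g'
    · rw [if_pos hS]
      have : ∃ k, g k = g' j := by
        unfold equ at hS; exact (mem_filter.1 hS).2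
      rw [if_pos this]
      exact pow_le_pow_right₀ (by norm_num) h1
    · rw [if_neg hS]
      by_cases hE : j ∈ exc τ g g'
      · rw [if_pos hE]
        exact pow_le_pow_right₀ (by norm_num) (h1.trans (Nat.choose_le_choose 2 (hb j)))
      · rw [if_neg hE]
        apply le_of_eq
        rw [← prod_pow_eq_pow_sum]
        apply prod_congr rfl
        intro i _
        have h2 : ¬ ∃ k, g k = g' j := by
          intro h; apply hS; unfold equ; exact mem_filter.2 ⟨mem_univ _, h⟩
        have h3 : ¬ ∃ i, τ ≤ (g i ∩ g' j).card := by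
          intro h; apply hE; unfold exc
          refine mem_filter.2 ⟨mem_univ _, fun i hi => h2 ⟨i, hi⟩, h⟩
        push Not at h3
        unfold uu
        rw [inter_comm (g' j) (g i), if_pos (h3 i)]

/-- reduction to sums over `E`, `S` -/
lemma overlap_le_sum {b : ι → ℕ} {a τ m : ℕ} (hb : ∀ i, b i ≤ a) {g : ι → Finset V}
    (hg : g ∈ OP b univ univ) :
    ∑ g' ∈ (OP b univ univ).filter (fun g' => (exc τ g g').card ≤ m), (2 : ℝ) ^ (shared g g') ≤
      ∑ E ∈ (univ : Finset (Finset ι)).filter (fun E => E.card ≤ m),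
        ∑ S : Finset ι, Z b (wES ((2 : ℝ) ^ (a.choose 2)) τ g b E S) univ univ := by
  have hΓ : (0 : ℝ) ≤ (2 : ℝ) ^ (a.choose 2) := by positivity
  calc ∑ g' ∈ (OP b univ univ).filter (fun g' => (exc τ g g').card ≤ m), (2 : ℝ) ^ (shared g g')
      ≤ ∑ g' ∈ (OP b univ univ).filter (fun g' => (exc τ g g').card ≤ m),
        ∑ E ∈ (univ : Finset (Finset ι)).filter (fun E => E.card ≤ m),
        ∑ S : Finset ι, ∏ j, wES ((2 : ℝ) ^ (a.choose 2)) τ g b E S j (g' j) := by
        apply sum_le_sum
        intro g' hg'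
        rw [mem_filter] at hg'
        refine (two_pow_shared_le (τ := τ) hb hg hg'.1).trans ?_
        have hnn : ∀ E S : Finset ι,
            0 ≤ ∏ j, wES ((2 : ℝ) ^ (a.choose 2)) τ g b E S j (g' j) :=
          fun E S => prod_nonneg fun _ _ => wES_nonneg hΓ _ _ _ _ _ _ _
        refine le_trans ?_ (single_le_sum (f := fun E => ∑ S : Finset ι,
          ∏ j, wES ((2 : ℝ) ^ (a.choose 2)) τ g b E S j (g' j))
          (fun E _ => sum_nonneg fun S _ => hnn E S)
          (show exc τ g g' ∈ _ from mem_filter.2 ⟨mem_univ _, hg'.2⟩))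
        exact single_le_sum (f := fun S =>
          ∏ j, wES ((2 : ℝ) ^ (a.choose 2)) τ g b (exc τ g g') S j (g' j))
          (fun S _ => hnn _ S) (mem_univ (equ g g'))
    _ ≤ ∑ g' ∈ OP b univ univ,
        ∑ E ∈ (univ : Finset (Finset ι)).filter (fun E => E.card ≤ m),
        ∑ S : Finset ι, ∏ j, wES ((2 : ℝ) ^ (a.choose 2)) τ g b E S j (g' j) := by
        apply sum_le_sum_of_subset_of_nonneg (filter_subset _ _)
        intro g' _ _
        exact sum_nonneg fun E _ => sum_nonneg fun S _ =>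
          prod_nonneg fun _ _ => wES_nonneg hΓ _ _ _ _ _ _ _
    _ = _ := by
        unfold Z
        rw [sum_comm]
        apply sum_congr rfl
        intro E _
        rw [sum_comm]

/-- number of small subsets -/
lemma card_small_subsets (m : ℕ) :
    ((univ : Finset (Finset ι)).filter (fun E => E.card ≤ m)).card ≤ (Fintype.card ι + 1) ^ m := by
  classical
  have h1 : Fintype.card (Fin m → Option ι) = (Fintype.card ι + 1) ^ m := by
    rw [Fintype.card_fun, Fintype.card_option, Fintype.card_fin]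
  rw [← h1, ← card_univ]
  -- the map from functions to subsets
  let F : (Fin m → Option ι) → Finset ι := fun f => univ.filter (fun i => ∃ x, f x = some i)
  refine le_trans (card_le_card ?_) (card_image_le (f := F))
  intro E hE
  rw [mem_filter] at hE
  rw [mem_image]
  have hle : E.card ≤ m := hE.2
  let e := E.equivFin
  refine ⟨fun x => if h : (x : ℕ) < E.card then some (e.symm ⟨x, h⟩ : ι) else none,
    mem_univ _, ?_⟩
  ext i
  simp only [F, mem_filter, mem_univ, true_and]
  constructor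
  · rintro ⟨x, hx⟩
    split_ifs at hx with h
    simp only [Option.some.injEq] at hx
    rw [← hx]
    exact (e.symm ⟨x, h⟩).2
  · intro hi
    refine ⟨⟨(e ⟨i, hi⟩ : ℕ), lt_of_lt_of_le (e ⟨i, hi⟩).2 hle⟩, ?_⟩
    have h2 : ((e ⟨i, hi⟩ : Fin E.card) : ℕ) < E.card := (e ⟨i, hi⟩).2
    rw [dif_pos h2]
    simp

/-- sum over all subsets of the inverse number of subsets of the same type -/
lemma sum_inv_choose {J : Type} [Fintype J] [DecidableEq J] (ty : ι → J) :
    ∑ S : Finset ι, ∏ j, (((univ.filter (fun i => ty i = j)).card.choose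
      ((S.filter (fun i => ty i = j)).card) : ℝ))⁻¹
      ≤ ∏ j, (((univ.filter (fun i => ty i = j)).card : ℝ) + 1) := by
  classical
  have h1 : ∀ j : J, ∑ T ∈ (univ.filter (fun i => ty i = j)).powerset,
      (((univ.filter (fun i => ty i = j)).card.choose T.card : ℝ))⁻¹
      = ((univ.filter (fun i => ty i = j)).card : ℝ) + 1 := by
    intro j
    rw [sum_powerset_apply_card (fun m =>
      (((univ.filter (fun i => ty i = j)).card.choose m : ℝ))⁻¹)]
    have h2 : ∀ m ∈ range ((univ.filter (fun i => ty i = j)).card + 1),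
        ((univ.filter (fun i => ty i = j)).card.choose m) •
        (((univ.filter (fun i => ty i = j)).card.choose m : ℝ))⁻¹ = 1 := by
      intro m hm
      rw [mem_range] at hm
      have : 0 < ((univ.filter (fun i => ty i = j)).card.choose m) :=
        Nat.choose_pos (by omega)
      have h3 : (((univ.filter (fun i => ty i = j)).card.choose m : ℕ) : ℝ) ≠ 0 := by
        exact_mod_cast this.ne'
      rw [nsmul_eq_mul, mul_inv_cancel₀ h3]
    rw [sum_congr rfl h2]
    simp
  rw [← prod_congr rfl (fun j _ => h1 j), prod_univ_sum]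
  apply sum_le_of_inj _ _ (fun S j => S.filter (fun i => ty i = j))
  · intro S _
    rw [Fintype.mem_piFinset]
    intro j
    rw [mem_powerset]
    exact filter_subset_filter _ (subset_univ S)
  · intro S _ S' _ h
    ext i
    have : S.filter (fun k => ty k = ty i) = S'.filter (fun k => ty k = ty i) :=
      congrFun h (ty i)
    constructor
    · intro hi
      have h3 : i ∈ S.filter (fun k => ty k = ty i) := mem_filter.2 ⟨hi, rfl⟩
      rw [this] at h3
      exact (mem_filter.1 h3).1
    · intro hi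
      have h3 : i ∈ S'.filter (fun k => ty k = ty i) := mem_filter.2 ⟨hi, rfl⟩
      rw [← this] at h3
      exact (mem_filter.1 h3).1
  · intro S _
    exact le_rfl
  · intro T _
    exact prod_nonneg fun j _ => by positivity

end Ov

lemma exp_lw (i : ℕ) : Real.exp (lw i) = (i.factorial : ℝ) * 2 ^ (i.choose 2) := by
  unfold lw
  rw [Real.exp_add, Real.exp_log (by exact_mod_cast i.factorial_pos), mul_comm (Real.log 2),
    Real.exp_nat_mul, Real.exp_log (by norm_num)]

section Main

variable {n K : ℕ}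

/-- bound for one pair `E, S` -/
theorem Z_ES_le (M : ℕ) (hM : 1 ≤ M) (κ : Fin 6 → ℕ) (ty : Fin K → Fin 6)
    (hκ : ∀ j, κ j = (univ.filter (fun i => ty i = j)).card) (hn : n = nv M κ)
    (τ ρ m : ℕ) (η Δ : ℝ) (hη : 0 ≤ η)
    (hrow : ∀ r, ρ ≤ r → ∀ b' ≤ M + 5, ∑ x ∈ Ico 2 τ, (if x ≤ b' then
      (2 : ℝ) ^ (x.choose 2) * ((M + 5).choose x : ℝ) * (r.choose (b' - x) : ℝ) else 0)
        ≤ η * (r.choose b' : ℝ))
    (hPP : PP M κ Δ)
    {g : Fin K → Finset (Fin n)} (hg : g ∈ OP (fun i => M + (ty i : ℕ)) univ univ)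
    (E S : Finset (Fin K)) (hE : E.card ≤ m) :
    Z (fun i => M + (ty i : ℕ))
      (wES ((2 : ℝ) ^ ((M + 5).choose 2)) τ g (fun i => M + (ty i : ℕ)) E S) univ univ ≤
    ((OP (V := Fin n) (fun i : Fin K => M + (ty i : ℕ)) univ univ).card : ℝ) *
      (((2 : ℝ) ^ ((M + 5).choose 2)) ^ m * ((1 + η) ^ K) ^ K *
        ((2 : ℝ) ^ ((M + 5).choose 2)) ^ ρ * Real.exp Δ) *
      ∏ j, (((univ.filter (fun i => ty i = j)).card.choose
        ((S.filter (fun i => ty i = j)).card) : ℝ))⁻¹ := by
  classical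
  set b : Fin K → ℕ := fun i => M + (ty i : ℕ) with hb
  set Γ : ℝ := (2 : ℝ) ^ ((M + 5).choose 2) with hΓdef
  have hΓ1 : 1 ≤ Γ := one_le_pow₀ (by norm_num)
  have hΓ0 : 0 < Γ := by linarith
  set w := wES Γ τ g b E S with hw
  have hw0 : ∀ i B, 0 ≤ w i B := fun i B => wES_nonneg hΓ0.le _ _ _ _ _ _ _
  have hb1 : ∀ i, 1 ≤ b i := fun i => by simp only [hb]; omega
  have hb5 : ∀ i, b i ≤ M + 5 := fun i => by
    simp only [hb]
    have := (ty i).2
    omega
  have hdis := OP_univ_dis hg
  have hcard := OP_univ_card hg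
  set T : Fin 6 → ℕ := fun j => (S.filter (fun i => ty i = j)).card with hT
  have hTle : ∀ j, T j ≤ κ j := by
    intro j
    rw [hκ j]
    exact card_le_card (filter_subset_filter _ (subset_univ S))
  -- sums over types
  have hsumS : ∑ i ∈ S, b i = nv M T := by
    unfold nv
    rw [← sum_fiberwise_of_maps_to (s := S) (t := univ) (g := ty) (fun i _ => mem_univ _)]
    apply sum_congr rfl
    intro j _
    rw [sum_congr rfl (g := fun _ => M + (j : ℕ))]
    · rw [sum_const, smul_eq_mul]
    · intro i hi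
      rw [mem_filter] at hi
      simp only [hb, hi.2]
  have hsumall : ∑ i, b i = n := by
    rw [OP_card_eq hg, card_univ, Fintype.card_fin]
  have hsumI : ∑ i ∈ univ \ S, b i = n - nv M T := by
    have h := sum_sdiff (f := b) (subset_univ S)
    rw [hsumall, hsumS] at h
    omega
  -- the rest bound
  have h1 : ∀ i ∈ univ \ S, ∀ R : Finset (Fin n),
      ∑ B ∈ R.powersetCard (b i), w i B ≤ (R.card.choose (b i)) * Γ := by
    intro i hi R
    have hiS : i ∉ S := (mem_sdiff.1 hi).2
    rw [← card_powersetCard, ← nsmul_eq_mul]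
    apply sum_le_card_nsmul
    intro B hB
    rw [mem_powersetCard] at hB
    simp only [hw, wES, if_neg hiS]
    split_ifs
    · exact le_rfl
    · calc ∏ k, uu τ (B ∩ g k).card ≤ ∏ k, (2 : ℝ) ^ ((g k ∩ B).card.choose 2) := by
            apply prod_le_prod
            · intros; exact uu_nonneg _ _
            · intro k _
              rw [inter_comm (g k) B]
              exact uu_le _ _
        _ = (2 : ℝ) ^ (∑ k, (g k ∩ B).card.choose 2) := prod_pow_eq_pow_sum _ _ _
        _ ≤ Γ := by
            apply pow_le_pow_right₀ (by norm_num)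
            refine (sum_inter_choose_le g hdis B).trans (Nat.choose_le_choose 2 ?_)
            rw [hB.2]; exact hb5 i
  have h2 : ∀ i ∈ univ \ S, i ∉ E → ∀ R : Finset (Fin n), ρ ≤ R.card →
      ∑ B ∈ R.powersetCard (b i), w i B ≤ (R.card.choose (b i)) * ((1 + η) ^ K) := by
    intro i hi hiE R hR
    have hiS : i ∉ S := (mem_sdiff.1 hi).2
    have h3 := row_le τ g hdis (M + 5) (M + 5) (fun k => by rw [hcard]; exact hb5 k) R η hη
      (hrow R.card hR) univ (b i) (hb5 i)
    rw [card_univ, Fintype.card_fin] at h3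
    refine le_trans (le_of_eq ?_) h3
    unfold rowsum
    apply sum_congr rfl
    intro B _
    simp only [hw, wES, if_neg hiS, if_neg hiE]
  have hD1 : 1 ≤ (1 + η) ^ K := one_le_pow₀ (by linarith)
  have hprodpos : ∀ s : Finset (Fin K), 0 < ∏ i ∈ s, ((b i).factorial : ℝ) :=
    fun s => prod_pos fun i _ => by exact_mod_cast (b i).factorial_pos
  set X : ℝ := ((n - nv M T).factorial : ℝ) * (Γ ^ m * ((1 + η) ^ K) ^ K * Γ ^ ρ) /
    ∏ i ∈ univ \ S, ((b i).factorial : ℝ) with hX
  have hX0 : 0 ≤ X := by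
    rw [hX]
    have := hprodpos (univ \ S)
    positivity
  have hXb : ∀ R : Finset (Fin n), Z b w (univ \ S) R ≤ X := by
    intro R
    by_cases hR : ∑ i ∈ univ \ S, b i = R.card
    · have h3 := Z_le_rest b w hw0 E ρ Γ ((1 + η) ^ K) hΓ1 hD1 (univ \ S) (fun i _ => hb1 i)
        h1 h2 R
      rw [hX, le_div_iff₀ (hprodpos _)]
      refine h3.trans ?_
      rw [← hR, hsumI]
      apply mul_le_mul_of_nonneg_left _ (Nat.cast_nonneg _)
      have e1 : ((univ \ S) ∩ E).card ≤ m := (card_le_card inter_subset_right).trans hE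
      have e2 : (univ \ S).card ≤ K := by
        have := card_le_univ (univ \ S)
        rwa [Fintype.card_fin] at this
      have e3 : min (n - nv M T) ρ ≤ ρ := min_le_right _ _
      gcongr
    · rw [Z_eq_zero w hR]; exact hX0
  -- the equal classes
  have h4 := Z_le_equal b w g ty (fun k => by
      rw [← card_pos, hcard]; exact hb1 k) (fun i k h => by
      rw [hcard] at h
      simp only [hb] at h
      exact Fin.ext (by omega)) (fun i => (2 : ℝ) ^ ((b i).choose 2)) (fun i => by positivity)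
    (univ \ S) X hX0 hXb S disjoint_sdiff (by
      intro i hi B
      simp only [hw, wES, if_pos hi]
      exact le_rfl) hw0 univ
  rw [union_sdiff_of_subset (subset_univ S)] at h4
  have hav : ∀ j, avl g ty j univ = κ j := by
    intro j
    unfold avl
    rw [hκ j]
    congr 1
    ext k
    simp
  have h4' : Z b w univ univ ≤ (∏ j, (((κ j).descFactorial (T j) : ℕ) : ℝ)) *
      (∏ i ∈ S, (2 : ℝ) ^ ((b i).choose 2)) * X := by
    refine h4.trans (le_of_eq ?_)
    congr 2
    apply prod_congr rfl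
    intro j _
    rw [hav]
  refine h4'.trans ?_
  -- PP
  have h5 := hPP T hTle
  rw [← hn] at h5
  have hcardOP := card_OP b univ (univ : Finset (Fin n)) (by
    rw [hsumall, card_univ, Fintype.card_fin])
  rw [card_univ, Fintype.card_fin] at hcardOP
  have hn0 : (0 : ℝ) < (n.factorial : ℝ) := by exact_mod_cast n.factorial_pos
  have hexp : ∏ j, Real.exp ((T j : ℝ) * lw (M + j)) =
      ∏ i ∈ S, (((b i).factorial : ℝ) * (2 : ℝ) ^ ((b i).choose 2)) := by
    rw [← prod_fiberwise_of_maps_to (s := S) (t := univ) (g := ty) (fun i _ => mem_univ _)]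
    apply prod_congr rfl
    intro j _
    rw [prod_congr rfl (g := fun _ => Real.exp (lw (M + j)))]
    · rw [prod_const, ← Real.exp_nat_mul]
    · intro i hi
      rw [mem_filter] at hi
      rw [exp_lw]
      simp only [hb, hi.2]
  have hprodsplit : (∏ i ∈ univ \ S, ((b i).factorial : ℝ)) * ∏ i ∈ S, ((b i).factorial : ℝ) =
      ∏ i, ((b i).factorial : ℝ) := prod_sdiff (subset_univ S)
  have hCpos : 0 < ∏ j, (((κ j).choose (T j) : ℕ) : ℝ) :=
    prod_pos fun j _ => by exact_mod_cast Nat.choose_pos (hTle j)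
  have hgoal : (∏ j, (((univ.filter (fun i => ty i = j)).card.choose
        ((S.filter (fun i => ty i = j)).card) : ℝ))⁻¹) =
        (∏ j, (((κ j).choose (T j) : ℕ) : ℝ))⁻¹ := by
    rw [prod_inv_distrib]
    congr 1
    apply prod_congr rfl
    intro j _
    rw [hκ j]
  rw [hgoal, ← div_eq_mul_inv, le_div_iff₀ hCpos]
  rw [prod_mul_distrib, prod_mul_distrib, hexp, prod_mul_distrib] at h5
  set F1 : ℝ := ∏ i ∈ S, ((b i).factorial : ℝ) with hF1
  set F2 : ℝ := ∏ i ∈ S, (2 : ℝ) ^ ((b i).choose 2) with hF2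
  set F3 : ℝ := ∏ i ∈ univ \ S, ((b i).factorial : ℝ) with hF3
  set PC : ℝ := ∏ j, (((κ j).choose (T j) : ℕ) : ℝ) with hPC
  set PD : ℝ := ∏ j, (((κ j).descFactorial (T j) : ℕ) : ℝ) with hPD
  set NN : ℝ := ((n - nv M T).factorial : ℝ) with hNN
  have hF1p : 0 < F1 := hprodpos S
  have hF3p : 0 < F3 := hprodpos (univ \ S)
  set Y : ℝ := Γ ^ m * ((1 + η) ^ K) ^ K * Γ ^ ρ with hY
  have hY0 : 0 < Y := by rw [hY]; positivity
  have hOP : ((OP (V := Fin n) b univ univ).card : ℝ) = (n.factorial : ℝ) / (F3 * F1) := by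
    rw [eq_div_iff (by positivity), hprodsplit, hcardOP]
  have : PD * F2 * X * PC = (PC * PD * (F1 * F2) * NN) * Y / (F3 * F1) := by
    rw [hX]
    field_simp
  rw [this, hOP]
  have h6 : (PC * PD * (F1 * F2) * NN) * Y ≤ (Real.exp Δ * (n.factorial : ℝ)) * Y :=
    mul_le_mul_of_nonneg_right h5 hY0.le
  calc (PC * PD * (F1 * F2) * NN) * Y / (F3 * F1)
      ≤ (Real.exp Δ * (n.factorial : ℝ)) * Y / (F3 * F1) := by
        apply div_le_div_of_nonneg_right h6 (by positivity)
    _ = _ := by rw [hY]; ring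

/-- the overlap sum -/
theorem overlap_bound (M : ℕ) (hM : 1 ≤ M) (κ : Fin 6 → ℕ) (ty : Fin K → Fin 6)
    (hκ : ∀ j, κ j = (univ.filter (fun i => ty i = j)).card) (hn : n = nv M κ)
    (τ ρ m : ℕ) (η Δ : ℝ) (hη : 0 ≤ η)
    (hrow : ∀ r, ρ ≤ r → ∀ b' ≤ M + 5, ∑ x ∈ Ico 2 τ, (if x ≤ b' then
      (2 : ℝ) ^ (x.choose 2) * ((M + 5).choose x : ℝ) * (r.choose (b' - x) : ℝ) else 0)
        ≤ η * (r.choose b' : ℝ))
    (hPP : PP M κ Δ)
    {g : Fin K → Finset (Fin n)} (hg : g ∈ OP (fun i => M + (ty i : ℕ)) univ univ) :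
    ∑ g' ∈ (OP (fun i => M + (ty i : ℕ)) univ univ).filter
        (fun g' => (exc τ g g').card ≤ m), (2 : ℝ) ^ (shared g g') ≤
    ((OP (V := Fin n) (fun i : Fin K => M + (ty i : ℕ)) univ univ).card : ℝ) *
      (((K : ℝ) + 1) ^ m * ((K : ℝ) + 1) ^ 6 * (((2 : ℝ) ^ ((M + 5).choose 2)) ^ m *
        ((1 + η) ^ K) ^ K * ((2 : ℝ) ^ ((M + 5).choose 2)) ^ ρ * Real.exp Δ)) := by
  classical
  have hb5 : ∀ i : Fin K, M + (ty i : ℕ) ≤ M + 5 := fun i => by
    have := (ty i).2
    omega
  refine (overlap_le_sum hb5 hg).trans ?_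
  set P : ℝ := ((OP (V := Fin n) (fun i : Fin K => M + (ty i : ℕ)) univ univ).card : ℝ) with hP
  set Y : ℝ := ((2 : ℝ) ^ ((M + 5).choose 2)) ^ m * ((1 + η) ^ K) ^ K *
        ((2 : ℝ) ^ ((M + 5).choose 2)) ^ ρ * Real.exp Δ with hY
  have hP0 : 0 ≤ P := Nat.cast_nonneg _
  have hY0 : 0 ≤ Y := by rw [hY]; positivity
  calc _ ≤ ∑ E ∈ (univ : Finset (Finset (Fin K))).filter (fun E => E.card ≤ m),
        ∑ S : Finset (Fin K), P * Y * ∏ j, (((univ.filter (fun i => ty i = j)).card.choose
        ((S.filter (fun i => ty i = j)).card) : ℝ))⁻¹ := by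
        apply sum_le_sum
        intro E hE
        apply sum_le_sum
        intro S _
        exact Z_ES_le M hM κ ty hκ hn τ ρ m η Δ hη hrow hPP hg E S (mem_filter.1 hE).2
    _ = (((univ : Finset (Finset (Fin K))).filter (fun E => E.card ≤ m)).card : ℝ) *
        (P * Y * ∑ S : Finset (Fin K), ∏ j, (((univ.filter (fun i => ty i = j)).card.choose
        ((S.filter (fun i => ty i = j)).card) : ℝ))⁻¹) := by
        rw [sum_const, nsmul_eq_mul, ← mul_sum]
    _ ≤ ((K : ℝ) + 1) ^ m * (P * Y * ((K : ℝ) + 1) ^ 6) := by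
        have e1 : (((univ : Finset (Finset (Fin K))).filter (fun E => E.card ≤ m)).card : ℝ) ≤
            ((K : ℝ) + 1) ^ m := by
          have := card_small_subsets (ι := Fin K) m
          rw [Fintype.card_fin] at this
          exact_mod_cast this
        have e2 : ∏ j : Fin 6, (((univ.filter (fun i => ty i = j)).card : ℝ) + 1) ≤
            ((K : ℝ) + 1) ^ 6 := by
          have e3 : ∏ j : Fin 6, (((univ.filter (fun i => ty i = j)).card : ℝ) + 1) ≤
              ∏ _j : Fin 6, ((K : ℝ) + 1) := by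
            apply prod_le_prod
            · intros; positivity
            · intro j _
              have : (univ.filter (fun i => ty i = j)).card ≤ K := by
                have := card_le_univ (univ.filter (fun i => ty i = j))
                rwa [Fintype.card_fin] at this
              have : ((univ.filter (fun i => ty i = j)).card : ℝ) ≤ K := by exact_mod_cast this
              linarith
          simpa using e3
        have e3 := (sum_inv_choose ty).trans e2
        gcongr
    _ = _ := by ring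

end Main

end Pool.RG
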