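import Pool.Agent.Work.RG.Overlap

/-!
# MP_004c3d_co : numerical facts for the second moment
-/

namespace Pool.RG

open Finset Real

/-- `log (M+5) ≤ ε M` eventually -/
lemma ev_log (ε : ℝ) (hε : 0 < ε) : ∃ M₀ : ℕ, ∀ M : ℕ, M₀ ≤ M → Real.log (M + 5) ≤ ε * M := by
  have h1 : Filter.Tendsto (fun x : ℝ => Real.log x / x) Filter.atTop (nhds 0) := by
    have := Real.isLittleO_log_id_atTop.tendsto_div_nhds_zero
    simpa using this
  have h2 : ∀ᶠ x : ℝ in Filter.atTop, Real.log x / x < ε / 2 :=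
    h1.eventually (gt_mem_nhds (by linarith))
  obtain ⟨X, hX⟩ := Filter.eventually_atTop.1 h2
  refine ⟨max 5 ⌈X⌉₊, fun M hM => ?_⟩
  have hM5 : 5 ≤ M := (le_max_left _ _).trans hM
  have hMX : X ≤ M := (Nat.le_ceil X).trans (by exact_mod_cast (le_max_right _ _).trans hM)
  have hM5' : (5 : ℝ) ≤ M := by exact_mod_cast hM5
  have h3 := hX ((M : ℝ) + 5) (by linarith)
  rw [div_lt_iff₀ (by linarith)] at h3
  nlinarith

lemma ev_const (C ε : ℝ) (hε : 0 < ε) : ∃ M₀ : ℕ, ∀ M : ℕ, M₀ ≤ M → C ≤ ε * M := by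
  refine ⟨⌈C / ε⌉₊, fun M hM => ?_⟩
  have h1 : C / ε ≤ M := (Nat.le_ceil _).trans (by exact_mod_cast hM)
  rw [div_le_iff₀ hε] at h1
  linarith

/-- basic size facts packaged -/
structure Sz (M K : ℕ) : Prop where
  hM : 100 ≤ M
  hK : 0 < K
  lo : Real.log 2 / 2 * M - 1 ≤ Real.log K
  hi : Real.log K ≤ Real.log 2 / 2 * M + 2
  lM : Real.log (M + 5) ≤ M / 4000
  cM : (4000 : ℝ) ≤ M / 10

lemma Sz_of : ∃ M₀ : ℕ, ∀ M : ℕ, M₀ ≤ M → ∀ K : ℕ,
    |Real.log K - Real.log 2 / 2 * (M + 5 / 2)| ≤ 1 → Sz M K := by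
  obtain ⟨M₁, h1⟩ := ev_log (1 / 4000) (by norm_num)
  refine ⟨max M₁ 40000, fun M hM K hK => ?_⟩
  have hM1 : M₁ ≤ M := (le_max_left _ _).trans hM
  have hM2 : 40000 ≤ M := (le_max_right _ _).trans hM
  have hM2' : (40000 : ℝ) ≤ M := by exact_mod_cast hM2
  have h2 := h1 M hM1
  have hl2 : (0.69 : ℝ) < Real.log 2 := by linarith [Real.log_two_gt_d9]
  have hl2' : Real.log 2 < 0.7 := by linarith [Real.log_two_lt_d9]
  rw [abs_le] at hK
  have hK0 : 0 < K := by
    rcases Nat.eq_zero_or_pos K with h | h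
    · subst h
      rw [Nat.cast_zero, Real.log_zero] at hK
      nlinarith [hK.1]
    · exact h
  exact ⟨by omega, hK0, by nlinarith [hK.1], by nlinarith [hK.2], by linarith, by linarith⟩

lemma Sz.Mpos {M K : ℕ} (h : Sz M K) : (0 : ℝ) < M := by
  have := h.cM; linarith

lemma Sz.logM {M K : ℕ} (h : Sz M K) : Real.log M ≤ M / 4000 := by
  refine le_trans (Real.log_le_log h.Mpos (by linarith)) h.lM

/-- polynomials are dominated by `K` -/
lemma Sz.pow_le {M K : ℕ} (h : Sz M K) (a : ℕ) (ha : a ≤ 200) : ((M : ℝ) + 5) ^ a * 1000000 ≤ K := by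
  have hl2 : (0.69 : ℝ) < Real.log 2 := by linarith [Real.log_two_gt_d9]
  have hK : (0 : ℝ) < K := by exact_mod_cast h.hK
  have hM := h.Mpos
  rw [← Real.log_le_log_iff (by positivity) hK, Real.log_mul (by positivity) (by norm_num),
    Real.log_pow]
  have h1 : Real.log (1000000 : ℝ) ≤ 15 := by
    rw [show (1000000 : ℝ) = 10 ^ 6 by norm_num, Real.log_pow]
    have : Real.log 10 ≤ 2.34 := by
      rw [show (10 : ℝ) = 2 ^ 3 * (5 / 4) by norm_num, Real.log_mul (by norm_num) (by norm_num),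
        Real.log_pow]
      have := Real.log_le_sub_one_of_pos (show (0 : ℝ) < 5 / 4 by norm_num)
      have := Real.log_two_lt_d9
      push_cast
      linarith
    push_cast
    linarith
  have h2 : (a : ℝ) ≤ 200 := by exact_mod_cast ha
  have h3 := h.lM
  have h4 := h.lo
  have h5 := h.cM
  have h6 : 0 ≤ Real.log ((M : ℝ) + 5) := Real.log_nonneg (by linarith)
  nlinarith

lemma Sz.K_ge_pow {M K : ℕ} (h : Sz M K) (a : ℕ) (ha : a ≤ 200) : (M : ℝ) ^ a * 1000000 ≤ K := by
  refine le_trans ?_ (h.pow_le a ha)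
  have := h.Mpos
  gcongr
  linarith

/-- the bound on violations -/
lemma num_vio {M K n : ℕ} (h : Sz M K) (hn : n ≤ K * (M + 5)) :
    (n : ℝ) * K * ((M + 5).choose (M / 32)) * (1 / 2) ^ (M - M / 32) ≤
      (((K / M ^ 10 : ℕ) : ℝ) + 1) / 2 := by
  have hM := h.Mpos
  have hK : (0 : ℝ) < K := by exact_mod_cast h.hK
  have hM0 : 0 < M := by exact_mod_cast hM
  have h1 : (K : ℝ) / M ^ 10 ≤ ((K / M ^ 10 : ℕ) : ℝ) + 1 := by
    rw [div_le_iff₀ (by positivity)]
    have : K < (K / M ^ 10 + 1) * M ^ 10 := by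
      have := Nat.lt_div_mul_add (a := K) (b := M ^ 10) (by positivity)
      linarith only [this]
    exact_mod_cast this.le
  have hn' : (n : ℝ) ≤ K * (M + 5) := by exact_mod_cast hn
  set r := M / 32 with hr
  have hr32 : 32 * r ≤ M := Nat.mul_div_le M 32
  have hr32' : (32 : ℝ) * r ≤ M := by exact_mod_cast hr32
  -- binomial bound
  have hch : ((M + 5).choose r : ℝ) ≤ (17 / 16 : ℝ) ^ (M + 5) * 16 ^ r := by
    have h2 : ((M + 5).choose r : ℝ) * (1 / 16 : ℝ) ^ r ≤ (17 / 16 : ℝ) ^ (M + 5) := by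
      have h3 := add_pow (1 / 16 : ℝ) 1 (M + 5)
      rw [show (1 / 16 : ℝ) + 1 = 17 / 16 by norm_num] at h3
      rw [h3]
      have h4 := single_le_sum (f := fun m => (1 / 16 : ℝ) ^ m * 1 ^ (M + 5 - m) *
        ((M + 5).choose m : ℝ)) (s := range (M + 5 + 1)) (fun i _ => by positivity)
        (show r ∈ range (M + 5 + 1) from mem_range.2 (by omega))
      simp only [one_pow, mul_one] at h4 ⊢
      linarith
    have h5 : (1 / 16 : ℝ) ^ r * 16 ^ r = 1 := by
      rw [← mul_pow]; norm_num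
    calc ((M + 5).choose r : ℝ) = ((M + 5).choose r : ℝ) * ((1 / 16 : ℝ) ^ r * 16 ^ r) := by
          rw [h5, mul_one]
      _ = (((M + 5).choose r : ℝ) * (1 / 16 : ℝ) ^ r) * 16 ^ r := by ring
      _ ≤ _ := by gcongr
  have key : (n : ℝ) * K * ((M + 5).choose r) * (1 / 2) ^ (M - r) ≤ (K / M ^ 10) / 2 := by
    have hpos : (0 : ℝ) < (1 / 2 : ℝ) ^ (M - r) := by positivity
    calc (n : ℝ) * K * ((M + 5).choose r) * (1 / 2) ^ (M - r)
        ≤ (K * (M + 5)) * K * ((17 / 16 : ℝ) ^ (M + 5) * 16 ^ r) * (1 / 2) ^ (M - r) := by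
          gcongr
      _ = K * ((M + 5) * K * ((17 / 16 : ℝ) ^ (M + 5) * 16 ^ r) * (1 / 2) ^ (M - r)) := by ring
      _ ≤ K * (1 / M ^ 10 / 2) := by
          apply mul_le_mul_of_nonneg_left _ hK.le
          rw [← Real.log_le_log_iff (by positivity) (by positivity)]
          have e1 : Real.log (17 / 16) ≤ 1 / 16 := by
            have := Real.log_le_sub_one_of_pos (show (0 : ℝ) < 17 / 16 by norm_num)
            linarith
          have e2 : Real.log 16 = 4 * Real.log 2 := by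
            rw [show (16 : ℝ) = 2 ^ 4 by norm_num, Real.log_pow]; norm_num
          have E1 : Real.log ((M + 5) * K * ((17 / 16 : ℝ) ^ (M + 5) * 16 ^ r) * (1 / 2) ^ (M - r))
              = Real.log (M + 5) + Real.log K + (((M + 5 : ℕ) : ℝ) * Real.log (17 / 16) +
                (r : ℝ) * Real.log 16) + ((M - r : ℕ) : ℝ) * (- Real.log 2) := by
            rw [Real.log_mul (by positivity) (by positivity),
              Real.log_mul (by positivity) (by positivity),
              Real.log_mul (by positivity) (by positivity),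
              Real.log_mul (by positivity) (by positivity),
              Real.log_pow, Real.log_pow, Real.log_pow, one_div, Real.log_inv]
          have E2 : Real.log (1 / (M : ℝ) ^ 10 / 2) = - (10 * Real.log M) - Real.log 2 := by
            rw [Real.log_div (by positivity) (by norm_num), one_div, Real.log_inv, Real.log_pow]
            norm_num
          rw [E1, E2, e2]
          have e3 : (((M - r : ℕ)) : ℝ) = M - r := by
            rw [Nat.cast_sub (by omega)]
          rw [e3]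
          have hl2 : (0.69 : ℝ) < Real.log 2 := by linarith [Real.log_two_gt_d9]
          have hl2' : Real.log 2 < 0.7 := by linarith [Real.log_two_lt_d9]
          have e4 := h.hi
          have e5 := h.lM
          have e6 := h.logM
          have e7 := h.cM
          push_cast
          have e8 : ((M : ℝ) + 5) * Real.log (17 / 16) ≤ (M + 5) * (1 / 16) := by
            apply mul_le_mul_of_nonneg_left e1; linarith
          have e9 : (r : ℝ) * Real.log 2 ≤ M / 32 * Real.log 2 := by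
            apply mul_le_mul_of_nonneg_right _ (by linarith); linarith
          have e10 : (M : ℝ) * 0.69 ≤ M * Real.log 2 := by
            apply mul_le_mul_of_nonneg_left hl2.le hM.le
          linarith only [e4, e5, e6, e7, e8, e9, e10, hl2, hl2']
      _ = _ := by ring
  linarith

/-- the row condition -/
lemma num_row {M K : ℕ} (h : Sz M K) (r : ℕ) (hr : K / M ^ 10 ≤ r) (b' : ℕ) (hb' : b' ≤ M + 5) :
    ∑ x ∈ Ico 2 (M + 5 - M / 32), (if x ≤ b' then
      (2 : ℝ) ^ (x.choose 2) * ((M + 5).choose x : ℝ) * (r.choose (b' - x) : ℝ) else 0)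
        ≤ ((M : ℝ) + 5) ^ 30 / K ^ 2 * (r.choose b' : ℝ) := by
  have hM := h.Mpos
  have hK : (0 : ℝ) < K := by exact_mod_cast h.hK
  have hM0 : 0 < M := by exact_mod_cast hM
  -- r is large
  have hr1 : (K : ℝ) / M ^ 10 ≤ r + 1 := by
    rw [div_le_iff₀ (by positivity)]
    have h1 : K < (K / M ^ 10 + 1) * M ^ 10 := by
      have := Nat.lt_div_mul_add (a := K) (b := M ^ 10) (by positivity)
      linarith only [this]
    have h2 : (K / M ^ 10 + 1) * M ^ 10 ≤ (r + 1) * M ^ 10 := by gcongr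
    exact_mod_cast (h1.le.trans h2)
  have hKM : ((M : ℝ) + 5) ^ 5 * 1000000 ≤ K / M ^ 10 := by
    rw [le_div_iff₀ (by positivity)]
    have := h.pow_le 15 (by norm_num)
    calc ((M : ℝ) + 5) ^ 5 * 1000000 * M ^ 10 ≤ ((M : ℝ) + 5) ^ 5 * 1000000 * (M + 5) ^ 10 := by
          gcongr; linarith
      _ = ((M : ℝ) + 5) ^ 15 * 1000000 := by ring
      _ ≤ K := this
  have hM5 : (1 : ℝ) ≤ (M : ℝ) + 5 := by linarith only [hM]
  have hp5 : (M : ℝ) + 5 ≤ ((M : ℝ) + 5) ^ 5 := by
    calc (M : ℝ) + 5 = ((M : ℝ) + 5) ^ 1 := (pow_one _).symm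
      _ ≤ _ := pow_le_pow_right₀ hM5 (by norm_num)
  have hrbig : 100 * ((M : ℝ) + 5) ≤ r := by linarith only [hr1, hKM, hM5, hp5]
  have hrbig' : 2 * (M + 5) ≤ r := by
    have : (2 * (M + 5) : ℝ) ≤ r := by linarith only [hrbig, hM5]
    exact_mod_cast this
  have hr0 : (0 : ℝ) < r := by linarith only [hrbig, hM5]
  have hr2 : (K : ℝ) / M ^ 10 ≤ 2 * r := by linarith only [hr1, hrbig, hM5]
  set a : ℝ := (M : ℝ) + 5 with ha
  set y : ℝ := 2 * a ^ 2 / r with hy
  have hy0 : 0 < y := by rw [hy]; positivity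
  -- ratio of binomials
  have hratio : ∀ x ≤ b', (r.choose (b' - x) : ℝ) ≤ (r.choose b' : ℝ) * (2 * a / r) ^ x := by
    intro x
    induction x with
    | zero => intro _; simp
    | succ x ih =>
      intro hx
      have ih' := ih (by omega)
      have h1 : r.choose (b' - (x + 1) + 1) * (b' - (x + 1) + 1) =
          r.choose (b' - (x + 1)) * (r - (b' - (x + 1))) := Nat.choose_succ_right_eq r _
      have h2 : b' - (x + 1) + 1 = b' - x := by omega
      rw [h2] at h1
      have h3 : (r : ℝ) / 2 ≤ ((r - (b' - (x + 1)) : ℕ) : ℝ) := by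
        have : r ≤ 2 * (r - (b' - (x + 1))) := by omega
        have : (r : ℝ) ≤ 2 * ((r - (b' - (x + 1)) : ℕ) : ℝ) := by exact_mod_cast this
        linarith
      have h4 : (((b' - x : ℕ)) : ℝ) ≤ a := by
        have : b' - x ≤ M + 5 := by omega
        rw [ha]; exact_mod_cast this
      have h5 : (r.choose (b' - x) : ℝ) * ((b' - x : ℕ) : ℝ) =
          (r.choose (b' - (x + 1)) : ℝ) * ((r - (b' - (x + 1)) : ℕ) : ℝ) := by exact_mod_cast h1
      have h6 : (r.choose (b' - (x + 1)) : ℝ) * (r / 2) ≤ (r.choose (b' - x) : ℝ) * a := by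
        calc (r.choose (b' - (x + 1)) : ℝ) * (r / 2)
            ≤ (r.choose (b' - (x + 1)) : ℝ) * ((r - (b' - (x + 1)) : ℕ) : ℝ) := by gcongr
          _ = (r.choose (b' - x) : ℝ) * ((b' - x : ℕ) : ℝ) := h5.symm
          _ ≤ _ := by gcongr
      have h7 : (r.choose (b' - (x + 1)) : ℝ) ≤ (r.choose (b' - x) : ℝ) * (2 * a / r) := by
        rw [← le_div_iff₀ (by positivity)] at h6
        refine h6.trans (le_of_eq ?_)
        field_simp
      calc (r.choose (b' - (x + 1)) : ℝ) ≤ (r.choose (b' - x) : ℝ) * (2 * a / r) := h7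
        _ ≤ ((r.choose b' : ℝ) * (2 * a / r) ^ x) * (2 * a / r) := by gcongr
        _ = _ := by rw [pow_succ]; ring
  -- the exponential term
  have hterm : ∀ x ∈ Ico 2 (M + 5 - M / 32), y ^ x * 2 ^ (x.choose 2) ≤ 2 * y ^ 2 := by
    intro x hx
    rw [mem_Ico] at hx
    have hsq : y ^ 2 * 2 ^ (x + 1) ≤ 1 := by
      have hx32 : (x : ℝ) + 1 ≤ 31 / 32 * M + 6 := by
        have h1 : x + 1 ≤ M + 5 - M / 32 := by omega
        have h2 : 32 * (x + 1) ≤ 31 * M + 192 := by omega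
        have h3 : (32 : ℝ) * (x + 1) ≤ 31 * M + 192 := by exact_mod_cast h2
        linarith
      have hyle : y ≤ 4 * a ^ 12 / K := by
        rw [hy, div_le_div_iff₀ hr0 hK]
        have h1 : (K : ℝ) ≤ 2 * r * M ^ 10 := by
          rw [div_le_iff₀ (by positivity)] at hr2
          exact hr2
        have h2 : (M : ℝ) ^ 10 ≤ a ^ 10 := by
          rw [ha]; gcongr; linarith
        calc 2 * a ^ 2 * K ≤ 2 * a ^ 2 * (2 * r * M ^ 10) := by gcongr
          _ ≤ 2 * a ^ 2 * (2 * r * a ^ 10) := by gcongr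
          _ = 4 * a ^ 12 * r := by ring
      have h0 : y ^ 2 * 2 ^ (x + 1) ≤ (4 * a ^ 12 / K) ^ 2 * 2 ^ (x + 1) := by gcongr
      refine h0.trans ?_
      have ha0 : 0 < a := by linarith only [hM5]
      rw [← Real.log_le_log_iff (by positivity) (by norm_num), Real.log_one,
        Real.log_mul (by positivity) (by positivity), Real.log_pow, Real.log_pow,
        Real.log_div (by positivity) (by positivity),
        Real.log_mul (by positivity) (by positivity), Real.log_pow]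
      have hl2 : (0.69 : ℝ) < Real.log 2 := by linarith [Real.log_two_gt_d9]
      have hl2' : Real.log 2 < 0.7 := by linarith [Real.log_two_lt_d9]
      have e1 : Real.log 4 = 2 * Real.log 2 := by
        rw [show (4 : ℝ) = 2 ^ 2 by norm_num, Real.log_pow]; norm_num
      rw [e1]
      have e4 := h.lo
      have e5 := h.lM
      have e7 := h.cM
      push_cast
      have e8 : ((x : ℝ) + 1) * Real.log 2 ≤ (31 / 32 * M + 6) * Real.log 2 :=
        mul_le_mul_of_nonneg_right hx32 (by linarith)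
      have e9 : (M : ℝ) * 0.69 ≤ M * Real.log 2 := mul_le_mul_of_nonneg_left hl2.le hM.le
      linarith only [e4, e5, e7, e8, e9, hl2, hl2']
    -- square
    have hx2 : x.choose 2 * 2 = 2 + (x - 2) * (x + 1) := by
      obtain ⟨z, rfl⟩ : ∃ z, x = z + 2 := ⟨x - 2, by omega⟩
      have h1 : (z + 2).choose 2 * 2 = (z + 2) * (z + 1) := by
        rw [Nat.choose_two_right]
        have : (z + 2) * (z + 2 - 1) = (z + 2) * (z + 1) := by
          congr 1
        rw [this]
        apply Nat.div_mul_cancel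
        have := Nat.even_mul_succ_self (z + 1)
        rw [mul_comm (z + 2) (z + 1)]
        exact this.two_dvd
      rw [h1]
      simp only [Nat.add_sub_cancel]
      ring
    have h1 : (y ^ x * 2 ^ (x.choose 2)) ^ 2 ≤ (2 * y ^ 2) ^ 2 := by
      have h2 : (y ^ x * 2 ^ (x.choose 2)) ^ 2 = 4 * y ^ 4 * (y ^ 2 * 2 ^ (x + 1)) ^ (x - 2) := by
        obtain ⟨z, rfl⟩ : ∃ z, x = z + 2 := ⟨x - 2, by omega⟩
        rw [mul_pow, ← pow_mul, ← pow_mul, hx2]
        simp only [Nat.add_sub_cancel]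
        rw [mul_pow, ← pow_mul, ← pow_mul, pow_add 2 2]
        have e1 : y ^ ((z + 2) * 2) = y ^ 4 * y ^ (2 * z) := by
          rw [← pow_add]; congr 1; ring
        have e2 : (2 : ℝ) ^ (z * (z + 2 + 1)) = 2 ^ ((z + 2 + 1) * z) := by
          congr 1; ring
        rw [e1, e2]; ring
      rw [h2]
      have h3 : (y ^ 2 * 2 ^ (x + 1)) ^ (x - 2) ≤ 1 := pow_le_one₀ (by positivity) hsq
      calc 4 * y ^ 4 * (y ^ 2 * 2 ^ (x + 1)) ^ (x - 2) ≤ 4 * y ^ 4 * 1 := by gcongr
        _ = _ := by ring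
    exact le_of_sq_le_sq h1 (by positivity)
  -- sum up
  have hsum : ∑ x ∈ Ico 2 (M + 5 - M / 32), (if x ≤ b' then
      (2 : ℝ) ^ (x.choose 2) * ((M + 5).choose x : ℝ) * (r.choose (b' - x) : ℝ) else 0)
      ≤ ∑ x ∈ Ico 2 (M + 5 - M / 32), (2 * y ^ 2) * (r.choose b' : ℝ) := by
    apply sum_le_sum
    intro x hx
    split_ifs with hxb
    · have h1 : ((M + 5).choose x : ℝ) ≤ a ^ x := by
        have : (M + 5).choose x ≤ (M + 5) ^ x := Nat.choose_le_pow _ _
        rw [ha]; exact_mod_cast this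
      have ha0 : 0 < a := by linarith only [hM5]
      calc (2 : ℝ) ^ (x.choose 2) * ((M + 5).choose x : ℝ) * (r.choose (b' - x) : ℝ)
          ≤ (2 : ℝ) ^ (x.choose 2) * a ^ x * ((r.choose b' : ℝ) * (2 * a / r) ^ x) := by
            gcongr
            exact hratio x hxb
        _ = (y ^ x * 2 ^ (x.choose 2)) * (r.choose b' : ℝ) := by
            rw [hy, show (2 * a ^ 2 / r : ℝ) = a * (2 * a / r) by ring, mul_pow]
            ring
        _ ≤ (2 * y ^ 2) * (r.choose b' : ℝ) :=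
            mul_le_mul_of_nonneg_right (hterm x hx) (Nat.cast_nonneg _)
    · positivity
  refine hsum.trans ?_
  rw [sum_const, nsmul_eq_mul, ← mul_assoc]
  apply mul_le_mul_of_nonneg_right _ (Nat.cast_nonneg _)
  rw [Nat.card_Ico]
  have hcard : ((M + 5 - M / 32 - 2 : ℕ) : ℝ) ≤ a := by
    have : M + 5 - M / 32 - 2 ≤ M + 5 := by omega
    rw [ha]; exact_mod_cast this
  have ha0 : 0 < a := by linarith only [hM5]
  have hyle : y ≤ 4 * a ^ 12 / K := by
    rw [hy, div_le_div_iff₀ hr0 hK]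
    have h1 : (K : ℝ) ≤ 2 * r * M ^ 10 := by
      rw [div_le_iff₀ (by positivity)] at hr2
      exact hr2
    have h2 : (M : ℝ) ^ 10 ≤ a ^ 10 := by
      rw [ha]; gcongr; linarith
    calc 2 * a ^ 2 * K ≤ 2 * a ^ 2 * (2 * r * M ^ 10) := by gcongr
      _ ≤ 2 * a ^ 2 * (2 * r * a ^ 10) := by gcongr
      _ = 4 * a ^ 12 * r := by ring
  calc ((M + 5 - M / 32 - 2 : ℕ) : ℝ) * (2 * y ^ 2) ≤ a * (2 * (4 * a ^ 12 / K) ^ 2) := by
        gcongr
    _ = 32 * a ^ 25 / K ^ 2 := by field_simp; ring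
    _ ≤ a ^ 5 * a ^ 25 / K ^ 2 := by
        gcongr
        have : (2 : ℝ) ^ 5 ≤ a ^ 5 := by gcongr; linarith
        linarith
    _ = a ^ 30 / K ^ 2 := by rw [← pow_add]

end Pool.RG

namespace Pool.RG

open Finset Real

lemma logQ (x g e D : ℝ) (hx : 0 < x) (hg : 0 < g) (he : 0 < e) (m ρ K : ℕ) :
    Real.log (4 * (x ^ m * x ^ 6 * (g ^ m * (e ^ K) ^ K * g ^ ρ * Real.exp D))) =
      Real.log 4 + (((m : ℝ) + 6) * Real.log x +
        (((m : ℝ) + ρ) * Real.log g + (K : ℝ) * (K * Real.log e) + D)) := by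
  rw [Real.log_mul (by norm_num) (by positivity),
      Real.log_mul (by positivity) (by positivity),
      Real.log_mul (by positivity) (by positivity),
      Real.log_mul (by positivity) (by positivity),
      Real.log_mul (by positivity) (by positivity),
      Real.log_mul (by positivity) (by positivity), Real.log_exp,
      Real.log_pow, Real.log_pow, Real.log_pow, Real.log_pow, Real.log_pow, Real.log_pow]
  push_cast
  ring

lemma num_Q {M K : ℕ} (h : Sz M K) :
    4 * (((K : ℝ) + 1) ^ (2 * (K / M ^ 10)) * ((K : ℝ) + 1) ^ 6 *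
      (((2 : ℝ) ^ ((M + 5).choose 2)) ^ (2 * (K / M ^ 10)) *
        ((1 + ((M : ℝ) + 5) ^ 30 / K ^ 2) ^ K) ^ K * ((2 : ℝ) ^ ((M + 5).choose 2)) ^ (K / M ^ 10) *
        Real.exp (K / M ^ 8))) ≤ Real.exp (K / M ^ 7) := by
  have hM := h.Mpos
  have hK : (0 : ℝ) < K := by exact_mod_cast h.hK
  have hM0 : 0 < M := by exact_mod_cast hM
  have hMbig : (40000 : ℝ) ≤ M := by have := h.cM; linarith
  have hρ : ((K / M ^ 10 : ℕ) : ℝ) ≤ K / M ^ 10 := by
    have := Nat.cast_div_le (α := ℝ) (m := K) (n := M ^ 10)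
    push_cast at this
    exact this
  set ρ := K / M ^ 10 with hρdef
  rw [← Real.log_le_log_iff (by positivity) (by positivity), Real.log_exp]
  have hl2' : Real.log 2 < 0.7 := by linarith [Real.log_two_lt_d9]
  have hl20 : 0 < Real.log 2 := Real.log_pos (by norm_num)
  have E1 : Real.log (4 * (((K : ℝ) + 1) ^ (2 * ρ) * ((K : ℝ) + 1) ^ 6 *
      (((2 : ℝ) ^ ((M + 5).choose 2)) ^ (2 * ρ) *
        ((1 + ((M : ℝ) + 5) ^ 30 / K ^ 2) ^ K) ^ K * ((2 : ℝ) ^ ((M + 5).choose 2)) ^ ρ *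
        Real.exp (K / M ^ 8)))) =
      Real.log 4 + ((2 * ρ + 6 : ℝ) * Real.log (K + 1) +
        ((3 * ρ : ℝ) * (((M + 5).choose 2 : ℝ) * Real.log 2) +
          (K : ℝ) * (K * Real.log (1 + ((M : ℝ) + 5) ^ 30 / K ^ 2)) + K / M ^ 8)) := by
    rw [logQ _ _ _ _ (by positivity) (by positivity) (by positivity), Real.log_pow]
    push_cast
    generalize Real.log (1 + ((M : ℝ) + 5) ^ 30 / K ^ 2) = z
    ring
  rw [E1]
  have e1 : Real.log 4 = 2 * Real.log 2 := by
    rw [show (4 : ℝ) = 2 ^ 2 by norm_num, Real.log_pow]; norm_num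
  have e2 : Real.log (K + 1) ≤ M := by
    have h1 : Real.log ((K : ℝ) + 1) ≤ Real.log (2 * K) := by
      apply Real.log_le_log (by positivity)
      have : (1 : ℝ) ≤ K := by exact_mod_cast h.hK
      linarith
    rw [Real.log_mul (by norm_num) hK.ne'] at h1
    have h2 := h.hi
    have h3 := mul_le_mul_of_nonneg_right hl2'.le hM.le
    linarith only [h1, h2, h3, hl2', hMbig]
  have e2' : 0 ≤ Real.log ((K : ℝ) + 1) := Real.log_nonneg (by linarith)
  have e3 : (K : ℝ) * (K * Real.log (1 + ((M : ℝ) + 5) ^ 30 / K ^ 2)) ≤ ((M : ℝ) + 5) ^ 30 := by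
    have h1 : Real.log (1 + ((M : ℝ) + 5) ^ 30 / K ^ 2) ≤ ((M : ℝ) + 5) ^ 30 / K ^ 2 := by
      have := Real.log_le_sub_one_of_pos
        (show (0 : ℝ) < 1 + ((M : ℝ) + 5) ^ 30 / K ^ 2 by positivity)
      linarith
    calc (K : ℝ) * (K * Real.log (1 + ((M : ℝ) + 5) ^ 30 / K ^ 2))
        ≤ K * (K * (((M : ℝ) + 5) ^ 30 / K ^ 2)) := by gcongr
      _ = _ := by field_simp
  have e4 : (((M + 5).choose 2 : ℕ) : ℝ) ≤ (M + 5) ^ 2 := by
    have : (M + 5).choose 2 ≤ (M + 5) ^ 2 := Nat.choose_le_pow _ _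
    exact_mod_cast this
  have e5 : ((M : ℝ) + 5) ^ 2 ≤ 2 * M ^ 2 := by nlinarith only [hMbig]
  have e6 : (3 * ρ : ℝ) * (((M + 5).choose 2 : ℝ) * Real.log 2) ≤ 6 * (K / M ^ 8) := by
    calc (3 * ρ : ℝ) * (((M + 5).choose 2 : ℝ) * Real.log 2)
        ≤ (3 * (K / M ^ 10)) * ((2 * M ^ 2) * 1) := by
          gcongr
          · exact e4.trans e5
          · linarith
      _ = 6 * (K / M ^ 8) := by field_simp; ring
  have e7 : (2 * ρ + 6 : ℝ) * Real.log (K + 1) ≤ K / M ^ 8 + 6 * M := by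
    calc (2 * ρ + 6 : ℝ) * Real.log (K + 1) ≤ (2 * (K / M ^ 10) + 6) * M := by gcongr
      _ = (2 / M) * (K / M ^ 8) + 6 * M := by field_simp
      _ ≤ 1 * (K / M ^ 8) + 6 * M := by
          gcongr
          rw [div_le_one hM]; linarith
      _ = _ := by ring
  have e8 : ((M : ℝ) + 5) ^ 30 * 1000000 ≤ K / M ^ 8 := by
    rw [le_div_iff₀ (by positivity)]
    have := h.pow_le 38 (by norm_num)
    calc ((M : ℝ) + 5) ^ 30 * 1000000 * M ^ 8 ≤ ((M : ℝ) + 5) ^ 30 * 1000000 * (M + 5) ^ 8 := by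
          gcongr; linarith
      _ = ((M : ℝ) + 5) ^ 38 * 1000000 := by ring
      _ ≤ K := this
  have e9 : (M : ℝ) + 5 ≤ ((M : ℝ) + 5) ^ 30 := by
    calc (M : ℝ) + 5 = ((M : ℝ) + 5) ^ 1 := (pow_one _).symm
      _ ≤ _ := pow_le_pow_right₀ (by linarith) (by norm_num)
  have e10 : (K : ℝ) / M ^ 7 = M * (K / M ^ 8) := by field_simp
  rw [e10]
  have e11 : 0 < (K : ℝ) / M ^ 8 := by positivity
  have e12 : 40000 * ((K : ℝ) / M ^ 8) ≤ M * (K / M ^ 8) := by gcongr
  linarith only [e1, hl2', e3, e6, e7, e8, e9, e11, e12]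

end Pool.RG
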