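import Pool.Agent.Work.RG.Contra
import Pool.Agent.Work.RG.SMnum

/-!
# MP_004c3d_co : the partial first moment condition (item 5 of the proof)
-/

namespace Pool.RG

open Finset Real

namespace PPof

/-! ### discrete concavity -/

lemma chord_aux (f : ℕ → ℝ) (κ : ℕ) (hf : ∀ t, t + 2 ≤ κ → f (t + 2) + f t ≤ 2 * f (t + 1))
    (t : ℕ) (ht : t + 1 ≤ κ) : (t : ℝ) * f (t + 1) + f 0 ≤ (t + 1) * f t := by
  induction t with
  | zero => simp
  | succ t ih =>
    have h1 := ih (by omega)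
    have h2 := hf t (by omega)
    have ht0 : (0 : ℝ) ≤ (t : ℝ) + 1 := by positivity
    have h3 := mul_le_mul_of_nonneg_left h2 ht0
    push_cast
    rw [show t + 1 + 1 = t + 2 from rfl]
    linarith

/-- chord bound for discretely concave functions -/
lemma chord (f : ℕ → ℝ) (κ : ℕ) (hf : ∀ t, t + 2 ≤ κ → f (t + 2) + f t ≤ 2 * f (t + 1))
    (t : ℕ) (ht : t ≤ κ) : ((κ : ℝ) - t) * f 0 + t * f κ ≤ κ * f t := by
  induction κ, ht using Nat.le_induction with
  | base => simp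
  | succ κ hκ ih =>
    have h1 := ih (fun t ht => hf t (by omega))
    have h2 := chord_aux f (κ + 1) hf κ le_rfl
    rcases Nat.eq_zero_or_pos κ with h0 | h0
    · subst h0
      obtain rfl : t = 0 := by omega
      simp
    have hk : (0 : ℝ) < κ := by exact_mod_cast h0
    have ht0 : (0 : ℝ) ≤ t := Nat.cast_nonneg t
    have h3 : (t : ℝ) * (κ * f (κ + 1) + f 0) ≤ t * ((κ + 1) * f κ) :=
      mul_le_mul_of_nonneg_left h2 ht0
    have h4 : ((κ : ℝ) + 1) * (((κ : ℝ) - t) * f 0 + t * f κ) ≤ (κ + 1) * (κ * f t) :=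
      mul_le_mul_of_nonneg_left h1 (by positivity)
    push_cast
    have h5 : (κ : ℝ) * (((κ : ℝ) + 1 - t) * f 0 + t * f (κ + 1)) ≤ κ * ((κ + 1) * f t) := by
      linarith
    exact le_of_mul_le_mul_left h5 hk

/-- if a function is concave in each coordinate, it is bounded below by the multi-affine
function that is below it at the corners -/
lemma multi {ι : Type} [Fintype ι] [DecidableEq ι] (κ : ι → ℕ) (hκ : ∀ j, 0 < κ j)
    (F G : (ι → ℕ) → ℝ)
    (hF : ∀ T : ι → ℕ, (∀ j, T j ≤ κ j) → ∀ j,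
      ((κ j : ℝ) - T j) * F (Function.update T j 0) + T j * F (Function.update T j (κ j)) ≤
        κ j * F T)
    (hG : ∀ T : ι → ℕ, (∀ j, T j ≤ κ j) → ∀ j,
      κ j * G T ≤
        ((κ j : ℝ) - T j) * G (Function.update T j 0) + T j * G (Function.update T j (κ j)))
    (hc : ∀ T : ι → ℕ, (∀ j, T j = 0 ∨ T j = κ j) → G T ≤ F T) (T : ι → ℕ)
    (hT : ∀ j, T j ≤ κ j) : G T ≤ F T := by
  have key : ∀ S : Finset ι, ∀ T : ι → ℕ, (∀ j, T j ≤ κ j) → (∀ j, j ∉ S → T j = 0 ∨ T j = κ j) →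
      G T ≤ F T := by
    intro S
    induction S using Finset.induction_on with
    | empty => exact fun T _ h => hc T fun j => h j (notMem_empty j)
    | insert j S hj ih =>
      intro T hT hS
      have hkj : (0 : ℝ) < κ j := by exact_mod_cast hκ j
      have hTj : (T j : ℝ) ≤ κ j := by exact_mod_cast hT j
      have hup : ∀ a, a ≤ κ j → (a = 0 ∨ a = κ j) →
          G (Function.update T j a) ≤ F (Function.update T j a) := by
        intro a ha ha'
        apply ih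
        · intro i
          by_cases hi : i = j
          · subst hi; rw [Function.update_self]; exact ha
          · rw [Function.update_of_ne hi]; exact hT i
        · intro i hi
          by_cases hij : i = j
          · subst hij; rw [Function.update_self]; exact ha'
          · rw [Function.update_of_ne hij]
            exact hS i (by rw [mem_insert]; push Not; exact ⟨hij, hi⟩)
      have h0 := hup 0 (Nat.zero_le _) (Or.inl rfl)
      have h1 := hup (κ j) le_rfl (Or.inr rfl)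
      have h2 := hF T hT j
      have h3 := hG T hT j
      have h4 := mul_le_mul_of_nonneg_left h0 (show (0 : ℝ) ≤ (κ j : ℝ) - T j by linarith)
      have h5 := mul_le_mul_of_nonneg_left h1 (Nat.cast_nonneg (T j) : (0 : ℝ) ≤ (T j : ℝ))
      exact le_of_mul_le_mul_left (by linarith) hkj
  exact key univ T hT fun j hj => absurd (mem_univ j) hj

/-- the multi-affine function `c (1 - ∏ x - ∏ (1 - x))` -/
noncomputable def GG {ι : Type} [Fintype ι] (κ : ι → ℕ) (c : ℝ) (T : ι → ℕ) : ℝ :=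
  c * (1 - ∏ j, ((T j : ℝ) / κ j) - ∏ j, (1 - (T j : ℝ) / κ j))

lemma prod_update {ι : Type} [Fintype ι] [DecidableEq ι] (T : ι → ℕ) (j : ι) (a : ℕ)
    (h : ι → ℕ → ℝ) : ∏ i, h i (Function.update T j a i) = h j a * ∏ i ∈ univ.erase j, h i (T i) := by
  rw [← mul_prod_erase univ _ (mem_univ j), Function.update_self]
  congr 1
  apply prod_congr rfl
  intro i hi
  rw [Function.update_of_ne (ne_of_mem_erase hi)]

lemma GG_affine {ι : Type} [Fintype ι] [DecidableEq ι] (κ : ι → ℕ) (hκ : ∀ j, 0 < κ j) (c : ℝ)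
    (T : ι → ℕ) (j : ι) : κ j * GG κ c T =
      ((κ j : ℝ) - T j) * GG κ c (Function.update T j 0) +
        T j * GG κ c (Function.update T j (κ j)) := by
  have hkj : (κ j : ℝ) ≠ 0 := by
    have := hκ j
    positivity
  unfold GG
  rw [prod_update T j 0 (fun i t => (t : ℝ) / κ i), prod_update T j 0 (fun i t => 1 - (t : ℝ) / κ i),
    prod_update T j (κ j) (fun i t => (t : ℝ) / κ i),
    prod_update T j (κ j) (fun i t => 1 - (t : ℝ) / κ i),
    ← mul_prod_erase univ (fun i => (T i : ℝ) / κ i) (mem_univ j),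
    ← mul_prod_erase univ (fun i => 1 - (T i : ℝ) / κ i) (mem_univ j)]
  generalize ∏ x ∈ univ.erase j, ((T x : ℝ) / κ x) = P
  generalize ∏ x ∈ univ.erase j, (1 - (T x : ℝ) / κ x) = Q
  push_cast
  field_simp
  ring

/-- log-convexity of the factorial -/
lemma fact_sq (a s : ℕ) :
    (a + s).factorial * (a + s).factorial ≤ (a + 2 * s).factorial * a.factorial := by
  induction s with
  | zero => simp
  | succ s ih =>
    have e1 : (a + (s + 1)).factorial = (a + s + 1) * (a + s).factorial := by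
      rw [← Nat.factorial_succ]; rfl
    have e2 : (a + 2 * (s + 1)).factorial =
        (a + 2 * s + 2) * ((a + 2 * s + 1) * (a + 2 * s).factorial) := by
      rw [show a + 2 * (s + 1) = (a + 2 * s + 1) + 1 by ring, Nat.factorial_succ,
        Nat.factorial_succ]
    rw [e1, e2]
    have h1 : (a + s + 1) * (a + s + 1) ≤ (a + 2 * s + 2) * (a + 2 * s + 1) :=
      Nat.mul_le_mul (by omega) (by omega)
    calc (a + s + 1) * (a + s).factorial * ((a + s + 1) * (a + s).factorial)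
        = ((a + s + 1) * (a + s + 1)) * ((a + s).factorial * (a + s).factorial) := by ring
      _ ≤ ((a + 2 * s + 2) * (a + 2 * s + 1)) * ((a + 2 * s).factorial * a.factorial) :=
          Nat.mul_le_mul h1 ih
      _ = _ := by ring

lemma log_fact_sq (a s : ℕ) :
    2 * Real.log ((a + s).factorial : ℝ) ≤
      Real.log ((a + 2 * s).factorial : ℝ) + Real.log (a.factorial : ℝ) := by
  have h := fact_sq a s
  have h1 : (((a + s).factorial : ℝ)) * ((a + s).factorial : ℝ) ≤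
      ((a + 2 * s).factorial : ℝ) * (a.factorial : ℝ) := by exact_mod_cast h
  have p1 : (0 : ℝ) < ((a + s).factorial : ℝ) := by exact_mod_cast Nat.factorial_pos _
  have p2 : (0 : ℝ) < ((a + 2 * s).factorial : ℝ) := by exact_mod_cast Nat.factorial_pos _
  have p3 : (0 : ℝ) < (a.factorial : ℝ) := by exact_mod_cast Nat.factorial_pos _
  have h2 := Real.log_le_log (by positivity) h1
  rw [Real.log_mul p1.ne' p1.ne', Real.log_mul p2.ne' p3.ne'] at h2
  linarith

/-! ### the function `F` -/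

/-- the exponent of the partial first moment -/
noncomputable def FF (M : ℕ) (κ T : Fin 6 → ℕ) : ℝ :=
  Real.log ((nv M κ).factorial : ℝ) - Real.log ((nv M κ - nv M T).factorial : ℝ) -
    ∑ j : Fin 6, ((T j : ℝ) * lw (M + j) + Real.log ((T j).factorial : ℝ))

lemma sum_update (T : Fin 6 → ℕ) (j : Fin 6) (a : ℕ) {A : Type} [AddCommMonoid A]
    (h : Fin 6 → ℕ → A) :
    ∑ i, h i (Function.update T j a i) = h j a + ∑ i ∈ univ.erase j, h i (T i) := by
  rw [← add_sum_erase univ _ (mem_univ j), Function.update_self]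
  congr 1
  apply sum_congr rfl
  intro i hi
  rw [Function.update_of_ne (ne_of_mem_erase hi)]

lemma nv_mono {M : ℕ} {κ T : Fin 6 → ℕ} (hT : ∀ j, T j ≤ κ j) : nv M T ≤ nv M κ := by
  unfold nv
  exact sum_le_sum fun j _ => Nat.mul_le_mul_right _ (hT j)

lemma FF_concave (M : ℕ) (κ T : Fin 6 → ℕ) (hT : ∀ j, T j ≤ κ j) (j : Fin 6) :
    ((κ j : ℝ) - T j) * FF M κ (Function.update T j 0) + T j * FF M κ (Function.update T j (κ j)) ≤
      κ j * FF M κ T := by
  have h := chord (fun t => FF M κ (Function.update T j t)) (κ j) ?_ (T j) (hT j)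
  · simpa only [Function.update_eq_self] using h
  intro t ht
  have hle : nv M (Function.update T j (t + 2)) ≤ nv M κ := by
    apply nv_mono
    intro i
    by_cases hi : i = j
    · subst hi; rw [Function.update_self]; exact ht
    · rw [Function.update_of_ne hi]; exact hT i
  simp only [FF]
  unfold nv at hle ⊢
  simp only [sum_update T j _ (fun i a => a * (M + (i : ℕ))),
    sum_update T j _ (fun i a => ((a : ℝ) * lw (M + (i : ℕ)) + Real.log (a.factorial : ℝ)))] at hle ⊢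
  generalize ∑ i ∈ univ.erase j, T i * (M + (i : ℕ)) = R at hle ⊢
  generalize ∑ i ∈ univ.erase j, ((T i : ℝ) * lw (M + (i : ℕ)) + Real.log ((T i).factorial : ℝ)) = C
  generalize (∑ i : Fin 6, κ i * (M + (i : ℕ))) = n at hle ⊢
  obtain ⟨a, ha⟩ := Nat.exists_eq_add_of_le hle
  have e2 : n - ((t + 2) * (M + (j : ℕ)) + R) = a := by omega
  have e1 : n - ((t + 1) * (M + (j : ℕ)) + R) = a + (M + (j : ℕ)) := by
    rw [ha]
    have : (t + 2) * (M + (j : ℕ)) = (t + 1) * (M + (j : ℕ)) + (M + (j : ℕ)) := by ring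
    omega
  have e0 : n - (t * (M + (j : ℕ)) + R) = a + 2 * (M + (j : ℕ)) := by
    rw [ha]
    have : (t + 2) * (M + (j : ℕ)) = t * (M + (j : ℕ)) + 2 * (M + (j : ℕ)) := by ring
    omega
  rw [e0, e1, e2]
  have h1 := log_fact_sq a (M + (j : ℕ))
  have h2 := log_fact_sq t 1
  rw [show t + 2 * 1 = t + 2 by ring] at h2
  push_cast
  linarith

/-- values at the corners -/
lemma FF_corner (M : ℕ) (κ T : Fin 6 → ℕ) (hT : ∀ j, T j = 0 ∨ T j = κ j) (B : Finset (Fin 6))
    (hB : ∀ j, j ∈ B ↔ T j = 0) : FF M κ T = LE M (nv M κ) κ +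
      ((∑ j ∈ B, ((κ j : ℝ) * lw (M + j) + Real.log ((κ j).factorial : ℝ))) -
        Real.log ((∑ j ∈ B, κ j * (M + (j : ℕ))).factorial : ℝ)) := by
  have hc : ∀ j ∈ Bᶜ, T j = κ j := by
    intro j hj
    rw [mem_compl, hB] at hj
    exact (hT j).resolve_left hj
  have h1 : nv M κ - nv M T = ∑ j ∈ B, κ j * (M + (j : ℕ)) := by
    have e1 : nv M κ = ∑ j ∈ B, κ j * (M + (j : ℕ)) + ∑ j ∈ Bᶜ, κ j * (M + (j : ℕ)) := by
      unfold nv
      rw [sum_add_sum_compl]
    have e2 : nv M T = ∑ j ∈ Bᶜ, κ j * (M + (j : ℕ)) := by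
      unfold nv
      rw [← sum_add_sum_compl B]
      have e3 : ∑ j ∈ B, T j * (M + (j : ℕ)) = 0 :=
        sum_eq_zero fun j hj => by rw [(hB j).1 hj, zero_mul]
      rw [e3, zero_add]
      exact sum_congr rfl fun j hj => by rw [hc j hj]
    omega
  have h2 : ∑ j : Fin 6, ((T j : ℝ) * lw (M + j) + Real.log ((T j).factorial : ℝ)) =
      ∑ j ∈ Bᶜ, ((κ j : ℝ) * lw (M + j) + Real.log ((κ j).factorial : ℝ)) := by
    rw [← sum_add_sum_compl B]
    have e3 : ∑ j ∈ B, ((T j : ℝ) * lw (M + j) + Real.log ((T j).factorial : ℝ)) = 0 :=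
      sum_eq_zero fun j hj => by rw [(hB j).1 hj]; simp
    rw [e3, zero_add]
    exact sum_congr rfl fun j hj => by rw [hc j hj]
  have h3 : ∑ j : Fin 6, ((κ j : ℝ) * lw (M + j) + Real.log ((κ j).factorial : ℝ)) =
      ∑ j ∈ B, ((κ j : ℝ) * lw (M + j) + Real.log ((κ j).factorial : ℝ)) +
      ∑ j ∈ Bᶜ, ((κ j : ℝ) * lw (M + j) + Real.log ((κ j).factorial : ℝ)) := by
    rw [sum_add_sum_compl]
  unfold FF LE
  rw [h1, h2, h3]
  ring

/-! ### the weight `1 - ∏ x - ∏ (1 - x)` -/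

lemma weight_ge {ι : Type} [Fintype ι] [DecidableEq ι] (x : ι → ℝ) (h0 : ∀ j, 0 ≤ x j)
    (h1 : ∀ j, x j ≤ 1) (j i : ι) (hij : i ≠ j) :
    min (x j) (1 - x j) ≤ 1 - ∏ j, x j - ∏ j, (1 - x j) := by
  rw [← mul_prod_erase univ (fun j => x j) (mem_univ j),
    ← mul_prod_erase univ (fun j => 1 - x j) (mem_univ j)]
  have hi : i ∈ univ.erase j := mem_erase.2 ⟨hij, mem_univ i⟩
  have hP0 : 0 ≤ ∏ i ∈ univ.erase j, x i := prod_nonneg fun i _ => h0 i
  have hQ0 : 0 ≤ ∏ i ∈ univ.erase j, (1 - x i) := prod_nonneg fun i _ => by linarith [h1 i]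
  have hP : ∏ i ∈ univ.erase j, x i ≤ x i := by
    rw [← mul_prod_erase (univ.erase j) (fun i => x i) hi]
    have : ∏ k ∈ (univ.erase j).erase i, x k ≤ 1 := prod_le_one (fun k _ => h0 k) fun k _ => h1 k
    exact mul_le_of_le_one_right (h0 i) this
  have hQ : ∏ i ∈ univ.erase j, (1 - x i) ≤ 1 - x i := by
    rw [← mul_prod_erase (univ.erase j) (fun i => 1 - x i) hi]
    have : ∏ k ∈ (univ.erase j).erase i, (1 - x k) ≤ 1 :=
      prod_le_one (fun k _ => by linarith [h1 k]) fun k _ => by linarith [h0 k]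
    exact mul_le_of_le_one_right (by linarith [h1 i]) this
  generalize ∏ i ∈ univ.erase j, x i = P at *
  generalize ∏ i ∈ univ.erase j, (1 - x i) = Q at *
  have hj0 := h0 j
  have hj1 := h1 j
  have hi1 : 0 ≤ 1 - x i := by linarith [h1 i]
  have hj2 : 0 ≤ 1 - x j := by linarith
  have a1 := mul_le_mul_of_nonneg_left hP hj0
  have a2 := mul_le_mul_of_nonneg_left hQ hj2
  rcases le_total (x j) (1 - x j) with h | h
  · rw [min_eq_left h]
    have a3 := mul_le_mul_of_nonneg_right h (h0 i)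
    linarith
  · rw [min_eq_right h]
    have a3 := mul_le_mul_of_nonneg_right h hi1
    linarith

lemma weight_ge_sum (x : Fin 6 → ℝ) (h0 : ∀ j, 0 ≤ x j) (h1 : ∀ j, x j ≤ 1) :
    (∑ j, min (x j) (1 - x j)) / 6 ≤ 1 - ∏ j, x j - ∏ j, (1 - x j) := by
  have h : ∀ j : Fin 6, min (x j) (1 - x j) ≤ 1 - ∏ j, x j - ∏ j, (1 - x j) := by
    intro j
    exact weight_ge x h0 h1 j (j + 1) (by revert j; decide)
  have h2 := sum_le_sum fun j (_ : j ∈ (univ : Finset (Fin 6))) => h j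
  rw [sum_const, card_univ, Fintype.card_fin, nsmul_eq_mul] at h2
  push_cast at h2
  linarith

/-! ### binomials -/

lemma log_choose_le_aux {κ t : ℕ} (ht : t ≤ κ) {z : ℝ} (hz : 0 < z) :
    Real.log (κ.choose t : ℝ) ≤ κ * z + t * Real.log (1 / z) := by
  have h1 : (κ.choose t : ℝ) * z ^ t ≤ (1 + z) ^ κ := by
    rw [add_comm, add_pow]
    have h4 := single_le_sum (f := fun m => z ^ m * 1 ^ (κ - m) * (κ.choose m : ℝ))
      (s := range (κ + 1)) (fun i _ => by positivity) (show t ∈ range (κ + 1) from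
        mem_range.2 (by omega))
    simp only [one_pow, mul_one] at h4 ⊢
    linarith
  have h2 : (1 + z) ^ κ ≤ Real.exp (κ * z) := by
    have h3 : 1 + z ≤ Real.exp z := by linarith [Real.add_one_le_exp z]
    calc (1 + z) ^ κ ≤ (Real.exp z) ^ κ := by gcongr
      _ = Real.exp (κ * z) := by rw [← Real.exp_nat_mul]
  have hc : (0 : ℝ) < (κ.choose t : ℝ) := by exact_mod_cast Nat.choose_pos ht
  have h3 := Real.log_le_log (by positivity) (h1.trans h2)
  rw [Real.log_exp, Real.log_mul hc.ne' (by positivity), Real.log_pow] at h3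
  rw [one_div, Real.log_inv]
  linarith

lemma log_choose_le {κ t : ℕ} (hκ : 0 < κ) (ht : t ≤ κ) {z : ℝ} (hz : 0 < z) :
    Real.log (κ.choose t : ℝ) ≤
      κ * z + κ * min ((t : ℝ) / κ) (1 - t / κ) * Real.log (1 / z) := by
  have hk : (0 : ℝ) < κ := by exact_mod_cast hκ
  rcases le_total ((t : ℝ) / κ) (1 - t / κ) with h | h
  · rw [min_eq_left h, mul_div_cancel₀ _ hk.ne']
    exact log_choose_le_aux ht hz
  · rw [min_eq_right h]
    have e : (κ : ℝ) * (1 - t / κ) = ((κ - t : ℕ) : ℝ) := by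
      rw [Nat.cast_sub ht]
      field_simp
    rw [e, ← Nat.choose_symm ht]
    exact log_choose_le_aux (Nat.sub_le _ _) hz

/-! ### the margins -/

lemma int_corner (g : Fin 6 → ℕ) (hg : g = ![1, 4, 8, 8, 4, 1] ∨ g = ![1, 1, 1, 1, 1, 1])
    (B : Finset (Fin 6)) (hB : B.Nonempty) (hB' : B ≠ univ) :
    (∑ j ∈ B, g j) ^ (4 * ∑ j ∈ B, g j) * 2 ^ (5 * ∑ j ∈ B, g j) <
      (∑ j, g j) ^ (4 * ∑ j ∈ B, g j) * 2 ^ (∑ j ∈ B, 2 * (j : ℕ) * g j) := by
  rcases hg with rfl | rfl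
  · revert B; decide +kernel
  · revert B; decide +kernel

lemma g_pos (g : Fin 6 → ℕ) (hg : g = ![1, 4, 8, 8, 4, 1] ∨ g = ![1, 1, 1, 1, 1, 1])
    (j : Fin 6) : 1 ≤ g j := by
  rcases hg with rfl | rfl
  · revert j; decide
  · revert j; decide

lemma g_sum (g : Fin 6 → ℕ) (hg : g = ![1, 4, 8, 8, 4, 1] ∨ g = ![1, 1, 1, 1, 1, 1]) :
    (∑ j, g j) ≤ 26 := by
  rcases hg with rfl | rfl
  · decide
  · decide

/-- the function of `B` that has to be positive -/
noncomputable def mar (p : Fin 6 → ℝ) (B : Finset (Fin 6)) : ℝ :=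
  ∑ j ∈ B, p j * (Real.log 2 / 2 * (((j : ℕ) : ℝ) - 5 / 2) - Real.log (∑ i ∈ B, p i))

lemma mar_pos (g : Fin 6 → ℕ) (hg : g = ![1, 4, 8, 8, 4, 1] ∨ g = ![1, 1, 1, 1, 1, 1])
    (B : Finset (Fin 6)) (hB : B.Nonempty) (hB' : B ≠ univ) :
    0 < mar (fun j => (g j : ℝ) / ∑ i, (g i : ℝ)) B := by
  have h := int_corner g hg B hB hB'
  have hw : 0 < ∑ j ∈ B, g j := by
    obtain ⟨j, hj⟩ := hB
    exact sum_pos (fun i _ => g_pos g hg i) ⟨j, hj⟩
  have hga : 0 < ∑ j, g j := sum_pos (fun i _ => g_pos g hg i) ⟨0, mem_univ _⟩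
  have h' : ((∑ j ∈ B, g j : ℕ) : ℝ) ^ (4 * ∑ j ∈ B, g j) * 2 ^ (5 * ∑ j ∈ B, g j) <
      ((∑ j, g j : ℕ) : ℝ) ^ (4 * ∑ j ∈ B, g j) * 2 ^ (∑ j ∈ B, 2 * (j : ℕ) * g j) := by
    exact_mod_cast h
  have hwr : (0 : ℝ) < ((∑ j ∈ B, g j : ℕ) : ℝ) := by exact_mod_cast hw
  have hgar : (0 : ℝ) < ((∑ j, g j : ℕ) : ℝ) := by exact_mod_cast hga
  have h1 := Real.log_lt_log (by positivity) h'
  rw [Real.log_mul (by positivity) (by positivity), Real.log_mul (by positivity) (by positivity),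
    Real.log_pow, Real.log_pow, Real.log_pow, Real.log_pow] at h1
  have e1 : (∑ i, (g i : ℝ)) = ((∑ j, g j : ℕ) : ℝ) := by push_cast; rfl
  have e2 : ∑ i ∈ B, (g i : ℝ) / ∑ i, (g i : ℝ) =
      ((∑ j ∈ B, g j : ℕ) : ℝ) / ((∑ j, g j : ℕ) : ℝ) := by
    rw [← sum_div, e1]; push_cast; rfl
  unfold mar
  rw [e2, e1, Real.log_div hwr.ne' hgar.ne']
  have e3 : ∀ A X : ℝ, A ≠ 0 → ∑ j ∈ B, (g j : ℝ) / A *
      (Real.log 2 / 2 * (((j : ℕ) : ℝ) - 5 / 2) - X) =
      (Real.log 2 * ((∑ j ∈ B, 2 * (j : ℕ) * g j : ℕ) : ℝ) -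
        5 * Real.log 2 * ((∑ j ∈ B, g j : ℕ) : ℝ) - 4 * ((∑ j ∈ B, g j : ℕ) : ℝ) * X) /
        (4 * A) := by
    intro A X hA
    rw [eq_div_iff (by positivity)]
    push_cast
    rw [mul_sum, mul_sum, mul_sum, sum_mul, sum_mul, ← sum_sub_distrib, ← sum_sub_distrib]
    apply sum_congr rfl
    intro j _
    field_simp
    ring
  rw [e3 _ _ hgar.ne']
  apply div_pos _ (by positivity)
  push_cast at h1 ⊢
  linarith

lemma margin (g : Fin 6 → ℕ) (hg : g = ![1, 4, 8, 8, 4, 1] ∨ g = ![1, 1, 1, 1, 1, 1]) :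
    ∃ δ : ℝ, 0 < δ ∧ ∀ B : Finset (Fin 6), B.Nonempty → B ≠ univ →
      δ ≤ mar (fun j => (g j : ℝ) / ∑ i, (g i : ℝ)) B := by
  classical
  obtain ⟨B₀, hB₀, h⟩ := exists_min_image
    (univ.filter (fun B : Finset (Fin 6) => B.Nonempty ∧ B ≠ univ))
    (mar (fun j => (g j : ℝ) / ∑ i, (g i : ℝ))) ⟨{0}, by
      rw [mem_filter]
      refine ⟨mem_univ _, by decide, by decide⟩⟩
  rw [mem_filter] at hB₀
  exact ⟨_, mar_pos g hg B₀ hB₀.2.1 hB₀.2.2, fun B h1 h2 => h B (by
    rw [mem_filter]; exact ⟨mem_univ _, h1, h2⟩)⟩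

/-! ### the corner estimate -/

lemma choose_two_real (i : ℕ) : (i.choose 2 : ℝ) = (i : ℝ) * (i - 1) / 2 := by
  rw [Nat.cast_choose_two]

lemma lw_ge {M : ℕ} (hM : 0 < M) (j : ℕ) :
    ((M : ℝ) + j) * Real.log M - (M + j) + Real.log 2 / 2 * ((M + j) * (M + j - 1)) ≤
      lw (M + j) := by
  have hM' : (0 : ℝ) < M := by exact_mod_cast hM
  have h1 := Contra.log_fact_ge (M + j)
  have h2 : Real.log M ≤ Real.log ((M + j : ℕ) : ℝ) := by
    apply Real.log_le_log hM'
    push_cast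
    linarith [(Nat.cast_nonneg j : (0 : ℝ) ≤ j)]
  have h3 : ((M : ℝ) + j) * Real.log M ≤ (M + j) * Real.log ((M + j : ℕ) : ℝ) :=
    mul_le_mul_of_nonneg_left h2 (by positivity)
  unfold lw
  rw [choose_two_real]
  push_cast at h1 h3 ⊢
  linarith

/-- one term of the corner estimate -/
lemma term_ge {M : ℕ} (hM : 100 ≤ M) (j : ℕ) (hj : j ≤ 5) (k : ℕ) (L ℓ lgw e lk X : ℝ)
    (hL : L = Real.log 2 / 2) (he : 0 < e) (he1 : e ≤ 1 / 1000)
    (hℓ : |ℓ - L * (M + 5 / 2)| ≤ e) (hlk : ℓ - 5 ≤ Real.log k) (hw : lgw ≤ 0)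
    (hkB : lk ≤ ℓ + lgw + 156 * e) (hX : X = lk + Real.log M + 5 / M) :
    (k : ℝ) * (M * (L * ((j : ℝ) - 5 / 2) - lgw - 157 * e) - 18) ≤
      (k : ℝ) * lw (M + j) + Real.log (k.factorial : ℝ) - (k : ℝ) * (M + j) * X +
        (k : ℝ) * (M + j) := by
  have hM' : (100 : ℝ) ≤ M := by exact_mod_cast hM
  have hM0 : (0 : ℝ) < M := by linarith
  have hj' : (j : ℝ) ≤ 5 := by exact_mod_cast hj
  have hj0 : (0 : ℝ) ≤ j := Nat.cast_nonneg j
  have hk0 : (0 : ℝ) ≤ k := Nat.cast_nonneg k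
  have hL1 : 0.34 < L := by rw [hL]; linarith [Real.log_two_gt_d9]
  have hL2 : L < 0.35 := by rw [hL]; linarith [Real.log_two_lt_d9]
  have h1 := lw_ge (show 0 < M by omega) j
  rw [← hL] at h1
  have h2 := Contra.log_fact_ge k
  have h3 : (k : ℝ) * (ℓ - 5) ≤ k * Real.log k := mul_le_mul_of_nonneg_left hlk hk0
  -- it suffices to compare the factors of `k`
  suffices hs : M * (L * ((j : ℝ) - 5 / 2) - lgw - 157 * e) - 18 ≤
      (((M : ℝ) + j) * Real.log M - (M + j) + L * ((M + j) * (M + j - 1))) + (ℓ - 6) -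
        (M + j) * X + (M + j) by
    have h4 := mul_le_mul_of_nonneg_left hs hk0
    have h5 := mul_le_mul_of_nonneg_left h1 hk0
    linarith
  rw [hX]
  have h6 : ((M : ℝ) + j) * (5 / M) ≤ 10 := by
    rw [mul_div_assoc', div_le_iff₀ hM0]
    linarith
  have h7 : ((M : ℝ) + j) * lk ≤ (M + j) * (ℓ + lgw + 156 * e) :=
    mul_le_mul_of_nonneg_left hkB (by positivity)
  rw [abs_le] at hℓ
  have h8 : ((M : ℝ) + j - 1) * ℓ ≤ (M + j - 1) * (L * (M + 5 / 2) + e) :=
    mul_le_mul_of_nonneg_left (by linarith [hℓ.2]) (by linarith)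
  have h9 : (j : ℝ) * lgw ≤ 0 := mul_nonpos_of_nonneg_of_nonpos hj0 hw
  have h10 : -1 ≤ ((j : ℝ) - 1) * (L * ((j : ℝ) - 5 / 2)) := by
    have h12 : -(9 / 16 : ℝ) ≤ ((j : ℝ) - 1) * ((j : ℝ) - 5 / 2) := by
      linarith [sq_nonneg ((j : ℝ) - 7 / 4)]
    have h13 := mul_le_mul_of_nonneg_left h12 (by linarith : (0 : ℝ) ≤ L)
    linarith
  have h11 : e * (M + j) ≤ e * M + 5 * e := by
    have h12 := mul_le_mul_of_nonneg_left hj' he.le
    linarith
  linarith

/-- the corner estimate -/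
lemma corner_ge (p : Fin 6 → ℝ) (hp : ∀ j, 1 / 26 ≤ p j) (hp1 : ∑ j, p j = 1) (δ : ℝ)
    (hδ : ∀ B : Finset (Fin 6), B.Nonempty → B ≠ univ → δ ≤ mar p B)
    (e : ℝ) (he : 0 < e) (he1 : e ≤ 1 / 1000) (heδ : 1376 * e ≤ δ) {M K : ℕ} (hS : Sz M K)
    (hMδ : 152 ≤ δ * M) (κ : Fin 6 → ℕ) (hκ : ∀ j, |(κ j : ℝ) - p j * K| ≤ e * K)
    (hK : |Real.log K - Real.log 2 / 2 * (M + 5 / 2)| ≤ e)
    (B : Finset (Fin 6)) (hB : B.Nonempty) (hB' : B ≠ univ) :
    δ / 2 * K * M ≤ ∑ j ∈ B, ((κ j : ℝ) * lw (M + j) + Real.log ((κ j).factorial : ℝ)) -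
      Real.log ((∑ j ∈ B, κ j * (M + (j : ℕ))).factorial : ℝ) := by
  have hM0 := hS.Mpos
  have hM100 := hS.hM
  have hK0 : (0 : ℝ) < K := by exact_mod_cast hS.hK
  have hKM := hS.pow_le 1 (by norm_num)
  rw [pow_one] at hKM
  obtain ⟨L, hL⟩ : ∃ L, L = Real.log 2 / 2 := ⟨_, rfl⟩
  have hL1 : 0.34 < L := by rw [hL]; linarith [Real.log_two_gt_d9]
  have hL2 : L < 0.35 := by rw [hL]; linarith [Real.log_two_lt_d9]
  obtain ⟨ℓ, hℓ⟩ : ∃ ℓ, ℓ = Real.log K := ⟨_, rfl⟩
  obtain ⟨w, hw⟩ : ∃ w, w = ∑ j ∈ B, p j := ⟨_, rfl⟩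
  have hw1 : w ≤ 1 := by
    rw [hw, ← hp1]
    exact sum_le_sum_of_subset_of_nonneg (subset_univ _) fun j _ _ => by linarith [hp j]
  have hw0 : 1 / 26 ≤ w := by
    obtain ⟨j, hj⟩ := hB
    rw [hw]
    exact (hp j).trans (single_le_sum (fun i _ => by linarith [hp i]) hj)
  have hwpos : 0 < w := by linarith
  have hBcard : (B.card : ℝ) ≤ 6 := by
    have := card_le_univ B
    rw [Fintype.card_fin] at this
    exact_mod_cast this
  -- the number of classes
  obtain ⟨kB, hkB⟩ : ∃ kB, kB = ∑ j ∈ B, (κ j : ℝ) := ⟨_, rfl⟩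
  have hκ1 : ∀ j, (κ j : ℝ) ≤ p j * K + e * K := fun j => by
    have := hκ j; rw [abs_le] at this; linarith [this.2]
  have hκ2 : ∀ j, p j * K - e * K ≤ (κ j : ℝ) := fun j => by
    have := hκ j; rw [abs_le] at this; linarith [this.1]
  have hκ3 : ∀ j, (K : ℝ) / 52 ≤ κ j := by
    intro j
    have h1 := hκ2 j
    have h2 : 1 / 26 * (K : ℝ) ≤ p j * K := mul_le_mul_of_nonneg_right (hp j) hK0.le
    have h3 : e * K ≤ 1 / 1000 * K := mul_le_mul_of_nonneg_right he1 hK0.le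
    linarith
  have hκpos : ∀ j, (0 : ℝ) < κ j := fun j => by have := hκ3 j; linarith [div_pos hK0 (by norm_num : (0 : ℝ) < 52)]
  have hkB1 : kB ≤ (w + 6 * e) * K := by
    have h1 : kB ≤ ∑ j ∈ B, (p j * K + e * K) := by
      rw [hkB]; exact sum_le_sum fun j _ => hκ1 j
    rw [sum_add_distrib, ← sum_mul, ← hw, sum_const, nsmul_eq_mul] at h1
    have h2 : (B.card : ℝ) * (e * K) ≤ 6 * (e * K) := mul_le_mul_of_nonneg_right hBcard (by positivity)
    linarith
  have hkBpos : 0 < kB := by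
    rw [hkB]; exact sum_pos (fun j _ => hκpos j) hB
  have hkB2 : kB ≤ 2 * K := hkB1.trans (mul_le_mul_of_nonneg_right (by linarith) hK0.le)
  have hlkB : Real.log kB ≤ ℓ + Real.log w + 156 * e := by
    have h1 : Real.log kB ≤ Real.log ((K * w) * (1 + 6 * e / w)) := by
      apply Real.log_le_log hkBpos
      refine hkB1.trans (le_of_eq ?_)
      field_simp
    rw [Real.log_mul (by positivity) (by positivity), Real.log_mul (by positivity) (by positivity)]
      at h1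
    have h2 := Real.log_le_sub_one_of_pos (show (0 : ℝ) < 1 + 6 * e / w by positivity)
    have h3 : 6 * e / w ≤ 156 * e := by
      rw [div_le_iff₀ hwpos]
      have h4 : e * (1 / 26) ≤ e * w := mul_le_mul_of_nonneg_left hw0 he.le
      linarith
    rw [hℓ]
    linarith
  have hlw0 : Real.log w ≤ 0 := Real.log_nonpos hwpos.le hw1
  have hlw1 : -4 ≤ Real.log w := by
    have h1 : Real.log (1 / 32) ≤ Real.log w := Real.log_le_log (by norm_num) (by linarith)
    have h2 : Real.log (1 / 32) = - (5 * Real.log 2) := by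
      rw [one_div, Real.log_inv, show (32 : ℝ) = 2 ^ 5 by norm_num, Real.log_pow]
      norm_num
    linarith [Real.log_two_lt_d9]
  have hlκ : ∀ j, ℓ - 5 ≤ Real.log (κ j) := by
    intro j
    have h1 : Real.log ((K : ℝ) / 64) ≤ Real.log (κ j) := by
      apply Real.log_le_log (by positivity)
      have := hκ3 j
      have : (K : ℝ) / 64 ≤ K / 52 := by
        apply div_le_div_of_nonneg_left hK0.le (by norm_num) (by norm_num)
      linarith
    rw [Real.log_div hK0.ne' (by norm_num), show (64 : ℝ) = 2 ^ 6 by norm_num, Real.log_pow] at h1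
    push_cast at h1
    linarith [Real.log_two_lt_d9]
  -- the number of vertices
  obtain ⟨nB, hnB⟩ : ∃ nB : ℕ, nB = ∑ j ∈ B, κ j * (M + (j : ℕ)) := ⟨_, rfl⟩
  rw [← hnB]
  have hnBr : (nB : ℝ) = ∑ j ∈ B, (κ j : ℝ) * (M + ((j : ℕ) : ℝ)) := by
    rw [hnB]; push_cast; rfl
  have hnB1 : (nB : ℝ) ≤ kB * (M + 5) := by
    rw [hnBr, hkB, sum_mul]
    apply sum_le_sum
    intro j _
    apply mul_le_mul_of_nonneg_left _ (Nat.cast_nonneg _)
    have : (j : ℕ) ≤ 5 := by have := j.2; omega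
    have : ((j : ℕ) : ℝ) ≤ 5 := by exact_mod_cast this
    linarith
  have hnBpos : 1 ≤ nB := by
    have : (0 : ℝ) < nB := by
      rw [hnBr]
      exact sum_pos (fun j _ => by have := hκpos j; positivity) hB
    exact_mod_cast this
  have hnB0 : (0 : ℝ) < nB := by exact_mod_cast hnBpos
  obtain ⟨X, hX⟩ : ∃ X, X = Real.log kB + Real.log M + 5 / M := ⟨_, rfl⟩
  have hlnB : Real.log nB ≤ Real.log kB + Real.log (M + 5) := by
    rw [← Real.log_mul hkBpos.ne' (by positivity)]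
    exact Real.log_le_log hnB0 hnB1
  have hM5 : Real.log ((M : ℝ) + 5) ≤ Real.log M + 5 / M := by
    have e1 : (M : ℝ) + 5 = M * (1 + 5 / M) := by field_simp
    rw [e1, Real.log_mul hM0.ne' (by positivity)]
    have := Real.log_le_sub_one_of_pos (show (0 : ℝ) < 1 + 5 / (M : ℝ) by positivity)
    linarith
  have hlnX : Real.log nB ≤ X := by rw [hX]; linarith
  have hfact := Contra.log_fact_le hnBpos
  have hfact2 : (nB : ℝ) * Real.log nB ≤ nB * X := mul_le_mul_of_nonneg_left hlnX hnB0.le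
  -- small terms
  have hsmall : 1 + Real.log nB ≤ 2 * K := by
    have h1 : Real.log kB ≤ 1 + ℓ := by
      have : 156 * e ≤ 1 := by linarith
      linarith
    have h2 := hS.hi
    have h3 := hS.lM
    have h4 := hS.cM
    have h5 := Real.log_two_lt_d9
    rw [← hℓ, ← hL] at h2
    have h6 : L * M ≤ 0.35 * M := mul_le_mul_of_nonneg_right hL2.le hM0.le
    linarith
  -- sum of the terms
  have hterm : ∑ j ∈ B, (κ j : ℝ) * (M * (L * (((j : ℕ) : ℝ) - 5 / 2) - Real.log w - 157 * e) - 18)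
      ≤ ∑ j ∈ B, ((κ j : ℝ) * lw (M + j) + Real.log ((κ j).factorial : ℝ) -
        (κ j : ℝ) * (M + ((j : ℕ) : ℝ)) * X + (κ j : ℝ) * (M + ((j : ℕ) : ℝ))) := by
    apply sum_le_sum
    intro j _
    exact term_ge hM100 j (by have := j.2; omega) (κ j) L ℓ (Real.log w) e (Real.log kB) X hL he he1
      (by rw [hL, hℓ]; exact hK) (hlκ j) hlw0 hlkB hX
  have hsum : ∑ j ∈ B, ((κ j : ℝ) * lw (M + j) + Real.log ((κ j).factorial : ℝ) -
        (κ j : ℝ) * (M + ((j : ℕ) : ℝ)) * X + (κ j : ℝ) * (M + ((j : ℕ) : ℝ))) =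
      ∑ j ∈ B, ((κ j : ℝ) * lw (M + j) + Real.log ((κ j).factorial : ℝ)) - nB * X + nB := by
    rw [hnBr, sum_add_distrib, sum_sub_distrib, sum_mul]
  have hlow : M * (K * δ - 30 * e * K) - (157 * e * M + 18) * kB ≤
      ∑ j ∈ B, (κ j : ℝ) * (M * (L * (((j : ℕ) : ℝ) - 5 / 2) - Real.log w - 157 * e) - 18) := by
    have e1 : ∑ j ∈ B, (κ j : ℝ) * (M * (L * (((j : ℕ) : ℝ) - 5 / 2) - Real.log w - 157 * e) - 18) =
        M * ∑ j ∈ B, (κ j : ℝ) * (L * (((j : ℕ) : ℝ) - 5 / 2) - Real.log w) -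
          (157 * e * M + 18) * kB := by
      rw [hkB, mul_sum, mul_sum, ← sum_sub_distrib]
      exact sum_congr rfl fun j _ => by ring
    rw [e1]
    have h1 : K * δ - 30 * e * K ≤
        ∑ j ∈ B, (κ j : ℝ) * (L * (((j : ℕ) : ℝ) - 5 / 2) - Real.log w) := by
      have h2 : ∑ j ∈ B, (K * (p j * (L * (((j : ℕ) : ℝ) - 5 / 2) - Real.log w)) - 5 * (e * K)) ≤
          ∑ j ∈ B, (κ j : ℝ) * (L * (((j : ℕ) : ℝ) - 5 / 2) - Real.log w) := by
        apply sum_le_sum
        intro j _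
        have hj5 : ((j : ℕ) : ℝ) ≤ 5 := by
          have : (j : ℕ) ≤ 5 := by have := j.2; omega
          exact_mod_cast this
        have hj0 : (0 : ℝ) ≤ ((j : ℕ) : ℝ) := Nat.cast_nonneg _
        obtain ⟨c, hc⟩ : ∃ c, c = L * (((j : ℕ) : ℝ) - 5 / 2) - Real.log w := ⟨_, rfl⟩
        have hL0 : 0 ≤ L := by linarith
        have hc1 : c ≤ 5 := by
          have : L * (((j : ℕ) : ℝ) - 5 / 2) ≤ L * (5 / 2) :=
            mul_le_mul_of_nonneg_left (by linarith) hL0
          rw [hc]; linarith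
        have hc2 : -5 ≤ c := by
          have : L * (-(5 / 2)) ≤ L * (((j : ℕ) : ℝ) - 5 / 2) :=
            mul_le_mul_of_nonneg_left (by linarith) hL0
          rw [hc]; linarith
        rw [← hc]
        have ha := hκ1 j
        have hb := hκ2 j
        have heK : 0 ≤ e * K := by positivity
        rcases le_total 0 c with h0 | h0
        · have h6 := mul_le_mul_of_nonneg_right hb h0
          have h7 : (e * K) * c ≤ (e * K) * 5 := mul_le_mul_of_nonneg_left hc1 heK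
          linarith
        · have h6 := mul_le_mul_of_nonpos_right ha h0
          have h7 : (e * K) * (-5) ≤ (e * K) * c := mul_le_mul_of_nonneg_left hc2 heK
          linarith
      rw [sum_sub_distrib, ← mul_sum, sum_const, nsmul_eq_mul] at h2
      have h3 := hδ B hB hB'
      unfold mar at h3
      rw [← hL, ← hw] at h3
      have h4 := mul_le_mul_of_nonneg_left h3 hK0.le
      have h5 : (B.card : ℝ) * (5 * (e * K)) ≤ 6 * (5 * (e * K)) :=
        mul_le_mul_of_nonneg_right hBcard (by positivity)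
      linarith
    have h2 := mul_le_mul_of_nonneg_left h1 hM0.le
    linarith
  have hkB3 : (157 * e * M + 18) * kB ≤ (157 * e * M + 18) * (2 * K) :=
    mul_le_mul_of_nonneg_left hkB2 (by positivity)
  have hKMpos : 0 < (K : ℝ) * M := by positivity
  have h1376 : 1376 * e * (K * M) ≤ δ * (K * M) := mul_le_mul_of_nonneg_right heδ hKMpos.le
  have h152 : 152 * (K : ℝ) ≤ δ * M * K := mul_le_mul_of_nonneg_right hMδ hK0.le
  rw [hsum] at hterm
  linarith

end PPof

end Pool.RG
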