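import Pool.Agent.Work.RG.Defs

/-!
# MP_004c3d_co : maximizing restraints

A maximizing restraint is a proper colouring (`maximizing_proper`) and has the largest codegree
weight among the proper colourings (`maximizing_wt`); maximizing restraints exist
(`exists_maximizing`).
-/

namespace Pool.RG

open Finset

namespace Rst

open Classical in
/-- indicator -/
noncomputable def ind (p : Prop) : ℝ := if p then 1 else 0

lemma ind_pos {p : Prop} (h : p) : ind p = 1 := by simp [ind, h]

lemma ind_neg {p : Prop} (h : ¬ p) : ind p = 0 := by simp [ind, h]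

lemma ind_nonneg (p : Prop) : 0 ≤ ind p := by
  unfold ind; split_ifs <;> norm_num

lemma ind_mono {p q : Prop} (h : p → q) : ind p ≤ ind q := by
  by_cases hp : p
  · rw [ind_pos hp, ind_pos (h hp)]
  · rw [ind_neg hp]; exact ind_nonneg q

lemma sum_ind {α : Type*} (s : Finset α) (Q : α → Prop) [DecidablePred Q] :
    ∑ a ∈ s, ind (Q a) = ((s.filter Q).card : ℝ) := by
  rw [← Finset.sum_boole]
  apply Finset.sum_congr rfl
  intro a _
  by_cases h : Q a
  · rw [ind_pos h, if_pos h]
  · rw [ind_neg h, if_neg h]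

/-- proportion of the maps `V → X` with the property `Q` -/
noncomputable def Pb {V X : Type} [Fintype V] [Fintype X] [DecidableEq V] (Q : (V → X) → Prop) : ℝ :=
  (∑ c : V → X, ind (Q c)) / (Fintype.card X : ℝ) ^ (Fintype.card V)

section

variable {V X : Type} [Fintype V] [Fintype X] [DecidableEq V]

lemma Pb_mono {Q Q' : (V → X) → Prop} (h : ∀ c, Q c → Q' c) : Pb Q ≤ Pb Q' := by
  unfold Pb
  apply div_le_div_of_nonneg_right _ (by positivity)
  exact Finset.sum_le_sum fun c _ => ind_mono (h c)

lemma Pb_congr {Q Q' : (V → X) → Prop} (h : ∀ c, Q c ↔ Q' c) : Pb Q = Pb Q' :=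
  le_antisymm (Pb_mono fun c => (h c).1) (Pb_mono fun c => (h c).2)

lemma Pb_nonneg (Q : (V → X) → Prop) : 0 ≤ Pb Q := by
  unfold Pb
  apply div_nonneg _ (by positivity)
  exact Finset.sum_nonneg fun c _ => ind_nonneg _

lemma Pb_false {Q : (V → X) → Prop} (h : ∀ c, ¬ Q c) : Pb Q = 0 := by
  unfold Pb
  rw [Finset.sum_congr rfl (fun c _ => ind_neg (h c))]
  simp

lemma Pb_sum_le {ι : Type*} (s : Finset ι) (f : ι → ((V → X) → Prop)) (Q : (V → X) → Prop)
    (h : ∀ c, Q c → ∃ i ∈ s, f i c) : Pb Q ≤ ∑ i ∈ s, Pb (f i) := by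
  unfold Pb
  rw [← Finset.sum_div]
  apply div_le_div_of_nonneg_right _ (by positivity)
  rw [Finset.sum_comm]
  apply Finset.sum_le_sum
  intro c _
  by_cases hQ : Q c
  · obtain ⟨i, hi, hf⟩ := h c hQ
    rw [ind_pos hQ]
    calc (1 : ℝ) = ind (f i c) := (ind_pos hf).symm
      _ ≤ ∑ i ∈ s, ind (f i c) :=
          Finset.single_le_sum (f := fun i => ind (f i c)) (fun j _ => ind_nonneg _) hi
  · rw [ind_neg hQ]
    exact Finset.sum_nonneg fun j _ => ind_nonneg _

lemma Pb_perm (σ : Equiv.Perm X) (Q : (V → X) → Prop) : Pb (fun c => Q (fun v => σ (c v))) = Pb Q := by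
  unfold Pb
  congr 1
  exact Fintype.sum_equiv (Equiv.arrowCongr (Equiv.refl V) σ) _ _ (fun c => rfl)

lemma Pb_fix (S : Finset V) (τ : V → X) (hX : 0 < Fintype.card X) :
    Pb (fun c : V → X => ∀ v ∈ S, c v = τ v) = ((Fintype.card X : ℝ)⁻¹) ^ S.card := by
  classical
  unfold Pb
  have h1 := sum_ind (univ : Finset (V → X)) (fun c : V → X => ∀ v ∈ S, c v = τ v)
  have h2 : (univ.filter (fun c : V → X => ∀ v ∈ S, c v = τ v))
      = Fintype.piFinset (fun v => if v ∈ S then {τ v} else univ) := by
    ext c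
    simp only [Finset.mem_filter, Finset.mem_univ, true_and, Fintype.mem_piFinset]
    constructor
    · intro h v
      by_cases hv : v ∈ S
      · simp [hv, h v hv]
      · simp [hv]
    · intro h v hv
      have := h v
      simpa [hv] using this
  have h3 : (Fintype.piFinset (fun v => if v ∈ S then ({τ v} : Finset X) else univ)).card
      = (Fintype.card X) ^ (Fintype.card V - S.card) := by
    rw [Fintype.card_piFinset]
    have : ∀ v, (if v ∈ S then ({τ v} : Finset X) else univ).card
        = if v ∈ S then 1 else Fintype.card X := by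
      intro v; split_ifs <;> simp
    simp_rw [this]
    rw [Finset.prod_ite]
    simp only [Finset.prod_const_one, Finset.prod_const, one_mul]
    congr 1
    rw [← Finset.card_compl]
    congr 1
    ext v; simp
  rw [h1, h2, h3]
  have hS : S.card ≤ Fintype.card V := Finset.card_le_univ S
  have hx : (Fintype.card X : ℝ) ≠ 0 := by positivity
  push_cast
  rw [div_eq_iff (by positivity), inv_pow, eq_comm, inv_mul_eq_iff_eq_mul₀ (by positivity),
    ← pow_add]
  congr 1
  omega

lemma Pb_fix_le (S : Finset V) (τ : V → X) (hX : 0 < Fintype.card X)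
    (Q : (V → X) → Prop) (h : ∀ c, Q c → ∀ v ∈ S, c v = τ v) :
    Pb Q ≤ ((Fintype.card X : ℝ)⁻¹) ^ S.card := by
  rw [← Pb_fix S τ hX]
  exact Pb_mono h

/-- one more equation -/
lemma Pb_bad (S : Finset V) (τ : V → X) (hX : 0 < Fintype.card X) {u v : V}
    (hv : v ∉ S) (huv : u ≠ v) :
    Pb (fun c : V → X => (∀ s ∈ S, c s = τ s) ∧ c u = c v) ≤ ((Fintype.card X : ℝ)⁻¹) ^ (S.card + 1) := by
  classical
  rw [← Finset.card_insert_of_notMem hv, ← Pb_fix (insert v S) τ hX]
  unfold Pb
  apply div_le_div_of_nonneg_right _ (by positivity)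
  rw [sum_ind, sum_ind]
  norm_cast
  apply Finset.card_le_card_of_injOn (fun c => Function.update c v (τ v))
  · intro c hc
    simp only [Finset.coe_filter, Finset.mem_univ, true_and, Set.mem_ofPred_eq] at hc ⊢
    intro s hs
    rcases Finset.mem_insert.1 hs with rfl | hs
    · simp
    · have : s ≠ v := fun h => hv (h ▸ hs)
      rw [Function.update_of_ne this]
      exact hc.1 s hs
  · intro c hc c' hc' h
    simp only [Finset.coe_filter, Finset.mem_univ, true_and, Set.mem_ofPred_eq] at hc hc'
    have h' : ∀ s, s ≠ v → c s = c' s := by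
      intro s hs
      have := congrFun h s
      simpa [Function.update_of_ne hs] using this
    ext s
    by_cases hs : s = v
    · subst hs
      rw [← hc.2, ← hc'.2]
      exact h' u huv
    · exact h' s hs

/-- colourings with prescribed values on `S` : lower bound -/
lemma Pb_ge (S : Finset V) (τ : V → X) (hX : 0 < Fintype.card X)
    (R : V → V → Prop) (hR : ∀ u v, R u v → u ≠ v)
    (hc : ∀ u ∈ S, ∀ v ∈ S, R u v → τ u ≠ τ v) :
    ((Fintype.card X : ℝ)⁻¹) ^ S.card - (Fintype.card V : ℝ) ^ 2 * ((Fintype.card X : ℝ)⁻¹) ^ (S.card + 1)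
      ≤ Pb (fun c : V → X => (∀ s ∈ S, c s = τ s) ∧ ∀ u v, R u v → c u ≠ c v) := by
  classical
  have h1 := Pb_sum_le (V := V) (X := X) (univ : Finset (Option (V × V)))
    (fun o c => match o with
      | none => (∀ s ∈ S, c s = τ s) ∧ ∀ u v, R u v → c u ≠ c v
      | some p => (∀ s ∈ S, c s = τ s) ∧ R p.1 p.2 ∧ c p.1 = c p.2)
    (fun c : V → X => ∀ s ∈ S, c s = τ s) (by
      intro c hc
      by_cases h : ∀ u v, R u v → c u ≠ c v
      · exact ⟨none, Finset.mem_univ _, hc, h⟩
      · push Not at h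
        obtain ⟨u, v, h1, h2⟩ := h
        exact ⟨some (u, v), Finset.mem_univ _, hc, h1, h2⟩)
  rw [Pb_fix S τ hX, Fintype.sum_option] at h1
  have h2 : ∑ p : V × V, Pb (fun c : V → X => (∀ s ∈ S, c s = τ s) ∧ R p.1 p.2 ∧ c p.1 = c p.2)
      ≤ ∑ p : V × V, ((Fintype.card X : ℝ)⁻¹) ^ (S.card + 1) := by
    apply Finset.sum_le_sum
    rintro ⟨u, v⟩ _
    by_cases hr : R u v
    · by_cases hv : v ∈ S
      · by_cases hu : u ∈ S
        · rw [Pb_false]
          · positivity
          · rintro c ⟨h3, h4, h5⟩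
            apply hc u hu v hv h4
            rw [← h3 u hu, ← h3 v hv, h5]
        · refine (Pb_mono ?_).trans (Pb_bad S τ hX hu (u := v) (hR u v hr).symm)
          rintro c ⟨h3, h4, h5⟩
          exact ⟨h3, h5.symm⟩
      · refine (Pb_mono ?_).trans (Pb_bad S τ hX hv (u := u) (hR u v hr))
        rintro c ⟨h3, h4, h5⟩
        exact ⟨h3, h5⟩
    · rw [Pb_false]
      · positivity
      · rintro c ⟨h3, h4, h5⟩
        exact hr h4
  rw [Finset.sum_const, nsmul_eq_mul, Finset.card_univ, Fintype.card_prod] at h2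
  push_cast at h2
  have h3 : (Fintype.card V : ℝ) * (Fintype.card V : ℝ) = (Fintype.card V : ℝ) ^ 2 := by ring
  rw [h3] at h2
  linarith

/-- colourings with prescribed values on `S` and the colour `β` used on `D` -/
lemma Pb_union (S D : Finset V) (τ : V → X) (β : X) (hX : 0 < Fintype.card X)
    (R : V → V → Prop) (hR : ∀ u v, R u v → u ≠ v)
    (hc : ∀ u ∈ S, ∀ v ∈ S, R u v → τ u ≠ τ v) (hD : Disjoint D S)
    (hcD : ∀ d ∈ D, ∀ s ∈ S, (R d s ∨ R s d) → τ s ≠ β) :
    |Pb (fun c : V → X => (∀ s ∈ S, c s = τ s) ∧ (∀ u v, R u v → c u ≠ c v) ∧ ∃ d ∈ D, c d = β)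
      - (D.card : ℝ) * ((Fintype.card X : ℝ)⁻¹) ^ (S.card + 1)|
      ≤ ((Fintype.card V : ℝ) ^ 3 + (Fintype.card V : ℝ) ^ 2) *
        ((Fintype.card X : ℝ)⁻¹) ^ (S.card + 2) := by
  classical
  set y : ℝ := (Fintype.card X : ℝ)⁻¹ with hy
  have hy0 : 0 ≤ y := by positivity
  have hup : Pb (fun c : V → X => (∀ s ∈ S, c s = τ s) ∧ (∀ u v, R u v → c u ≠ c v) ∧
      ∃ d ∈ D, c d = β) ≤ (D.card : ℝ) * y ^ (S.card + 1) := by
    refine (Pb_sum_le D (fun d c => (∀ s ∈ S, c s = τ s) ∧ c d = β) _ ?_).trans ?_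
    · rintro c ⟨h1, h2, d, hd, h3⟩
      exact ⟨d, hd, h1, h3⟩
    · rw [← nsmul_eq_mul, ← Finset.sum_const]
      apply Finset.sum_le_sum
      intro d hd
      have hdS : d ∉ S := fun h => (Finset.disjoint_left.1 hD) hd h
      rw [← Finset.card_insert_of_notMem hdS]
      apply Pb_fix_le (insert d S) (Function.update τ d β) hX
      rintro c ⟨h1, h2⟩ v hv
      by_cases hvd : v = d
      · subst hvd; simpa using h2
      · rw [Function.update_of_ne hvd]
        exact h1 v ((Finset.mem_insert.1 hv).resolve_left hvd)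
  have hlow1 : ∀ d ∈ D, y ^ (S.card + 1) - (Fintype.card V : ℝ) ^ 2 * y ^ (S.card + 2)
      ≤ Pb (fun c : V → X => (∀ s ∈ S, c s = τ s) ∧ (∀ u v, R u v → c u ≠ c v) ∧ c d = β) := by
    intro d hd
    have hdS : d ∉ S := fun h => (Finset.disjoint_left.1 hD) hd h
    have h1 := Pb_ge (insert d S) (Function.update τ d β) hX R hR (by
      intro u hu v hv huv
      by_cases hud : u = d
      · by_cases hvd : v = d
        · exact absurd (hud.trans hvd.symm) (hR u v huv)
        · rw [Function.update_of_ne hvd, hud, Function.update_self]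
          subst hud
          exact (hcD u hd v ((Finset.mem_insert.1 hv).resolve_left hvd) (Or.inl huv)).symm
      · by_cases hvd : v = d
        · rw [Function.update_of_ne hud, hvd, Function.update_self]
          subst hvd
          exact (hcD v hd u ((Finset.mem_insert.1 hu).resolve_left hud) (Or.inr huv))
        · rw [Function.update_of_ne hvd, Function.update_of_ne hud]
          exact hc u ((Finset.mem_insert.1 hu).resolve_left hud) v
            ((Finset.mem_insert.1 hv).resolve_left hvd) huv)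
    rw [Finset.card_insert_of_notMem hdS] at h1
    refine h1.trans (Pb_mono ?_)
    rintro c ⟨h2, h3⟩
    refine ⟨?_, h3, ?_⟩
    · intro s hs
      have : s ≠ d := fun h => hdS (h ▸ hs)
      have h4 := h2 s (Finset.mem_insert_of_mem hs)
      rwa [Function.update_of_ne this] at h4
    · have := h2 d (Finset.mem_insert_self d S)
      simpa using this
  have hpair : ∀ d ∈ D, ∀ d' ∈ D, d ≠ d' →
      Pb (fun c : V → X => (∀ s ∈ S, c s = τ s) ∧ c d = β ∧ c d' = β) ≤ y ^ (S.card + 2) := by
    intro d hd d' hd' hne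
    have hdS : d ∉ S := fun h => (Finset.disjoint_left.1 hD) hd h
    have hdS' : d' ∉ S := fun h => (Finset.disjoint_left.1 hD) hd' h
    have hcard : (insert d (insert d' S)).card = S.card + 2 := by
      rw [Finset.card_insert_of_notMem, Finset.card_insert_of_notMem hdS']
      simp [hne, hdS]
    rw [← hcard]
    apply Pb_fix_le _ (Function.update (Function.update τ d β) d' β) hX
    rintro c ⟨h1, h2, h3⟩ v hv
    by_cases hvd' : v = d'
    · subst hvd'; simpa using h3
    · rw [Function.update_of_ne hvd']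
      by_cases hvd : v = d
      · subst hvd; simpa using h2
      · rw [Function.update_of_ne hvd]
        apply h1
        simpa [hvd, hvd'] using hv
  -- pointwise Bonferroni
  have hbon : ∑ d ∈ D, Pb (fun c : V → X => (∀ s ∈ S, c s = τ s) ∧ (∀ u v, R u v → c u ≠ c v) ∧ c d = β)
      ≤ Pb (fun c : V → X => (∀ s ∈ S, c s = τ s) ∧ (∀ u v, R u v → c u ≠ c v) ∧ ∃ d ∈ D, c d = β)
        + ∑ p ∈ D.offDiag, Pb (fun c : V → X => (∀ s ∈ S, c s = τ s) ∧ c p.1 = β ∧ c p.2 = β) := by
    unfold Pb
    rw [← Finset.sum_div, ← Finset.sum_div, ← add_div]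
    apply div_le_div_of_nonneg_right _ (by positivity)
    rw [Finset.sum_comm, Finset.sum_comm (s := D.offDiag), ← Finset.sum_add_distrib]
    apply Finset.sum_le_sum
    intro c _
    by_cases h12 : (∀ s ∈ S, c s = τ s) ∧ ∀ u v, R u v → c u ≠ c v
    swap
    · rw [Finset.sum_eq_zero (fun d _ => ind_neg (fun h => h12 ⟨h.1, h.2.1⟩))]
      exact add_nonneg (ind_nonneg _) (Finset.sum_nonneg fun j _ => ind_nonneg _)
    obtain ⟨h1, h2⟩ := h12
    set D' := D.filter (fun d => c d = β) with hD'
    have e1 : (∑ d ∈ D, ind ((∀ s ∈ S, c s = τ s) ∧ (∀ u v, R u v → c u ≠ c v) ∧ c d = β))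
        = (D'.card : ℝ) := by
      rw [sum_ind]
      congr 2
      ext d
      simp only [Finset.mem_filter, hD']
      tauto
    have e2 : (∑ p ∈ D.offDiag, ind ((∀ s ∈ S, c s = τ s) ∧ c p.1 = β ∧ c p.2 = β))
        = ((D'.offDiag).card : ℝ) := by
      rw [sum_ind]
      congr 2
      ext ⟨d, d'⟩
      simp only [Finset.mem_filter, Finset.mem_offDiag, hD']
      tauto
    rw [e1, e2, Finset.offDiag_card]
    by_cases h3 : ∃ d ∈ D, c d = β
    · rw [ind_pos ⟨h1, h2, h3⟩]
      have h5 : D'.card ≤ D'.card * D'.card := Nat.le_mul_self _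
      rw [Nat.cast_sub h5]
      push_cast
      have : ((D'.card : ℝ) - 1) ^ 2 ≥ 0 := sq_nonneg _
      nlinarith
    · have h5 : D'.card = 0 := by
        rw [Finset.card_eq_zero, hD', Finset.filter_eq_empty_iff]
        intro d hd h6
        exact h3 ⟨d, hd, h6⟩
      rw [ind_neg (fun h => h3 h.2.2), h5]
      simp
  have hDn : (D.card : ℝ) ≤ (Fintype.card V : ℝ) := by exact_mod_cast Finset.card_le_univ D
  have hlow2 : (D.card : ℝ) * (y ^ (S.card + 1) - (Fintype.card V : ℝ) ^ 2 * y ^ (S.card + 2))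
      ≤ ∑ d ∈ D, Pb (fun c : V → X => (∀ s ∈ S, c s = τ s) ∧ (∀ u v, R u v → c u ≠ c v) ∧ c d = β) := by
    rw [← nsmul_eq_mul, ← Finset.sum_const]
    exact Finset.sum_le_sum hlow1
  have hpairs : ∑ p ∈ D.offDiag, Pb (fun c : V → X => (∀ s ∈ S, c s = τ s) ∧ c p.1 = β ∧ c p.2 = β)
      ≤ (Fintype.card V : ℝ) ^ 2 * y ^ (S.card + 2) := by
    calc _ ≤ ∑ p ∈ D.offDiag, y ^ (S.card + 2) := by
          apply Finset.sum_le_sum
          rintro ⟨d, d'⟩ h
          rw [Finset.mem_offDiag] at h
          exact hpair d h.1 d' h.2.1 h.2.2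
      _ = (D.offDiag.card : ℝ) * y ^ (S.card + 2) := by rw [Finset.sum_const, nsmul_eq_mul]
      _ ≤ (Fintype.card V : ℝ) ^ 2 * y ^ (S.card + 2) := by
          apply mul_le_mul_of_nonneg_right _ (by positivity)
          have : D.offDiag.card ≤ Fintype.card V ^ 2 := by
            rw [Finset.offDiag_card]
            have := Finset.card_le_univ D
            calc D.card * D.card - D.card ≤ D.card * D.card := Nat.sub_le _ _
              _ ≤ Fintype.card V ^ 2 := by rw [sq]; exact Nat.mul_le_mul this this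
          exact_mod_cast this
  have hyk : 0 ≤ y ^ (S.card + 2) := by positivity
  have hn2 : (0 : ℝ) ≤ (Fintype.card V : ℝ) ^ 2 := by positivity
  have h7 : (D.card : ℝ) * ((Fintype.card V : ℝ) ^ 2 * y ^ (S.card + 2))
      ≤ (Fintype.card V : ℝ) ^ 3 * y ^ (S.card + 2) := by
    rw [← mul_assoc]
    apply mul_le_mul_of_nonneg_right _ hyk
    calc (D.card : ℝ) * (Fintype.card V : ℝ) ^ 2 ≤ (Fintype.card V : ℝ) * (Fintype.card V : ℝ) ^ 2 :=
          mul_le_mul_of_nonneg_right hDn hn2
      _ = _ := by ring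
  rw [abs_le]
  constructor
  · rw [add_mul]
    have h8 : (D.card : ℝ) * (y ^ (S.card + 1) - (Fintype.card V : ℝ) ^ 2 * y ^ (S.card + 2))
      = (D.card : ℝ) * y ^ (S.card + 1) - (D.card : ℝ) * ((Fintype.card V : ℝ) ^ 2 * y ^ (S.card + 2)) := by
      ring
    linarith
  · have : 0 ≤ ((Fintype.card V : ℝ) ^ 3 + (Fintype.card V : ℝ) ^ 2) * y ^ (S.card + 2) := by positivity
    linarith


lemma exists_perm {W X : Type} [Finite X] (f g : W → X) (h : ∀ u v, f u = f v ↔ g u = g v) :
    ∃ σ : Equiv.Perm X, ∀ v, σ (f v) = g v := by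
  classical
  haveI := Fintype.ofFinite X
  have hf : ∀ x : {x // x ∈ Set.range f}, ∃ v, f v = x.1 := fun x => x.2
  have hg : ∀ x : {x // x ∈ Set.range g}, ∃ v, g v = x.1 := fun x => x.2
  choose F hF using hf
  choose Gg hG using hg
  let e : {x // x ∈ Set.range f} ≃ {x // x ∈ Set.range g} :=
    { toFun := fun x => ⟨g (F x), ⟨_, rfl⟩⟩
      invFun := fun x => ⟨f (Gg x), ⟨_, rfl⟩⟩
      left_inv := by
        intro x
        apply Subtype.ext
        show f (Gg ⟨g (F x), _⟩) = x.1
        rw [← hF x]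
        rw [h]
        exact hG _
      right_inv := by
        intro x
        apply Subtype.ext
        show g (F ⟨f (Gg x), _⟩) = x.1
        rw [← hG x]
        rw [← h]
        exact hF _ }
  refine ⟨e.extendSubtype, fun v => ?_⟩
  rw [Equiv.extendSubtype_apply_of_mem e (f v) ⟨v, rfl⟩]
  show g (F ⟨f v, _⟩) = g v
  rw [← h]
  exact hF _

/-- proportion of the proper colourings which agree with `ρ` on `T` -/
noncomputable def A (G : SimpleGraph V) (T : Finset V) (ρ : V → X) : ℝ :=
  Pb (fun c : V → X => (∀ s ∈ T, c s = ρ s) ∧ ∀ u v, G.Adj u v → c u ≠ c v)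

lemma A_congr (G : SimpleGraph V) (T : Finset V) (ρ ρ' : V → X)
    (h : ∀ u ∈ T, ∀ v ∈ T, (ρ u = ρ v ↔ ρ' u = ρ' v)) : A G T ρ = A G T ρ' := by
  obtain ⟨σ, hσ⟩ := exists_perm (fun v : {v // v ∈ T} => ρ v.1) (fun v => ρ' v.1)
    (fun u v => h u.1 u.2 v.1 v.2)
  unfold A
  rw [← Pb_perm σ (fun c : V → X => (∀ s ∈ T, c s = ρ' s) ∧ ∀ u v, G.Adj u v → c u ≠ c v)]
  apply Pb_congr
  intro c
  have h1 : (∀ s ∈ T, c s = ρ s) ↔ ∀ s ∈ T, σ (c s) = ρ' s := by
    constructor
    · intro h2 s hs
      rw [h2 s hs]; exact hσ ⟨s, hs⟩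
    · intro h2 s hs
      have h3 := h2 s hs
      have h4 := hσ ⟨s, hs⟩
      rw [← h4] at h3
      exact σ.injective h3
  have h2 : (∀ u v, G.Adj u v → c u ≠ c v) ↔ ∀ u v, G.Adj u v → σ (c u) ≠ σ (c v) := by
    constructor
    · intro h3 u v huv h4
      exact h3 u v huv (σ.injective h4)
    · intro h3 u v huv h4
      exact h3 u v huv (by rw [h4])
  show ((∀ s ∈ T, c s = ρ s) ∧ ∀ u v, G.Adj u v → c u ≠ c v) ↔
    ((∀ s ∈ T, σ (c s) = ρ' s) ∧ ∀ u v, G.Adj u v → σ (c u) ≠ σ (c v))
  rw [h1, h2]

/-- inclusion-exclusion -/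
lemma Pb_ie (G : SimpleGraph V) (ρ : V → X) :
    Pb (fun c : V → X => (∀ u v, G.Adj u v → c u ≠ c v) ∧ ∀ v, c v ≠ ρ v)
      = ∑ T : Finset V, (-1 : ℝ) ^ T.card * A G T ρ := by
  unfold A Pb
  simp_rw [← mul_div_assoc]
  rw [← Finset.sum_div]
  congr 1
  simp_rw [Finset.mul_sum]
  rw [Finset.sum_comm]
  apply Finset.sum_congr rfl
  intro c _
  by_cases hp : ∀ u v, G.Adj u v → c u ≠ c v
  · have h1 : ∀ T : Finset V, ind ((∀ s ∈ T, c s = ρ s) ∧ ∀ u v, G.Adj u v → c u ≠ c v)
        = ∏ s ∈ T, ind (c s = ρ s) := by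
      intro T
      by_cases hT : ∀ s ∈ T, c s = ρ s
      · rw [ind_pos ⟨hT, hp⟩, Finset.prod_congr rfl (fun s hs => ind_pos (hT s hs))]
        simp
      · rw [ind_neg (fun h => hT h.1)]
        push Not at hT
        obtain ⟨s, hs, hsn⟩ := hT
        rw [Finset.prod_eq_zero hs (ind_neg hsn)]
    have h2 : ind ((∀ u v, G.Adj u v → c u ≠ c v) ∧ ∀ v, c v ≠ ρ v)
        = ∏ s : V, (-ind (c s = ρ s) + 1) := by
      by_cases hT : ∀ v, c v ≠ ρ v
      · rw [ind_pos ⟨hp, hT⟩, Finset.prod_congr rfl
          (fun s _ => by rw [ind_neg (hT s)] : ∀ s ∈ univ, -ind (c s = ρ s) + 1 = -0 + 1)]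
        simp
      · rw [ind_neg (fun h => hT h.2)]
        push Not at hT
        obtain ⟨s, hs⟩ := hT
        rw [Finset.prod_eq_zero (Finset.mem_univ s) (by rw [ind_pos hs]; norm_num)]
    rw [h2, Fintype.prod_add]
    apply Finset.sum_congr rfl
    intro T _
    rw [h1, Finset.prod_const_one, mul_one, Finset.prod_neg]
  · rw [ind_neg (fun h => hp h.1), Finset.sum_eq_zero]
    intro T _
    rw [ind_neg (fun h => hp h.2), mul_zero]

lemma A_nonneg (G : SimpleGraph V) (T : Finset V) (ρ : V → X) : 0 ≤ A G T ρ := Pb_nonneg _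

lemma A_le (G : SimpleGraph V) (T : Finset V) (ρ : V → X) (hX : 0 < Fintype.card X) :
    A G T ρ ≤ ((Fintype.card X : ℝ)⁻¹) ^ T.card :=
  Pb_fix_le T ρ hX _ (fun _ h => h.1)

lemma A_ge (G : SimpleGraph V) (T : Finset V) (ρ : V → X) (hX : 0 < Fintype.card X)
    (hρ : ∀ u v, G.Adj u v → ρ u ≠ ρ v) :
    ((Fintype.card X : ℝ)⁻¹) ^ T.card -
      (Fintype.card V : ℝ) ^ 2 * ((Fintype.card X : ℝ)⁻¹) ^ (T.card + 1) ≤ A G T ρ :=
  Pb_ge T ρ hX G.Adj (fun _ _ h => h.ne) (fun u _ v _ h => hρ u v h)

/-- change of the colour of one vertex by a permutation of the colours -/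
lemma Pb_swap (w : V) (σ : Equiv.Perm X) (Q : (V → X) → Prop) :
    Pb (fun c => Q (Function.update c w (σ (c w)))) = Pb Q := by
  unfold Pb
  congr 1
  refine Fintype.sum_equiv
    { toFun := fun c => Function.update c w (σ (c w))
      invFun := fun c => Function.update c w (σ.symm (c w))
      left_inv := fun c => by simp
      right_inv := fun c => by simp } _ _ (fun c => rfl)

lemma Pb_sub (Q E : (V → X) → Prop) :
    Pb (fun c => Q c ∧ ¬ E c) = Pb Q - Pb (fun c => Q c ∧ E c) := by
  unfold Pb
  rw [← sub_div, ← Finset.sum_sub_distrib]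
  congr 1
  apply Finset.sum_congr rfl
  intro c _
  by_cases hQ : Q c
  · by_cases hE : E c
    · rw [ind_neg (fun h => h.2 hE), ind_pos hQ, ind_pos ⟨hQ, hE⟩]; norm_num
    · rw [ind_pos ⟨hQ, hE⟩, ind_pos hQ, ind_neg (fun h => hE h.2)]; norm_num
  · rw [ind_neg (fun h => hQ h.1), ind_neg hQ, ind_neg (fun h => hQ h.1)]; norm_num

lemma pair_est (G : SimpleGraph V) {u w : V} (huw : u ≠ w) (hna : ¬ G.Adj u w) (ρ ρ' : V → X)
    (hX : 0 < Fintype.card X) (h1 : ρ u = ρ w) (h2 : ρ' u ≠ ρ' w) :
    |A G {u, w} ρ - A G {u, w} ρ' - (codeg G u w : ℝ) * ((Fintype.card X : ℝ)⁻¹) ^ 3|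
      ≤ 2 * ((Fintype.card V : ℝ) ^ 3 + (Fintype.card V : ℝ) ^ 2) *
        ((Fintype.card X : ℝ)⁻¹) ^ 4 := by
  classical
  set a := ρ' u with ha
  set b := ρ' w with hb
  set τ : V → X := fun _ => a with hτ
  have e1 : A G {u, w} ρ = A G {u, w} τ := by
    apply A_congr
    intro s hs t ht
    simp only [Finset.mem_insert, Finset.mem_singleton] at hs ht
    rcases hs with rfl | rfl <;> rcases ht with rfl | rfl <;> simp [h1, hτ]
  set R : V → V → Prop := fun s t => G.Adj s t ∧ s ≠ w ∧ t ≠ w with hR
  have hRne : ∀ s t, R s t → s ≠ t := fun s t h => h.1.ne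
  set D := univ.filter (fun v => G.Adj w v) with hD
  set D' := univ.filter (fun v => G.Adj w v ∧ ¬ G.Adj u v) with hD'
  have cS : ({u, w} : Finset V).card = 2 := Finset.card_pair huw
  have e2 : A G {u, w} τ = Pb (fun c : V → X => (∀ s ∈ ({u, w} : Finset V), c s = τ s) ∧
      ∀ s t, R s t → c s ≠ c t) - Pb (fun c : V → X => (∀ s ∈ ({u, w} : Finset V), c s = τ s) ∧
      (∀ s t, R s t → c s ≠ c t) ∧ ∃ d ∈ D', c d = a) := by
    have := Pb_sub (V := V) (X := X) (fun c : V → X => (∀ s ∈ ({u, w} : Finset V), c s = τ s) ∧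
      ∀ s t, R s t → c s ≠ c t) (fun c => ∃ d ∈ D', c d = a)
    simp only [and_assoc] at this
    rw [← this]
    unfold A
    apply Pb_congr
    intro c
    constructor
    · rintro ⟨h3, h4⟩
      refine ⟨h3, fun s t hst => h4 s t hst.1, ?_⟩
      rintro ⟨d, hd, hda⟩
      simp only [hD', Finset.mem_filter, Finset.mem_univ, true_and] at hd
      apply h4 w d hd.1
      rw [hda]
      exact h3 w (by simp)
    · rintro ⟨h3, h4, h5⟩
      refine ⟨h3, ?_⟩
      have hu : c u = a := h3 u (by simp)
      have hw : c w = a := h3 w (by simp)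
      have key : ∀ d, G.Adj w d → c d ≠ a := by
        intro d hd hda
        by_cases hud : G.Adj u d
        · exact h4 u d ⟨hud, huw, hd.ne.symm⟩ (by rw [hu, hda])
        · exact h5 ⟨d, by simp [hD', hd, hud], hda⟩
      intro s t hst
      by_cases hs : s = w
      · subst hs
        rw [hw]; exact (key t hst).symm
      · by_cases ht : t = w
        · subst ht
          rw [hw]; exact key s hst.symm
        · exact h4 s t ⟨hst, hs, ht⟩
  have e3 : A G {u, w} ρ' = Pb (fun c : V → X => (∀ s ∈ ({u, w} : Finset V), c s = τ s) ∧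
      ∀ s t, R s t → c s ≠ c t) - Pb (fun c : V → X => (∀ s ∈ ({u, w} : Finset V), c s = τ s) ∧
      (∀ s t, R s t → c s ≠ c t) ∧ ∃ d ∈ D, c d = b) := by
    have := Pb_sub (V := V) (X := X) (fun c : V → X => (∀ s ∈ ({u, w} : Finset V), c s = τ s) ∧
      ∀ s t, R s t → c s ≠ c t) (fun c => ∃ d ∈ D, c d = b)
    simp only [and_assoc] at this
    rw [← this]
    unfold A
    rw [← Pb_swap w (Equiv.swap a b)]
    apply Pb_congr
    intro c
    have hval : ∀ s, s ≠ w → Function.update c w ((Equiv.swap a b) (c w)) s = c s :=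
      fun s hs => Function.update_of_ne hs _ _
    have hself : Function.update c w ((Equiv.swap a b) (c w)) w = (Equiv.swap a b) (c w) :=
      Function.update_self _ _ _
    constructor
    · rintro ⟨h3, h4⟩
      have hu : c u = a := by
        have := h3 u (by simp)
        rw [hval u huw] at this
        rw [this]
      have hw' : (Equiv.swap a b) (c w) = b := by
        have := h3 w (by simp)
        rw [hself] at this
        rw [this]
      have hw : c w = a := by
        have := congrArg (Equiv.swap a b) hw'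
        simpa using this
      refine ⟨?_, ?_, ?_⟩
      · intro s hs
        simp only [Finset.mem_insert, Finset.mem_singleton] at hs
        rcases hs with rfl | rfl
        · exact hu
        · exact hw
      · rintro s t ⟨hst, hs, ht⟩
        have := h4 s t hst
        rwa [hval s hs, hval t ht] at this
      · rintro ⟨d, hd, hdb⟩
        simp only [hD, Finset.mem_filter, Finset.mem_univ, true_and] at hd
        have := h4 w d hd
        rw [hself, hval d hd.ne.symm, hw', hdb] at this
        exact this rfl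
    · rintro ⟨h3, h4, h5⟩
      have hu : c u = a := h3 u (by simp)
      have hw : c w = a := h3 w (by simp)
      have hw' : (Equiv.swap a b) (c w) = b := by rw [hw]; simp
      have key : ∀ d, G.Adj w d → c d ≠ b := by
        intro d hd hdb
        exact h5 ⟨d, by simp [hD, hd], hdb⟩
      refine ⟨?_, ?_⟩
      · intro s hs
        simp only [Finset.mem_insert, Finset.mem_singleton] at hs
        rcases hs with rfl | rfl
        · rw [hval _ huw]; exact hu
        · rw [hself]; exact hw'
      · intro s t hst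
        by_cases hs : s = w
        · subst hs
          rw [hself, hval t hst.ne.symm, hw']; exact (key t hst).symm
        · by_cases ht : t = w
          · subst ht
            rw [hself, hval s hs, hw']; exact key s hst.symm
          · rw [hval s hs, hval t ht]
            exact h4 s t ⟨hst, hs, ht⟩
  have hcompat : ∀ s ∈ ({u, w} : Finset V), ∀ t ∈ ({u, w} : Finset V), R s t → τ s ≠ τ t := by
    intro s hs t ht hst
    simp only [Finset.mem_insert, Finset.mem_singleton] at hs ht
    rcases hs with rfl | rfl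
    · rcases ht with rfl | rfl
      · exact absurd rfl (hRne _ _ hst)
      · exact absurd rfl hst.2.2
    · exact absurd rfl hst.2.1
  have e4 := Pb_union ({u, w} : Finset V) D τ b hX R hRne hcompat (by
    rw [Finset.disjoint_left]
    intro d hd hdS
    simp only [hD, Finset.mem_filter, Finset.mem_univ, true_and] at hd
    simp only [Finset.mem_insert, Finset.mem_singleton] at hdS
    rcases hdS with rfl | rfl
    · exact hna hd.symm
    · exact hd.ne rfl) (fun d _ s _ _ => h2)
  have e5 := Pb_union ({u, w} : Finset V) D' τ a hX R hRne hcompat (by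
    rw [Finset.disjoint_left]
    intro d hd hdS
    simp only [hD', Finset.mem_filter, Finset.mem_univ, true_and] at hd
    simp only [Finset.mem_insert, Finset.mem_singleton] at hdS
    rcases hdS with rfl | rfl
    · exact hna hd.1.symm
    · exact hd.1.ne rfl) (by
    intro d hd s hs h
    simp only [hD', Finset.mem_filter, Finset.mem_univ, true_and] at hd
    simp only [Finset.mem_insert, Finset.mem_singleton] at hs
    exfalso
    rcases hs with rfl | rfl
    · rcases h with h | h
      · exact hd.2 h.1.symm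
      · exact hd.2 h.1
    · rcases h with h | h
      · exact h.2.2 rfl
      · exact h.2.1 rfl)
  rw [cS] at e4 e5
  have e6 : (codeg G u w : ℝ) = (D.card : ℝ) - (D'.card : ℝ) := by
    have h3 : codeg G u w = (univ.filter (fun v => G.Adj u v ∧ G.Adj w v)).card := by
      unfold codeg
      rw [Nat.card_eq_fintype_card, Fintype.card_subtype]
    have h4 : (univ.filter (fun v => G.Adj u v ∧ G.Adj w v)).card + D'.card = D.card := by
      rw [← Finset.card_union_of_disjoint]
      · congr 1
        ext v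
        simp only [hD, hD', Finset.mem_union, Finset.mem_filter, Finset.mem_univ, true_and]
        tauto
      · rw [Finset.disjoint_left]
        intro v hv hv'
        simp only [hD', Finset.mem_filter, Finset.mem_univ, true_and] at hv hv'
        exact hv'.2 hv.1
    rw [h3, ← h4]
    push_cast
    ring
  rw [e1, e2, e3, e6]
  rw [abs_le] at e4 e5 ⊢
  constructor
  · linarith [e4.1, e4.2, e5.1, e5.2]
  · linarith [e4.1, e4.2, e5.1, e5.2]


/-- codegree of a monochromatic pair -/
noncomputable def mm (G : SimpleGraph V) (T : Finset V) {Y : Type} (ρ : V → Y) : ℝ :=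
  ind (T.card = 2 ∧ ∀ u ∈ T, ∀ v ∈ T, ρ u = ρ v) * (Nat.card {v : V // ∀ u ∈ T, G.Adj u v} : ℝ)

lemma mm_zero (G : SimpleGraph V) (T : Finset V) {Y : Type} (ρ : V → Y) (h : T.card ≠ 2) :
    mm G T ρ = 0 := by
  unfold mm
  rw [ind_neg (fun h' => h h'.1), zero_mul]

lemma mm_pair (G : SimpleGraph V) {u w : V} (huw : u ≠ w) {Y : Type} (ρ : V → Y) :
    mm G {u, w} ρ = ind (ρ u = ρ w) * (codeg G u w : ℝ) := by
  unfold mm codeg
  have h1 : ind (({u, w} : Finset V).card = 2 ∧
      ∀ s ∈ ({u, w} : Finset V), ∀ t ∈ ({u, w} : Finset V), ρ s = ρ t) = ind (ρ u = ρ w) := by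
    by_cases h : ρ u = ρ w
    · rw [ind_pos h, ind_pos]
      refine ⟨Finset.card_pair huw, ?_⟩
      intro s hs t ht
      simp only [Finset.mem_insert, Finset.mem_singleton] at hs ht
      rcases hs with rfl | rfl <;> rcases ht with rfl | rfl <;> simp [h]
    · rw [ind_neg h, ind_neg]
      intro h'
      exact h (h'.2 u (by simp) w (by simp))
  rw [h1]
  congr 2
  apply Nat.card_congr
  exact Equiv.subtypeEquivRight (fun v => by simp)

/-- constant -/
noncomputable def C0 (V : Type) [Fintype V] : ℝ :=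
  2 * ((Fintype.card V : ℝ) ^ 3 + (Fintype.card V : ℝ) ^ 2) + 2 * (Fintype.card V : ℝ) ^ 2 + 1

lemma C0_pos : 0 < C0 V := by unfold C0; positivity

lemma term_est (G : SimpleGraph V) (T : Finset V) (ρ ρ' : V → X) (hX : 0 < Fintype.card X)
    (hρ : ∀ u v, G.Adj u v → ρ u ≠ ρ v) (hρ' : ∀ u v, G.Adj u v → ρ' u ≠ ρ' v) :
    |(-1 : ℝ) ^ T.card * A G T ρ - (-1 : ℝ) ^ T.card * A G T ρ'
      - (mm G T ρ - mm G T ρ') * ((Fintype.card X : ℝ)⁻¹) ^ 3|
      ≤ C0 V * ((Fintype.card X : ℝ)⁻¹) ^ 4 := by
  set y : ℝ := (Fintype.card X : ℝ)⁻¹ with hy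
  have hy0 : 0 ≤ y := by positivity
  have hy1 : y ≤ 1 := by
    rw [hy]
    apply inv_le_one_of_one_le₀
    exact_mod_cast hX
  have hy4 : 0 ≤ y ^ 4 := by positivity
  have hCy : 0 ≤ C0 V * y ^ 4 := mul_nonneg C0_pos.le hy4
  have hn2 : (0 : ℝ) ≤ (Fintype.card V : ℝ) ^ 2 := by positivity
  have hn3 : (0 : ℝ) ≤ (Fintype.card V : ℝ) ^ 3 := by positivity
  rw [← mul_sub]
  have habs : |(-1 : ℝ) ^ T.card * (A G T ρ - A G T ρ')| = |A G T ρ - A G T ρ'| := by
    rw [abs_mul, abs_pow, abs_neg, abs_one, one_pow, one_mul]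
  rcases lt_trichotomy T.card 2 with h | h | h
  · have hA : A G T ρ = A G T ρ' := by
      apply A_congr
      intro u hu v hv
      have : u = v := Finset.card_le_one.1 (by omega) u hu v hv
      subst this
      simp
    rw [mm_zero G T ρ (by omega), mm_zero G T ρ' (by omega), hA]
    simpa using hCy
  · obtain ⟨u, w, huw, rfl⟩ := Finset.card_eq_two.1 h
    rw [h]
    have hsame : (ρ u = ρ w ↔ ρ' u = ρ' w) → A G {u, w} ρ = A G {u, w} ρ' := by
      intro h3
      apply A_congr
      intro s hs t ht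
      simp only [Finset.mem_insert, Finset.mem_singleton] at hs ht
      rcases hs with rfl | rfl <;> rcases ht with rfl | rfl
      · simp
      · exact h3
      · rw [eq_comm, h3, eq_comm]
      · simp
    have hC : 2 * ((Fintype.card V : ℝ) ^ 3 + (Fintype.card V : ℝ) ^ 2) * y ^ 4 ≤ C0 V * y ^ 4 := by
      apply mul_le_mul_of_nonneg_right _ hy4
      unfold C0
      linarith
    rw [mm_pair G huw, mm_pair G huw]
    by_cases h1 : ρ u = ρ w
    · by_cases h2 : ρ' u = ρ' w
      · rw [ind_pos h1, ind_pos h2, hsame (by simp [h1, h2])]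
        simpa using hCy
      · rw [ind_pos h1, ind_neg h2]
        have hna : ¬ G.Adj u w := fun h3 => hρ u w h3 h1
        have h4 := pair_est G huw hna ρ ρ' hX h1 h2
        refine le_trans (le_of_eq ?_) (h4.trans hC)
        congr 1
        ring
    · by_cases h2 : ρ' u = ρ' w
      · rw [ind_neg h1, ind_pos h2]
        have hna : ¬ G.Adj u w := fun h3 => hρ' u w h3 h2
        have h4 := pair_est G huw hna ρ' ρ hX h2 h1
        refine le_trans (le_of_eq ?_) (h4.trans hC)
        rw [← abs_neg]
        congr 1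
        ring
      · rw [ind_neg h1, ind_neg h2, hsame (by simp [h1, h2])]
        simpa using hCy
  · rw [mm_zero G T ρ (by omega), mm_zero G T ρ' (by omega), sub_self, zero_mul, sub_zero, habs]
    have a1 := A_le G T ρ hX
    have a2 := A_le G T ρ' hX
    have a3 := A_nonneg G T ρ
    have a4 := A_nonneg G T ρ'
    rw [← hy] at a1 a2
    by_cases h3 : T.card = 3
    · have b1 := A_ge G T ρ hX hρ
      have b2 := A_ge G T ρ' hX hρ'
      rw [← hy, h3, show 3 + 1 = 4 from rfl] at b1 b2
      rw [h3] at a1 a2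
      have hC : (Fintype.card V : ℝ) ^ 2 * y ^ 4 ≤ C0 V * y ^ 4 := by
        apply mul_le_mul_of_nonneg_right _ hy4
        unfold C0
        linarith
      rw [abs_le]
      constructor <;> linarith
    · have h4 : y ^ T.card ≤ y ^ 4 := pow_le_pow_of_le_one hy0 hy1 (by omega)
      have hC : 1 * y ^ 4 ≤ C0 V * y ^ 4 := by
        apply mul_le_mul_of_nonneg_right _ hy4
        unfold C0
        linarith
      rw [abs_le]
      constructor <;> linarith

/-- comparison of two proper restraints -/
lemma Pb_est (G : SimpleGraph V) (ρ ρ' : V → X) (hX : 0 < Fintype.card X)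
    (hρ : ∀ u v, G.Adj u v → ρ u ≠ ρ v) (hρ' : ∀ u v, G.Adj u v → ρ' u ≠ ρ' v) :
    |Pb (fun c : V → X => (∀ u v, G.Adj u v → c u ≠ c v) ∧ ∀ v, c v ≠ ρ v)
      - Pb (fun c : V → X => (∀ u v, G.Adj u v → c u ≠ c v) ∧ ∀ v, c v ≠ ρ' v)
      - (∑ T : Finset V, mm G T ρ - ∑ T : Finset V, mm G T ρ') * ((Fintype.card X : ℝ)⁻¹) ^ 3|
      ≤ (2 : ℝ) ^ Fintype.card V * C0 V * ((Fintype.card X : ℝ)⁻¹) ^ 4 := by
  rw [Pb_ie, Pb_ie, ← Finset.sum_sub_distrib, ← Finset.sum_sub_distrib, Finset.sum_mul,
    ← Finset.sum_sub_distrib]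
  refine (Finset.abs_sum_le_sum_abs _ _).trans ?_
  refine (Finset.sum_le_sum (fun T _ => term_est G T ρ ρ' hX hρ hρ')).trans ?_
  rw [Finset.sum_const, nsmul_eq_mul, Finset.card_univ, Fintype.card_finset, ← mul_assoc]
  push_cast
  exact le_refl _

/-- comparison of an improper restraint with a proper one -/
lemma Pb_est' (G : SimpleGraph V) (ρ ρ' : V → X) (hX : 0 < Fintype.card X)
    (hρ' : Function.Injective ρ') {u w : V} (huw : G.Adj u w) (hρ : ρ u = ρ w) :
    ((Fintype.card X : ℝ)⁻¹) ^ 2 - (2 : ℝ) ^ Fintype.card V * C0 V * ((Fintype.card X : ℝ)⁻¹) ^ 3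
      ≤ Pb (fun c : V → X => (∀ u v, G.Adj u v → c u ≠ c v) ∧ ∀ v, c v ≠ ρ' v)
      - Pb (fun c : V → X => (∀ u v, G.Adj u v → c u ≠ c v) ∧ ∀ v, c v ≠ ρ v) := by
  set y : ℝ := (Fintype.card X : ℝ)⁻¹ with hy
  have hy0 : 0 ≤ y := by positivity
  have hy1 : y ≤ 1 := by
    rw [hy]
    apply inv_le_one_of_one_le₀
    exact_mod_cast hX
  have hy3 : 0 ≤ y ^ 3 := by positivity
  have hn2 : (0 : ℝ) ≤ (Fintype.card V : ℝ) ^ 2 := by positivity
  have hn3 : (0 : ℝ) ≤ (Fintype.card V : ℝ) ^ 3 := by positivity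
  have hprop : ∀ s t, G.Adj s t → ρ' s ≠ ρ' t := fun s t h h' => h.ne (hρ' h')
  rw [Pb_ie, Pb_ie, ← Finset.sum_sub_distrib]
  have hterm : ∀ T : Finset V, ind (T = {u, w}) * y ^ 2 - C0 V * y ^ 3 ≤
      (-1 : ℝ) ^ T.card * A G T ρ' - (-1 : ℝ) ^ T.card * A G T ρ := by
    intro T
    have a1 := A_le G T ρ hX
    have a2 := A_le G T ρ' hX
    have a3 := A_nonneg G T ρ
    have a4 := A_nonneg G T ρ'
    rw [← hy] at a1 a2
    rw [← mul_sub]
    have hCy : 0 ≤ C0 V * y ^ 3 := mul_nonneg C0_pos.le hy3
    rcases lt_trichotomy T.card 2 with h | h | h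
    · have hA : A G T ρ = A G T ρ' := by
        apply A_congr
        intro u hu v hv
        have : u = v := Finset.card_le_one.1 (by omega) u hu v hv
        subst this
        simp
      have hT : T ≠ {u, w} := by
        intro h'
        rw [h', Finset.card_pair huw.ne] at h
        omega
      rw [hA, ind_neg hT, sub_self]
      linarith
    · have b2 := A_ge G T ρ' hX hprop
      rw [← hy, h, show 2 + 1 = 3 from rfl] at b2
      rw [h] at a1
      have hC : (Fintype.card V : ℝ) ^ 2 * y ^ 3 ≤ C0 V * y ^ 3 := by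
        apply mul_le_mul_of_nonneg_right _ hy3
        unfold C0
        linarith
      rw [h]
      by_cases hT : T = {u, w}
      · have hz : A G T ρ = 0 := by
          apply Pb_false
          rintro c ⟨h1, h2⟩
          apply h2 u w huw
          rw [h1 u (by rw [hT]; simp), h1 w (by rw [hT]; simp), hρ]
        rw [ind_pos hT, hz]
        linarith
      · rw [ind_neg hT]
        have : (-1 : ℝ) ^ 2 = 1 := by norm_num
        rw [this]
        linarith
    · have hT : T ≠ {u, w} := by
        intro h'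
        rw [h', Finset.card_pair huw.ne] at h
        omega
      have h4 : y ^ T.card ≤ y ^ 3 := pow_le_pow_of_le_one hy0 hy1 (by omega)
      have hC : 1 * y ^ 3 ≤ C0 V * y ^ 3 := by
        apply mul_le_mul_of_nonneg_right _ hy3
        unfold C0
        linarith
      rw [ind_neg hT]
      have habs : |(-1 : ℝ) ^ T.card * (A G T ρ' - A G T ρ)| ≤ y ^ 3 := by
        rw [abs_mul, abs_pow, abs_neg, abs_one, one_pow, one_mul, abs_le]
        constructor <;> linarith
      rw [abs_le] at habs
      linarith [habs.1]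
  refine le_trans (le_of_eq ?_) (Finset.sum_le_sum (fun T _ => hterm T))
  rw [Finset.sum_sub_distrib, ← Finset.sum_mul, Finset.sum_const, nsmul_eq_mul, Finset.card_univ,
    Fintype.card_finset]
  have h5 : ∑ T : Finset V, ind (T = {u, w}) = 1 := by
    rw [Finset.sum_eq_single ({u, w} : Finset V)]
    · exact ind_pos rfl
    · intro T _ hT
      exact ind_neg hT
    · intro h; exact absurd (Finset.mem_univ _) h
  rw [h5]
  push_cast
  ring

/-- the codegree weight as a sum over pairs -/
lemma wt_eq (G : SimpleGraph V) (r : V → ℕ) : (wt G r : ℝ) = 2 * ∑ T : Finset V, mm G T r := by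
  classical
  unfold wt
  have h1 : ∑ u : V, ∑ w : V, (if u ≠ w ∧ r u = r w then codeg G u w else 0)
      = ∑ p ∈ (univ : Finset V).offDiag, (if r p.1 = r p.2 then codeg G p.1 p.2 else 0) := by
    rw [← Finset.sum_product', Finset.univ_product_univ]
    rw [← Finset.sum_subset (Finset.subset_univ ((univ : Finset V).offDiag))]
    · apply Finset.sum_congr rfl
      rintro ⟨u, w⟩ h
      rw [Finset.mem_offDiag] at h
      simp [h.2.2]
    · rintro ⟨u, w⟩ _ h
      rw [Finset.mem_offDiag] at h
      have : u = w := by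
        by_contra h'
        exact h ⟨Finset.mem_univ _, Finset.mem_univ _, h'⟩
      simp [this]
  rw [h1]
  have h2 : ∀ p ∈ (univ : Finset V).offDiag, ({p.1, p.2} : Finset V) ∈ Finset.powersetCard 2 univ := by
    rintro ⟨u, w⟩ h
    rw [Finset.mem_offDiag] at h
    rw [Finset.mem_powersetCard]
    exact ⟨Finset.subset_univ _, Finset.card_pair h.2.2⟩
  push_cast
  rw [← Finset.sum_fiberwise_of_maps_to h2]
  have h3 : ∑ T : Finset V, mm G T r = ∑ T ∈ Finset.powersetCard 2 univ, mm G T r := by
    symm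
    apply Finset.sum_subset (Finset.subset_univ _)
    intro T _ hT
    apply mm_zero
    intro h4
    exact hT (Finset.mem_powersetCard.2 ⟨Finset.subset_univ _, h4⟩)
  rw [h3, Finset.mul_sum]
  apply Finset.sum_congr rfl
  intro T hT
  obtain ⟨a, b, hab, rfl⟩ := Finset.card_eq_two.1 (Finset.mem_powersetCard.1 hT).2
  have h4 : ((univ : Finset V).offDiag).filter (fun p => ({p.1, p.2} : Finset V) = {a, b})
      = {(a, b), (b, a)} := by
    ext ⟨u, w⟩
    simp only [Finset.mem_filter, Finset.mem_offDiag, Finset.mem_univ, true_and,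
      Finset.mem_insert, Finset.mem_singleton, Prod.mk.injEq]
    constructor
    · rintro ⟨huw, h5⟩
      have hu : u = a ∨ u = b := by
        have : u ∈ ({a, b} : Finset V) := by rw [← h5]; simp
        simpa using this
      have hw : w = a ∨ w = b := by
        have : w ∈ ({a, b} : Finset V) := by rw [← h5]; simp
        simpa using this
      rcases hu with rfl | rfl <;> rcases hw with rfl | rfl
      · exact absurd rfl huw
      · exact Or.inl ⟨rfl, rfl⟩
      · exact Or.inr ⟨rfl, rfl⟩
      · exact absurd rfl huw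
    · rintro (⟨rfl, rfl⟩ | ⟨rfl, rfl⟩)
      · exact ⟨hab, rfl⟩
      · exact ⟨hab.symm, Finset.pair_comm _ _⟩
  rw [h4, Finset.sum_pair (by
    intro h5
    rw [Prod.mk.injEq] at h5
    exact hab h5.1), mm_pair G hab]
  have h6 : codeg G b a = codeg G a b := by
    unfold codeg
    apply Nat.card_congr
    exact Equiv.subtypeEquivRight (fun v => and_comm)
  rw [h6]
  by_cases h5 : r a = r b
  · rw [ind_pos h5, if_pos h5, if_pos h5.symm]; ring
  · rw [ind_neg h5, if_neg h5, if_neg (fun h => h5 h.symm)]; ring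

lemma rcount_eq (G : SimpleGraph V) (r : V → ℕ) {x : ℕ} (hx : 0 < x) (ρ : V → Fin x)
    (h : ∀ v, (ρ v : ℕ) = r v) :
    (rcount G r x : ℝ) = (x : ℝ) ^ Fintype.card V *
      Pb (fun c : V → Fin x => (∀ u v, G.Adj u v → c u ≠ c v) ∧ ∀ v, c v ≠ ρ v) := by
  classical
  unfold Pb rcount
  rw [Fintype.card_fin, mul_div_cancel₀]
  · rw [sum_ind, Nat.card_eq_fintype_card, Fintype.card_subtype]
    congr 2
    ext c
    simp only [Finset.mem_filter, Finset.mem_univ, true_and]
    constructor
    · rintro ⟨h1, h2⟩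
      refine ⟨h1, fun v h3 => h2 v ?_⟩
      rw [h3, h]
    · rintro ⟨h1, h2⟩
      refine ⟨h1, fun v h3 => h2 v ?_⟩
      apply Fin.ext
      rw [h3, h]
  · positivity


/-! ### the counts are eventually polynomials -/

/-- value of a term: a variable or a constant -/
def ev {W : Type} {x : ℕ} (c : W → Fin x) (s : W ⊕ ℕ) : ℕ := Sum.elim (fun w => (c w : ℕ)) id s

lemma poly_aux (l : ℕ) : ∀ (W : Type) [Fintype W] (L : List ((W ⊕ ℕ) × (W ⊕ ℕ))), L.length = l →
    ∃ p : Polynomial ℝ, ∀ᶠ x : ℕ in Filter.atTop,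
      (Nat.card {c : W → Fin x // ∀ q ∈ L, ev c q.1 ≠ ev c q.2} : ℝ) = p.eval (x : ℝ) := by
  classical
  induction l with
  | zero =>
    intro W _ L hL
    refine ⟨Polynomial.X ^ Fintype.card W, Filter.Eventually.of_forall fun x => ?_⟩
    rw [List.length_eq_zero_iff] at hL
    subst hL
    rw [Nat.card_eq_fintype_card, Fintype.card_subtype]
    simp
  | succ l ih =>
    intro W _ L hL
    obtain ⟨⟨s, t⟩, L, rfl⟩ : ∃ a L', L = a :: L' := by
      cases L with
      | nil => simp at hL
      | cons a L' => exact ⟨a, L', rfl⟩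
    have hL' : L.length = l := by simpa using hL
    obtain ⟨p, hp⟩ := ih W L hL'
    -- the case with equality
    have hq : ∃ q : Polynomial ℝ, ∀ᶠ x : ℕ in Filter.atTop,
        (Nat.card {c : W → Fin x // (∀ q ∈ L, ev c q.1 ≠ ev c q.2) ∧ ev c s = ev c t} : ℝ)
          = q.eval (x : ℝ) := by
      have merge : ∀ (v : W) (s : W ⊕ ℕ), s ≠ Sum.inl v → ∃ q : Polynomial ℝ,
          ∀ᶠ x : ℕ in Filter.atTop,
          (Nat.card {c : W → Fin x // (∀ q ∈ L, ev c q.1 ≠ ev c q.2) ∧ ev c s = (c v : ℕ)} : ℝ)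
          = q.eval (x : ℝ) := by
        intro v s hs
        let W' := {w : W // w ≠ v}
        -- substitution
        let s' : W' ⊕ ℕ := match s, hs with
          | Sum.inl w, h => Sum.inl ⟨w, fun h' => h (by rw [h'])⟩
          | Sum.inr a, _ => Sum.inr a
        let φ : W ⊕ ℕ → W' ⊕ ℕ := fun u => match u with
          | Sum.inl w => if h : w = v then s' else Sum.inl ⟨w, h⟩
          | Sum.inr a => Sum.inr a
        obtain ⟨q, hq⟩ := ih W' (L.map (fun a => (φ a.1, φ a.2))) (by simpa using hL')
        refine ⟨q, ?_⟩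
        have hbig : ∀ᶠ x : ℕ in Filter.atTop, ∀ a : ℕ, s = Sum.inr a → a < x := by
          rcases s with w | a
          · exact Filter.Eventually.of_forall fun x a h => by cases h
          · filter_upwards [Filter.eventually_gt_atTop a] with x hx b hb
            cases hb; exact hx
        filter_upwards [hq, hbig] with x hx hbx
        rw [← hx]
        congr 1
        -- evaluation of the substituted terms
        have hev : ∀ (c : W → Fin x), ev c s = (c v : ℕ) → ∀ u : W ⊕ ℕ,
            ev c u = ev (fun w : W' => c w.1) (φ u) := by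
          intro c hc u
          rcases u with w | a
          · by_cases h : w = v
            · subst h
              show (c w : ℕ) = ev (fun w : W' => c w.1) (φ (Sum.inl w))
              have : φ (Sum.inl w) = s' := by simp [φ]
              rw [this, ← hc]
              rcases s with w' | a
              · rfl
              · rfl
            · have : φ (Sum.inl w) = Sum.inl ⟨w, h⟩ := by simp [φ, h]
              rw [this]; rfl
          · rfl
        have hfin : ∀ c' : W' → Fin x, ∃ z : Fin x, (z : ℕ) = ev c' s' := by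
          intro c'
          rcases s with w | a
          · exact ⟨c' ⟨w, _⟩, rfl⟩
          · exact ⟨⟨a, hbx a rfl⟩, rfl⟩
        choose z hz using hfin
        let ext : (W' → Fin x) → (W → Fin x) := fun c' w => if h : w = v then z c' else c' ⟨w, h⟩
        have hext1 : ∀ c', (fun w : W' => ext c' w.1) = c' := by
          intro c'
          funext w
          simp [ext, w.2]
        have hext2 : ∀ c', ext c' v = z c' := by intro c'; simp [ext]
        have hext3 : ∀ c', ev (ext c') s = (ext c' v : ℕ) := by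
          intro c'
          rw [hext2, hz]
          rcases s with w | a
          · have hwv : w ≠ v := fun h' => hs (by rw [h'])
            show ((ext c' w : Fin x) : ℕ) = ((c' ⟨w, _⟩ : Fin x) : ℕ)
            simp [ext, hwv]
          · rfl
        have hmem : ∀ (c : W → Fin x), ev c s = (c v : ℕ) →
            ((∀ q ∈ L, ev c q.1 ≠ ev c q.2) ↔
            ∀ q ∈ L.map (fun a => (φ a.1, φ a.2)),
              ev (fun w : W' => c w.1) q.1 ≠ ev (fun w : W' => c w.1) q.2) := by
          intro c hc
          simp only [List.mem_map, forall_exists_index, and_imp, forall_apply_eq_imp_iff₂]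
          constructor
          · intro h a ha
            rw [← hev c hc, ← hev c hc]; exact h a ha
          · intro h a ha
            have := h a ha
            rwa [← hev c hc, ← hev c hc] at this
        apply Nat.card_congr
        exact
          { toFun := fun c => ⟨fun w : W' => c.1 w.1, (hmem c.1 c.2.2).1 c.2.1⟩
            invFun := fun c' => ⟨ext c'.1, (hmem (ext c'.1) (hext3 c'.1)).2 (by
              rw [hext1]; exact c'.2), hext3 c'.1⟩
            left_inv := by
              rintro ⟨c, h1, h2⟩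
              apply Subtype.ext
              funext w
              show ext (fun w : W' => c w.1) w = c w
              by_cases h : w = v
              · subst h
                rw [hext2]
                apply Fin.ext
                rw [hz, ← h2]
                rcases s with w' | a
                · rfl
                · rfl
              · simp [ext, h]
            right_inv := by
              rintro ⟨c', h⟩
              apply Subtype.ext
              exact hext1 c' }
      by_cases hst : s = t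
      · subst hst
        refine ⟨p, ?_⟩
        filter_upwards [hp] with x hx
        rw [← hx]
        congr 1
        apply Nat.card_congr
        exact Equiv.subtypeEquivRight (fun c => by simp)
      · rcases t with v | b
        · exact merge v s hst
        · rcases s with v | a
          · obtain ⟨q, hq⟩ := merge v (Sum.inr b) (by simp)
            refine ⟨q, ?_⟩
            filter_upwards [hq] with x hx
            rw [← hx]
            congr 1
            apply Nat.card_congr
            exact Equiv.subtypeEquivRight (fun c => by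
              show (_ ∧ (c v : ℕ) = b) ↔ (_ ∧ b = (c v : ℕ))
              rw [eq_comm (a := (c v : ℕ))])
          · refine ⟨0, Filter.Eventually.of_forall fun x => ?_⟩
            have hab : a ≠ b := fun h => hst (by rw [h])
            have : IsEmpty {c : W → Fin x // (∀ q ∈ L, ev c q.1 ≠ ev c q.2) ∧
                ev c (Sum.inr a) = ev c (Sum.inr b)} := by
              constructor
              rintro ⟨c, h1, h2⟩
              exact hab h2
            rw [Nat.card_of_isEmpty]
            simp
    obtain ⟨q, hq⟩ := hq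
    refine ⟨p - q, ?_⟩
    filter_upwards [hp, hq] with x h1 h2
    rw [Polynomial.eval_sub, ← h1, ← h2]
    have key : Nat.card {c : W → Fin x // ∀ q ∈ (s, t) :: L, ev c q.1 ≠ ev c q.2}
        + Nat.card {c : W → Fin x // (∀ q ∈ L, ev c q.1 ≠ ev c q.2) ∧ ev c s = ev c t}
        = Nat.card {c : W → Fin x // ∀ q ∈ L, ev c q.1 ≠ ev c q.2} := by
      simp only [Nat.card_eq_fintype_card, Fintype.card_subtype]
      rw [← Finset.card_union_of_disjoint]
      · congr 1
        ext c
        simp only [Finset.mem_union, Finset.mem_filter, Finset.mem_univ, true_and,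
          List.mem_cons, forall_eq_or_imp]
        tauto
      · rw [Finset.disjoint_left]
        intro c h3 h4
        simp only [Finset.mem_filter, Finset.mem_univ, true_and, List.mem_cons,
          forall_eq_or_imp] at h3 h4
        exact h3.1 h4.2
    have key' : (Nat.card {c : W → Fin x // ∀ q ∈ (s, t) :: L, ev c q.1 ≠ ev c q.2} : ℝ)
        + (Nat.card {c : W → Fin x // (∀ q ∈ L, ev c q.1 ≠ ev c q.2) ∧ ev c s = ev c t} : ℝ)
        = (Nat.card {c : W → Fin x // ∀ q ∈ L, ev c q.1 ≠ ev c q.2} : ℝ) := by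
      exact_mod_cast key
    linarith

/-- the number of restrained colourings is eventually a polynomial -/
lemma rcount_poly (G : SimpleGraph V) (r : V → ℕ) :
    ∃ p : Polynomial ℝ, ∀ᶠ x : ℕ in Filter.atTop, (rcount G r x : ℝ) = p.eval (x : ℝ) := by
  classical
  set L : List ((V ⊕ ℕ) × (V ⊕ ℕ)) :=
    (((univ : Finset (V × V)).filter (fun q => G.Adj q.1 q.2)).toList.map
      (fun q => (Sum.inl q.1, Sum.inl q.2))) ++
    ((univ : Finset V).toList.map (fun v => (Sum.inl v, Sum.inr (r v)))) with hL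
  obtain ⟨p, hp⟩ := poly_aux L.length V L rfl
  refine ⟨p, ?_⟩
  filter_upwards [hp] with x hx
  rw [← hx]
  congr 1
  unfold rcount
  apply Nat.card_congr
  apply Equiv.subtypeEquivRight
  intro c
  constructor
  · rintro ⟨h1, h2⟩ q hq
    rw [hL, List.mem_append] at hq
    rcases hq with hq | hq
    · rw [List.mem_map] at hq
      obtain ⟨⟨u, v⟩, h3, rfl⟩ := hq
      simp only [Finset.mem_toList, Finset.mem_filter, Finset.mem_univ, true_and] at h3
      intro h4
      exact h1 u v h3 (Fin.ext h4)
    · rw [List.mem_map] at hq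
      obtain ⟨v, h3, rfl⟩ := hq
      exact h2 v
  · intro h
    constructor
    · intro u v huv h4
      apply h (Sum.inl u, Sum.inl v)
      · rw [hL, List.mem_append]
        left
        rw [List.mem_map]
        exact ⟨(u, v), by simp [huv], rfl⟩
      · show (c u : ℕ) = (c v : ℕ)
        rw [h4]
    · intro v
      apply h (Sum.inl v, Sum.inr (r v))
      rw [hL, List.mem_append]
      right
      rw [List.mem_map]
      exact ⟨v, by simp, rfl⟩

lemma poly_cmp (p q : Polynomial ℝ) : (∀ᶠ x : ℕ in Filter.atTop, p.eval (x : ℝ) ≤ q.eval (x : ℝ)) ∨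
    (∀ᶠ x : ℕ in Filter.atTop, q.eval (x : ℝ) ≤ p.eval (x : ℝ)) := by
  have key : ∀ d : Polynomial ℝ, 0 ≤ d.leadingCoeff →
      ∀ᶠ x : ℕ in Filter.atTop, 0 ≤ d.eval (x : ℝ) := by
    intro d hd
    by_cases h0 : d.degree ≤ 0
    · rw [Polynomial.eq_C_of_degree_le_zero h0] at hd ⊢
      rw [Polynomial.leadingCoeff_C] at hd
      exact Filter.Eventually.of_forall fun x => by simpa using hd
    · push Not at h0
      have h1 := Polynomial.tendsto_atTop_of_leadingCoeff_nonneg d h0 hd
      have h2 := h1.comp (tendsto_natCast_atTop_atTop (R := ℝ))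
      exact (h2.eventually_ge_atTop 0)
  rcases le_total 0 (q - p).leadingCoeff with h | h
  · left
    filter_upwards [key _ h] with x hx
    rw [Polynomial.eval_sub] at hx
    linarith
  · right
    have h' : 0 ≤ (p - q).leadingCoeff := by
      have : p - q = -(q - p) := by ring
      rw [this, Polynomial.leadingCoeff_neg]
      linarith
    filter_upwards [key _ h'] with x hx
    rw [Polynomial.eval_sub] at hx
    linarith

/-- a largest element for a total eventual order -/
lemma exists_largest {ι : Type} (s : Finset ι) (hs : s.Nonempty) (f : ι → ℕ → ℕ)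
    (h : ∀ i j, (∀ᶠ x in Filter.atTop, f i x ≤ f j x) ∨ (∀ᶠ x in Filter.atTop, f j x ≤ f i x)) :
    ∃ i ∈ s, ∀ j ∈ s, ∀ᶠ x in Filter.atTop, f j x ≤ f i x := by
  classical
  induction hs using Finset.Nonempty.cons_induction with
  | singleton a =>
    exact ⟨a, by simp, fun j hj => by
      rw [Finset.mem_singleton] at hj
      subst hj
      exact Filter.Eventually.of_forall fun x => le_refl _⟩
  | cons a s ha hs ih =>
    obtain ⟨i, hi, hmax⟩ := ih
    rcases h a i with h1 | h1
    · refine ⟨i, by simp [hi], fun j hj => ?_⟩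
      rw [Finset.mem_cons] at hj
      rcases hj with rfl | hj
      · exact h1
      · exact hmax j hj
    · refine ⟨a, by simp, fun j hj => ?_⟩
      rw [Finset.mem_cons] at hj
      rcases hj with rfl | hj
      · exact Filter.Eventually.of_forall fun x => le_refl _
      · filter_upwards [hmax j hj, h1] with x h2 h3
        exact h2.trans h3

lemma rcount_congr (G : SimpleGraph V) (r r' : V → ℕ) (h : ∀ u v, r u = r v ↔ r' u = r' v) :
    ∀ᶠ x in Filter.atTop, rcount G r x = rcount G r' x := by
  classical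
  filter_upwards [Filter.eventually_gt_atTop (∑ v, r v), Filter.eventually_gt_atTop (∑ v, r' v)]
    with x h1 h2
  have h1' : ∀ v, r v < x := fun v =>
    lt_of_le_of_lt (Finset.single_le_sum (f := r) (fun _ _ => Nat.zero_le _) (Finset.mem_univ v)) h1
  have h2' : ∀ v, r' v < x := fun v =>
    lt_of_le_of_lt (Finset.single_le_sum (f := r') (fun _ _ => Nat.zero_le _) (Finset.mem_univ v)) h2
  obtain ⟨σ, hσ⟩ := exists_perm (fun v => (⟨r v, h1' v⟩ : Fin x)) (fun v => (⟨r' v, h2' v⟩ : Fin x))
    (fun u v => by simp only [Fin.mk.injEq]; exact h u v)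
  unfold rcount
  apply Nat.card_congr
  refine Equiv.subtypeEquiv (Equiv.arrowCongr (Equiv.refl V) σ) (fun c => ?_)
  have e : ∀ v, (Equiv.arrowCongr (Equiv.refl V) σ) c v = σ (c v) := fun v => rfl
  simp only [e]
  constructor
  · rintro ⟨h3, h4⟩
    refine ⟨fun u v huv h5 => h3 u v huv (σ.injective h5), fun v h5 => h4 v ?_⟩
    have h6 : σ (c v) = σ ⟨r v, h1' v⟩ := by
      rw [hσ]; exact Fin.ext h5
    rw [σ.injective h6]
  · rintro ⟨h3, h4⟩
    refine ⟨fun u v huv h5 => h3 u v huv (by rw [h5]), fun v h5 => h4 v ?_⟩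
    have h6 : c v = ⟨r v, h1' v⟩ := Fin.ext h5
    rw [h6, hσ]

end

end Rst


variable {V : Type} [Fintype V] [DecidableEq V]

open Rst

/-- a maximizing restraint is a proper colouring -/
theorem maximizing_proper {G : SimpleGraph V} {r : V → ℕ} (h : IsMaximizing G r) : IsProper G r := by
  classical
  intro u w huw hrw
  -- an injective restraint
  set r' : V → ℕ := fun v => (Fintype.equivFin V v : ℕ) with hr'
  have hinj : Function.Injective r' := fun a b hab =>
    (Fintype.equivFin V).injective (Fin.ext hab)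
  have hev := h r'
  obtain ⟨N, hN⟩ := Filter.eventually_atTop.1 hev
  set C : ℝ := (2 : ℝ) ^ Fintype.card V * C0 V with hC
  obtain ⟨M, hM⟩ := exists_nat_gt C
  set x : ℕ := N + M + ∑ v, r v + ∑ v, r' v + 1 with hx
  have h1' : ∀ v, r v < x := fun v => by
    have := Finset.single_le_sum (f := r) (fun _ _ => Nat.zero_le _) (Finset.mem_univ v)
    omega
  have h2' : ∀ v, r' v < x := fun v => by
    have := Finset.single_le_sum (f := r') (fun _ _ => Nat.zero_le _) (Finset.mem_univ v)
    omega
  have hx0 : 0 < x := by omega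
  have hcount := hN x (by omega)
  have e1 := rcount_eq G r hx0 (fun v => ⟨r v, h1' v⟩) (fun v => rfl)
  have e2 := rcount_eq G r' hx0 (fun v => ⟨r' v, h2' v⟩) (fun v => rfl)
  have e3 := Pb_est' (X := Fin x) G (fun v => ⟨r v, h1' v⟩) (fun v => ⟨r' v, h2' v⟩)
    (by rw [Fintype.card_fin]; exact hx0) (by
      intro a b hab
      simp only [Fin.mk.injEq] at hab
      exact hinj hab) huw (by simp only [Fin.mk.injEq]; exact hrw)
  rw [Fintype.card_fin] at e3
  have hxR : (0 : ℝ) < (x : ℝ) := by exact_mod_cast hx0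
  have hxC : C < (x : ℝ) := by
    refine hM.trans_le ?_
    exact_mod_cast (by omega : M ≤ x)
  have hpos : 0 < ((x : ℝ)⁻¹) ^ 2 - C * ((x : ℝ)⁻¹) ^ 3 := by
    have : ((x : ℝ)⁻¹) ^ 2 - C * ((x : ℝ)⁻¹) ^ 3 = ((x : ℝ)⁻¹) ^ 3 * (x - C) := by
      field_simp
    rw [this]
    apply mul_pos (by positivity)
    linarith
  have hle : (rcount G r' x : ℝ) ≤ (rcount G r x : ℝ) := by exact_mod_cast hcount
  rw [e1, e2] at hle
  have := le_of_mul_le_mul_left hle (by positivity)
  linarith

/-- a maximizing restraint has the largest codegree weight among the proper colourings -/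
theorem maximizing_wt {G : SimpleGraph V} {r r' : V → ℕ} (h : IsMaximizing G r)
    (h' : IsProper G r') : wt G r' ≤ wt G r := by
  classical
  have hp := maximizing_proper h
  by_contra hlt
  push Not at hlt
  have hlt' : (wt G r : ℝ) + 1 ≤ (wt G r' : ℝ) := by exact_mod_cast hlt
  rw [wt_eq, wt_eq] at hlt'
  have hev := h r'
  obtain ⟨N, hN⟩ := Filter.eventually_atTop.1 hev
  set C : ℝ := (2 : ℝ) ^ Fintype.card V * C0 V with hC
  obtain ⟨M, hM⟩ := exists_nat_gt (2 * C)
  set x : ℕ := N + M + ∑ v, r v + ∑ v, r' v + 1 with hx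
  have h1' : ∀ v, r v < x := fun v => by
    have := Finset.single_le_sum (f := r) (fun _ _ => Nat.zero_le _) (Finset.mem_univ v)
    omega
  have h2' : ∀ v, r' v < x := fun v => by
    have := Finset.single_le_sum (f := r') (fun _ _ => Nat.zero_le _) (Finset.mem_univ v)
    omega
  have hx0 : 0 < x := by omega
  have hcount := hN x (by omega)
  have e1 := rcount_eq G r hx0 (fun v => ⟨r v, h1' v⟩) (fun v => rfl)
  have e2 := rcount_eq G r' hx0 (fun v => ⟨r' v, h2' v⟩) (fun v => rfl)
  have e3 := Pb_est (X := Fin x) G (fun v => ⟨r' v, h2' v⟩) (fun v => ⟨r v, h1' v⟩)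
    (by rw [Fintype.card_fin]; exact hx0) (by
      intro u v huv huv'
      simp only [Fin.mk.injEq] at huv'
      exact h' u v huv huv') (by
      intro u v huv huv'
      simp only [Fin.mk.injEq] at huv'
      exact hp u v huv huv')
  have m1 : ∀ T : Finset V, mm G T (fun v => (⟨r v, h1' v⟩ : Fin x)) = mm G T r := by
    intro T
    unfold mm
    simp only [Fin.mk.injEq]
  have m2 : ∀ T : Finset V, mm G T (fun v => (⟨r' v, h2' v⟩ : Fin x)) = mm G T r' := by
    intro T
    unfold mm
    simp only [Fin.mk.injEq]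
  simp only [m1, m2] at e3
  rw [Fintype.card_fin] at e3
  have hxR : (0 : ℝ) < (x : ℝ) := by exact_mod_cast hx0
  have hxC : 2 * C < (x : ℝ) := by
    refine hM.trans_le ?_
    exact_mod_cast (by omega : M ≤ x)
  have hle : (rcount G r' x : ℝ) ≤ (rcount G r x : ℝ) := by exact_mod_cast hcount
  rw [e1, e2] at hle
  have hle2 := le_of_mul_le_mul_left hle (by positivity)
  rw [abs_le] at e3
  have hy3 : 0 < ((x : ℝ)⁻¹) ^ 3 := by positivity
  have hhalf : (1 / 2 : ℝ) * ((x : ℝ)⁻¹) ^ 3 ≤
      (∑ T : Finset V, mm G T r' - ∑ T : Finset V, mm G T r) * ((x : ℝ)⁻¹) ^ 3 := by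
    apply mul_le_mul_of_nonneg_right _ hy3.le
    linarith
  have hpos : 0 < (1 / 2 : ℝ) * ((x : ℝ)⁻¹) ^ 3 - C * ((x : ℝ)⁻¹) ^ 4 := by
    have : (1 / 2 : ℝ) * ((x : ℝ)⁻¹) ^ 3 - C * ((x : ℝ)⁻¹) ^ 4
        = ((x : ℝ)⁻¹) ^ 4 * (x / 2 - C) := by
      field_simp
    rw [this]
    apply mul_pos (by positivity)
    linarith
  linarith [e3.1, e3.2]

/-- maximizing restraints exist -/
theorem exists_maximizing (G : SimpleGraph V) : ∃ r, IsMaximizing G r := by
  classical
  have hcmp : ∀ r r' : V → ℕ, (∀ᶠ x in Filter.atTop, rcount G r x ≤ rcount G r' x) ∨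
      (∀ᶠ x in Filter.atTop, rcount G r' x ≤ rcount G r x) := by
    intro r r'
    obtain ⟨p, hp⟩ := rcount_poly G r
    obtain ⟨q, hq⟩ := rcount_poly G r'
    rcases poly_cmp p q with h | h
    · left
      filter_upwards [hp, hq, h] with x h1 h2 h3
      rw [← h1, ← h2] at h3
      exact_mod_cast h3
    · right
      filter_upwards [hp, hq, h] with x h1 h2 h3
      rw [← h1, ← h2] at h3
      exact_mod_cast h3
  set n := Fintype.card V with hn
  have hne : (univ : Finset (V → Fin n)).Nonempty :=
    ⟨fun v => Fintype.equivFin V v, Finset.mem_univ _⟩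
  obtain ⟨i, _, hi⟩ := exists_largest (univ : Finset (V → Fin n)) hne
    (fun i x => rcount G (fun v => (i v : ℕ)) x) (fun i j => hcmp _ _)
  refine ⟨fun v => (i v : ℕ), fun r => ?_⟩
  -- rename the colours of r
  have hcard : Fintype.card (Set.range r) ≤ n := by
    rw [hn]
    exact Fintype.card_le_of_surjective (fun v => (⟨r v, ⟨v, rfl⟩⟩ : Set.range r))
      (by rintro ⟨_, v, rfl⟩; exact ⟨v, rfl⟩)
  set j : V → Fin n := fun v =>
    Fin.castLE hcard (Fintype.equivFin (Set.range r) ⟨r v, ⟨v, rfl⟩⟩) with hj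
  have hpat : ∀ u v, r u = r v ↔ (j u : ℕ) = (j v : ℕ) := by
    intro u v
    rw [hj]
    simp only [Fin.val_castLE]
    constructor
    · intro h
      simp only [h]
    · intro h
      have h1 := (Fintype.equivFin (Set.range r)).injective (Fin.ext h)
      simpa using h1
  filter_upwards [rcount_congr G r (fun v => (j v : ℕ)) hpat, hi j (Finset.mem_univ _)]
    with x h1 h2
  rw [h1]
  exact h2

end Pool.RG
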