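import Pool.Agent.Work.RG.OPart

/-!
# MP_004c3d_co : small overlaps (row sums) and equal classes
-/

namespace Pool.RG

open Finset

lemma sum_le_of_inj {α β : Type*} [DecidableEq β] (s : Finset α) (t : Finset β) (e : α → β)
    (f : α → ℝ) (F : β → ℝ) (hmem : ∀ x ∈ s, e x ∈ t)
    (hinj : ∀ x ∈ s, ∀ y ∈ s, e x = e y → x = y) (hle : ∀ x ∈ s, f x ≤ F (e x))
    (hF : ∀ y ∈ t, 0 ≤ F y) : ∑ x ∈ s, f x ≤ ∑ y ∈ t, F y := by
  calc ∑ x ∈ s, f x ≤ ∑ x ∈ s, F (e x) := sum_le_sum hle
    _ = ∑ y ∈ s.image e, F y := (sum_image hinj).symm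
    _ ≤ ∑ y ∈ t, F y := by
        apply sum_le_sum_of_subset_of_nonneg
        · intro y hy
          obtain ⟨x, hx, rfl⟩ := mem_image.1 hy
          exact hmem x hx
        · intro y hy _
          exact hF y hy

section Rowsec

variable {V ι : Type} [Fintype V] [DecidableEq V] [Fintype ι] [DecidableEq ι]

/-- `2^{C(x,2)}` below the threshold `τ`, `0` above -/
noncomputable def uu (τ x : ℕ) : ℝ := if x < τ then (2 : ℝ) ^ (x.choose 2) else 0

lemma uu_nonneg (τ x : ℕ) : 0 ≤ uu τ x := by
  unfold uu; split_ifs <;> positivity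

lemma uu_le (τ x : ℕ) : uu τ x ≤ (2 : ℝ) ^ (x.choose 2) := by
  unfold uu; split_ifs
  · exact le_rfl
  · positivity

/-- row sum -/
noncomputable def rowsum (τ : ℕ) (A : ι → Finset V) (s : Finset ι) (R : Finset V) (b : ℕ) : ℝ :=
  ∑ B ∈ R.powersetCard b, ∏ i ∈ s, uu τ (B ∩ A i).card

lemma uu_le_sum (τ x : ℕ) :
    uu τ x ≤ 1 + ∑ y ∈ Ico 2 τ, if x = y then (2 : ℝ) ^ (y.choose 2) else 0 := by
  have hnn : 0 ≤ ∑ y ∈ Ico 2 τ, (if x = y then (2 : ℝ) ^ (y.choose 2) else 0) := by
    apply sum_nonneg
    intro y _
    split_ifs <;> positivity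
  unfold uu
  split_ifs with h
  · by_cases h2 : x < 2
    · have : x.choose 2 = 0 := Nat.choose_eq_zero_of_lt h2
      rw [this, pow_zero]
      linarith
    · have hx : x ∈ Ico 2 τ := mem_Ico.2 ⟨by omega, h⟩
      have := single_le_sum (f := fun y => if x = y then (2 : ℝ) ^ (y.choose 2) else 0)
        (fun y _ => by split_ifs <;> positivity) hx
      simp only [if_true] at this
      linarith
  · linarith

lemma row_split (τ : ℕ) (A : ι → Finset V) (hA : ∀ i j, i ≠ j → Disjoint (A i) (A j))
    (s : Finset ι) (k : ι) (hk : k ∉ s) (R : Finset V) (b x : ℕ) (hx : x ≤ b) :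
    ∑ B ∈ R.powersetCard b, (if (B ∩ A k).card = x then ∏ i ∈ s, uu τ (B ∩ A i).card else 0)
      ≤ ((A k).card.choose x : ℝ) * rowsum τ A s R (b - x) := by
  rw [← sum_filter]
  unfold rowsum
  have h1 : ((A k).card.choose x : ℝ) * ∑ B ∈ R.powersetCard (b - x), ∏ i ∈ s, uu τ (B ∩ A i).card
      = ∑ p ∈ (A k).powersetCard x ×ˢ R.powersetCard (b - x), ∏ i ∈ s, uu τ (p.2 ∩ A i).card := by
    rw [sum_product]
    simp only [sum_const, card_powersetCard, nsmul_eq_mul]
  rw [h1]
  have h2 : ∀ B ∈ (R.powersetCard b).filter (fun B => (B ∩ A k).card = x),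
      ∏ i ∈ s, uu τ (B ∩ A i).card = ∏ i ∈ s, uu τ ((B \ A k) ∩ A i).card := by
    intro B _
    apply prod_congr rfl
    intro i hi
    congr 2
    ext v
    simp only [mem_inter, mem_sdiff]
    constructor
    · rintro ⟨hB, hv⟩
      refine ⟨⟨hB, fun hvk => ?_⟩, hv⟩
      have hne : i ≠ k := fun h => hk (h ▸ hi)
      exact Finset.disjoint_left.1 (hA i k hne) hv hvk
    · rintro ⟨⟨hB, -⟩, hv⟩
      exact ⟨hB, hv⟩
  rw [sum_congr rfl h2]
  apply sum_le_of_inj _ _ (fun B => (B ∩ A k, B \ A k))
  · intro B hB
    rw [mem_filter, mem_powersetCard] at hB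
    rw [mem_product, mem_powersetCard, mem_powersetCard]
    refine ⟨⟨inter_subset_right, hB.2⟩, sdiff_subset.trans hB.1.1, ?_⟩
    have := card_sdiff_add_card_inter B (A k)
    show (B \ A k).card = b - x
    omega
  · intro B _ B' _ h
    simp only [Prod.mk.injEq] at h
    have e1 : ∀ C : Finset V, (C ∩ A k) ∪ (C \ A k) = C := by
      intro C
      ext v
      simp only [mem_union, mem_inter, mem_sdiff]
      tauto
    rw [← e1 B, ← e1 B', h.1, h.2]
  · intro B _
    exact le_rfl
  · intro p _
    exact prod_nonneg fun _ _ => uu_nonneg _ _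

/-- the row claim -/
theorem row_le (τ : ℕ) (A : ι → Finset V) (hA : ∀ i j, i ≠ j → Disjoint (A i) (A j))
    (a b : ℕ) (ha : ∀ i, (A i).card ≤ a) (R : Finset V) (η : ℝ) (hη : 0 ≤ η)
    (hrow : ∀ b' ≤ b, ∑ x ∈ Ico 2 τ, (if x ≤ b' then
      (2 : ℝ) ^ (x.choose 2) * (a.choose x : ℝ) * (R.card.choose (b' - x) : ℝ) else 0)
        ≤ η * (R.card.choose b' : ℝ))
    (s : Finset ι) : ∀ b' ≤ b, rowsum τ A s R b' ≤ (R.card.choose b' : ℝ) * (1 + η) ^ s.card := by
  induction s using Finset.induction_on with
  | empty =>
    intro b' _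
    unfold rowsum
    simp
  | insert k s hk ih =>
    intro b' hb'
    have h0 : 0 ≤ (1 + η) ^ s.card := by positivity
    calc rowsum τ A (insert k s) R b'
        = ∑ B ∈ R.powersetCard b', uu τ (B ∩ A k).card * ∏ i ∈ s, uu τ (B ∩ A i).card := by
          unfold rowsum
          apply sum_congr rfl
          intro B _
          rw [prod_insert hk]
      _ ≤ ∑ B ∈ R.powersetCard b', (1 + ∑ y ∈ Ico 2 τ, if (B ∩ A k).card = y then
            (2 : ℝ) ^ (y.choose 2) else 0) * ∏ i ∈ s, uu τ (B ∩ A i).card := by
          apply sum_le_sum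
          intro B _
          exact mul_le_mul_of_nonneg_right (uu_le_sum _ _) (prod_nonneg fun _ _ => uu_nonneg _ _)
      _ = rowsum τ A s R b' + ∑ y ∈ Ico 2 τ, (2 : ℝ) ^ (y.choose 2) *
            ∑ B ∈ R.powersetCard b',
              (if (B ∩ A k).card = y then ∏ i ∈ s, uu τ (B ∩ A i).card else 0) := by
          unfold rowsum
          simp_rw [add_mul, one_mul, sum_add_distrib]
          congr 1
          simp_rw [sum_mul, mul_sum]
          rw [sum_comm]
          apply sum_congr rfl
          intro y _
          apply sum_congr rfl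
          intro B _
          split_ifs <;> simp
      _ ≤ (R.card.choose b' : ℝ) * (1 + η) ^ s.card + ∑ y ∈ Ico 2 τ, (if y ≤ b' then
            (2 : ℝ) ^ (y.choose 2) * (a.choose y : ℝ) * (R.card.choose (b' - y) : ℝ) else 0)
              * (1 + η) ^ s.card := by
          apply add_le_add (ih b' hb')
          apply sum_le_sum
          intro y _
          split_ifs with hy
          · have h1 := row_split τ A hA s k hk R b' y hy
            have h2 := ih (b' - y) (by omega)
            have h3 : ((A k).card.choose y : ℝ) ≤ (a.choose y : ℝ) := by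
              exact_mod_cast Nat.choose_le_choose y (ha k)
            have h4 : 0 ≤ rowsum τ A s R (b' - y) :=
              sum_nonneg fun _ _ => prod_nonneg fun _ _ => uu_nonneg _ _
            calc (2 : ℝ) ^ (y.choose 2) * ∑ B ∈ R.powersetCard b',
                  (if (B ∩ A k).card = y then ∏ i ∈ s, uu τ (B ∩ A i).card else 0)
                ≤ (2 : ℝ) ^ (y.choose 2) * (((A k).card.choose y : ℝ) * rowsum τ A s R (b' - y)) := by
                  gcongr
              _ ≤ (2 : ℝ) ^ (y.choose 2) * ((a.choose y : ℝ) *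
                    ((R.card.choose (b' - y) : ℝ) * (1 + η) ^ s.card)) := by
                  gcongr
              _ = _ := by ring
          · have h5 : ∀ B ∈ R.powersetCard b',
                (if (B ∩ A k).card = y then ∏ i ∈ s, uu τ (B ∩ A i).card else 0) = 0 := by
              intro B hB
              rw [mem_powersetCard] at hB
              rw [if_neg]
              have := card_le_card (inter_subset_left (s₁ := B) (s₂ := A k))
              omega
            rw [sum_congr rfl h5]
            simp
      _ ≤ (R.card.choose b' : ℝ) * (1 + η) ^ s.card +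
            (η * (R.card.choose b' : ℝ)) * (1 + η) ^ s.card := by
          rw [← sum_mul]
          gcongr
          exact hrow b' hb'
      _ = (R.card.choose b' : ℝ) * (1 + η) ^ (insert k s).card := by
          rw [card_insert_of_notMem hk, pow_succ]; ring

/-! ### equal classes -/

/-- number of classes of type `j` inside `R` -/
def avl {J : Type} [DecidableEq J] (A : ι → Finset V) (ty : ι → J) (j : J) (R : Finset V) : ℕ :=
  (univ.filter (fun k => ty k = j ∧ A k ⊆ R)).card

lemma avl_mono {J : Type} [DecidableEq J] (A : ι → Finset V) (ty : ι → J) (j : J)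
    {R R' : Finset V} (h : R ⊆ R') : avl A ty j R ≤ avl A ty j R' := by
  unfold avl
  apply card_le_card
  intro k
  simp only [mem_filter, mem_univ, true_and]
  exact fun hk => ⟨hk.1, hk.2.trans h⟩

lemma avl_sdiff {J : Type} [DecidableEq J] (A : ι → Finset V) (ty : ι → J)
    {R : Finset V} (k : ι) (hk : A k ⊆ R) (hne : (A k).Nonempty) :
    avl A ty (ty k) (R \ A k) + 1 ≤ avl A ty (ty k) R := by
  unfold avl
  rw [← card_insert_of_notMem (a := k)]
  · apply card_le_card
    intro i
    simp only [mem_insert, mem_filter, mem_univ, true_and]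
    rintro (h | h)
    · subst h; exact ⟨rfl, hk⟩
    · exact ⟨h.1, h.2.trans sdiff_subset⟩
  · simp only [mem_filter, mem_univ, true_and]
    intro h
    obtain ⟨v, hv⟩ := hne
    have := h hv
    rw [mem_sdiff] at this
    exact this.2 hv

theorem Z_le_equal {J : Type} [Fintype J] [DecidableEq J] (b : ι → ℕ)
    (w : ι → Finset V → ℝ) (A : ι → Finset V) (ty : ι → J)
    (hne : ∀ k, (A k).Nonempty) (hty : ∀ i k, (A k).card = b i → ty k = ty i)
    (W : ι → ℝ) (hW : ∀ i, 0 ≤ W i) (I' : Finset ι) (X : ℝ) (hX0 : 0 ≤ X)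
    (hX : ∀ R : Finset V, Z b w I' R ≤ X) (S : Finset ι) (hdis : Disjoint S I')
    (hw : ∀ i ∈ S, ∀ B, w i B ≤ if ∃ k, A k = B then W i else 0)
    (hw0 : ∀ i B, 0 ≤ w i B) (R : Finset V) :
    Z b w (S ∪ I') R ≤
      (∏ j, ((avl A ty j R).descFactorial ((S.filter (fun i => ty i = j)).card) : ℝ)) *
        (∏ i ∈ S, W i) * X := by
  classical
  induction S using Finset.induction_on generalizing R with
  | empty =>
    simp only [empty_union, filter_empty, card_empty, Nat.descFactorial_zero, Nat.cast_one,
      prod_const_one, prod_empty, one_mul]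
    exact hX R
  | insert i S hi ih =>
    have hi' : i ∉ S ∪ I' := by
      rw [mem_union, not_or]
      exact ⟨hi, Finset.disjoint_left.1 hdis (mem_insert_self i S)⟩
    have hdis' : Disjoint S I' := disjoint_of_subset_left (subset_insert i S) hdis
    have ih' := ih hdis' (fun k hk => hw k (mem_insert_of_mem hk))
    rw [insert_union, Z_insert b w hi']
    have hPS : 0 ≤ ∏ k ∈ S, W k := prod_nonneg fun k _ => hW k
    -- the bound for one term
    set T : J → ℕ := fun j => (S.filter (fun i => ty i = j)).card with hT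
    set C : ℝ := (∏ j ∈ univ.erase (ty i), ((avl A ty j R).descFactorial (T j) : ℝ)) *
      (((avl A ty (ty i) R - 1).descFactorial (T (ty i))) : ℝ) with hC
    have hC0 : 0 ≤ C := by rw [hC]; positivity
    have hterm : ∀ B ∈ R.powersetCard (b i), w i B * Z b w (S ∪ I') (R \ B) ≤
        if ∃ k, A k = B then W i * (C * (∏ k ∈ S, W k) * X) else 0 := by
      intro B hB
      rw [mem_powersetCard] at hB
      have h1 := hw i (mem_insert_self i S) B
      by_cases hk : ∃ k, A k = B
      · rw [if_pos hk] at h1 ⊢
        obtain ⟨k, rfl⟩ := hk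
        have hki : ty k = ty i := hty i k hB.2
        have h2 := ih' (R \ A k)
        have hZ0 : 0 ≤ Z b w (S ∪ I') (R \ A k) := Z_nonneg hw0 _ _
        have h3 : (∏ j, ((avl A ty j (R \ A k)).descFactorial (T j) : ℝ)) ≤ C := by
          rw [hC, ← mul_prod_erase univ _ (mem_univ (ty i)), mul_comm]
          apply mul_le_mul
          · apply prod_le_prod
            · intros; positivity
            · intro j _
              exact_mod_cast Nat.descFactorial_le _ (avl_mono A ty j sdiff_subset)
          · have := avl_sdiff A ty k hB.1 (hne k)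
            rw [hki] at this
            exact_mod_cast Nat.descFactorial_le _ (by omega)
          · positivity
          · exact prod_nonneg fun _ _ => by positivity
        calc w i (A k) * Z b w (S ∪ I') (R \ A k)
            ≤ W i * Z b w (S ∪ I') (R \ A k) := mul_le_mul_of_nonneg_right h1 hZ0
          _ ≤ W i * ((∏ j, ((avl A ty j (R \ A k)).descFactorial (T j) : ℝ)) *
                (∏ k ∈ S, W k) * X) := mul_le_mul_of_nonneg_left h2 (hW i)
          _ ≤ W i * (C * (∏ k ∈ S, W k) * X) := by
              apply mul_le_mul_of_nonneg_left _ (hW i)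
              apply mul_le_mul_of_nonneg_right _ hX0
              exact mul_le_mul_of_nonneg_right h3 hPS
      · rw [if_neg hk] at h1 ⊢
        have : w i B = 0 := le_antisymm h1 (hw0 i B)
        rw [this, zero_mul]
    refine (sum_le_sum hterm).trans ?_
    rw [← sum_filter, sum_const, nsmul_eq_mul]
    have hcard : ((R.powersetCard (b i)).filter (fun B => ∃ k, A k = B)).card ≤
        avl A ty (ty i) R := by
      unfold avl
      refine le_trans (card_le_card ?_) (card_image_le (f := A))
      intro B hB
      rw [mem_filter, mem_powersetCard] at hB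
      obtain ⟨⟨hBR, hBc⟩, k, rfl⟩ := hB
      rw [mem_image]
      exact ⟨k, by simp [hty i k hBc, hBR], rfl⟩
    have hY0 : 0 ≤ W i * (C * (∏ k ∈ S, W k) * X) := by
      apply mul_nonneg (hW i)
      apply mul_nonneg (mul_nonneg hC0 hPS) hX0
    refine (mul_le_mul_of_nonneg_right (Nat.cast_le.2 hcard) hY0).trans ?_
    rw [prod_insert hi]
    -- the descending factorial at `ty i`
    have hT' : ∀ j, (((insert i S).filter (fun i => ty i = j)).card) =
        if j = ty i then T j + 1 else T j := by
      intro j
      rw [filter_insert]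
      by_cases h : ty i = j
      · rw [if_pos h, if_pos h.symm, card_insert_of_notMem]
        intro h'
        exact hi (mem_filter.1 h').1
      · rw [if_neg h, if_neg (Ne.symm h)]
    have hprod : (∏ j, ((avl A ty j R).descFactorial
        (((insert i S).filter (fun i => ty i = j)).card) : ℝ)) =
        (avl A ty (ty i) R : ℝ) * C := by
      rw [← mul_prod_erase univ _ (mem_univ (ty i)), hC]
      have h5 : ∏ j ∈ univ.erase (ty i), ((avl A ty j R).descFactorial
          (((insert i S).filter (fun i => ty i = j)).card) : ℝ)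
          = ∏ j ∈ univ.erase (ty i), ((avl A ty j R).descFactorial (T j) : ℝ) := by
        apply prod_congr rfl
        intro j hj
        rw [mem_erase] at hj
        rw [hT' j, if_neg hj.1]
      rw [h5, hT' (ty i), if_pos rfl]
      have h6 : (avl A ty (ty i) R).descFactorial (T (ty i) + 1) =
          (avl A ty (ty i) R) * (avl A ty (ty i) R - 1).descFactorial (T (ty i)) := by
        rcases Nat.eq_zero_or_pos (avl A ty (ty i) R) with h | h
        · rw [h]; simp
        · obtain ⟨m, hm⟩ := Nat.exists_eq_succ_of_ne_zero h.ne'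
          rw [hm, Nat.succ_eq_add_one, Nat.succ_descFactorial_succ]
          simp
      rw [h6]
      push_cast
      ring
    rw [hprod]
    apply le_of_eq
    ring

end Rowsec

end Pool.RG
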