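import Pool.Agent.Work.RG.Types
import Pool.Agent.Work.RG.Good

/-!
# MP_004c3d_co : the second moment theorem
-/

namespace Pool.RG

open Finset Real

theorem second_moment : ∃ M₀ : ℕ, ∀ M : ℕ, M₀ ≤ M → ∀ (κ : Fin 6 → ℕ) (K : ℕ), K = ∑ j, κ j →
    |Real.log K - Real.log 2 / 2 * (M + 5 / 2)| ≤ 1 → PP M κ (K / M ^ 8) →
    Real.exp (-((K : ℝ) / M ^ 7)) ≤ pr (nv M κ) (fun G => ∃ r : Fin (nv M κ) → ℕ,
      IsProper G r ∧ (univ.image r).card = K ∧ (∀ c, csize r c ≤ M + 5) ∧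
      mono r = 2 * ∑ j : Fin 6, κ j * (M + (j : ℕ)).choose 2) := by
  obtain ⟨M₀, hM₀⟩ := Sz_of
  refine ⟨M₀, fun M hM κ K hK hlog hPP => ?_⟩
  have h := hM₀ M hM K hlog
  have hM1 : 100 ≤ M := h.hM
  obtain ⟨ty, hty⟩ := exists_ty κ K hK
  set b : Fin K → ℕ := fun i => M + (ty i : ℕ) with hb
  set r := M / 32 with hr
  set μ := K / M ^ 10 with hμ
  set τ := M + 5 - r with hτ
  have hbb : ∀ i, M ≤ b i ∧ b i ≤ M + 5 := fun i => by
    have := (ty i).2
    simp only [hb]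
    omega
  have hr32 : 32 * r ≤ M := Nat.mul_div_le M 32
  have hsum : ∑ i, b i = nv M κ := by
    have := sum_ty κ ty hty (fun j => M + (j : ℕ))
    simpa [nv] using this
  have hη : (0 : ℝ) ≤ ((M : ℝ) + 5) ^ 30 / K ^ 2 := by positivity
  have hΔ := hPP
  have hnum := num_Q h
  set Q : ℝ := ((K : ℝ) + 1) ^ (2 * μ) * ((K : ℝ) + 1) ^ 6 *
      (((2 : ℝ) ^ ((M + 5).choose 2)) ^ (2 * μ) *
        ((1 + ((M : ℝ) + 5) ^ 30 / K ^ 2) ^ K) ^ K * ((2 : ℝ) ^ ((M + 5).choose 2)) ^ μ *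
        Real.exp (K / M ^ 8)) with hQ
  have hQ0 : 0 < Q := by rw [hQ]; positivity
  have hne : (OP (V := Fin (nv M κ)) b univ univ).Nonempty := by
    have h1 := card_OP b univ (univ : Finset (Fin (nv M κ))) (by
      rw [hsum, card_univ, Fintype.card_fin])
    rw [← Finset.card_pos]
    by_contra h2
    push Not at h2
    have h3 : (OP (V := Fin (nv M κ)) b univ univ).card = 0 := by omega
    rw [h3] at h1
    have h4 : (0 : ℝ) < ((univ : Finset (Fin (nv M κ))).card.factorial : ℝ) := by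
      exact_mod_cast Nat.factorial_pos _
    simp only [Nat.cast_zero, zero_mul] at h1
    linarith
  have hvio := num_vio (n := nv M κ) h (nv_le M κ K hK)
  have hmain := exists_of_overlap (n := nv M κ) (b := b) (M := M) (r := r) (μ := μ) (τ := τ)
    hbb (by omega) (by rw [Fintype.card_fin]; exact hvio) (by omega) (Q := Q) hQ0 hne
    (fun g hg => overlap_bound M (by omega) κ ty hty rfl τ μ (2 * μ)
      (((M : ℝ) + 5) ^ 30 / K ^ 2) (K / M ^ 8) hη
      (fun r' hr' b' hb' => num_row h r' hr' b' hb') hPP hg)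
  have h1 : Real.exp (-((K : ℝ) / M ^ 7)) ≤ 1 / (4 * Q) := by
    rw [Real.exp_neg, ← one_div]
    exact one_div_le_one_div_of_le (by positivity) hnum
  refine h1.trans (hmain.trans (pr_mono ?_))
  rintro G ⟨g, hg, hG⟩
  obtain ⟨r', h2, h3, h4, h5⟩ := coloring_of_OP (B := M + 5) hg (fun i => ⟨by
    have := (hbb i).1; omega, (hbb i).2⟩) hG
  rw [Fintype.card_fin] at h3
  refine ⟨r', h2, h3, h4, ?_⟩
  rw [h5]
  congr 1
  exact sum_ty κ ty hty (fun j => (M + (j : ℕ)).choose 2)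

end Pool.RG
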