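import Pool.Agent.Work.RG.SMnum

/-!
# MP_004c3d_co : type assignment
-/

namespace Pool.RG

open Finset

lemma exists_ty (κ : Fin 6 → ℕ) (K : ℕ) (hK : K = ∑ j, κ j) :
    ∃ ty : Fin K → Fin 6, ∀ j, κ j = (univ.filter (fun i => ty i = j)).card := by
  have h1 : Fintype.card (Σ j : Fin 6, Fin (κ j)) = Fintype.card (Fin K) := by
    rw [Fintype.card_sigma, Fintype.card_fin, hK]
    simp
  let e := Fintype.equivOfCardEq h1
  refine ⟨fun i => (e.symm i).1, fun j => ?_⟩
  have h2 : (univ.filter (fun i => (e.symm i).1 = j)).card =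
      (univ.filter (fun p : Σ j : Fin 6, Fin (κ j) => p.1 = j)).card := by
    rw [← card_map e.toEmbedding (s := univ.filter (fun p : Σ j : Fin 6, Fin (κ j) => p.1 = j))]
    congr 1
    ext i
    simp only [mem_filter, mem_univ, true_and, mem_map, Equiv.coe_toEmbedding]
    constructor
    · intro h
      exact ⟨e.symm i, h, by simp⟩
    · rintro ⟨p, hp, rfl⟩
      simpa using hp
  rw [h2]
  have h3 : (univ.filter (fun p : Σ j : Fin 6, Fin (κ j) => p.1 = j)) =
      (univ : Finset (Fin (κ j))).map ⟨fun x => ⟨j, x⟩, fun x y h => by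
        simpa using h⟩ := by
    ext ⟨j', x⟩
    simp only [mem_filter, mem_univ, true_and, mem_map, Function.Embedding.coeFn_mk]
    constructor
    · rintro rfl
      exact ⟨x, rfl⟩
    · rintro ⟨y, hy⟩
      rw [Sigma.mk.injEq] at hy
      exact hy.1.symm
  rw [h3, card_map, card_univ, Fintype.card_fin]

lemma sum_ty {K : ℕ} (κ : Fin 6 → ℕ) (ty : Fin K → Fin 6)
    (hκ : ∀ j, κ j = (univ.filter (fun i => ty i = j)).card) (f : Fin 6 → ℕ) :
    ∑ i, f (ty i) = ∑ j, κ j * f j := by
  rw [← sum_fiberwise_of_maps_to (s := univ) (t := univ) (g := ty) (fun i _ => mem_univ _)]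
  apply sum_congr rfl
  intro j _
  rw [sum_congr rfl (g := fun _ => f j)]
  · rw [sum_const, smul_eq_mul, hκ j]
  · intro i hi
    rw [(mem_filter.1 hi).2]

lemma nv_le (M : ℕ) (κ : Fin 6 → ℕ) (K : ℕ) (hK : K = ∑ j, κ j) : nv M κ ≤ K * (M + 5) := by
  unfold nv
  rw [hK, sum_mul]
  apply sum_le_sum
  intro j _
  apply Nat.mul_le_mul_left
  have := j.2
  omega

end Pool.RG
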